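import Pool.Agent.W988.LD.Trace2

/-! The trace method with an explicit degree. -/

set_option autoImplicit false
set_option linter.unusedSectionVars false

namespace Pool.Agent.W988.LD

open Finset Filter

/-- **Refutation of a given degree below the square root.** -/
theorem upper_trace2 {n k D : ℕ} (hD : 4 ≤ D) (hDn : 8 * D ≤ n) (hk : 0 < k)
    (h : (k : ℝ) * ((D + 2) * (n : ℝ) ^ (4 / (D : ℝ))) ≤ Real.sqrt n) :
    ∃ p : MvPolynomial (Sym2 (Fin n)) ℝ, p.totalDegree ≤ D ∧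
      (∀ G : SimpleGraph (Fin n), G.Colorable k → 1 ≤ MvPolynomial.eval (ind G) p) ∧
      avg (fun G : SimpleGraph (Fin n) => MvPolynomial.eval (ind G) p) = 0 ∧
      avg (fun G : SimpleGraph (Fin n) => MvPolynomial.eval (ind G) p ^ 2) ≤ 1 / n := by
  set j : ℕ := Nat.log 2 (D / 2) with hj
  set m : ℕ := 2 ^ j with hm
  have hm1 : 1 ≤ m := Nat.one_le_two_pow
  have hmD : 2 * m ≤ D := by
    have := Nat.pow_log_le_self 2 (show D / 2 ≠ 0 by omega)
    rw [← hj, ← hm] at this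
    omega
  have hDm : D ≤ 4 * m := by
    have h1 := Nat.lt_pow_succ_log_self (show 1 < 2 by norm_num) (D / 2)
    rw [← hj, Nat.succ_eq_add_one, pow_succ, ← hm] at h1
    omega
  have hn32 : 32 ≤ n := by omega
  have hn32R : (32 : ℝ) ≤ n := by exact_mod_cast hn32
  have hnpos : (0 : ℝ) < n := by linarith
  have hn1 : (1 : ℝ) ≤ n := by linarith
  have hkpos : (0 : ℝ) < k := by exact_mod_cast hk
  have hDR : (4 : ℝ) ≤ D := by exact_mod_cast hD
  have hDpos : (0 : ℝ) < D := by linarith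
  have hmR : (1 : ℝ) ≤ m := by exact_mod_cast hm1
  have hDmR : (D : ℝ) ≤ 4 * m := by exact_mod_cast hDm
  have hmDR : 2 * (m : ℝ) ≤ D := by exact_mod_cast hmD
  set w : ℝ := (n : ℝ) ^ (4 / (D : ℝ)) with hw
  have hw1 : 1 ≤ w := Real.one_le_rpow hn1 (by positivity)
  have hwpow : (n : ℝ) ^ 4 ≤ w ^ (4 * m) := by
    rw [hw, ← Real.rpow_natCast, ← Real.rpow_natCast, ← Real.rpow_mul hnpos.le]
    apply Real.rpow_le_rpow_of_exponent_le hn1
    push_cast
    rw [div_mul_eq_mul_div, le_div_iff₀ hDpos]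
    linarith
  have hsn : 2 ≤ Real.sqrt n := by
    rw [show (2 : ℝ) = Real.sqrt (2 ^ 2) from (Real.sqrt_sq (by norm_num)).symm]
    exact Real.sqrt_le_sqrt (by linarith)
  have hsqn : Real.sqrt n * Real.sqrt n = n := Real.mul_self_sqrt hnpos.le
  set s : ℕ := n / k with hs
  have hks : k * s ≤ n := Nat.mul_div_le n k
  have hs1 : Real.sqrt n * ((D + 2) * w) < s + 1 := by
    have h4 : (n : ℝ) < k * (s + 1) := by
      have := Nat.lt_mul_div_succ n hk
      exact_mod_cast this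
    have h5 : (k : ℝ) * (Real.sqrt n * ((D + 2) * w)) ≤ n := by
      calc (k : ℝ) * (Real.sqrt n * ((D + 2) * w)) =
            Real.sqrt n * (k * ((D + 2) * w)) := by ring
        _ ≤ Real.sqrt n * Real.sqrt n := mul_le_mul_of_nonneg_left h (by positivity)
        _ = n := hsqn
    exact lt_of_mul_lt_mul_left (lt_of_le_of_lt h5 h4) hkpos.le
  have hs2 : Real.sqrt n * ((2 * m + 1) * w) ≤ (s : ℝ) - 1 := by
    have h4 : 2 ≤ Real.sqrt n * w := by
      calc (2 : ℝ) = 2 * 1 := by ring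
        _ ≤ Real.sqrt n * w := mul_le_mul hsn hw1 (by norm_num) (by positivity)
    have h5 : Real.sqrt n * ((2 * m + 1) * w) ≤ Real.sqrt n * ((D + 1) * w) := by
      refine mul_le_mul_of_nonneg_left ?_ (by positivity)
      exact mul_le_mul_of_nonneg_right (by linarith) (by positivity)
    have h6 : Real.sqrt n * ((D + 2) * w) = Real.sqrt n * ((D + 1) * w) + Real.sqrt n * w := by
      ring
    linarith
  have hs1pos : 0 < (s : ℝ) - 1 := lt_of_lt_of_le (by positivity) hs2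
  have hs0 : 0 < s := by
    have : (0 : ℝ) < s := by linarith
    exact_mod_cast this
  set b : ℝ := ((s : ℝ) - 1) ^ (2 * m) with hb
  have hbpos : 0 < b := by rw [hb]; positivity
  set β : ℝ := (b⁻¹) ^ 2 * ((n : ℝ) ^ (2 * m + 2) * ((2 * m + 1 : ℕ) : ℝ) ^ (4 * m + 1)) with hβ
  have hb2 : (n : ℝ) ^ (2 * m + 4) * ((2 * m + 1 : ℕ) : ℝ) ^ (4 * m) ≤ b ^ 2 := by
    calc (n : ℝ) ^ (2 * m + 4) * ((2 * m + 1 : ℕ) : ℝ) ^ (4 * m) =
          ((Real.sqrt n * Real.sqrt n) ^ (2 * m) * (2 * m + 1) ^ (4 * m)) * (n : ℝ) ^ 4 := by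
          rw [hsqn]
          push_cast
          ring
      _ ≤ ((Real.sqrt n * Real.sqrt n) ^ (2 * m) * (2 * m + 1) ^ (4 * m)) * w ^ (4 * m) :=
          mul_le_mul_of_nonneg_left hwpow (by positivity)
      _ = (Real.sqrt n * ((2 * m + 1) * w)) ^ (4 * m) := by
          rw [mul_pow (Real.sqrt n) ((2 * (m : ℝ) + 1) * w), mul_pow (2 * (m : ℝ) + 1) w,
            ← sq, ← pow_mul]
          have : 2 * (2 * m) = 4 * m := by ring
          rw [this]
          ring
      _ ≤ ((s : ℝ) - 1) ^ (4 * m) := pow_le_pow_left₀ (by positivity) hs2 _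
      _ = b ^ 2 := by
          rw [hb, ← pow_mul]
          congr 1
          ring
  have hβ1 : 4 * β ≤ 1 / n := by
    have h7 : β * b ^ 2 = (n : ℝ) ^ (2 * m + 2) * ((2 * m + 1 : ℕ) : ℝ) ^ (4 * m + 1) := by
      rw [hβ]
      field_simp
    have h9 : 4 * ((2 * m + 1 : ℕ) : ℝ) ≤ n := by
      have : 4 * (2 * m + 1) ≤ n := by omega
      exact_mod_cast this
    rw [le_div_iff₀ hnpos]
    have h8 : 4 * β * n * b ^ 2 ≤ 1 * b ^ 2 := by
      calc 4 * β * n * b ^ 2 = 4 * n * (β * b ^ 2) := by ring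
        _ = 4 * n * ((n : ℝ) ^ (2 * m + 2) * ((2 * m + 1 : ℕ) : ℝ) ^ (4 * m + 1)) := by rw [h7]
        _ = ((n : ℝ) ^ (2 * m + 3) * ((2 * m + 1 : ℕ) : ℝ) ^ (4 * m)) *
              (4 * ((2 * m + 1 : ℕ) : ℝ)) := by
            ring
        _ ≤ ((n : ℝ) ^ (2 * m + 3) * ((2 * m + 1 : ℕ) : ℝ) ^ (4 * m)) * n :=
            mul_le_mul_of_nonneg_left h9 (by positivity)
        _ = (n : ℝ) ^ (2 * m + 4) * ((2 * m + 1 : ℕ) : ℝ) ^ (4 * m) := by ring
        _ ≤ 1 * b ^ 2 := by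
            rw [one_mul]
            exact hb2
    exact le_of_mul_le_mul_right h8 (by positivity)
  have hβ4 : β ≤ 1 / 4 := by
    have h4 : (1 : ℝ) / n ≤ 1 := by
      rw [div_le_one hnpos]
      exact hn1
    linarith
  have hev : ∀ G : SimpleGraph (Fin n), MvPolynomial.eval (ind G)
      (MvPolynomial.C b⁻¹ * TP n m) = b⁻¹ * MvPolynomial.eval (ind G) (TP n m) := by
    intro G
    rw [map_mul, MvPolynomial.eval_C]
  obtain ⟨p, hp1, hp2, hp3, hp4⟩ := refute (k := k) (MvPolynomial.C b⁻¹ * TP n m) hβ4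
    (fun G hG => by
      have h4 := TP_large hks hs0 hG hk j
      rw [hev, inv_mul_eq_div, one_le_div hbpos, hb]
      have h5 : 2 ^ (j + 1) = 2 * m := by rw [hm]; ring
      rw [h5] at h4
      exact h4)
    (by
      simp only [hev, mul_pow]
      rw [avg_mul_left]
      exact mul_le_mul_of_nonneg_left (avg_TP m) (by positivity))
  refine ⟨p, hp1.trans ?_, hp2, hp3, hp4.trans hβ1⟩
  refine (MvPolynomial.totalDegree_mul _ _).trans ?_
  rw [MvPolynomial.totalDegree_C, zero_add]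
  exact (deg_TP m).trans hmD

end Pool.Agent.W988.LD
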