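import Pool.Agent.W988.LD.Master

/-! The asymptotic form. -/

set_option autoImplicit false
set_option linter.unusedSectionVars false

namespace Pool.Agent.W988.LD

open Finset Filter

lemma ev_log (C a b : ℝ) (hab : a < b) :
    ∀ᶠ L : ℝ in atTop, C * L ^ a * Real.log L ≤ L ^ b := by
  have h1 := (isLittleO_log_rpow_atTop (sub_pos.2 hab)).bound
    (show (0 : ℝ) < (|C| + 1)⁻¹ by positivity)
  filter_upwards [h1, eventually_ge_atTop (1 : ℝ)] with L hL hL1
  have hL0 : 0 < L := by linarith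
  have h2 : 0 ≤ Real.log L := Real.log_nonneg hL1
  have h3 : 0 < L ^ (b - a) := Real.rpow_pos_of_pos hL0 _
  have h4 : 0 < L ^ a := Real.rpow_pos_of_pos hL0 _
  rw [Real.norm_of_nonneg h2, Real.norm_of_nonneg h3.le] at hL
  have h5 : L ^ b = L ^ a * L ^ (b - a) := by
    rw [← Real.rpow_add hL0]
    congr 1
    ring
  calc C * L ^ a * Real.log L ≤ |C| * L ^ a * Real.log L := by
        refine mul_le_mul_of_nonneg_right (mul_le_mul_of_nonneg_right (le_abs_self C) h4.le) h2
    _ ≤ |C| * L ^ a * ((|C| + 1)⁻¹ * L ^ (b - a)) :=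
        mul_le_mul_of_nonneg_left hL (by positivity)
    _ = (|C| * (|C| + 1)⁻¹) * (L ^ a * L ^ (b - a)) := by ring
    _ ≤ 1 * (L ^ a * L ^ (b - a)) := by
        refine mul_le_mul_of_nonneg_right ?_ (by positivity)
        rw [← div_eq_mul_inv, div_le_one (by positivity)]
        linarith
    _ = L ^ b := by rw [one_mul, h5]

open Classical in
/-- **The trade-off.** -/
theorem tradeoff {a b : ℝ} (ha0 : 0 ≤ a) (ha1 : a < 1) (hab : (5 + a) / 6 < b) :
    ∃ n₀ : ℕ, ∀ n ≥ n₀, ∀ k D : ℕ,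
      Real.sqrt n * Real.exp (Real.log n ^ b) ≤ k → (D : ℝ) ≤ Real.log n ^ (1 + a) →
      ∃ μ : SimpleGraph (Fin n) → ℝ, (∀ G, 0 ≤ μ G) ∧ ∑ G, μ G = 1 ∧
        (∀ G, μ G ≠ 0 → G.Colorable k) ∧
        ∀ p : MvPolynomial (Sym2 (Fin n)) ℝ, p.totalDegree ≤ D →
          (∑ G, μ G * MvPolynomial.eval (ind G) p -
            avg (fun G : SimpleGraph (Fin n) => MvPolynomial.eval (ind G) p)) ^ 2 ≤
          (n / (k : ℝ) ^ 2 * Real.exp (Real.log n ^ b)) *
            (avg (fun G : SimpleGraph (Fin n) => MvPolynomial.eval (ind G) p ^ 2) -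
              avg (fun G : SimpleGraph (Fin n) => MvPolynomial.eval (ind G) p) ^ 2) := by
  set c : ℝ := (1 - a) / 6 with hc
  have hc0 : 0 < c := by rw [hc]; linarith
  have hev : ∀ᶠ L : ℝ in atTop, 480 ≤ L ∧ 448 * L ^ (2 * c) * Real.log L ≤ L ^ (1 : ℝ) ∧
      282 * L ^ ((5 + a) / 6) * Real.log L ≤ L ^ b :=
    (eventually_ge_atTop (480 : ℝ)).and ((ev_log 448 (2 * c) 1 (by rw [hc]; linarith)).and
      (ev_log 282 ((5 + a) / 6) b hab))
  have hlim : Tendsto (fun n : ℕ => Real.log n) atTop atTop :=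
    Real.tendsto_log_atTop.comp tendsto_natCast_atTop_atTop
  obtain ⟨n₀, hn₀⟩ := eventually_atTop.1 (hlim.eventually hev)
  refine ⟨n₀, fun n hn k D hk hD => ?_⟩
  obtain ⟨hL0, hE1, hE2⟩ := hn₀ n hn
  set L : ℝ := Real.log n with hL
  rw [Real.rpow_one] at hE1
  have hLpos : 0 < L := by linarith
  have hL1 : (1 : ℝ) ≤ L := by linarith
  have hn0 : n ≠ 0 := by
    rintro rfl
    rw [Nat.cast_zero, Real.log_zero] at hL
    linarith
  have hnpos : (0 : ℝ) < n := by
    have : 0 < n := Nat.pos_of_ne_zero hn0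
    exact_mod_cast this
  have hN : (n : ℝ) = Real.exp L := by rw [hL, Real.exp_log hnpos]
  have hLb : 0 < L ^ b := Real.rpow_pos_of_pos hLpos _
  have hlogL1 : 1 ≤ Real.log L := by
    rw [Real.le_log_iff_exp_le hLpos]
    have := Real.exp_one_lt_d9
    linarith
  have hkpos : (0 : ℝ) < k := lt_of_lt_of_le (by positivity) hk
  -- the size of `k`
  have hlogk : L / 2 + L ^ b ≤ Real.log k := by
    have h1 := Real.log_le_log (by positivity) hk
    rw [Real.log_mul (by positivity) (Real.exp_pos _).ne', Real.log_exp,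
      Real.log_sqrt hnpos.le] at h1
    exact h1
  by_cases hkn : k ≤ n
  swap
  · -- every graph is colourable
    refine ⟨fun _ => ((Fintype.card (SimpleGraph (Fin n)) : ℕ) : ℝ)⁻¹, fun _ => by positivity,
      ?_, ?_, ?_⟩
    · rw [Finset.sum_const, Finset.card_univ, nsmul_eq_mul]
      exact mul_inv_cancel₀ (by exact_mod_cast Fintype.card_ne_zero)
    · intro G _
      have h2 : G.Colorable (Fintype.card (Fin n)) := G.colorable_of_fintype
      rw [Fintype.card_fin] at h2
      exact h2.mono (by omega)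
    · intro p _
      have h1 : ∑ G : SimpleGraph (Fin n), ((Fintype.card (SimpleGraph (Fin n)) : ℕ) : ℝ)⁻¹ *
          MvPolynomial.eval (ind G) p =
          avg (fun G : SimpleGraph (Fin n) => MvPolynomial.eval (ind G) p) := by
        unfold avg
        rw [← Finset.mul_sum, inv_mul_eq_div]
      have h2 : avg (fun G : SimpleGraph (Fin n) => MvPolynomial.eval (ind G) p) ^ 2 ≤
          avg (fun G : SimpleGraph (Fin n) => MvPolynomial.eval (ind G) p ^ 2) := by
        set A := avg (fun G : SimpleGraph (Fin n) => MvPolynomial.eval (ind G) p) with hA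
        have h3 : 0 ≤ avg (fun G : SimpleGraph (Fin n) => (MvPolynomial.eval (ind G) p - A) ^ 2) :=
          avg_nonneg fun _ => sq_nonneg _
        have h4 : avg (fun G : SimpleGraph (Fin n) => (MvPolynomial.eval (ind G) p - A) ^ 2) =
            avg (fun G : SimpleGraph (Fin n) => MvPolynomial.eval (ind G) p ^ 2) - 2 * A * A +
              A ^ 2 := by
          have h5 : ∀ G : SimpleGraph (Fin n), (MvPolynomial.eval (ind G) p - A) ^ 2 =
              (MvPolynomial.eval (ind G) p ^ 2 - 2 * A * MvPolynomial.eval (ind G) p) + A ^ 2 :=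
            fun G => by ring
          simp only [h5]
          rw [avg_add, avg_sub, avg_mul_left, avg_const, ← hA]
        nlinarith
      rw [h1, sub_self, zero_pow (by norm_num)]
      exact mul_nonneg (by positivity) (by linarith)
  have hnk : n ≤ k ^ 2 := by
    have h1 : (n : ℝ) ≤ (k : ℝ) ^ 2 := by
      rw [hN, ← Real.exp_log hkpos, ← Real.exp_nat_mul, Real.exp_le_exp]
      push_cast
      linarith
    exact_mod_cast h1
  -- the parameters
  set v₀ : ℕ := ⌈L ^ c⌉₊ with hv₀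
  have hLc1 : 1 ≤ L ^ c := Real.one_le_rpow hL1 hc0.le
  have hv1 : 1 ≤ v₀ := by
    rw [hv₀, Nat.one_le_ceil_iff]
    linarith
  have hvlo : L ^ c ≤ v₀ := Nat.le_ceil _
  have hvhi : (v₀ : ℝ) ≤ 2 * L ^ c := by
    have := Nat.ceil_lt_add_one (show 0 ≤ L ^ c by linarith)
    rw [hv₀]
    linarith
  have hv2 : (v₀ : ℝ) ^ 2 ≤ 4 * L ^ (2 * c) := by
    have h1 : (v₀ : ℝ) ^ 2 ≤ (2 * L ^ c) ^ 2 := pow_le_pow_left₀ (Nat.cast_nonneg _) hvhi 2
    have h2 : L ^ (2 * c) = L ^ c * L ^ c := by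
      rw [← Real.rpow_add hLpos]
      congr 1
      ring
    rw [h2]
    nlinarith
  have hlogL0 : 0 ≤ Real.log L := by linarith
  have hv112 : 112 * (v₀ : ℝ) ^ 2 * Real.log L ≤ L := by
    refine le_trans ?_ hE1
    refine mul_le_mul_of_nonneg_right ?_ hlogL0
    linarith
  have hvL : (v₀ : ℝ) ≤ L := by
    have h1 : (v₀ : ℝ) ≤ (v₀ : ℝ) ^ 2 := le_self_pow₀ (by exact_mod_cast hv1) (by norm_num)
    have h2 : (v₀ : ℝ) ^ 2 ≤ (v₀ : ℝ) ^ 2 * Real.log L :=
      le_mul_of_one_le_right (by positivity) hlogL1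
    nlinarith
  set s : ℕ := Nat.sqrt D + 1 with hs
  have hDs : D ≤ s ^ 2 := (Nat.lt_succ_sqrt' D).le
  have hDL2 : (D : ℝ) ≤ L ^ 2 := by
    refine hD.trans ?_
    rw [← Real.rpow_natCast L 2]
    exact Real.rpow_le_rpow_of_exponent_le hL1 (by push_cast; linarith)
  have hsR : (s : ℝ) ≤ 2 * L ^ ((1 + a) / 2) := by
    have h1 : (Nat.sqrt D : ℝ) ≤ L ^ ((1 + a) / 2) := by
      have h2 : ((Nat.sqrt D : ℝ)) ^ 2 ≤ (L ^ ((1 + a) / 2)) ^ 2 := by
        have h3 : ((Nat.sqrt D : ℕ) : ℝ) ^ 2 ≤ D := by exact_mod_cast Nat.sqrt_le' D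
        refine (h3.trans hD).trans (le_of_eq ?_)
        rw [← Real.rpow_natCast (L ^ ((1 + a) / 2)) 2, ← Real.rpow_mul hLpos.le]
        congr 1
        push_cast
        ring
      exact le_of_sq_le_sq h2 (by positivity)
    have h2 : 1 ≤ L ^ ((1 + a) / 2) := Real.one_le_rpow hL1 (by linarith)
    rw [hs]
    push_cast
    linarith
  set Γ : ℝ := 2 * v₀ / (v₀ + 1) * Real.log k - L - 35 * (v₀ : ℝ) ^ 2 * s * Real.log L with hΓ
  have hlogkL : Real.log k ≤ L := by
    rw [hL]
    exact Real.log_le_log hkpos (by exact_mod_cast hkn)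
  have hΓge : 2 * Real.log k - L - L ^ b ≤ Γ := by
    have hvpos : (0 : ℝ) < v₀ := by
      have : 0 < v₀ := hv1
      exact_mod_cast this
    have h1 : 2 * (v₀ : ℝ) / (v₀ + 1) * Real.log k =
        2 * Real.log k - 2 * Real.log k / (v₀ + 1) := by
      field_simp
      ring
    have h2 : 2 * Real.log k / ((v₀ : ℝ) + 1) ≤ 2 * L ^ ((5 + a) / 6) := by
      rw [div_le_iff₀ (by positivity)]
      have h3 : L = L ^ ((5 + a) / 6) * L ^ c := by
        rw [← Real.rpow_add hLpos]
        have : (5 + a) / 6 + c = 1 := by rw [hc]; ring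
        rw [this, Real.rpow_one]
      have h4 : 0 < L ^ ((5 + a) / 6) := Real.rpow_pos_of_pos hLpos _
      calc 2 * Real.log k ≤ 2 * L := by linarith
        _ = 2 * (L ^ ((5 + a) / 6) * L ^ c) := by rw [← h3]
        _ ≤ 2 * (L ^ ((5 + a) / 6) * (v₀ + 1)) := by
            refine mul_le_mul_of_nonneg_left ?_ (by norm_num)
            exact mul_le_mul_of_nonneg_left (by linarith) h4.le
        _ = _ := by ring
    have h3 : 35 * (v₀ : ℝ) ^ 2 * s * Real.log L ≤
        280 * L ^ ((5 + a) / 6) * Real.log L := by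
      refine mul_le_mul_of_nonneg_right ?_ hlogL0
      have h4 : L ^ ((5 + a) / 6) = L ^ (2 * c) * L ^ ((1 + a) / 2) := by
        rw [← Real.rpow_add hLpos]
        congr 1
        rw [hc]
        ring
      have h5 : 0 < L ^ (2 * c) := Real.rpow_pos_of_pos hLpos _
      calc 35 * (v₀ : ℝ) ^ 2 * s ≤ 35 * (4 * L ^ (2 * c)) * (2 * L ^ ((1 + a) / 2)) := by
            refine mul_le_mul ?_ hsR (Nat.cast_nonneg _) (by positivity)
            linarith
        _ = _ := by
            rw [h4]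
            ring
    have h4 : 2 * L ^ ((5 + a) / 6) ≤ 2 * L ^ ((5 + a) / 6) * Real.log L :=
      le_mul_of_one_le_right (by positivity) hlogL1
    rw [hΓ, h1]
    linarith
  have hΓ0 : 0 ≤ Γ := by
    refine le_trans ?_ hΓge
    linarith
  have hk0 : k ≠ 0 := by
    rintro rfl
    simp at hkpos
  have : NeZero k := ⟨hk0⟩
  obtain ⟨hk3, q, hq0, hsum⟩ := master (n := n) (k := k) (v₀ := v₀) (D := D) (s := s) hL hL0 hkn
    hnk hv1 hvL hDL2 hDs (by omega) hv112 hΓ hΓ0
  obtain ⟨μ, hμ0, hμ1, hμc, hμp⟩ := quiet (V := Fin n) (K := ZMod k)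
    (by rw [ZMod.card k]; exact hk3) v₀ hq0 D
  refine ⟨μ, hμ0, hμ1, fun G hG => ?_, fun p hp => (hμp p hp).trans ?_⟩
  · have h1 := hμc G hG
    rwa [ZMod.card k] at h1
  · have hvar : 0 ≤ avg (fun G : SimpleGraph (Fin n) => MvPolynomial.eval (ind G) p ^ 2) -
          avg (fun G : SimpleGraph (Fin n) => MvPolynomial.eval (ind G) p) ^ 2 := by
      set A := avg (fun G : SimpleGraph (Fin n) => MvPolynomial.eval (ind G) p) with hA
      have h3 : 0 ≤ avg (fun G : SimpleGraph (Fin n) => (MvPolynomial.eval (ind G) p - A) ^ 2) :=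
        avg_nonneg fun _ => sq_nonneg _
      have h4 : avg (fun G : SimpleGraph (Fin n) => (MvPolynomial.eval (ind G) p - A) ^ 2) =
          avg (fun G : SimpleGraph (Fin n) => MvPolynomial.eval (ind G) p ^ 2) - 2 * A * A +
            A ^ 2 := by
        have h5 : ∀ G : SimpleGraph (Fin n), (MvPolynomial.eval (ind G) p - A) ^ 2 =
            (MvPolynomial.eval (ind G) p ^ 2 - 2 * A * MvPolynomial.eval (ind G) p) + A ^ 2 :=
          fun G => by ring
        simp only [h5]
        rw [avg_add, avg_sub, avg_mul_left, avg_const, ← hA]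
      nlinarith
    refine mul_le_mul_of_nonneg_right (hsum.trans ?_) hvar
    have h1 : (n : ℝ) / (k : ℝ) ^ 2 * Real.exp (L ^ b) =
        Real.exp (-(2 * Real.log k - L - L ^ b)) := by
      have h2 : (k : ℝ) ^ 2 = Real.exp (2 * Real.log k) := by
        have h3 := Real.exp_nat_mul (Real.log k) 2
        rw [Real.exp_log hkpos] at h3
        rw [← h3]
        norm_num
      rw [h2, hN, ← Real.exp_sub, ← Real.exp_add]
      congr 1
      ring
    rw [h1, Real.exp_le_exp]
    linarith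

end Pool.Agent.W988.LD
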