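import Pool.Agent.W988.LD.Core2

/-! The weight lemma, conclusion. -/

set_option autoImplicit false
set_option linter.unusedSectionVars false

namespace Pool.Agent.W988.LD

open Finset Submodule

variable {V : Type} [Fintype V] [DecidableEq V]
variable {v₀ : ℕ} {α P Q N : Finset (Sym2 V)} {T : Sym2 V → Finset (Sym2 V)}

lemma vs_ins_sub (A : Finset (Sym2 V)) (R : Finset V) : vs (ins A R) ⊆ R := by
  intro v hv
  rw [mem_vs] at hv
  obtain ⟨f, hf, hvf⟩ := hv
  exact (mem_ins.1 hf).2 v hvf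

lemma sp_disj {A B : Finset (Sym2 V)} (h : Disjoint (vs A) (vs B)) : Disjoint (sp A) (sp B) := by
  rw [Submodule.disjoint_def]
  intro z hz hz'
  refine evn_inf ?_ (sp_le_evn (Subset.refl _) hz) (sp_le_evn (Subset.refl _) hz')
  rw [Finset.disjoint_iff_inter_eq_empty.1 h]
  simp

lemma Cl.diff {R R₁ : Finset V} (hR : Cl α P N T R) (hR₁ : Cl α P N T R₁) :
    Cl α P N T (R \ R₁) := by
  refine ⟨fun u hu => hR.sub (mem_sdiff.1 hu).1, ?_, ?_⟩
  · intro e he u hu v hv huR
    rw [mem_sdiff] at huR ⊢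
    exact ⟨hR.clN e he u hu v hv huR.1, fun h1 => huR.2 (hR₁.clN e he v hv u hu h1)⟩
  · intro f hf u hu v hv huR
    rw [mem_sdiff] at huR ⊢
    exact ⟨hR.clP f hf u hu v hv huR.1, fun h1 => huR.2 (hR₁.clP f hf v hv u hu h1)⟩

lemma fval_split {R R₁ : Finset V} (hs : R₁ ⊆ R) :
    fval α P N T R₁ + fval α P N T (R \ R₁) ≤ fval α P N T R := by
  classical
  unfold fval
  have hd : Disjoint R₁ (R \ R₁) := Finset.disjoint_sdiff
  have h1 : rk (ins P R₁) + rk (ins P (R \ R₁)) ≤ rk (ins P R) := by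
    rw [← rk_union_eq (sp_disj (hd.mono (vs_ins_sub _ _) (vs_ins_sub _ _)))]
    refine rk_mono (Finset.union_subset ?_ ?_)
    · intro f hf
      rw [mem_ins] at hf ⊢
      exact ⟨hf.1, fun u hu => hs (hf.2 u hu)⟩
    · intro f hf
      rw [mem_ins] at hf ⊢
      exact ⟨hf.1, fun u hu => (mem_sdiff.1 (hf.2 u hu)).1⟩
  have hdN : Disjoint (ins N R₁) (ins N (R \ R₁)) := by
    rw [Finset.disjoint_left]
    intro f hf hf'
    obtain ⟨u, hu⟩ := exists_mem f
    exact (mem_sdiff.1 ((mem_ins.1 hf').2 u hu)).2 ((mem_ins.1 hf).2 u hu)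
  have h2 : ∑ e ∈ ins N R₁, ((vs (T e) ∩ vs α).card - 1) +
      ∑ e ∈ ins N (R \ R₁), ((vs (T e) ∩ vs α).card - 1) ≤
      ∑ e ∈ ins N R, ((vs (T e) ∩ vs α).card - 1) := by
    rw [← Finset.sum_union hdN]
    refine Finset.sum_le_sum_of_subset (Finset.union_subset ?_ ?_)
    · intro f hf
      rw [mem_ins] at hf ⊢
      exact ⟨hf.1, fun u hu => hs (hf.2 u hu)⟩
    · intro f hf
      rw [mem_ins] at hf ⊢
      exact ⟨hf.1, fun u hu => (mem_sdiff.1 (hf.2 u hu)).1⟩
  omega

lemma core_aux (h : Conf v₀ α P Q N T) : ∀ m : ℕ, ∀ R : Finset V, Cl α P N T R → R.card = m →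
    v₀ * R.card ≤ (v₀ + 1) * fval α P N T R := by
  classical
  intro m
  induction m using Nat.strong_induction_on with
  | _ m ih =>
    intro R hR hm
    rcases R.eq_empty_or_nonempty with rfl | hne
    · simp
    by_cases hsplit : ∃ R₁, R₁ ⊆ R ∧ Cl α P N T R₁ ∧ R₁.Nonempty ∧ R₁ ≠ R
    · obtain ⟨R₁, hs, hR₁, hne₁, hneq⟩ := hsplit
      have hlt : R₁.card < R.card := Finset.card_lt_card (hs.ssubset_of_ne hneq)
      have hpos : 0 < R₁.card := Finset.card_pos.2 hne₁
      have hcard : R₁.card + (R \ R₁).card = R.card := by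
        rw [Finset.card_sdiff_of_subset hs]
        omega
      have h1 := ih R₁.card (by omega) R₁ hR₁ rfl
      have h2 := ih (R \ R₁).card (by omega) (R \ R₁) (hR.diff hR₁) rfl
      have h3 := fval_split (α := α) (P := P) (N := N) (T := T) hs
      calc v₀ * R.card = v₀ * R₁.card + v₀ * (R \ R₁).card := by rw [← hcard]; ring
        _ ≤ (v₀ + 1) * fval α P N T R₁ + (v₀ + 1) * fval α P N T (R \ R₁) := by omega
        _ = (v₀ + 1) * (fval α P N T R₁ + fval α P N T (R \ R₁)) := by ring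
        _ ≤ _ := Nat.mul_le_mul_left _ h3
    · push Not at hsplit
      by_cases hlt : R.card ≤ fval α P N T R
      · exact Nat.mul_le_mul (by omega) hlt
      have hlt : fval α P N T R < R.card := by omega
      have hind := conn_ind h hR hne hsplit hlt
      have hle := conn_le h hR hne hsplit
      -- a block inside `R`
      obtain ⟨u, hu⟩ := hne
      obtain ⟨f, hf, huf⟩ := mem_vs.1 (hR.sub hu)
      obtain ⟨S, hS, hfS⟩ := exists_block hf
      have hSR : vs S ⊆ R := by
        intro v hv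
        exact hS.2.1.side hfS (R : Set V) (fun e he a ha b hb haR =>
          hR.edge h (hS.1 he) ha hb haR) (fun w hw => hR.edge h hf huf hw hu) v hv
      have hpure := pure_of_ind h hR hind hS hSR
      have hbig : v₀ < (vs S).card := by
        by_contra hcon
        exact h.imp S hS (by omega) hpure
      have h1 := Finset.card_le_card hSR
      have h2 : fval α P N T R + 1 = R.card := by omega
      rw [← h2]
      have h3 : v₀ ≤ fval α P N T R := by omega
      nlinarith

/-- **The weight lemma.** -/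
theorem core (h : Conf v₀ α P Q N T) :
    v₀ * (vs α).card ≤ (v₀ + 1) * (rk P + ∑ e ∈ N, ((vs (T e) ∩ vs α).card - 1)) := by
  have hcl : Cl α P N T (vs α) := by
    refine ⟨Subset.refl _, ?_, ?_⟩
    · intro e _ u _ v hv _
      exact (mem_inter.1 hv).2
    · intro f hf u _ v hv _
      exact mem_vs.2 ⟨f, h.P_sub hf, hv⟩
  have h1 := core_aux h _ (vs α) hcl rfl
  unfold fval at h1
  have h2 : ins P (vs α) = P := by
    unfold ins
    rw [Finset.filter_eq_self]
    intro f hf u hu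
    exact mem_vs.2 ⟨f, h.P_sub hf, hu⟩
  have h3 : ins N (vs α) = N := by
    unfold ins
    rw [Finset.filter_eq_self]
    intro f hf u hu
    exact mem_vs.2 ⟨f, h.N_sub hf, hu⟩
  rwa [h2, h3] at h1

/-- extra vertices are covered twice -/
theorem extra (h : Conf v₀ α P Q N T) :
    2 * (N.biUnion (fun e => vs (T e)) \ vs α).card ≤ ∑ e ∈ N, (vs (T e) \ vs α).card := by
  classical
  set U := N.biUnion (fun e => vs (T e)) \ vs α with hU
  have hmem : ∀ u ∈ U, 2 ≤ (N.filter fun e => u ∈ vs (T e) \ vs α).card := by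
    intro u hu
    rw [hU, mem_sdiff, mem_biUnion] at hu
    obtain ⟨⟨e, he, hue⟩, huα⟩ := hu
    obtain ⟨f, hf, huf⟩ := mem_vs.1 hue
    have hfQ : f ∉ Q := fun h1 => huα (mem_vs.2 ⟨f, h.un ▸ mem_union_right P h1, huf⟩)
    have heven : ¬ Odd (N.filter fun e => f ∈ T e).card := fun h1 => hfQ ((h.par _).2 h1)
    rw [Nat.not_odd_iff_even] at heven
    have h1 : e ∈ N.filter fun e => f ∈ T e := mem_filter.2 ⟨he, hf⟩
    have h3 : 0 < (N.filter fun e => f ∈ T e).card := Finset.card_pos.2 ⟨e, h1⟩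
    have h2 : 2 ≤ (N.filter fun e => f ∈ T e).card := by
      obtain ⟨m, hm⟩ := heven
      omega
    refine h2.trans (Finset.card_le_card fun e' he' => ?_)
    rw [mem_filter] at he' ⊢
    exact ⟨he'.1, mem_sdiff.2 ⟨mem_vs.2 ⟨f, he'.2, huf⟩, huα⟩⟩
  have h1 : ∑ e ∈ N, (vs (T e) \ vs α).card =
      ∑ u ∈ U, (N.filter fun e => u ∈ vs (T e) \ vs α).card := by
    have h2 : ∀ e ∈ N, (vs (T e) \ vs α).card =
        ∑ u ∈ U, if u ∈ vs (T e) \ vs α then 1 else 0 := by
      intro e he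
      rw [← Finset.sum_filter, Finset.filter_mem_eq_inter, Finset.inter_eq_right.2]
      · simp
      · intro v hv
        rw [mem_sdiff] at hv
        rw [hU, mem_sdiff]
        exact ⟨mem_biUnion.2 ⟨e, he, hv.1⟩, hv.2⟩
    rw [Finset.sum_congr rfl h2, Finset.sum_comm]
    refine Finset.sum_congr rfl fun u _ => ?_
    rw [Finset.card_filter]
  rw [h1, mul_comm]
  exact Finset.card_nsmul_le_sum U _ 2 hmem

/-- both together -/
theorem weight (h : Conf v₀ α P Q N T) :
    v₀ * (vs α).card + 2 * (v₀ + 1) * (N.biUnion (fun e => vs (T e)) \ vs α).card ≤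
      (v₀ + 1) * (rk P + ∑ e ∈ N, ((vs (T e)).card - 1)) := by
  have h1 := core h
  have h2 := extra h
  have h3 : ∀ e ∈ N, (vs (T e)).card - 1 =
      ((vs (T e) ∩ vs α).card - 1) + (vs (T e) \ vs α).card := by
    intro e he
    have h4 : 0 < (vs (T e) ∩ vs α).card := by
      obtain ⟨u, hu⟩ := exists_mem e
      exact Finset.card_pos.2 ⟨u, h.ends he hu⟩
    have h5 := Finset.card_inter_add_card_sdiff (vs (T e)) (vs α)
    omega
  rw [Finset.sum_congr rfl h3, Finset.sum_add_distrib]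
  nlinarith

end Pool.Agent.W988.LD
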