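import Mathlib

/-! Counting lemmas. -/

set_option autoImplicit false
set_option linter.unusedSectionVars false

namespace Pool.Agent.W988.LD

open Finset

lemma geom_le (b s : ℕ) : ∑ j ∈ range (s + 1), b ^ j ≤ (b + 1) ^ s := by
  induction s with
  | zero => simp
  | succ s ih =>
    rw [Finset.sum_range_succ, pow_succ (b + 1) s, mul_add, mul_one]
    have h1 : b ^ (s + 1) ≤ (b + 1) ^ s * b := by
      rw [pow_succ]
      exact Nat.mul_le_mul_right _ (Nat.pow_le_pow_left (by omega) s)
    omega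

lemma card_small {γ : Type} [DecidableEq γ] (B : Finset γ) (s : ℕ) :
    (B.powerset.filter fun T => T.card ≤ s).card ≤ (B.card + 1) ^ s := by
  have h1 : (B.powerset.filter fun T => T.card ≤ s) ⊆
      (range (s + 1)).biUnion fun j => B.powersetCard j := by
    intro T hT
    rw [mem_filter, mem_powerset] at hT
    rw [mem_biUnion]
    exact ⟨T.card, mem_range.2 (by omega), mem_powersetCard.2 ⟨hT.1, rfl⟩⟩
  refine (Finset.card_le_card h1).trans (Finset.card_biUnion_le.trans ?_)
  refine le_trans (Finset.sum_le_sum fun j _ => ?_) (geom_le B.card s)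
  rw [Finset.card_powersetCard]
  exact Nat.choose_le_pow _ _

lemma sum_small {V : Type} [Fintype V] [DecidableEq V] (κ : ℝ) (hκ : 0 ≤ κ) (s : ℕ) :
    ∑ M ∈ (univ : Finset (Finset V)).filter (fun M => M.card ≤ s), κ ^ M.card ≤
      ∑ j ∈ range (s + 1), (Fintype.card V * κ) ^ j := by
  have hmaps : ∀ M ∈ (univ : Finset (Finset V)).filter (fun M => M.card ≤ s),
      M.card ∈ range (s + 1) := fun M hM => mem_range.2 (Nat.lt_succ_of_le (mem_filter.1 hM).2)
  rw [← Finset.sum_fiberwise_of_maps_to hmaps]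
  refine Finset.sum_le_sum fun j _ => ?_
  have h1 : ∑ M ∈ ((univ : Finset (Finset V)).filter (fun M => M.card ≤ s)).filter
      (fun M => M.card = j), κ ^ M.card ≤ ∑ _M ∈ powersetCard j (univ : Finset V), κ ^ j := by
    have h2 : ∀ M ∈ ((univ : Finset (Finset V)).filter (fun M => M.card ≤ s)).filter
      (fun M => M.card = j), κ ^ M.card = κ ^ j := fun M hM => by rw [(mem_filter.1 hM).2]
    rw [Finset.sum_congr rfl h2]
    refine Finset.sum_le_sum_of_subset_of_nonneg ?_ fun _ _ _ => pow_nonneg hκ _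
    intro M hM
    exact mem_powersetCard.2 ⟨subset_univ _, (mem_filter.1 hM).2⟩
  refine h1.trans ?_
  rw [Finset.sum_const, Finset.card_powersetCard, Finset.card_univ, nsmul_eq_mul, mul_pow]
  refine mul_le_mul_of_nonneg_right ?_ (pow_nonneg hκ _)
  exact_mod_cast Nat.choose_le_pow _ _

lemma sum_small' {V : Type} [Fintype V] [DecidableEq V] (κ : ℝ) (hκ : 0 ≤ κ)
    (hn : Fintype.card V * κ ≤ 1) (s : ℕ) :
    ∑ M ∈ (univ : Finset (Finset V)).filter (fun M => M.card ≤ s), κ ^ M.card ≤ s + 1 := by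
  refine (sum_small κ hκ s).trans ?_
  calc ∑ j ∈ range (s + 1), (Fintype.card V * κ) ^ j ≤ ∑ _j ∈ range (s + 1), (1 : ℝ) :=
        Finset.sum_le_sum fun j _ => pow_le_one₀ (by positivity) hn
    _ = s + 1 := by simp

/-- **The counting lemma.** -/
theorem count {ι β V : Type} [Fintype ι] [DecidableEq ι] [DecidableEq β] [Fintype V]
    [DecidableEq V] (O : ι → Finset β) (J : ι → β → Finset V) (κ : ℝ) (hκ : 0 ≤ κ)
    (hn : Fintype.card V * κ ≤ 1) (s : ℕ)
    (hs : ∀ x ∈ Fintype.piFinset O, (univ.biUnion fun i => J i (x i)).card ≤ s)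
    (Kb : ι → ℕ)
    (hK : ∀ i, ∀ M : Finset V, M.card ≤ s → ((O i).filter fun o => J i o ⊆ M).card ≤ Kb i) :
    ∑ x ∈ Fintype.piFinset O, κ ^ (univ.biUnion fun i => J i (x i)).card ≤
      (s + 1) * ∏ i, (Kb i : ℝ) := by
  have hmaps : ∀ x ∈ Fintype.piFinset O, (univ.biUnion fun i => J i (x i)) ∈
      (univ : Finset (Finset V)).filter (fun M => M.card ≤ s) := fun x hx =>
    mem_filter.2 ⟨mem_univ _, hs x hx⟩
  rw [← Finset.sum_fiberwise_of_maps_to hmaps]
  have h1 : ∀ M ∈ (univ : Finset (Finset V)).filter (fun M => M.card ≤ s),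
      ∑ x ∈ (Fintype.piFinset O).filter (fun x => (univ.biUnion fun i => J i (x i)) = M),
        κ ^ (univ.biUnion fun i => J i (x i)).card ≤ κ ^ M.card * ∏ i, (Kb i : ℝ) := by
    intro M hM
    have hMs := (mem_filter.1 hM).2
    have h2 : ∀ x ∈ (Fintype.piFinset O).filter (fun x => (univ.biUnion fun i => J i (x i)) = M),
        κ ^ (univ.biUnion fun i => J i (x i)).card = κ ^ M.card := fun x hx => by
      rw [(mem_filter.1 hx).2]
    rw [Finset.sum_congr rfl h2, Finset.sum_const, nsmul_eq_mul, mul_comm]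
    refine mul_le_mul_of_nonneg_left ?_ (pow_nonneg hκ _)
    have h3 : (Fintype.piFinset O).filter (fun x => (univ.biUnion fun i => J i (x i)) = M) ⊆
        Fintype.piFinset fun i => (O i).filter fun o => J i o ⊆ M := by
      intro x hx
      rw [mem_filter, Fintype.mem_piFinset] at hx
      rw [Fintype.mem_piFinset]
      intro i
      rw [mem_filter]
      refine ⟨hx.1 i, ?_⟩
      rw [← hx.2]
      exact Finset.subset_biUnion_of_mem (fun i => J i (x i)) (mem_univ i)
    have h4 := Finset.card_le_card h3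
    rw [Fintype.card_piFinset] at h4
    have h5 : ∏ i, ((O i).filter fun o => J i o ⊆ M).card ≤ ∏ i, Kb i :=
      Finset.prod_le_prod' fun i _ => hK i M hMs
    exact_mod_cast h4.trans h5
  refine (Finset.sum_le_sum h1).trans ?_
  rw [← Finset.sum_mul]
  refine mul_le_mul_of_nonneg_right (sum_small' κ hκ hn s) (Finset.prod_nonneg fun i _ =>
    Nat.cast_nonneg _)

end Pool.Agent.W988.LD
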