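import Pool.Agent.W988.LD.Cancel
import Pool.Agent.W988.LD.Core3
import Pool.Agent.W988.LD.Count

/-! The bound for the moments. -/

set_option autoImplicit false
set_option linter.unusedSectionVars false

namespace Pool.Agent.W988.LD

open Finset Submodule

variable {V : Type} [Fintype V] [DecidableEq V]

lemma sub_sym2 {T : Finset (Sym2 V)} {M : Finset V} (h : vs T ⊆ M) : T ⊆ M.sym2 := by
  intro f hf
  rw [Finset.mem_sym2_iff]
  exact fun u hu => h (mem_vs.2 ⟨f, hf, hu⟩)

lemma card_sym2_le (M : Finset V) : M.sym2.card ≤ M.card ^ 2 := by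
  rw [Finset.card_sym2, Nat.choose_two_right]
  simp only [Nat.add_sub_cancel]
  rw [sq]
  rcases Nat.eq_zero_or_pos M.card with h | h
  · rw [h]
    simp
  · apply Nat.div_le_of_le_mul
    nlinarith

lemma card_le_sq {T : Finset (Sym2 V)} {M : Finset V} (h : vs T ⊆ M) : T.card ≤ M.card ^ 2 :=
  (Finset.card_le_card (sub_sym2 h)).trans (card_sym2_le M)

lemma card_vs_le (A : Finset (Sym2 V)) : (vs A).card ≤ 2 * A.card := by
  have h1 : vs A ⊆ A.biUnion fun e => univ.filter fun v => v ∈ e := by
    intro v hv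
    obtain ⟨e, he, hve⟩ := mem_vs.1 hv
    exact mem_biUnion.2 ⟨e, he, mem_filter.2 ⟨mem_univ v, hve⟩⟩
  refine (Finset.card_le_card h1).trans (Finset.card_biUnion_le.trans ?_)
  rw [mul_comm, ← smul_eq_mul]
  refine Finset.sum_le_card_nsmul _ _ _ fun e _ => ?_
  induction e using Sym2.ind with
  | _ a b =>
    have h2 : (univ.filter fun v => v ∈ s(a, b)) ⊆ {a, b} := by
      intro v hv
      rw [mem_filter, Sym2.mem_iff] at hv
      rw [mem_insert, mem_singleton]
      exact hv.2
    exact (Finset.card_le_card h2).trans Finset.card_le_two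

open Classical in
lemma card_shapes_le (v₀ : ℕ) (M : Finset V) :
    ((shapes V v₀).filter fun T => vs T ⊆ M).card ≤ (M.card ^ 2 + 1) ^ (v₀ ^ 2) := by
  have h1 : ((shapes V v₀).filter fun T => vs T ⊆ M) ⊆
      M.sym2.powerset.filter fun T => T.card ≤ v₀ ^ 2 := by
    intro T hT
    rw [mem_filter, mem_shapes] at hT
    rw [mem_filter, mem_powerset]
    refine ⟨sub_sym2 hT.2, (card_le_sq (Subset.refl (vs T))).trans ?_⟩
    exact Nat.pow_le_pow_left hT.1.2.2 2
  refine (Finset.card_le_card h1).trans ((card_small _ _).trans ?_)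
  exact Nat.pow_le_pow_left (by have := card_sym2_le M; omega) _

variable {K : Type} [AddCommGroup K] [Fintype K] [DecidableEq K]

lemma cc_bound (hk : 2 ≤ Fintype.card K) (v₀ : ℕ) {ρ q : ℝ} (hρ : 1 / 3 ≤ ρ) (hq : 1 / 2 ≤ q)
    {T : Finset (Sym2 V)} (hT : T ∈ shapes V v₀) :
    |cc K ρ q T| ≤ 24 ^ (v₀ ^ 2) * ((Fintype.card K : ℝ)⁻¹) ^ ((vs T).card - 1) := by
  rw [mem_shapes] at hT
  have hkR : (2 : ℝ) ≤ Fintype.card K := by exact_mod_cast hk
  have hrk : rk T = (vs T).card - 1 := by
    have := hT.1.rk_eq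
    omega
  have hTpos : 1 ≤ T.card := Finset.card_pos.2 hT.1.1
  have hTR : (1 : ℝ) ≤ T.card := by exact_mod_cast hTpos
  have hT2 : T.card ≤ v₀ ^ 2 := (card_le_sq (Subset.refl (vs T))).trans
    (Nat.pow_le_pow_left hT.2.2 2)
  have h1 := tt_bound (K := K) hk T
  rw [hrk] at h1
  unfold cc
  have hden : (1 / 6 : ℝ) ^ T.card ≤ ρ ^ T.card * q ^ (T.card - 1) * T.card := by
    have h2 : (1 / 3 : ℝ) ^ T.card ≤ ρ ^ T.card := pow_le_pow_left₀ (by norm_num) hρ _
    have h3 : (1 / 2 : ℝ) ^ (T.card - 1) ≤ q ^ (T.card - 1) :=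
      pow_le_pow_left₀ (by norm_num) hq _
    have h4 : (1 / 2 : ℝ) ^ T.card ≤ (1 / 2 : ℝ) ^ (T.card - 1) :=
      pow_le_pow_of_le_one (by norm_num) (by norm_num) (by omega)
    calc (1 / 6 : ℝ) ^ T.card = (1 / 3) ^ T.card * (1 / 2) ^ T.card := by
          rw [← mul_pow]; norm_num
      _ ≤ ρ ^ T.card * q ^ (T.card - 1) :=
          mul_le_mul h2 (h4.trans h3) (by positivity) (by positivity)
      _ ≤ ρ ^ T.card * q ^ (T.card - 1) * T.card :=
          le_mul_of_one_le_right (by positivity) hTR
  have hdpos : 0 < ρ ^ T.card * q ^ (T.card - 1) * T.card :=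
    lt_of_lt_of_le (by positivity) hden
  rw [abs_div, abs_neg, abs_of_pos hdpos, div_le_iff₀ hdpos]
  have hinv : (0 : ℝ) ≤ ((Fintype.card K : ℝ)⁻¹) ^ ((vs T).card - 1) := by positivity
  calc |tt K T| ≤ 4 ^ T.card * ((Fintype.card K : ℝ)⁻¹) ^ ((vs T).card - 1) := h1
    _ = 24 ^ T.card * ((Fintype.card K : ℝ)⁻¹) ^ ((vs T).card - 1) * (1 / 6) ^ T.card := by
        have : (4 : ℝ) ^ T.card = 24 ^ T.card * (1 / 6) ^ T.card := by
          rw [← mul_pow]; norm_num
        rw [this]
        ring
    _ ≤ 24 ^ (v₀ ^ 2) * ((Fintype.card K : ℝ)⁻¹) ^ ((vs T).card - 1) *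
        (ρ ^ T.card * q ^ (T.card - 1) * T.card) := by
        refine mul_le_mul (mul_le_mul_of_nonneg_right ?_ hinv) hden (by positivity) (by positivity)
        exact pow_le_pow_right₀ (by norm_num) hT2

/-- the shape of an option -/
def tsh : Opt V → Option (Finset (Sym2 V))
  | none => none
  | some (_, τ) => τ

def Tof (x : Sym2 V → Opt V) (e : Sym2 V) : Finset (Sym2 V) := (tsh (x e)).getD ∅

def Nof (α : Finset (Sym2 V)) (x : Sym2 V → Opt V) : Finset (Sym2 V) :=
  α.filter fun e => tsh (x e) ≠ none

def Qof (α : Finset (Sym2 V)) (x : Sym2 V → Opt V) : Finset (Sym2 V) :=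
  α.filter fun e => x e ≠ none

lemma mem_opts {v₀ : ℕ} {e : Sym2 V} {o : Opt V} (h : o ∈ opts v₀ e) {T : Finset (Sym2 V)}
    (hT : tsh o = some T) : T ∈ shapes V v₀ ∧ e ∈ T := by
  unfold opts at h
  match o, h, hT with
  | some (b, some T'), h, hT =>
    have h1 : T' = T := Option.some.inj hT
    subst h1
    rw [Finset.mem_insertNone] at h
    have h2 := h _ (Option.mem_some_iff.2 rfl)
    rw [mem_product] at h2
    have h3 := Finset.mem_insertNone.1 h2.2 _ (Option.mem_some_iff.2 rfl)
    unfold shp at h3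
    exact mem_filter.1 h3

lemma cfg_shape {v₀ : ℕ} {α : Finset (Sym2 V)} {x : Sym2 V → Opt V} (hx : x ∈ cfgs v₀ α)
    {e : Sym2 V} (he : e ∈ Nof α x) : tsh (x e) = some (Tof x e) ∧
      Tof x e ∈ shapes V v₀ ∧ e ∈ Tof x e := by
  unfold Nof at he
  rw [mem_filter] at he
  obtain ⟨heα, hne⟩ := he
  obtain ⟨T, hT⟩ := Option.ne_none_iff_exists'.1 hne
  have h1 : Tof x e = T := by
    unfold Tof
    rw [hT]
    rfl
  unfold cfgs at hx
  rw [Fintype.mem_piFinset] at hx
  have h2 := hx e
  unfold optsα at h2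
  rw [if_pos heα] at h2
  have h3 := mem_opts h2 hT
  rw [h1]
  exact ⟨hT, h3⟩

lemma conf_of_cfg {v₀ : ℕ} {α : Finset (Sym2 V)} (hα : ∀ e ∈ α, ¬ e.IsDiag)
    {x : Sym2 V → Opt V} (hx : x ∈ cfgs v₀ α) (hpur : ∀ S ∈ sblocks v₀ α, ¬ PurX S x)
    (hpar : Par α x) : Conf v₀ α (Pset α x) (Qof α x) (Nof α x) (Tof x) := by
  classical
  have hNQ : Nof α x ⊆ Qof α x := by
    intro e he
    unfold Nof at he
    unfold Qof
    rw [mem_filter] at he ⊢
    refine ⟨he.1, fun h => he.2 ?_⟩
    rw [h]
    rfl
  refine ⟨hα, ?_, hNQ, fun e he => (cfg_shape hx he).2.2,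
    fun e he => (mem_shapes.1 (cfg_shape hx he).2.1).1,
    fun e he => (mem_shapes.1 (cfg_shape hx he).2.1).2.1, ?_, ?_⟩
  · ext e
    unfold Pset Qof
    rw [mem_union, mem_filter, mem_filter]
    constructor
    · intro he
      by_cases h : x e = none
      · refine Or.inl ⟨he, ?_⟩
        rw [h]
        rfl
      · exact Or.inr ⟨he, h⟩
    · rintro (h | h) <;> exact h.1
  · intro f
    have hkey : (α.filter fun e => f ∈ ys e (x e)).card + 2 * (if f ∈ Nof α x then 1 else 0) =
        ((Nof α x).filter fun e => f ∈ Tof x e).card + (if f ∈ Qof α x then 1 else 0) := by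
      have h1 : (α.filter fun e => f ∈ ys e (x e)).card =
          ∑ e ∈ α, if f ∈ ys e (x e) then 1 else 0 := Finset.card_filter _ _
      have h2 : 2 * (if f ∈ Nof α x then 1 else 0) =
          ∑ e ∈ α, if e = f ∧ tsh (x e) ≠ none then 2 else 0 := by
        unfold Nof
        by_cases hf : f ∈ α ∧ tsh (x f) ≠ none
        · rw [if_pos (mem_filter.2 hf), Finset.sum_eq_single f]
          · rw [if_pos ⟨rfl, hf.2⟩]
          · intro e _ hef
            rw [if_neg (fun h => hef h.1)]
          · intro h
            exact absurd hf.1 h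
        · rw [if_neg (fun h => hf (mem_filter.1 h)), mul_zero]
          symm
          apply Finset.sum_eq_zero
          intro e he
          rw [if_neg]
          rintro ⟨rfl, h⟩
          exact hf ⟨he, h⟩
      have h3 : ((Nof α x).filter fun e => f ∈ Tof x e).card =
          ∑ e ∈ α, if tsh (x e) ≠ none ∧ f ∈ Tof x e then 1 else 0 := by
        unfold Nof
        rw [Finset.filter_filter, Finset.card_filter]
      have h4 : (if f ∈ Qof α x then 1 else 0) =
          ∑ e ∈ α, if e = f ∧ x e ≠ none then 1 else 0 := by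
        unfold Qof
        by_cases hf : f ∈ α ∧ x f ≠ none
        · rw [if_pos (mem_filter.2 hf), Finset.sum_eq_single f]
          · rw [if_pos ⟨rfl, hf.2⟩]
          · intro e _ hef
            rw [if_neg (fun h => hef h.1)]
          · intro h
            exact absurd hf.1 h
        · rw [if_neg (fun h => hf (mem_filter.1 h)), Finset.sum_eq_zero]
          intro e he
          rw [if_neg]
          rintro ⟨rfl, h⟩
          exact hf ⟨he, h⟩
      rw [h1, h2, h3, h4, ← Finset.sum_add_distrib, ← Finset.sum_add_distrib]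
      refine Finset.sum_congr rfl fun e he => ?_
      unfold Tof
      match hxe : x e with
      | none =>
        simp [ys, tsh]
      | some (b, none) =>
        by_cases hef : e = f
        · subst hef
          simp [tsh, ys]
        · have hfe : f ≠ e := Ne.symm hef
          simp [tsh, ys, hef, hfe]
      | some (b, some T) =>
        have h6 : e ∈ T := by
          have h7 : e ∈ Nof α x := by
            unfold Nof
            rw [mem_filter, hxe]
            exact ⟨he, by simp [tsh]⟩
          have h8 := (cfg_shape hx h7).2.2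
          unfold Tof at h8
          rw [hxe] at h8
          exact h8
        by_cases hef : e = f
        · subst hef
          simp [tsh, ys, h6]
        · have hfe : f ≠ e := Ne.symm hef
          by_cases hfT : f ∈ T
          · simp [tsh, ys, hef, hfT, hfe]
          · simp [tsh, ys, hef, hfT]
    have h1 := hpar f
    obtain ⟨m, hm⟩ := h1
    rw [hm] at hkey
    by_cases hQ : f ∈ Qof α x
    · rw [if_pos hQ] at hkey
      refine ⟨fun _ => ?_, fun _ => hQ⟩
      rw [Nat.odd_iff]
      omega
    · rw [if_neg hQ] at hkey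
      refine ⟨fun h => absurd h hQ, fun h => ?_⟩
      rw [Nat.odd_iff] at h
      omega
  · intro S hS hSv hpure
    apply hpur S (mem_sblocks.2 ⟨hS, hSv⟩)
    rcases hpure with h1 | ⟨e, heS, heN, hTe, hP, hN⟩
    · left
      intro f hf
      by_contra hne
      rw [Finset.disjoint_left] at h1
      refine h1 hf ?_
      unfold Qof
      exact mem_filter.2 ⟨hS.1 hf, hne⟩
    · right
      have hwm : ∀ f ∈ S, wm (x f) = false := by
        intro f hf
        have h2 := hP f hf
        unfold Pset at h2
        rw [mem_filter] at h2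
        by_contra h3
        exact h2 ⟨hS.1 hf, by simpa using h3⟩
      refine ⟨e, heS, ?_, ?_⟩
      · have h2 := (cfg_shape hx heN).1
        have h3 := hwm e heS
        rw [hTe] at h2
        match hxe : x e with
        | none =>
          rw [hxe] at h2
          simp [tsh] at h2
        | some (b, τ) =>
          rw [hxe] at h2 h3
          simp only [tsh] at h2
          simp only [wm] at h3
          rw [h2, h3]
      · intro f hf hfe
        have h2 : f ∉ Nof α x := fun h => hfe (hN f hf h)
        have h3 := hwm f hf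
        unfold Nof at h2
        rw [mem_filter] at h2
        have h4 : tsh (x f) = none := by
          by_contra h5
          exact h2 ⟨hS.1 hf, h5⟩
        match hxe : x f with
        | none =>
          rw [hxe] at h3
          simp [wm] at h3
        | some (b, τ) =>
          rw [hxe] at h3 h4
          simp only [tsh] at h4
          simp only [wm] at h3
          rw [h3, h4]

end Pool.Agent.W988.LD
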