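import Pool.Agent.W988.LD.Bound

/-! The bound for the moments, conclusion. -/

set_option autoImplicit false
set_option linter.unusedSectionVars false

namespace Pool.Agent.W988.LD

open Finset Submodule

variable {V : Type} [Fintype V] [DecidableEq V]
variable {K : Type} [AddCommGroup K] [Fintype K] [DecidableEq K]

/-- the number of options -/
def Kc (v₀ a : ℕ) : ℕ := 3 + 2 * (((2 + v₀) * a) ^ 2 + 1) ^ (v₀ ^ 2)

/-- extra vertices of an option -/
def Jx (R : Finset V) (o : Opt V) : Finset V := vs ((tsh o).getD ∅) \ R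

lemma coef_bound (hk : 2 ≤ Fintype.card K) (v₀ : ℕ) {ρ q : ℝ} (hρ : 1 / 3 ≤ ρ) (hρ1 : ρ ≤ 1)
    (hq : 1 / 2 ≤ q) (hq1 : q ≤ 1) {α : Finset (Sym2 V)} {x : Sym2 V → Opt V}
    (hx : x ∈ cfgs v₀ α) {e : Sym2 V} (he : e ∈ α) :
    |coef K ρ q (x e)| ≤ 24 ^ (v₀ ^ 2) *
      ((Fintype.card K : ℝ)⁻¹) ^ (if tsh (x e) ≠ none then (vs (Tof x e)).card - 1 else 0) := by
  have hC : (1 : ℝ) ≤ 24 ^ (v₀ ^ 2) := one_le_pow₀ (by norm_num)
  match hxe : x e with
  | none =>
    simp only [coef, tsh, ne_eq, not_true_eq_false, if_false, pow_zero, mul_one, abs_one]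
    exact hC
  | some (b, none) =>
    simp only [coef, tsh, ne_eq, not_true_eq_false, if_false, pow_zero, mul_one]
    refine le_trans ?_ hC
    rw [abs_of_nonneg (by nlinarith)]
    nlinarith
  | some (b, some T) =>
    have h1 : tsh (x e) = some T := by
      rw [hxe]
      rfl
    have heN : e ∈ Nof α x := by
      unfold Nof
      exact mem_filter.2 ⟨he, by rw [h1]; simp⟩
    have h2 : Tof x e = T := by
      unfold Tof
      rw [h1]
      rfl
    have h3 := (cfg_shape hx heN).2.1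
    rw [h2] at h3 ⊢
    have h4 : (if tsh (some (b, some T) : Opt V) ≠ none then (vs T).card - 1 else 0) =
        (vs T).card - 1 := if_pos (by simp [tsh])
    rw [h4]
    have h5 := cc_bound (K := K) hk v₀ hρ hq h3
    simp only [coef]
    rw [abs_mul, abs_of_nonneg (by linarith : (0 : ℝ) ≤ ρ)]
    calc ρ * |cc K ρ q T| ≤ 1 * |cc K ρ q T| := mul_le_mul_of_nonneg_right hρ1 (abs_nonneg _)
      _ ≤ _ := by rw [one_mul]; exact h5

lemma prod_coef_bound (hk : 2 ≤ Fintype.card K) (v₀ : ℕ) {ρ q : ℝ} (hρ : 1 / 3 ≤ ρ)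
    (hρ1 : ρ ≤ 1) (hq : 1 / 2 ≤ q) (hq1 : q ≤ 1) {α : Finset (Sym2 V)} {x : Sym2 V → Opt V}
    (hx : x ∈ cfgs v₀ α) :
    |∏ e ∈ α, coef K ρ q (x e)| ≤ (24 ^ (v₀ ^ 2)) ^ α.card *
      ((Fintype.card K : ℝ)⁻¹) ^ (∑ e ∈ Nof α x, ((vs (Tof x e)).card - 1)) := by
  rw [Finset.abs_prod]
  refine (Finset.prod_le_prod (fun _ _ => abs_nonneg _) fun e he =>
    coef_bound hk v₀ hρ hρ1 hq hq1 hx he).trans (le_of_eq ?_)
  rw [Finset.prod_mul_distrib, Finset.prod_const, Finset.prod_pow_eq_pow_sum]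
  congr 2
  unfold Nof
  rw [Finset.sum_filter]

lemma extra_eq {v₀ : ℕ} {α : Finset (Sym2 V)} {x : Sym2 V → Opt V} (hx : x ∈ cfgs v₀ α) :
    (univ.biUnion fun e => Jx (vs α) (x e)) =
      (Nof α x).biUnion (fun e => vs (Tof x e)) \ vs α := by
  ext v
  rw [mem_biUnion, mem_sdiff, mem_biUnion]
  constructor
  · rintro ⟨e, -, hv⟩
    unfold Jx at hv
    rw [mem_sdiff] at hv
    refine ⟨⟨e, ?_, hv.1⟩, hv.2⟩
    unfold Nof
    rw [mem_filter]
    by_cases heα : e ∈ α
    · refine ⟨heα, fun h => ?_⟩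
      rw [h] at hv
      have : (vs ((none : Option (Finset (Sym2 V))).getD ∅)) = ∅ := by
        ext w
        rw [mem_vs]
        simp
      rw [this] at hv
      exact absurd hv.1 (Finset.notMem_empty v)
    · exfalso
      unfold cfgs at hx
      rw [Fintype.mem_piFinset] at hx
      have h1 := hx e
      unfold optsα at h1
      rw [if_neg heα, mem_singleton] at h1
      rw [h1] at hv
      have : (vs ((tsh (none : Opt V)).getD ∅)) = ∅ := by
        ext w
        rw [mem_vs]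
        simp [tsh]
      rw [this] at hv
      exact absurd hv.1 (Finset.notMem_empty v)
  · rintro ⟨⟨e, -, hv⟩, hvα⟩
    exact ⟨e, mem_univ e, mem_sdiff.2 ⟨hv, hvα⟩⟩

lemma term_bound (hk : 2 ≤ Fintype.card K) (v₀ : ℕ) {ρ q y : ℝ} (hρ : 1 / 3 ≤ ρ)
    (hρ1 : ρ ≤ 1) (hq : 1 / 2 ≤ q) (hq1 : q ≤ 1) (hy0 : 0 ≤ y) (hy1 : y ≤ 1)
    (hy : y ^ (v₀ + 1) = (Fintype.card K : ℝ)⁻¹) {α : Finset (Sym2 V)}
    (hα : ∀ e ∈ α, ¬ e.IsDiag) {x : Sym2 V → Opt V}
    (hx : x ∈ cfgs v₀ α) (hpur : ∀ S ∈ sblocks v₀ α, ¬ PurX S x) (hpar : Par α x) :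
    |(∏ e ∈ α, coef K ρ q (x e)) * tt K (Pset α x)| ≤
      (4 * 24 ^ (v₀ ^ 2)) ^ α.card * y ^ (v₀ * (vs α).card) *
        (((Fintype.card K : ℝ)⁻¹) ^ 2) ^ (univ.biUnion fun e => Jx (vs α) (x e)).card := by
  have hinv : (0 : ℝ) ≤ (Fintype.card K : ℝ)⁻¹ := by positivity
  have hw := weight (conf_of_cfg hα hx hpur hpar)
  rw [← extra_eq hx] at hw
  set j := (univ.biUnion fun e => Jx (vs α) (x e)).card with hj
  have h1 := prod_coef_bound (K := K) hk v₀ hρ hρ1 hq hq1 hx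
  have h2 := tt_bound (K := K) hk (Pset α x)
  have h3 : (4 : ℝ) ^ (Pset α x).card ≤ 4 ^ α.card :=
    pow_le_pow_right₀ (by norm_num) (Finset.card_le_card (filter_subset _ _))
  rw [abs_mul]
  calc |∏ e ∈ α, coef K ρ q (x e)| * |tt K (Pset α x)| ≤
        ((24 ^ (v₀ ^ 2)) ^ α.card *
          ((Fintype.card K : ℝ)⁻¹) ^ (∑ e ∈ Nof α x, ((vs (Tof x e)).card - 1))) *
          (4 ^ α.card * ((Fintype.card K : ℝ)⁻¹) ^ rk (Pset α x)) :=
        mul_le_mul h1 (h2.trans (mul_le_mul_of_nonneg_right h3 (by positivity))) (abs_nonneg _)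
          (by positivity)
    _ = (4 * 24 ^ (v₀ ^ 2)) ^ α.card * ((Fintype.card K : ℝ)⁻¹) ^
          (rk (Pset α x) + ∑ e ∈ Nof α x, ((vs (Tof x e)).card - 1)) := by
        rw [mul_pow, pow_add]
        ring
    _ = (4 * 24 ^ (v₀ ^ 2)) ^ α.card * y ^ ((v₀ + 1) *
          (rk (Pset α x) + ∑ e ∈ Nof α x, ((vs (Tof x e)).card - 1))) := by
        rw [pow_mul y, hy]
    _ ≤ (4 * 24 ^ (v₀ ^ 2)) ^ α.card * y ^ (v₀ * (vs α).card + 2 * (v₀ + 1) * j) := by
        refine mul_le_mul_of_nonneg_left ?_ (by positivity)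
        exact pow_le_pow_of_le_one hy0 hy1 hw
    _ = (4 * 24 ^ (v₀ ^ 2)) ^ α.card * y ^ (v₀ * (vs α).card) *
        (((Fintype.card K : ℝ)⁻¹) ^ 2) ^ j := by
        rw [pow_add, ← hy, ← pow_mul, ← pow_mul]
        ring

open Classical in
lemma opts_filter_card (v₀ : ℕ) (e : Sym2 V) (R M : Finset V) :
    ((opts v₀ e).filter fun o => Jx R o ⊆ M).card ≤
      3 + 2 * ((R ∪ M).card ^ 2 + 1) ^ (v₀ ^ 2) := by
  have h1 : ((opts v₀ e).filter fun o => Jx R o ⊆ M) ⊆
      insertNone ((univ : Finset Bool) ×ˢ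
        insertNone ((shapes V v₀).filter fun T => vs T ⊆ R ∪ M)) := by
    intro o ho
    rw [mem_filter] at ho
    obtain ⟨ho, hJ⟩ := ho
    rw [Finset.mem_insertNone]
    intro a ha
    rw [Option.mem_def] at ha
    subst ha
    obtain ⟨b, τ⟩ := a
    rw [mem_product]
    refine ⟨mem_univ _, ?_⟩
    rw [Finset.mem_insertNone]
    intro T hT
    rw [Option.mem_def] at hT
    have hT' : τ = some T := hT
    subst hT'
    rw [mem_filter]
    refine ⟨(mem_opts ho rfl).1, ?_⟩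
    intro v hv
    rw [mem_union]
    by_cases hvR : v ∈ R
    · exact Or.inl hvR
    · exact Or.inr (hJ (mem_sdiff.2 ⟨hv, hvR⟩))
  refine (Finset.card_le_card h1).trans ?_
  rw [Finset.card_insertNone, Finset.card_product, Finset.card_univ, Fintype.card_bool,
    Finset.card_insertNone]
  have h2 := card_shapes_le v₀ (R ∪ M)
  omega

lemma card_Jx_le {v₀ : ℕ} {e : Sym2 V} {R : Finset V} {o : Opt V} (ho : o ∈ opts v₀ e) :
    (Jx R o).card ≤ v₀ := by
  unfold Jx
  match hto : tsh o with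
  | none =>
    have : (vs ((none : Option (Finset (Sym2 V))).getD ∅)) = ∅ := by
      ext w
      rw [mem_vs]
      simp
    rw [this]
    simp
  | some T =>
    refine (Finset.card_le_card sdiff_subset).trans ?_
    exact (mem_shapes.1 (mem_opts ho hto).1).2.2

/-- **The bound for the moments.** -/
theorem moment_bound (hk : 2 ≤ Fintype.card K) (hn : Fintype.card V ≤ Fintype.card K ^ 2)
    (v₀ : ℕ) {ρ q y : ℝ} (hρ : 1 / 3 ≤ ρ) (hρ1 : ρ ≤ 1) (hq : 1 / 2 ≤ q) (hq1 : q ≤ 1)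
    (hy0 : 0 ≤ y) (hy1 : y ≤ 1) (hy : y ^ (v₀ + 1) = (Fintype.card K : ℝ)⁻¹)
    {α : Finset (Sym2 V)} (hα : ∀ e ∈ α, ¬ e.IsDiag) :
    |avg (fun σ : V → K => avg fun Y => ∏ e ∈ α, gg v₀ ρ q σ Y e)| ≤
      (4 * 24 ^ (v₀ ^ 2) * Kc v₀ α.card) ^ α.card * (v₀ * α.card + 1) *
        y ^ (v₀ * (vs α).card) := by
  classical
  have hkR : (2 : ℝ) ≤ Fintype.card K := by exact_mod_cast hk
  rw [moment_eq' v₀ ρ q (by linarith) (by linarith) hα]
  refine (Finset.abs_sum_le_sum_abs _ _).trans ?_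
  set κ : ℝ := ((Fintype.card K : ℝ)⁻¹) ^ 2 with hκ
  have hκ0 : 0 ≤ κ := by positivity
  have h1 : ∀ x ∈ (cfgs v₀ α).filter (fun x => (∀ S ∈ sblocks v₀ α, ¬ PurX S x) ∧ Par α x),
      |(∏ e ∈ α, coef K ρ q (x e)) * tt K (Pset α x)| ≤
        (4 * 24 ^ (v₀ ^ 2)) ^ α.card * y ^ (v₀ * (vs α).card) *
        κ ^ (univ.biUnion fun e => Jx (vs α) (x e)).card := by
    intro x hx
    rw [mem_filter] at hx
    exact term_bound hk v₀ hρ hρ1 hq hq1 hy0 hy1 hy hα hx.1 hx.2.1 hx.2.2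
  refine (Finset.sum_le_sum h1).trans ?_
  refine (Finset.sum_le_sum_of_subset_of_nonneg (filter_subset _ _) fun _ _ _ => by
    positivity).trans ?_
  rw [← Finset.mul_sum]
  have hcount := count (optsα v₀ α) (fun _ o => Jx (vs α) o) κ hκ0 (by
      rw [hκ, inv_pow, ← div_eq_mul_inv, div_le_one (by positivity)]
      exact_mod_cast hn) (v₀ * α.card) (by
      intro x hx
      have h2 : (univ.biUnion fun e => Jx (vs α) (x e)) ⊆ α.biUnion fun e => Jx (vs α) (x e) := by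
        intro v hv
        rw [mem_biUnion] at hv ⊢
        obtain ⟨e, -, hv⟩ := hv
        refine ⟨e, ?_, hv⟩
        by_contra heα
        rw [Fintype.mem_piFinset] at hx
        have h3 := hx e
        unfold optsα at h3
        rw [if_neg heα, mem_singleton] at h3
        rw [h3] at hv
        unfold Jx at hv
        have : (vs ((tsh (none : Opt V)).getD ∅)) = ∅ := by
          ext w
          rw [mem_vs]
          simp [tsh]
        rw [this] at hv
        simp at hv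
      refine (Finset.card_le_card h2).trans (Finset.card_biUnion_le.trans ?_)
      rw [mul_comm, ← smul_eq_mul]
      refine Finset.sum_le_card_nsmul _ _ _ fun e he => ?_
      rw [Fintype.mem_piFinset] at hx
      have h3 := hx e
      unfold optsα at h3
      rw [if_pos he] at h3
      exact card_Jx_le h3) (fun e => if e ∈ α then Kc v₀ α.card else 1) (by
      intro e M hM
      by_cases he : e ∈ α
      · unfold optsα
        rw [if_pos he, if_pos he]
        refine (opts_filter_card v₀ e (vs α) M).trans ?_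
        unfold Kc
        have h2 : (vs α ∪ M).card ≤ (2 + v₀) * α.card := by
          refine (Finset.card_union_le _ _).trans ?_
          have := card_vs_le α
          nlinarith
        have h3 : (vs α ∪ M).card ^ 2 + 1 ≤ ((2 + v₀) * α.card) ^ 2 + 1 :=
          Nat.add_le_add_right (Nat.pow_le_pow_left h2 2) 1
        have h4 := Nat.pow_le_pow_left h3 (v₀ ^ 2)
        omega
      · unfold optsα
        rw [if_neg he, if_neg he]
        exact (Finset.card_filter_le _ _).trans (by simp))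
  have hprod : ∏ e : Sym2 V, (((if e ∈ α then Kc v₀ α.card else 1 : ℕ)) : ℝ) =
      (Kc v₀ α.card : ℝ) ^ α.card := by
    have h2 : ∀ e : Sym2 V, (((if e ∈ α then Kc v₀ α.card else 1 : ℕ)) : ℝ) =
        if e ∈ α then (Kc v₀ α.card : ℝ) else 1 := by
      intro e
      split_ifs <;> simp
    rw [Finset.prod_congr rfl fun e _ => h2 e, Finset.prod_ite_mem, Finset.univ_inter,
      Finset.prod_const]
  rw [hprod] at hcount
  calc (4 * 24 ^ (v₀ ^ 2)) ^ α.card * y ^ (v₀ * (vs α).card) *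
        ∑ x ∈ cfgs v₀ α, κ ^ (univ.biUnion fun e => Jx (vs α) (x e)).card ≤
      (4 * 24 ^ (v₀ ^ 2)) ^ α.card * y ^ (v₀ * (vs α).card) *
        (((v₀ * α.card : ℕ) + 1) * (Kc v₀ α.card : ℝ) ^ α.card) := by
        refine mul_le_mul_of_nonneg_left ?_ (by positivity)
        exact hcount
    _ = _ := by
        push_cast
        rw [mul_pow (4 * 24 ^ (v₀ ^ 2) : ℝ)]
        ring

end Pool.Agent.W988.LD
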