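import Pool.Agent.W988.LD.Wc

/-! The sharper bound for the moments. -/

set_option autoImplicit false
set_option linter.unusedSectionVars false

namespace Pool.Agent.W988.LD

open Finset Submodule

variable {V : Type} [Fintype V] [DecidableEq V]
variable {K : Type} [AddCommGroup K] [Fintype K] [DecidableEq K]

lemma cc_bound2 (hk : 2 ≤ Fintype.card K) (v₀ : ℕ) {ρ q : ℝ} (hρ : 1 / 3 ≤ ρ) (hq : 1 / 2 ≤ q)
    {T : Finset (Sym2 V)} (hT : T ∈ shapes V v₀) :
    |cc K ρ q T| ≤ (5 ^ v₀ * (Fintype.card K : ℝ)⁻¹) ^ ((vs T).card - 1) := by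
  rw [mem_shapes] at hT
  have hrk : rk T = (vs T).card - 1 := by
    have := hT.1.rk_eq
    omega
  have hTpos : 1 ≤ T.card := Finset.card_pos.2 hT.1.1
  have hTR : (1 : ℝ) ≤ T.card := by exact_mod_cast hTpos
  have h1 := tt_bound (K := K) hk T
  rw [hrk] at h1
  unfold cc
  have hden : (1 / 6 : ℝ) ^ T.card ≤ ρ ^ T.card * q ^ (T.card - 1) * T.card := by
    have h2 : (1 / 3 : ℝ) ^ T.card ≤ ρ ^ T.card := pow_le_pow_left₀ (by norm_num) hρ _
    have h3 : (1 / 2 : ℝ) ^ (T.card - 1) ≤ q ^ (T.card - 1) :=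
      pow_le_pow_left₀ (by norm_num) hq _
    have h4 : (1 / 2 : ℝ) ^ T.card ≤ (1 / 2 : ℝ) ^ (T.card - 1) :=
      pow_le_pow_of_le_one (by norm_num) (by norm_num) (by omega)
    calc (1 / 6 : ℝ) ^ T.card = (1 / 3) ^ T.card * (1 / 2) ^ T.card := by
          rw [← mul_pow]; norm_num
      _ ≤ ρ ^ T.card * q ^ (T.card - 1) :=
          mul_le_mul h2 (h4.trans h3) (by positivity) (by positivity)
      _ ≤ ρ ^ T.card * q ^ (T.card - 1) * T.card :=
          le_mul_of_one_le_right (by positivity) hTR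
  have hdpos : 0 < ρ ^ T.card * q ^ (T.card - 1) * T.card :=
    lt_of_lt_of_le (by positivity) hden
  rw [abs_div, abs_neg, abs_of_pos hdpos, div_le_iff₀ hdpos]
  have hinv : (0 : ℝ) ≤ ((Fintype.card K : ℝ)⁻¹) ^ ((vs T).card - 1) := by positivity
  have h24 : (24 : ℝ) ^ T.card ≤ (5 ^ v₀) ^ ((vs T).card - 1) := by
    have h2 : T.card ≤ (vs T).card.choose 2 := by
      have h3 := Finset.card_le_card (sub_lo hT.2.1 (Finset.Subset.refl (vs T)))
      rwa [card_lo] at h3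
    have h3 := two_choose (vs T).card
    have h4 : (vs T).card * ((vs T).card - 1) ≤ v₀ * ((vs T).card - 1) :=
      Nat.mul_le_mul_right _ hT.2.2
    calc (24 : ℝ) ^ T.card ≤ 25 ^ T.card := pow_le_pow_left₀ (by norm_num) (by norm_num) _
      _ = 5 ^ (2 * T.card) := by
          rw [pow_mul]
          norm_num
      _ ≤ 5 ^ (v₀ * ((vs T).card - 1)) := pow_le_pow_right₀ (by norm_num) (by omega)
      _ = _ := by rw [pow_mul]
  calc |tt K T| ≤ 4 ^ T.card * ((Fintype.card K : ℝ)⁻¹) ^ ((vs T).card - 1) := h1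
    _ = 24 ^ T.card * ((Fintype.card K : ℝ)⁻¹) ^ ((vs T).card - 1) * (1 / 6) ^ T.card := by
        have : (4 : ℝ) ^ T.card = 24 ^ T.card * (1 / 6) ^ T.card := by
          rw [← mul_pow]; norm_num
        rw [this]
        ring
    _ ≤ (5 ^ v₀) ^ ((vs T).card - 1) * ((Fintype.card K : ℝ)⁻¹) ^ ((vs T).card - 1) *
        (ρ ^ T.card * q ^ (T.card - 1) * T.card) :=
        mul_le_mul (mul_le_mul_of_nonneg_right h24 hinv) hden (by positivity) (by positivity)
    _ = _ := by rw [mul_pow (5 ^ v₀ : ℝ)]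

/-- the size of an option -/
def sz (o : Opt V) : ℕ := (vs ((tsh o).getD ∅)).card - 1

lemma vs_empty : vs (∅ : Finset (Sym2 V)) = ∅ := by
  ext w
  rw [mem_vs]
  simp

lemma sz_of_none {o : Opt V} (h : tsh o = none) : sz o = 0 := by
  unfold sz
  rw [h]
  have : ((none : Option (Finset (Sym2 V))).getD ∅) = ∅ := rfl
  rw [this, vs_empty]
  rfl

lemma sz_none : sz (none : Opt V) = 0 := sz_of_none rfl

lemma sz_Tof (x : Sym2 V → Opt V) (e : Sym2 V) : sz (x e) = (vs (Tof x e)).card - 1 := rfl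

lemma coef_bound2 (hk : 2 ≤ Fintype.card K) (v₀ : ℕ) {ρ q : ℝ} (hρ : 1 / 3 ≤ ρ) (hρ1 : ρ ≤ 1)
    (hq : 1 / 2 ≤ q) (hq1 : q ≤ 1) {α : Finset (Sym2 V)} {x : Sym2 V → Opt V}
    (hx : x ∈ cfgs v₀ α) {e : Sym2 V} (he : e ∈ α) :
    |coef K ρ q (x e)| ≤ (5 ^ v₀ * (Fintype.card K : ℝ)⁻¹) ^ sz (x e) := by
  match hxe : x e with
  | none =>
    rw [sz_none]
    simp only [coef, pow_zero, abs_one]
    exact le_refl _
  | some (b, none) =>
    have h1 : sz (some (b, none) : Opt V) = 0 := sz_of_none rfl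
    rw [h1]
    simp only [coef, pow_zero]
    rw [abs_of_nonneg (by nlinarith)]
    nlinarith
  | some (b, some T) =>
    have h1 : tsh (x e) = some T := by
      rw [hxe]
      rfl
    have heN : e ∈ Nof α x := by
      unfold Nof
      exact mem_filter.2 ⟨he, by rw [h1]; simp⟩
    have h2 : Tof x e = T := by
      unfold Tof
      rw [h1]
      rfl
    have h3 := (cfg_shape hx heN).2.1
    rw [h2] at h3
    have h4 : sz (some (b, some T) : Opt V) = (vs T).card - 1 := rfl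
    rw [h4]
    have h5 := cc_bound2 (K := K) hk v₀ hρ hq h3
    simp only [coef]
    rw [abs_mul, abs_of_nonneg (by linarith : (0 : ℝ) ≤ ρ)]
    calc ρ * |cc K ρ q T| ≤ 1 * |cc K ρ q T| := mul_le_mul_of_nonneg_right hρ1 (abs_nonneg _)
      _ ≤ _ := by rw [one_mul]; exact h5

lemma sum_sz {v₀ : ℕ} {α : Finset (Sym2 V)} {x : Sym2 V → Opt V} (hx : x ∈ cfgs v₀ α) :
    ∑ e, sz (x e) = ∑ e ∈ Nof α x, ((vs (Tof x e)).card - 1) := by
  symm
  have h1 : ∀ e ∈ Nof α x, (vs (Tof x e)).card - 1 = sz (x e) := fun e _ => (sz_Tof x e).symm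
  rw [Finset.sum_congr rfl h1]
  refine Finset.sum_subset (subset_univ _) fun e _ he => ?_
  by_cases heα : e ∈ α
  · apply sz_of_none
    by_contra hne
    exact he (mem_filter.2 ⟨heα, hne⟩)
  · unfold cfgs at hx
    rw [Fintype.mem_piFinset] at hx
    have h3 := hx e
    unfold optsα at h3
    rw [if_neg heα, mem_singleton] at h3
    rw [h3]
    exact sz_none

lemma prod_coef_bound2 (hk : 2 ≤ Fintype.card K) (v₀ : ℕ) {ρ q : ℝ} (hρ : 1 / 3 ≤ ρ)
    (hρ1 : ρ ≤ 1) (hq : 1 / 2 ≤ q) (hq1 : q ≤ 1) {α : Finset (Sym2 V)} {x : Sym2 V → Opt V}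
    (hx : x ∈ cfgs v₀ α) :
    |∏ e ∈ α, coef K ρ q (x e)| ≤ (5 ^ v₀ * (Fintype.card K : ℝ)⁻¹) ^ (∑ e, sz (x e)) := by
  rw [Finset.abs_prod]
  have h1 : ∑ e, sz (x e) = ∑ e ∈ α, sz (x e) := by
    symm
    refine Finset.sum_subset (subset_univ _) fun e _ he => ?_
    unfold cfgs at hx
    rw [Fintype.mem_piFinset] at hx
    have h3 := hx e
    unfold optsα at h3
    rw [if_neg he, mem_singleton] at h3
    rw [h3]
    exact sz_none
  rw [h1, ← Finset.prod_pow_eq_pow_sum]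
  exact Finset.prod_le_prod (fun _ _ => abs_nonneg _) fun e he =>
    coef_bound2 hk v₀ hρ hρ1 hq hq1 hx he

lemma term_bound2 (hk : 2 ≤ Fintype.card K) (v₀ : ℕ) {ρ q y a b : ℝ} (hρ : 1 / 3 ≤ ρ)
    (hρ1 : ρ ≤ 1) (hq : 1 / 2 ≤ q) (hq1 : q ≤ 1) (hy0 : 0 ≤ y) (hy1 : y ≤ 1)
    (ha0 : 0 ≤ a) (hb0 : 0 ≤ b) (hb1 : b ≤ 1) (hab : a * b = (Fintype.card K : ℝ)⁻¹)
    (hy : y ^ (v₀ + 1) = a) {α : Finset (Sym2 V)}
    (hα : ∀ e ∈ α, ¬ e.IsDiag) {x : Sym2 V → Opt V}
    (hx : x ∈ cfgs v₀ α) (hpur : ∀ S ∈ sblocks v₀ α, ¬ PurX S x) (hpar : Par α x) :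
    |(∏ e ∈ α, coef K ρ q (x e)) * tt K (Pset α x)| ≤
      4 ^ α.card * y ^ (v₀ * (vs α).card) *
        ((∏ e, (5 ^ v₀ * b) ^ sz (x e)) *
          (a ^ 2) ^ (univ.biUnion fun e => Jx (vs α) (x e)).card) := by
  have hw := weight (conf_of_cfg hα hx hpur hpar)
  rw [← extra_eq hx, ← sum_sz hx] at hw
  set j := (univ.biUnion fun e => Jx (vs α) (x e)).card with hj
  set S := ∑ e, sz (x e) with hS
  have h1 := prod_coef_bound2 (K := K) hk v₀ hρ hρ1 hq hq1 hx
  rw [← hS] at h1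
  have h2 := tt_bound (K := K) hk (Pset α x)
  have h3 : (4 : ℝ) ^ (Pset α x).card ≤ 4 ^ α.card :=
    pow_le_pow_right₀ (by norm_num) (Finset.card_le_card (filter_subset _ _))
  have hka : (Fintype.card K : ℝ)⁻¹ ≤ a := by
    rw [← hab]
    exact mul_le_of_le_one_right ha0 hb1
  have hinv : (0 : ℝ) ≤ (Fintype.card K : ℝ)⁻¹ := by positivity
  have h4 : |tt K (Pset α x)| ≤ 4 ^ α.card * a ^ rk (Pset α x) := by
    refine h2.trans ?_
    exact mul_le_mul h3 (pow_le_pow_left₀ hinv hka _) (by positivity) (by positivity)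
  rw [Finset.prod_pow_eq_pow_sum, ← hS, abs_mul]
  calc |∏ e ∈ α, coef K ρ q (x e)| * |tt K (Pset α x)| ≤
        ((5 ^ v₀ * (Fintype.card K : ℝ)⁻¹) ^ S) * (4 ^ α.card * a ^ rk (Pset α x)) :=
        mul_le_mul h1 h4 (abs_nonneg _) (by positivity)
    _ = 4 ^ α.card * (5 ^ v₀ * b) ^ S * a ^ (rk (Pset α x) + S) := by
        rw [← hab, pow_add]
        have : 5 ^ v₀ * (a * b) = (5 ^ v₀ * b) * a := by ring
        rw [this, mul_pow (5 ^ v₀ * b) a]
        ring
    _ = 4 ^ α.card * (5 ^ v₀ * b) ^ S * y ^ ((v₀ + 1) * (rk (Pset α x) + S)) := by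
        rw [pow_mul y, hy]
    _ ≤ 4 ^ α.card * (5 ^ v₀ * b) ^ S * y ^ (v₀ * (vs α).card + 2 * (v₀ + 1) * j) := by
        refine mul_le_mul_of_nonneg_left ?_ (by positivity)
        exact pow_le_pow_of_le_one hy0 hy1 hw
    _ = _ := by
        rw [pow_add, ← hy, ← pow_mul y, ← pow_mul y]
        ring

open Classical in
lemma opts_sum (v₀ : ℕ) (e : Sym2 V) (R M : Finset V) {z : ℝ} (hz : 0 ≤ z)
    (h : 2 * (((R ∪ M).card : ℝ) ^ 2 * (2 ^ v₀ * z)) ≤ 1) :
    ∑ o ∈ (opts v₀ e).filter (fun o => Jx R o ⊆ M), z ^ sz o ≤ 5 := by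
  have h1 : ((opts v₀ e).filter fun o => Jx R o ⊆ M) ⊆
      insertNone ((univ : Finset Bool) ×ˢ
        insertNone ((shapes V v₀).filter fun T => vs T ⊆ R ∪ M)) := by
    intro o ho
    rw [mem_filter] at ho
    obtain ⟨ho, hJ⟩ := ho
    rw [Finset.mem_insertNone]
    intro a ha
    rw [Option.mem_def] at ha
    subst ha
    obtain ⟨b, τ⟩ := a
    rw [mem_product]
    refine ⟨mem_univ _, ?_⟩
    rw [Finset.mem_insertNone]
    intro T hT
    rw [Option.mem_def] at hT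
    have hT' : τ = some T := hT
    subst hT'
    rw [mem_filter]
    refine ⟨(mem_opts ho rfl).1, ?_⟩
    intro v hv
    rw [mem_union]
    by_cases hvR : v ∈ R
    · exact Or.inl hvR
    · exact Or.inr (hJ (mem_sdiff.2 ⟨hv, hvR⟩))
  refine (Finset.sum_le_sum_of_subset_of_nonneg h1 fun _ _ _ => pow_nonneg hz _).trans ?_
  rw [Finset.sum_insertNone, Finset.sum_product]
  simp only [Finset.sum_insertNone]
  have h2 := shape_sum v₀ (R ∪ M) hz h
  have h3 : ∀ b : Bool, (z ^ sz (some (b, none) : Opt V) +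
      ∑ T ∈ (shapes V v₀).filter (fun T => vs T ⊆ R ∪ M), z ^ sz (some (b, some T) : Opt V)) ≤
        2 := by
    intro b
    have h4 : sz (some (b, none) : Opt V) = 0 := sz_of_none rfl
    have h5 : ∀ T : Finset (Sym2 V), sz (some (b, some T) : Opt V) = (vs T).card - 1 :=
      fun _ => rfl
    rw [h4, pow_zero]
    simp only [h5]
    linarith
  have h4 := h3 true
  have h5 := h3 false
  rw [sz_none, pow_zero, Fintype.sum_bool]
  linarith

/-- **The sharper bound for the moments.** -/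
theorem moment_bound2 (hk : 2 ≤ Fintype.card K)
    (v₀ : ℕ) {ρ q y a b : ℝ} (hρ : 1 / 3 ≤ ρ) (hρ1 : ρ ≤ 1) (hq : 1 / 2 ≤ q) (hq1 : q ≤ 1)
    (hy0 : 0 ≤ y) (hy1 : y ≤ 1) (ha0 : 0 ≤ a) (hb0 : 0 ≤ b) (hb1 : b ≤ 1)
    (hab : a * b = (Fintype.card K : ℝ)⁻¹) (hy : y ^ (v₀ + 1) = a)
    (hn : Fintype.card V * a ^ 2 ≤ 1) (D : ℕ)
    (hb : 2 * ((((2 + v₀) * D : ℕ) : ℝ) ^ 2 * (2 ^ v₀ * (5 ^ v₀ * b))) ≤ 1)
    {α : Finset (Sym2 V)} (hα : ∀ e ∈ α, ¬ e.IsDiag) (hD : α.card ≤ D) :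
    |avg (fun σ : V → K => avg fun Y => ∏ e ∈ α, gg v₀ ρ q σ Y e)| ≤
      20 ^ α.card * (v₀ * α.card + 1) * y ^ (v₀ * (vs α).card) := by
  classical
  rw [moment_eq' v₀ ρ q (by linarith) (by linarith) hα]
  refine (Finset.abs_sum_le_sum_abs _ _).trans ?_
  set κ : ℝ := a ^ 2 with hκ
  have hκ0 : 0 ≤ κ := by positivity
  have h1 : ∀ x ∈ (cfgs v₀ α).filter (fun x => (∀ S ∈ sblocks v₀ α, ¬ PurX S x) ∧ Par α x),
      |(∏ e ∈ α, coef K ρ q (x e)) * tt K (Pset α x)| ≤
        4 ^ α.card * y ^ (v₀ * (vs α).card) *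
        ((∏ e, (5 ^ v₀ * b) ^ sz (x e)) *
          κ ^ (univ.biUnion fun e => Jx (vs α) (x e)).card) := by
    intro x hx
    rw [mem_filter] at hx
    exact term_bound2 hk v₀ hρ hρ1 hq hq1 hy0 hy1 ha0 hb0 hb1 hab hy hα hx.1 hx.2.1 hx.2.2
  refine (Finset.sum_le_sum h1).trans ?_
  refine (Finset.sum_le_sum_of_subset_of_nonneg (filter_subset _ _) fun _ _ _ => by
    positivity).trans ?_
  rw [← Finset.mul_sum]
  have hcount := wcount (optsα v₀ α) (fun _ o => Jx (vs α) o)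
    (fun _ o => (5 ^ v₀ * b) ^ sz o) (fun _ _ => by positivity) κ hκ0 hn (v₀ * α.card) (by
      intro x hx
      have h2 : (univ.biUnion fun i => Jx (vs α) (x i)) ⊆ α.biUnion fun e => Jx (vs α) (x e) := by
        intro v hv
        rw [mem_biUnion] at hv ⊢
        obtain ⟨e, -, hv⟩ := hv
        refine ⟨e, ?_, hv⟩
        by_contra heα
        rw [Fintype.mem_piFinset] at hx
        have h3 := hx e
        unfold optsα at h3
        rw [if_neg heα, mem_singleton] at h3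
        rw [h3] at hv
        unfold Jx at hv
        have : (vs ((tsh (none : Opt V)).getD ∅)) = ∅ := by
          ext w
          rw [mem_vs]
          simp [tsh]
        rw [this] at hv
        simp at hv
      refine (Finset.card_le_card h2).trans (Finset.card_biUnion_le.trans ?_)
      rw [mul_comm, ← smul_eq_mul]
      refine Finset.sum_le_card_nsmul _ _ _ fun e he => ?_
      rw [Fintype.mem_piFinset] at hx
      have h3 := hx e
      unfold optsα at h3
      rw [if_pos he] at h3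
      exact card_Jx_le h3) (fun e => if e ∈ α then 5 else 1) (by
      intro e M hM
      by_cases he : e ∈ α
      · unfold optsα
        rw [if_pos he, if_pos he]
        refine opts_sum v₀ e (vs α) M (by positivity) ?_
        refine le_trans ?_ hb
        have h2 : (vs α ∪ M).card ≤ (2 + v₀) * D := by
          refine (Finset.card_union_le _ _).trans ?_
          have h5 := card_vs_le α
          have h6 : v₀ * α.card ≤ v₀ * D := Nat.mul_le_mul_left _ hD
          have h7 : (2 + v₀) * D = 2 * D + v₀ * D := by ring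
          omega
        have h3 : ((vs α ∪ M).card : ℝ) ^ 2 ≤ (((2 + v₀) * D : ℕ) : ℝ) ^ 2 :=
          pow_le_pow_left₀ (Nat.cast_nonneg _) (by exact_mod_cast h2) 2
        refine mul_le_mul_of_nonneg_left ?_ (by norm_num)
        exact mul_le_mul_of_nonneg_right h3 (by positivity)
      · unfold optsα
        rw [if_neg he, if_neg he]
        refine (Finset.sum_le_sum_of_subset_of_nonneg (filter_subset _ _) fun _ _ _ => by
          positivity).trans ?_
        rw [Finset.sum_singleton, sz_none, pow_zero])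
  have hprod : ∏ e : Sym2 V, (if e ∈ α then (5 : ℝ) else 1) = 5 ^ α.card := by
    rw [Finset.prod_ite_mem, Finset.univ_inter, Finset.prod_const]
  rw [hprod] at hcount
  calc 4 ^ α.card * y ^ (v₀ * (vs α).card) *
        ∑ x ∈ cfgs v₀ α, (∏ e, (5 ^ v₀ * b) ^ sz (x e)) *
          κ ^ (univ.biUnion fun e => Jx (vs α) (x e)).card ≤
      4 ^ α.card * y ^ (v₀ * (vs α).card) *
        (((v₀ * α.card : ℕ) + 1) * (5 : ℝ) ^ α.card) := by
        refine mul_le_mul_of_nonneg_left ?_ (by positivity)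
        exact hcount
    _ = _ := by
        push_cast
        have : (20 : ℝ) ^ α.card = 4 ^ α.card * 5 ^ α.card := by
          rw [← mul_pow]
          norm_num
        rw [this]
        ring

end Pool.Agent.W988.LD
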