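import Pool.Agent.W988.LD.Cfg

/-! Configurations with a pure small block cancel. -/

set_option autoImplicit false
set_option linter.unusedSectionVars false

namespace Pool.Agent.W988.LD

open Finset Submodule

variable {V : Type} [Fintype V] [DecidableEq V]
variable {K : Type} [AddCommGroup K] [Fintype K] [DecidableEq K]

def Pur1 (S : Finset (Sym2 V)) (x : Sym2 V → Opt V) : Prop := ∀ f ∈ S, x f = none

def Pur2 (S : Finset (Sym2 V)) (x : Sym2 V → Opt V) : Prop :=
  ∃ e ∈ S, x e = some (false, some S) ∧ ∀ f ∈ S, f ≠ e → x f = some (false, none)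

def PurX (S : Finset (Sym2 V)) (x : Sym2 V → Opt V) : Prop := Pur1 S x ∨ Pur2 S x

/-- change on `S` -/
def modS (S : Finset (Sym2 V)) (e : Sym2 V) (x : Sym2 V → Opt V) : Sym2 V → Opt V := fun f =>
  if f ∈ S then (if f = e then some (false, some S) else some (false, none)) else x f

/-- reset on `S` -/
def resS (S : Finset (Sym2 V)) (x : Sym2 V → Opt V) : Sym2 V → Opt V := fun f =>
  if f ∈ S then none else x f

lemma even_iff_of_eq {a b : ℕ} (h : a = b) : Even a ↔ Even b := by rw [h]

/-- the two types of a pure block cancel -/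
lemma cancel_fiber (ρ q : ℝ) (hρ : ρ ≠ 0) (hq : q ≠ 0) {α S : Finset (Sym2 V)}
    (hS : IsBlock α S) {x : Sym2 V → Opt V} (hx : Pur1 S x) :
    wt K ρ q α x + ∑ e ∈ S, wt K ρ q α (modS S e x) = 0 := by
  classical
  set P₀ : Finset (Sym2 V) := (α \ S).filter fun e => wm (x e) = true with hP₀
  have hPx : Pset α x = S ∪ P₀ := by
    ext f
    unfold Pset
    rw [hP₀, mem_filter, mem_union, mem_filter, mem_sdiff]
    constructor
    · rintro ⟨h1, h2⟩
      by_cases h3 : f ∈ S
      · exact Or.inl h3
      · exact Or.inr ⟨⟨h1, h3⟩, h2⟩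
    · rintro (h1 | ⟨⟨h1, -⟩, h2⟩)
      · refine ⟨hS.1 h1, ?_⟩
        rw [hx f h1]
        rfl
      · exact ⟨h1, h2⟩
  have hPm : ∀ e ∈ S, Pset α (modS S e x) = P₀ := by
    intro e _
    ext f
    unfold Pset
    rw [hP₀, mem_filter, mem_filter, mem_sdiff]
    constructor
    · rintro ⟨h1, h2⟩
      by_cases h3 : f ∈ S
      · exfalso
        unfold modS at h2
        rw [if_pos h3] at h2
        split_ifs at h2 <;> simp [wm] at h2
      · refine ⟨⟨h1, h3⟩, ?_⟩
        unfold modS at h2
        rwa [if_neg h3] at h2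
    · rintro ⟨⟨h1, h3⟩, h2⟩
      refine ⟨h1, ?_⟩
      unfold modS
      rwa [if_neg h3]
  have htt : tt K (S ∪ P₀) = tt K S * tt K P₀ := by
    apply tt_union
    · rw [Finset.disjoint_left]
      intro f hf hf'
      rw [hP₀, mem_filter, mem_sdiff] at hf'
      exact hf'.1.2 hf
    · exact hS.2.2.mono_right (sp_mono (filter_subset _ _))
  have hcx : ∏ e ∈ α, coef K ρ q (x e) = ∏ e ∈ α \ S, coef K ρ q (x e) := by
    rw [← Finset.prod_sdiff hS.1]
    rw [Finset.prod_eq_one (s := S), mul_one]
    intro f hf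
    rw [hx f hf]
    rfl
  have hcm : ∀ e ∈ S, ∏ f ∈ α, coef K ρ q (modS S e x f) =
      (∏ f ∈ α \ S, coef K ρ q (x f)) * (ρ ^ S.card * q ^ (S.card - 1) * cc K ρ q S) := by
    intro e he
    rw [← Finset.prod_sdiff hS.1]
    congr 1
    · refine Finset.prod_congr rfl fun f hf => ?_
      unfold modS
      rw [if_neg (mem_sdiff.1 hf).2]
    · rw [← Finset.mul_prod_erase S _ he]
      have h1 : coef K ρ q (modS S e x e) = ρ * cc K ρ q S := by
        unfold modS
        rw [if_pos he, if_pos rfl]
        rfl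
      have h2 : ∏ f ∈ S.erase e, coef K ρ q (modS S e x f) = (ρ * q) ^ (S.card - 1) := by
        rw [← Finset.card_erase_of_mem he]
        refine Finset.prod_eq_pow_card fun f hf => ?_
        unfold modS
        rw [if_pos (mem_erase.1 hf).2, if_neg (mem_erase.1 hf).1]
        rfl
      rw [h1, h2, mul_pow]
      have h3 : S.card = (S.card - 1) + 1 := by
        have := Finset.card_pos.2 ⟨e, he⟩
        omega
      conv_rhs => rw [h3]
      rw [pow_succ]
      simp only [Nat.add_sub_cancel]
      ring
  have hpar : ∀ e ∈ S, Par α (modS S e x) ↔ Par α x := by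
    intro e he
    unfold Par
    refine forall_congr' fun f => ?_
    have h1 : (α.filter fun g => f ∈ ys g (modS S e x g)).card =
        ((α \ S).filter fun g => f ∈ ys g (x g)).card +
          (S.filter fun g => f ∈ ys g (modS S e x g)).card := by
      have h2 : α.filter (fun g => f ∈ ys g (modS S e x g)) =
          ((α \ S).filter fun g => f ∈ ys g (x g)) ∪
            (S.filter fun g => f ∈ ys g (modS S e x g)) := by
        ext g
        rw [mem_union, mem_filter, mem_filter, mem_filter, mem_sdiff]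
        constructor
        · rintro ⟨h3, h4⟩
          by_cases h5 : g ∈ S
          · exact Or.inr ⟨h5, h4⟩
          · refine Or.inl ⟨⟨h3, h5⟩, ?_⟩
            unfold modS at h4
            rwa [if_neg h5] at h4
        · rintro (⟨⟨h3, h5⟩, h4⟩ | ⟨h5, h4⟩)
          · refine ⟨h3, ?_⟩
            unfold modS
            rwa [if_neg h5]
          · exact ⟨hS.1 h5, h4⟩
      rw [h2, Finset.card_union_of_disjoint]
      rw [Finset.disjoint_left]
      intro g hg hg'
      rw [mem_filter] at hg hg'
      exact (mem_sdiff.1 hg.1).2 hg'.1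
    have h2 : (α.filter fun g => f ∈ ys g (x g)).card =
        ((α \ S).filter fun g => f ∈ ys g (x g)).card := by
      congr 1
      ext g
      rw [mem_filter, mem_filter, mem_sdiff]
      constructor
      · rintro ⟨h3, h4⟩
        refine ⟨⟨h3, fun h5 => ?_⟩, h4⟩
        rw [hx g h5] at h4
        exact absurd h4 (Finset.notMem_empty f)
      · rintro ⟨⟨h3, -⟩, h4⟩
        exact ⟨h3, h4⟩
    have h3 : Even (S.filter fun g => f ∈ ys g (modS S e x g)).card := by
      by_cases hf : f ∈ S ∧ f ≠ e
      · have h4 : (S.filter fun g => f ∈ ys g (modS S e x g)) = {e, f} := by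
          ext g
          rw [mem_filter, mem_insert, mem_singleton]
          constructor
          · rintro ⟨h5, h6⟩
            unfold modS at h6
            rw [if_pos h5] at h6
            by_cases h7 : g = e
            · exact Or.inl h7
            · rw [if_neg h7] at h6
              simp only [ys, mem_singleton] at h6
              exact Or.inr h6.symm
          · rintro (rfl | rfl)
            · refine ⟨he, ?_⟩
              unfold modS
              rw [if_pos he, if_pos rfl]
              simp only [ys, mem_erase]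
              exact ⟨hf.2, hf.1⟩
            · refine ⟨hf.1, ?_⟩
              unfold modS
              rw [if_pos hf.1, if_neg hf.2]
              simp [ys]
        rw [h4, Finset.card_pair (Ne.symm hf.2)]
        exact even_two
      · have h4 : (S.filter fun g => f ∈ ys g (modS S e x g)) = ∅ := by
          rw [Finset.filter_eq_empty_iff]
          intro g hg h6
          unfold modS at h6
          rw [if_pos hg] at h6
          by_cases h7 : g = e
          · rw [if_pos h7] at h6
            simp only [ys, mem_erase] at h6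
            exact hf ⟨h6.2, h7 ▸ h6.1⟩
          · rw [if_neg h7] at h6
            simp only [ys, mem_singleton] at h6
            exact hf ⟨h6 ▸ hg, h6 ▸ h7⟩
        rw [h4]
        simp
    rw [h1, h2, Nat.even_add]
    tauto
  have hsum : ∑ e ∈ S, wt K ρ q α (modS S e x) = S.card *
      ((∏ f ∈ α \ S, coef K ρ q (x f)) * (ρ ^ S.card * q ^ (S.card - 1) * cc K ρ q S) *
        tt K P₀ * (if Par α x then 1 else 0)) := by
    rw [← nsmul_eq_mul]
    refine Finset.sum_eq_card_nsmul fun e he => ?_
    unfold wt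
    rw [hcm e he, hPm e he]
    simp only [hpar e he]
  rw [hsum]
  unfold wt
  rw [hPx, htt, hcx]
  have hne : S.card ≠ 0 := Finset.card_ne_zero.2 hS.2.1.1
  have hneR : (S.card : ℝ) ≠ 0 := by exact_mod_cast hne
  have hcc : (S.card : ℝ) * (ρ ^ S.card * q ^ (S.card - 1) * cc K ρ q S) = -tt K S := by
    unfold cc
    have h1 : ρ ^ S.card ≠ 0 := pow_ne_zero _ hρ
    have h2 : q ^ (S.card - 1) ≠ 0 := pow_ne_zero _ hq
    field_simp
  calc (∏ e ∈ α \ S, coef K ρ q (x e)) * (tt K S * tt K P₀) * (if Par α x then 1 else 0) +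
        S.card * ((∏ f ∈ α \ S, coef K ρ q (x f)) *
          (ρ ^ S.card * q ^ (S.card - 1) * cc K ρ q S) * tt K P₀ * (if Par α x then 1 else 0)) =
        (∏ e ∈ α \ S, coef K ρ q (x e)) * tt K P₀ * (if Par α x then 1 else 0) *
          (tt K S + S.card * (ρ ^ S.card * q ^ (S.card - 1) * cc K ρ q S)) := by ring
    _ = 0 := by rw [hcc]; ring

lemma pur_disjoint {S : Finset (Sym2 V)} {x : Sym2 V → Opt V} (h1 : Pur1 S x) (h2 : Pur2 S x) :
    False := by
  obtain ⟨e, he, h3, -⟩ := h2
  rw [h1 e he] at h3
  exact absurd h3 (by simp)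

lemma resS_pur {S : Finset (Sym2 V)} (x : Sym2 V → Opt V) : Pur1 S (resS S x) := by
  intro f hf
  unfold resS
  rw [if_pos hf]

lemma modS_resS {S : Finset (Sym2 V)} {x : Sym2 V → Opt V} {e : Sym2 V} (he : e ∈ S)
    (h1 : x e = some (false, some S)) (h2 : ∀ f ∈ S, f ≠ e → x f = some (false, none)) :
    modS S e (resS S x) = x := by
  funext f
  unfold modS resS
  by_cases hf : f ∈ S
  · rw [if_pos hf]
    by_cases hfe : f = e
    · rw [if_pos hfe, hfe, h1]
    · rw [if_neg hfe, h2 f hf hfe]
  · rw [if_neg hf, if_neg hf]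

open Classical in
/-- the sum over the configurations pure on `S`, subject to a condition off `S`, vanishes -/
lemma cancel_sum (v₀ : ℕ) (ρ q : ℝ) (hρ : ρ ≠ 0) (hq : q ≠ 0) {α S : Finset (Sym2 V)}
    (hS : IsBlock α S) (hsh : S ∈ shapes V v₀) (R : (Sym2 V → Opt V) → Prop)
    (hR : ∀ x y : Sym2 V → Opt V, (∀ f, f ∉ S → x f = y f) → R x → R y) :
    ∑ x ∈ (cfgs v₀ α).filter (fun x => R x ∧ PurX S x), wt K ρ q α x = 0 := by
  have h1 : (cfgs v₀ α).filter (fun x => R x ∧ PurX S x) =
      (cfgs v₀ α).filter (fun x => R x ∧ Pur1 S x) ∪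
        (cfgs v₀ α).filter (fun x => R x ∧ Pur2 S x) := by
    rw [← Finset.filter_or]
    refine Finset.filter_congr fun x _ => ?_
    unfold PurX
    tauto
  rw [h1, Finset.sum_union (by
    rw [Finset.disjoint_left]
    intro x hx hx'
    rw [mem_filter] at hx hx'
    exact pur_disjoint hx.2.2 hx'.2.2)]
  have h2 : ∑ x ∈ (cfgs v₀ α).filter (fun x => R x ∧ Pur2 S x), wt K ρ q α x =
      ∑ p ∈ (cfgs v₀ α).filter (fun x => R x ∧ Pur1 S x) ×ˢ S, wt K ρ q α (modS S p.2 p.1) := by
    symm
    refine Finset.sum_bij (fun p _ => modS S p.2 p.1) ?_ ?_ ?_ ?_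
    · rintro ⟨x, e⟩ hp
      rw [mem_product, mem_filter] at hp
      obtain ⟨⟨hx, hRx, hpx⟩, he⟩ := hp
      show modS S e x ∈ _
      rw [mem_filter]
      refine ⟨?_, hR x _ (fun f hf => by unfold modS; rw [if_neg hf]) hRx, e, he, ?_, ?_⟩
      · unfold cfgs at hx ⊢
        rw [Fintype.mem_piFinset] at hx ⊢
        intro f
        unfold modS
        by_cases hf : f ∈ S
        · rw [if_pos hf]
          unfold optsα opts
          rw [if_pos (hS.1 hf), Finset.mem_insertNone]
          split_ifs with hfe
          · intro a ha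
            rw [Option.mem_some_iff] at ha
            subst ha
            rw [mem_product]
            refine ⟨mem_univ _, ?_⟩
            rw [Finset.mem_insertNone]
            intro b hb
            rw [Option.mem_some_iff] at hb
            subst hb
            unfold shp
            exact mem_filter.2 ⟨hsh, hf⟩
          · intro a ha
            rw [Option.mem_some_iff] at ha
            subst ha
            rw [mem_product]
            exact ⟨mem_univ _, by simp⟩
        · rw [if_neg hf]
          exact hx f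
      · unfold modS
        rw [if_pos he, if_pos rfl]
      · intro f hf hfe
        unfold modS
        rw [if_pos hf, if_neg hfe]
    · rintro ⟨x, e⟩ hp ⟨y, e'⟩ hp' heq
      rw [mem_product, mem_filter] at hp hp'
      obtain ⟨⟨hx, hRx, hpx⟩, he⟩ := hp
      obtain ⟨⟨hy, hRy, hpy⟩, he'⟩ := hp'
      simp only at heq he he'
      have h3 : e = e' := by
        by_contra hne
        have h4 := congrFun heq e
        unfold modS at h4
        rw [if_pos he, if_pos he, if_pos rfl, if_neg hne] at h4
        exact absurd h4 (by simp)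
      have h4 : x = y := by
        funext f
        by_cases hf : f ∈ S
        · exact (hpx f hf).trans (hpy f hf).symm
        · have h5 := congrFun heq f
          unfold modS at h5
          rwa [if_neg hf, if_neg hf] at h5
      rw [h3, h4]
    · intro y hy
      rw [mem_filter] at hy
      obtain ⟨hy, hRy, e, he, h3, h4⟩ := hy
      refine ⟨(resS S y, e), ?_, modS_resS he h3 h4⟩
      rw [mem_product, mem_filter]
      refine ⟨⟨?_, hR y _ (fun f hf => show y f = resS S y f by unfold resS; rw [if_neg hf]) hRy,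
        resS_pur y⟩, he⟩
      unfold cfgs at hy ⊢
      rw [Fintype.mem_piFinset] at hy ⊢
      intro f
      show resS S y f ∈ _
      unfold resS
      by_cases hf : f ∈ S
      · rw [if_pos hf]
        unfold optsα opts
        rw [if_pos (hS.1 hf)]
        simp
      · rw [if_neg hf]
        exact hy f
    · rintro ⟨x, e⟩ _
      rfl
  rw [h2, Finset.sum_product, ← Finset.sum_add_distrib]
  refine Finset.sum_eq_zero fun x hx => ?_
  exact cancel_fiber ρ q hρ hq hS (mem_filter.1 hx).2.2

open Classical in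
/-- the small blocks of `α` -/
noncomputable def sblocks (v₀ : ℕ) (α : Finset (Sym2 V)) : Finset (Finset (Sym2 V)) :=
  α.powerset.filter fun S => IsBlock α S ∧ (vs S).card ≤ v₀

open Classical in
lemma mem_sblocks {v₀ : ℕ} {α S : Finset (Sym2 V)} :
    S ∈ sblocks v₀ α ↔ IsBlock α S ∧ (vs S).card ≤ v₀ := by
  unfold sblocks
  rw [mem_filter, mem_powerset]
  exact ⟨fun h => h.2, fun h => ⟨h.1.1, h⟩⟩

lemma PurX.congr {S : Finset (Sym2 V)} {x y : Sym2 V → Opt V} (h : ∀ f ∈ S, x f = y f)
    (hx : PurX S x) : PurX S y := by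
  rcases hx with h1 | ⟨e, he, h1, h2⟩
  · exact Or.inl fun f hf => (h f hf) ▸ h1 f hf
  · exact Or.inr ⟨e, he, (h e he) ▸ h1, fun f hf hfe => (h f hf) ▸ h2 f hf hfe⟩

open Classical in
lemma cancel_induct (v₀ : ℕ) (ρ q : ℝ) (hρ : ρ ≠ 0) (hq : q ≠ 0) {α : Finset (Sym2 V)}
    (hα : ∀ e ∈ α, ¬ e.IsDiag) (B : Finset (Finset (Sym2 V))) (hB : B ⊆ sblocks v₀ α) :
    ∑ x ∈ cfgs v₀ α, wt K ρ q α x =
      ∑ x ∈ (cfgs v₀ α).filter (fun x => ∀ S ∈ B, ¬ PurX S x), wt K ρ q α x := by
  induction B using Finset.induction_on with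
  | empty => simp
  | insert S B hSB ih =>
    rw [ih (fun T hT => hB (mem_insert_of_mem hT))]
    have hS := mem_sblocks.1 (hB (mem_insert_self S B))
    have h1 : (cfgs v₀ α).filter (fun x => ∀ S ∈ B, ¬ PurX S x) =
        (cfgs v₀ α).filter (fun x => ∀ T ∈ insert S B, ¬ PurX T x) ∪
          (cfgs v₀ α).filter (fun x => (∀ S ∈ B, ¬ PurX S x) ∧ PurX S x) := by
      rw [← Finset.filter_or]
      refine Finset.filter_congr fun x _ => ?_
      constructor
      · intro h2
        by_cases h3 : PurX S x
        · exact Or.inr ⟨h2, h3⟩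
        · refine Or.inl fun T hT => ?_
          rcases mem_insert.1 hT with rfl | hT
          · exact h3
          · exact h2 T hT
      · rintro (h2 | h2)
        · exact fun T hT => h2 T (mem_insert_of_mem hT)
        · exact h2.1
    rw [h1, Finset.sum_union]
    · have hsh : S ∈ shapes V v₀ := by
        rw [mem_shapes]
        exact ⟨hS.1.2.1, fun f hf => hα f (hS.1.1 hf), hS.2⟩
      have hR : ∀ x y : Sym2 V → Opt V, (∀ f, f ∉ S → x f = y f) →
          (∀ S ∈ B, ¬ PurX S x) → ∀ S ∈ B, ¬ PurX S y := by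
        intro x y hxy hx T hT hpT
        refine hx T hT (hpT.congr fun f hf => ?_)
        refine (hxy f fun hfS => ?_).symm
        have hTb := mem_sblocks.1 (hB (mem_insert_of_mem hT))
        have : T = S := hTb.1.eq hS.1 hf hfS
        exact hSB (this ▸ hT)
      have h5 : ∑ x ∈ (cfgs v₀ α).filter (fun x => (∀ S ∈ B, ¬ PurX S x) ∧ PurX S x),
          wt K ρ q α x = 0 := by
        have h6 := cancel_sum (K := K) v₀ ρ q hρ hq hS.1 hsh (fun x => ∀ S ∈ B, ¬ PurX S x) hR
        convert h6 using 2
        ext x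
        simp only [Finset.mem_filter]
      rw [h5, add_zero]
    · rw [Finset.disjoint_left]
      intro x hx hx'
      rw [mem_filter] at hx hx'
      exact hx.2 S (mem_insert_self S B) hx'.2.2

open Classical in
/-- **The cancellation lemma.** -/
theorem moment_eq' (v₀ : ℕ) (ρ q : ℝ) (hρ : ρ ≠ 0) (hq : q ≠ 0) {α : Finset (Sym2 V)}
    (hα : ∀ e ∈ α, ¬ e.IsDiag) :
    avg (fun σ : V → K => avg fun Y => ∏ e ∈ α, gg v₀ ρ q σ Y e) =
      ∑ x ∈ (cfgs v₀ α).filter (fun x => (∀ S ∈ sblocks v₀ α, ¬ PurX S x) ∧ Par α x),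
        (∏ e ∈ α, coef K ρ q (x e)) * tt K (Pset α x) := by
  rw [moment_eq, cancel_induct v₀ ρ q hρ hq hα _ (Subset.refl _), ← Finset.filter_filter,
    Finset.sum_filter (fun x => Par α x)]
  refine Finset.sum_congr rfl fun x _ => ?_
  unfold wt
  split_ifs <;> ring

end Pool.Agent.W988.LD
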