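import Pool.Agent.W988.LD.Col

/-! The expansion of the moments. -/

set_option autoImplicit false
set_option linter.unusedSectionVars false

namespace Pool.Agent.W988.LD

open Finset Submodule

/-- signs -/
def sg (b : Bool) : ℝ := if b then 1 else -1

lemma sg_sq (b : Bool) : sg b * sg b = 1 := by
  cases b <;> norm_num [sg]

variable {V : Type} [Fintype V] [DecidableEq V]

/-- characters -/
def chi (Y : Sym2 V → Bool) (A : Finset (Sym2 V)) : ℝ := ∏ f ∈ A, sg (Y f)

/-- products over independent signs -/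
lemma avg_prod (φ : Sym2 V → Bool → ℝ) :
    avg (fun Y : Sym2 V → Bool => ∏ f, φ f (Y f)) = ∏ f, ((φ f true + φ f false) / 2) := by
  unfold avg
  rw [Fintype.card_fun, Fintype.card_bool]
  have h1 : ∑ Y : Sym2 V → Bool, ∏ f, φ f (Y f) = ∏ f, (φ f true + φ f false) := by
    have h2 := Finset.prod_univ_sum (fun _ : Sym2 V => (Finset.univ : Finset Bool)) φ
    rw [Fintype.piFinset_univ] at h2
    rw [← h2]
    refine Finset.prod_congr rfl fun f _ => ?_
    rw [Fintype.sum_bool]
  rw [h1, Finset.prod_div_distrib, Finset.prod_const, Finset.card_univ]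
  push_cast
  rfl

lemma avg_par {ι : Type} [DecidableEq ι] (s : Finset ι) (A : ι → Finset (Sym2 V)) :
    avg (fun Y : Sym2 V → Bool => ∏ i ∈ s, chi Y (A i)) =
      if ∀ f, Even (s.filter fun i => f ∈ A i).card then 1 else 0 := by
  have h1 : ∀ Y : Sym2 V → Bool, ∏ i ∈ s, chi Y (A i) =
      ∏ f, sg (Y f) ^ (s.filter fun i => f ∈ A i).card := by
    intro Y
    have h2 : ∀ i ∈ s, chi Y (A i) = ∏ f, if f ∈ A i then sg (Y f) else 1 := by
      intro i _
      unfold chi
      rw [Finset.prod_ite_mem, Finset.univ_inter]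
    rw [Finset.prod_congr rfl h2, Finset.prod_comm]
    refine Finset.prod_congr rfl fun f _ => ?_
    rw [← Finset.prod_filter, Finset.prod_const]
  simp only [h1]
  rw [avg_prod (fun f b => sg b ^ (s.filter fun i => f ∈ A i).card)]
  have h3 : ∀ f : Sym2 V, (sg true ^ (s.filter fun i => f ∈ A i).card +
      sg false ^ (s.filter fun i => f ∈ A i).card) / 2 =
        if Even (s.filter fun i => f ∈ A i).card then 1 else 0 := by
    intro f
    have h4 : sg true = 1 := rfl
    have h5 : sg false = -1 := rfl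
    rw [h4, h5, one_pow]
    split_ifs with h
    · rw [h.neg_one_pow]
      norm_num
    · rw [Nat.not_even_iff_odd] at h
      rw [h.neg_one_pow]
      norm_num
  rw [Finset.prod_congr rfl fun f _ => h3 f]
  split_ifs with h
  · exact Finset.prod_eq_one fun f _ => if_pos (h f)
  · push Not at h
    obtain ⟨f, hf⟩ := h
    exact Finset.prod_eq_zero (mem_univ f) (if_neg hf)

/-- options -/
abbrev Opt (V : Type) : Type := Option (Bool × Option (Finset (Sym2 V)))

open Classical in
/-- the shapes -/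
noncomputable def shapes (V : Type) [Fintype V] [DecidableEq V] (v₀ : ℕ) :
    Finset (Finset (Sym2 V)) :=
  univ.filter fun T => Irr T ∧ (∀ f ∈ T, ¬ f.IsDiag) ∧ (vs T).card ≤ v₀

lemma mem_shapes {v₀ : ℕ} {T : Finset (Sym2 V)} :
    T ∈ shapes V v₀ ↔ Irr T ∧ (∀ f ∈ T, ¬ f.IsDiag) ∧ (vs T).card ≤ v₀ := by
  unfold shapes
  simp

/-- the shapes through `e` -/
noncomputable def shp (v₀ : ℕ) (e : Sym2 V) : Finset (Finset (Sym2 V)) :=
  (shapes V v₀).filter fun T => e ∈ T

noncomputable def opts (v₀ : ℕ) (e : Sym2 V) : Finset (Opt V) :=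
  insertNone ((univ : Finset Bool) ×ˢ insertNone (shp v₀ e))

variable {K : Type} [AddCommGroup K] [Fintype K] [DecidableEq K]

variable (K) in
/-- the coefficients of the correction -/
noncomputable def cc (ρ q : ℝ) (T : Finset (Sym2 V)) : ℝ :=
  -tt K T / (ρ ^ T.card * q ^ (T.card - 1) * T.card)

variable (K) in
noncomputable def coef (ρ q : ℝ) : Opt V → ℝ
  | none => 1
  | some (_, none) => ρ * q
  | some (_, some T) => ρ * cc K ρ q T

def wm : Opt V → Bool
  | none => true
  | some (b, _) => b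

def ys (e : Sym2 V) : Opt V → Finset (Sym2 V)
  | none => ∅
  | some (_, none) => {e}
  | some (_, some T) => T.erase e

variable (K) in
/-- the correction at the edge `e` -/
noncomputable def hh (v₀ : ℕ) (ρ q : ℝ) (Y : Sym2 V → Bool) (e : Sym2 V) : ℝ :=
  ∑ T ∈ shp v₀ e, cc K ρ q T * chi Y (T.erase e)

/-- the conditional mean at the edge `e` -/
noncomputable def gg (v₀ : ℕ) (ρ q : ℝ) (σ : V → K) (Y : Sym2 V → Bool) (e : Sym2 V) : ℝ :=
  W σ e + ρ * (1 + W σ e) * (q * sg (Y e) + hh K v₀ ρ q Y e)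

lemma gg_eq (v₀ : ℕ) (ρ q : ℝ) (σ : V → K) (Y : Sym2 V → Bool) (e : Sym2 V) :
    gg v₀ ρ q σ Y e = ∑ o ∈ opts v₀ e,
      coef K ρ q o * (if wm o then W σ e else 1) * chi Y (ys e o) := by
  unfold opts
  rw [Finset.sum_insertNone, Finset.sum_product, Fintype.sum_bool, Finset.sum_insertNone,
    Finset.sum_insertNone]
  simp only [coef, wm, ys, if_true, Bool.false_eq_true, if_false]
  unfold gg hh
  have h1 : chi Y (∅ : Finset (Sym2 V)) = 1 := by simp [chi]
  have h2 : chi Y ({e} : Finset (Sym2 V)) = sg (Y e) := by simp [chi]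
  rw [h1, h2]
  have h3 : ∑ T ∈ shp v₀ e, ρ * cc K ρ q T * W σ e * chi Y (T.erase e) =
      ρ * W σ e * ∑ T ∈ shp v₀ e, cc K ρ q T * chi Y (T.erase e) := by
    rw [Finset.mul_sum]
    exact Finset.sum_congr rfl fun T _ => by ring
  have h4 : ∑ T ∈ shp v₀ e, ρ * cc K ρ q T * 1 *
      chi Y (T.erase e) = ρ * ∑ T ∈ shp v₀ e, cc K ρ q T * chi Y (T.erase e) := by
    rw [Finset.mul_sum]
    exact Finset.sum_congr rfl fun T _ => by ring
  rw [h3, h4]
  ring

/-- the option sets -/
noncomputable def optsα (v₀ : ℕ) (α : Finset (Sym2 V)) (e : Sym2 V) : Finset (Opt V) :=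
  if e ∈ α then opts v₀ e else {none}

noncomputable def cfgs (v₀ : ℕ) (α : Finset (Sym2 V)) : Finset (Sym2 V → Opt V) :=
  Fintype.piFinset (optsα v₀ α)

def Pset (α : Finset (Sym2 V)) (x : Sym2 V → Opt V) : Finset (Sym2 V) :=
  α.filter fun e => wm (x e) = true

/-- the parity condition -/
def Par (α : Finset (Sym2 V)) (x : Sym2 V → Opt V) : Prop :=
  ∀ f, Even (α.filter fun e => f ∈ ys e (x e)).card

open Classical in
variable (K) in
/-- the weight -/
noncomputable def wt (ρ q : ℝ) (α : Finset (Sym2 V)) (x : Sym2 V → Opt V) : ℝ :=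
  (∏ e ∈ α, coef K ρ q (x e)) * tt K (Pset α x) * (if Par α x then 1 else 0)

lemma prod_gg (v₀ : ℕ) (ρ q : ℝ) (α : Finset (Sym2 V)) (σ : V → K) (Y : Sym2 V → Bool) :
    ∏ e ∈ α, gg v₀ ρ q σ Y e = ∑ x ∈ cfgs v₀ α,
      (∏ e ∈ α, coef K ρ q (x e)) * (∏ e ∈ Pset α x, W σ e) * ∏ e ∈ α, chi Y (ys e (x e)) := by
  have h1 : ∏ e ∈ α, gg v₀ ρ q σ Y e = ∏ e : Sym2 V, ∑ o ∈ optsα v₀ α e,
      if e ∈ α then coef K ρ q o * (if wm o then W σ e else 1) * chi Y (ys e o) else 1 := by
    rw [← Finset.prod_subset (subset_univ α)]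
    · refine Finset.prod_congr rfl fun e he => ?_
      unfold optsα
      rw [if_pos he, gg_eq]
      exact Finset.sum_congr rfl fun o _ => (if_pos he).symm
    · intro e _ he
      unfold optsα
      rw [if_neg he, Finset.sum_singleton, if_neg he]
  rw [h1, Finset.prod_univ_sum]
  refine Finset.sum_congr rfl fun x _ => ?_
  rw [← Finset.prod_subset (subset_univ α) (fun e _ he => if_neg he)]
  rw [Finset.prod_congr rfl (fun e he => if_pos he), Finset.prod_mul_distrib,
    Finset.prod_mul_distrib]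
  unfold Pset
  rw [Finset.prod_filter]

theorem moment_eq (v₀ : ℕ) (ρ q : ℝ) (α : Finset (Sym2 V)) :
    avg (fun σ : V → K => avg fun Y => ∏ e ∈ α, gg v₀ ρ q σ Y e) =
      ∑ x ∈ cfgs v₀ α, wt K ρ q α x := by
  simp only [prod_gg, avg_sum]
  refine Finset.sum_congr rfl fun x _ => ?_
  simp only [avg_mul_left, avg_mul_right]
  rw [avg_par]
  unfold wt tt Par
  congr 1
  split_ifs <;> rfl

end Pool.Agent.W988.LD
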