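import Pool.Agent.W988.LD.Lin

/-! Random colourings. -/

set_option autoImplicit false
set_option linter.unusedSectionVars false

namespace Pool.Agent.W988.LD

open Finset Submodule

/-- the average -/
noncomputable def avg {Ω : Type} [Fintype Ω] (F : Ω → ℝ) : ℝ := (∑ ω, F ω) / Fintype.card Ω

section avg
variable {Ω : Type} [Fintype Ω]

lemma avg_add (F G : Ω → ℝ) : avg (fun ω => F ω + G ω) = avg F + avg G := by
  unfold avg
  rw [Finset.sum_add_distrib, add_div]

lemma avg_sub (F G : Ω → ℝ) : avg (fun ω => F ω - G ω) = avg F - avg G := by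
  unfold avg
  rw [Finset.sum_sub_distrib, sub_div]

lemma avg_mul_left (c : ℝ) (F : Ω → ℝ) : avg (fun ω => c * F ω) = c * avg F := by
  unfold avg
  rw [← Finset.mul_sum, mul_div_assoc]

lemma avg_mul_right (c : ℝ) (F : Ω → ℝ) : avg (fun ω => F ω * c) = avg F * c := by
  unfold avg
  rw [← Finset.sum_mul]
  ring

lemma avg_sum {ι : Type} (s : Finset ι) (F : ι → Ω → ℝ) :
    avg (fun ω => ∑ i ∈ s, F i ω) = ∑ i ∈ s, avg (F i) := by
  unfold avg
  rw [Finset.sum_comm, Finset.sum_div]

lemma avg_const [Nonempty Ω] (c : ℝ) : avg (fun _ : Ω => c) = c := by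
  unfold avg
  rw [Finset.sum_const, Finset.card_univ, nsmul_eq_mul]
  have : (Fintype.card Ω : ℝ) ≠ 0 := by exact_mod_cast Fintype.card_ne_zero
  field_simp

lemma avg_mono {F G : Ω → ℝ} (h : ∀ ω, F ω ≤ G ω) : avg F ≤ avg G := by
  unfold avg
  exact div_le_div_of_nonneg_right (Finset.sum_le_sum fun ω _ => h ω) (Nat.cast_nonneg _)

lemma avg_nonneg {F : Ω → ℝ} (h : ∀ ω, 0 ≤ F ω) : 0 ≤ avg F := by
  unfold avg
  exact div_nonneg (Finset.sum_nonneg fun ω _ => h ω) (Nat.cast_nonneg _)

lemma abs_avg_le (F : Ω → ℝ) : |avg F| ≤ avg fun ω => |F ω| := by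
  unfold avg
  rw [abs_div, Nat.abs_cast]
  exact div_le_div_of_nonneg_right (Finset.abs_sum_le_sum_abs _ _) (Nat.cast_nonneg _)

end avg

section col

variable {V : Type} [Fintype V] [DecidableEq V]
variable {K : Type} [AddCommGroup K] [Fintype K] [DecidableEq K]

/-- both ends of `e` have the same colour -/
def sm (σ : V → K) (e : Sym2 V) : ℝ := if (e.map σ).IsDiag then 1 else 0

lemma sm_mk (σ : V → K) (u v : V) : sm σ s(u, v) = if σ u = σ v then 1 else 0 := by
  unfold sm
  rw [Sym2.map_mk]
  simp [Sym2.mk_isDiag_iff]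

lemma sm_eq_one {σ : V → K} {e : Sym2 V} : sm σ e = 1 ↔ ∀ u ∈ e, ∀ v ∈ e, σ u = σ v := by
  induction e using Sym2.ind with
  | _ a b =>
    rw [sm_mk]
    constructor
    · intro h
      have h1 : σ a = σ b := by
        by_contra hcon
        rw [if_neg hcon] at h
        norm_num at h
      intro u hu v hv
      rw [Sym2.mem_iff] at hu hv
      rcases hu with rfl | rfl <;> rcases hv with rfl | rfl <;> simp [h1]
    · intro h
      rw [if_pos (h a (Sym2.mem_mk_left a b) b (Sym2.mem_mk_right a b))]

lemma sm_zero_or (σ : V → K) (e : Sym2 V) : sm σ e = 0 ∨ sm σ e = 1 := by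
  unfold sm
  split_ifs
  · exact Or.inr rfl
  · exact Or.inl rfl

lemma prod_sm_zero_or (σ : V → K) (A : Finset (Sym2 V)) :
    ∏ e ∈ A, sm σ e = 0 ∨ (∏ e ∈ A, sm σ e = 1 ∧ ∀ e ∈ A, sm σ e = 1) := by
  by_cases h : ∀ e ∈ A, sm σ e = 1
  · exact Or.inr ⟨Finset.prod_eq_one h, h⟩
  · push Not at h
    obtain ⟨e, he, hne⟩ := h
    exact Or.inl (Finset.prod_eq_zero he ((sm_zero_or σ e).resolve_right hne))

/-- pairing with a vector that is constant on the edges -/
lemma pair_zero {A : Finset (Sym2 V)} (y : V → ZMod 2)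
    (hy : ∀ e ∈ A, ∀ u ∈ e, ∀ v ∈ e, y u = y v) {z : V → ZMod 2} (hz : z ∈ sp A) :
    ∑ w, y w * z w = 0 := by
  unfold sp at hz
  induction hz using span_induction with
  | mem z hz =>
    obtain ⟨e, he, rfl⟩ := hz
    have he' : e ∈ A := by exact_mod_cast he
    have h1 := hy e he'
    clear he he'
    induction e using Sym2.ind with
    | _ a b =>
      simp only [bd_mk, Pi.add_apply, mul_add, Finset.sum_add_distrib]
      have h2 : ∀ c : V, ∑ w, y w * (Pi.single c 1 : V → ZMod 2) w = y c := by
        intro c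
        rw [Finset.sum_eq_single c]
        · rw [Pi.single_eq_same, mul_one]
        · intro w _ hw
          rw [Pi.single_eq_of_ne hw, mul_zero]
        · intro h
          exact absurd (mem_univ c) h
      rw [h2, h2, h1 a (Sym2.mem_mk_left a b) b (Sym2.mem_mk_right a b)]
      exact CharTwo.add_self_eq_zero _
  | zero => simp
  | add x z _ _ hx hz =>
    simp only [Pi.add_apply, mul_add, Finset.sum_add_distrib, hx, hz, add_zero]
  | smul c x _ hx =>
    simp only [Pi.smul_apply, smul_eq_mul]
    have : ∀ w, y w * (c * x w) = c * (y w * x w) := fun w => by ring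
    simp only [this, ← Finset.mul_sum, hx, mul_zero]

/-- a colouring that is constant on the edges of `A` is constant on `e` if `bd e ∈ sp A` -/
lemma sm_of_mem {A : Finset (Sym2 V)} {σ : V → K} (hσ : ∀ e ∈ A, sm σ e = 1) {e : Sym2 V}
    (he : bd e ∈ sp A) : sm σ e = 1 := by
  induction e using Sym2.ind with
  | _ a b =>
    rw [sm_mk]
    have h1 := pair_zero (fun w => if σ w = σ a then (1 : ZMod 2) else 0) (fun e he u hu v hv => by
      have h2 := (sm_eq_one.1 (hσ e he)) u hu v hv
      simp only [h2]) he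
    simp only [bd_mk, Pi.add_apply, mul_add, Finset.sum_add_distrib] at h1
    have h2 : ∀ c : V, ∑ w, (if σ w = σ a then (1 : ZMod 2) else 0) *
        (Pi.single c 1 : V → ZMod 2) w = if σ c = σ a then 1 else 0 := by
      intro c
      rw [Finset.sum_eq_single c]
      · rw [Pi.single_eq_same, mul_one]
      · intro w _ hw
        rw [Pi.single_eq_of_ne hw, mul_zero]
      · intro h
        exact absurd (mem_univ c) h
    rw [h2, h2, if_pos rfl] at h1
    by_cases h3 : σ b = σ a
    · rw [if_pos h3.symm]
    · rw [if_neg h3] at h1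
      exact absurd h1 (by decide)

lemma avg_sm (A : Finset (Sym2 V)) :
    avg (fun σ : V → K => ∏ e ∈ A, sm σ e) = ((Fintype.card K : ℝ)⁻¹) ^ rk A := by
  classical
  have hk : (Fintype.card K : ℝ) ≠ 0 := by exact_mod_cast Fintype.card_ne_zero
  induction A using Finset.induction_on with
  | empty =>
    simp only [Finset.prod_empty]
    have : rk (∅ : Finset (Sym2 V)) = 0 := by
      have := rk_le_card (∅ : Finset (Sym2 V))
      simpa using this
    rw [avg_const, this, pow_zero]
  | insert e A he ih =>
    simp only [Finset.prod_insert he]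
    by_cases hmem : bd e ∈ sp A
    · have h1 : sp (insert e A) = sp A := by
        apply le_antisymm
        · unfold sp
          rw [span_le, Finset.coe_insert, Set.image_insert_eq, Set.insert_subset_iff]
          exact ⟨hmem, subset_span⟩
        · exact sp_mono (Finset.subset_insert e A)
      have h2 : rk (insert e A) = rk A := by
        unfold rk
        rw [h1]
      rw [h2, ← ih]
      congr 1
      funext σ
      rcases prod_sm_zero_or σ A with h3 | ⟨h3, h4⟩
      · rw [h3, mul_zero]
      · rw [sm_of_mem h4 hmem, one_mul]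
    · have h2 : rk (insert e A) = rk A + 1 := by
        have h3 : Disjoint (sp {e}) (sp A) := by
          rw [Submodule.disjoint_def]
          intro z hz hzA
          unfold sp at hz
          rw [Finset.coe_singleton, Set.image_singleton, mem_span_singleton] at hz
          obtain ⟨c, rfl⟩ := hz
          by_cases hc : c = 0
          · rw [hc, zero_smul]
          · exfalso
            apply hmem
            have h01 : ∀ c : ZMod 2, c ≠ 0 → c = 1 := by decide
            rw [h01 c hc, one_smul] at hzA
            exact hzA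
        have h4 : rk ({e} : Finset (Sym2 V)) = 1 := by
          have h5 : rk ({e} : Finset (Sym2 V)) ≤ 1 := by
            have := rk_le_card ({e} : Finset (Sym2 V))
            simpa using this
          have h6 : rk ({e} : Finset (Sym2 V)) ≠ 0 := by
            unfold rk
            intro h0
            rw [Submodule.finrank_eq_zero] at h0
            apply hmem
            have h7 : bd e ∈ sp ({e} : Finset (Sym2 V)) := bd_mem_sp (mem_singleton_self e)
            rw [h0, mem_bot] at h7
            rw [h7]
            exact zero_mem _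
          omega
        rw [Finset.insert_eq, rk_union_eq h3, h4]
        omega
      rw [h2, pow_succ, ← ih]
      -- the shift
      induction e using Sym2.ind with
      | _ a b =>
      let C : V → Prop := fun w => (Pi.single a 1 + Pi.single w 1 : V → ZMod 2) ∈ sp A
      have hC : ∀ f ∈ A, ∀ u ∈ f, ∀ v ∈ f, C u → C v := by
        intro f hf u hu v hv hCu
        by_cases huv : u = v
        · exact huv ▸ hCu
        have h3 : f = s(u, v) := (Sym2.mem_and_mem_iff huv).1 ⟨hu, hv⟩
        have h4 : (Pi.single u 1 + Pi.single v 1 : V → ZMod 2) ∈ sp A := by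
          rw [← bd_mk, ← h3]
          exact bd_mem_sp hf
        have h5 : (Pi.single a 1 + Pi.single v 1 : V → ZMod 2) =
            (Pi.single a 1 + Pi.single u 1) + (Pi.single u 1 + Pi.single v 1) := by
          have h6 : (Pi.single u 1 + Pi.single u 1 : V → ZMod 2) = 0 := by
            rw [← Pi.single_add]
            have : (1 : ZMod 2) + 1 = 0 := by decide
            rw [this, Pi.single_zero]
          calc (Pi.single a 1 + Pi.single v 1 : V → ZMod 2) =
                Pi.single a 1 + Pi.single v 1 + (Pi.single u 1 + Pi.single u 1) := by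
                  rw [h6, add_zero]
            _ = _ := by abel
        show (Pi.single a 1 + Pi.single v 1 : V → ZMod 2) ∈ sp A
        rw [h5]
        exact add_mem hCu h4
      have hCa : C a := by
        show (Pi.single a 1 + Pi.single a 1 : V → ZMod 2) ∈ sp A
        rw [← Pi.single_add]
        have : (1 : ZMod 2) + 1 = 0 := by decide
        rw [this, Pi.single_zero]
        exact zero_mem _
      have hCb : ¬ C b := hmem
      let sh : K → (V → K) → (V → K) := fun c σ w => if C w then σ w + c else σ w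
      have hbij : ∀ c, Function.Bijective (sh c) := by
        intro c
        refine Function.bijective_iff_has_inverse.2 ⟨sh (-c), ?_, ?_⟩
        · intro σ
          funext w
          by_cases hw : C w
          · simp [sh, hw]
          · simp [sh, hw]
        · intro σ
          funext w
          by_cases hw : C w
          · simp [sh, hw]
          · simp [sh, hw]
      have hprod : ∀ c σ, ∏ f ∈ A, sm (sh c σ) f = ∏ f ∈ A, sm σ f := by
        intro c σ
        refine Finset.prod_congr rfl fun f hf => ?_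
        have h3 : sm (sh c σ) f = 1 ↔ sm σ f = 1 := by
          rw [sm_eq_one, sm_eq_one]
          constructor
          · intro h4 u hu v hv
            have h5 := h4 u hu v hv
            by_cases hCu : C u
            · have hCv := hC f hf u hu v hv hCu
              simpa [sh, hCu, hCv] using h5
            · have hCv : ¬ C v := fun h6 => hCu (hC f hf v hv u hu h6)
              simpa [sh, hCu, hCv] using h5
          · intro h4 u hu v hv
            have h5 := h4 u hu v hv
            by_cases hCu : C u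
            · have hCv := hC f hf u hu v hv hCu
              simpa [sh, hCu, hCv] using h5
            · have hCv : ¬ C v := fun h6 => hCu (hC f hf v hv u hu h6)
              simpa [sh, hCu, hCv] using h5
        rcases sm_zero_or σ f with h5 | h5
        · rcases sm_zero_or (sh c σ) f with h6 | h6
          · rw [h5, h6]
          · rw [h3.1 h6, h6]
        · rw [h5, h3.2 h5]
      have hsum : ∀ c : K, ∑ σ : V → K, sm σ s(a, b) * ∏ f ∈ A, sm σ f =
          ∑ σ : V → K, (if c = σ b - σ a then 1 else 0) * ∏ f ∈ A, sm σ f := by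
        intro c
        rw [← (hbij c).sum_comp (fun σ => sm σ s(a, b) * ∏ f ∈ A, sm σ f)]
        refine Finset.sum_congr rfl fun σ _ => ?_
        rw [hprod, sm_mk]
        congr 1
        have h3 : sh c σ a = σ a + c := if_pos hCa
        have h4 : sh c σ b = σ b := if_neg hCb
        rw [h3, h4]
        congr 1
        rw [eq_iff_iff]
        constructor
        · intro h5
          rw [← h5]
          abel
        · intro h5
          rw [h5]
          abel
      have htot : (Fintype.card K : ℝ) * ∑ σ : V → K, sm σ s(a, b) * ∏ f ∈ A, sm σ f =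
          ∑ σ : V → K, ∏ f ∈ A, sm σ f := by
        have h3 : ∑ _c : K, ∑ σ : V → K, sm σ s(a, b) * ∏ f ∈ A, sm σ f =
            (Fintype.card K : ℝ) * ∑ σ : V → K, sm σ s(a, b) * ∏ f ∈ A, sm σ f := by
          rw [Finset.sum_const, Finset.card_univ, nsmul_eq_mul]
        rw [← h3, Finset.sum_congr rfl (fun c _ => hsum c), Finset.sum_comm]
        refine Finset.sum_congr rfl fun σ _ => ?_
        rw [← Finset.sum_mul]
        simp
      unfold avg
      rw [← htot]
      field_simp

/-- the centred indicators -/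
noncomputable def W (σ : V → K) (e : Sym2 V) : ℝ :=
  -((Fintype.card K : ℝ) / (Fintype.card K - 1)) * (sm σ e - (Fintype.card K : ℝ)⁻¹)

variable (K) in
/-- the moments of the planted colouring -/
noncomputable def tt (P : Finset (Sym2 V)) : ℝ := avg fun σ : V → K => ∏ e ∈ P, W σ e

lemma prod_W (σ : V → K) (P : Finset (Sym2 V)) :
    ∏ e ∈ P, W σ e = (-((Fintype.card K : ℝ) / (Fintype.card K - 1))) ^ P.card *
      ∑ A ∈ P.powerset, (∏ e ∈ A, sm σ e) * (-(Fintype.card K : ℝ)⁻¹) ^ (P \ A).card := by
  unfold W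
  rw [Finset.prod_mul_distrib, Finset.prod_const]
  congr 1
  simp only [sub_eq_add_neg]
  rw [Finset.prod_add]
  refine Finset.sum_congr rfl fun A _ => ?_
  rw [Finset.prod_const]

lemma tt_eq (P : Finset (Sym2 V)) :
    tt K P = (-((Fintype.card K : ℝ) / (Fintype.card K - 1))) ^ P.card *
      ∑ A ∈ P.powerset, ((Fintype.card K : ℝ)⁻¹) ^ rk A *
        (-(Fintype.card K : ℝ)⁻¹) ^ (P \ A).card := by
  unfold tt
  simp only [prod_W]
  rw [avg_mul_left, avg_sum]
  congr 1
  refine Finset.sum_congr rfl fun A _ => ?_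
  rw [avg_mul_right, avg_sm]

lemma tt_bound (hk : 2 ≤ Fintype.card K) (P : Finset (Sym2 V)) :
    |tt K P| ≤ 4 ^ P.card * ((Fintype.card K : ℝ)⁻¹) ^ rk P := by
  have hkR : (2 : ℝ) ≤ Fintype.card K := by exact_mod_cast hk
  have hk1 : (0 : ℝ) < Fintype.card K - 1 := by linarith
  have hinv : (0 : ℝ) ≤ (Fintype.card K : ℝ)⁻¹ := by positivity
  have hinv1 : (Fintype.card K : ℝ)⁻¹ ≤ 1 := inv_le_one_of_one_le₀ (by linarith)
  rw [tt_eq, abs_mul, abs_pow, abs_neg, abs_of_nonneg (by positivity)]
  have h1 : (Fintype.card K : ℝ) / (Fintype.card K - 1) ≤ 2 := by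
    rw [div_le_iff₀ hk1]
    linarith
  have h2 : |∑ A ∈ P.powerset, ((Fintype.card K : ℝ)⁻¹) ^ rk A *
        (-(Fintype.card K : ℝ)⁻¹) ^ (P \ A).card| ≤
      2 ^ P.card * ((Fintype.card K : ℝ)⁻¹) ^ rk P := by
    refine (Finset.abs_sum_le_sum_abs _ _).trans ?_
    rw [← Nat.cast_ofNat (n := 2), ← Nat.cast_pow, ← Finset.card_powerset, ← nsmul_eq_mul]
    refine Finset.sum_le_card_nsmul _ _ _ fun A hA => ?_
    rw [mem_powerset] at hA
    rw [abs_mul, abs_pow, abs_pow, abs_neg, abs_of_nonneg hinv, ← pow_add]
    apply pow_le_pow_of_le_one hinv hinv1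
    have h3 := rk_union_le A (P \ A)
    rw [Finset.union_sdiff_of_subset hA] at h3
    have h4 := rk_le_card (P \ A)
    omega
  calc ((Fintype.card K : ℝ) / (Fintype.card K - 1)) ^ P.card *
        |∑ A ∈ P.powerset, ((Fintype.card K : ℝ)⁻¹) ^ rk A *
          (-(Fintype.card K : ℝ)⁻¹) ^ (P \ A).card| ≤
        2 ^ P.card * (2 ^ P.card * ((Fintype.card K : ℝ)⁻¹) ^ rk P) :=
        mul_le_mul (pow_le_pow_left₀ (by positivity) h1 _) h2 (abs_nonneg _) (by positivity)
    _ = (2 * 2) ^ P.card * ((Fintype.card K : ℝ)⁻¹) ^ rk P := by rw [mul_pow]; ring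
    _ = _ := by norm_num

lemma tt_union {P₁ P₂ : Finset (Sym2 V)} (hd : Disjoint P₁ P₂) (hs : Disjoint (sp P₁) (sp P₂)) :
    tt K (P₁ ∪ P₂) = tt K P₁ * tt K P₂ := by
  rw [tt_eq P₁, tt_eq P₂]
  unfold tt
  simp only [Finset.prod_union hd, prod_W]
  have h1 : ∀ σ : V → K,
      ((-((Fintype.card K : ℝ) / (Fintype.card K - 1))) ^ P₁.card *
        ∑ A ∈ P₁.powerset, (∏ e ∈ A, sm σ e) * (-(Fintype.card K : ℝ)⁻¹) ^ (P₁ \ A).card) *
      ((-((Fintype.card K : ℝ) / (Fintype.card K - 1))) ^ P₂.card *
        ∑ B ∈ P₂.powerset, (∏ e ∈ B, sm σ e) * (-(Fintype.card K : ℝ)⁻¹) ^ (P₂ \ B).card) =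
      ((-((Fintype.card K : ℝ) / (Fintype.card K - 1))) ^ P₁.card *
        (-((Fintype.card K : ℝ) / (Fintype.card K - 1))) ^ P₂.card) *
      ∑ A ∈ P₁.powerset, ∑ B ∈ P₂.powerset, (∏ e ∈ A ∪ B, sm σ e) *
        ((-(Fintype.card K : ℝ)⁻¹) ^ (P₁ \ A).card * (-(Fintype.card K : ℝ)⁻¹) ^ (P₂ \ B).card) := by
    intro σ
    rw [mul_mul_mul_comm, Finset.sum_mul_sum]
    congr 1
    refine Finset.sum_congr rfl fun A hA => Finset.sum_congr rfl fun B hB => ?_
    rw [Finset.prod_union (hd.mono (mem_powerset.1 hA) (mem_powerset.1 hB))]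
    ring
  simp only [h1]
  rw [avg_mul_left, avg_sum, mul_mul_mul_comm, Finset.sum_mul_sum]
  congr 1
  refine Finset.sum_congr rfl fun A hA => ?_
  rw [avg_sum]
  refine Finset.sum_congr rfl fun B hB => ?_
  rw [avg_mul_right, avg_sm, rk_union_eq (hs.mono (sp_mono (mem_powerset.1 hA))
    (sp_mono (mem_powerset.1 hB))), pow_add]
  ring

lemma tt_empty : tt K (∅ : Finset (Sym2 V)) = 1 := by
  unfold tt
  simp only [Finset.prod_empty]
  exact avg_const 1

end col

end Pool.Agent.W988.LD
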