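import Pool.Agent.W988.LD.Ind

/-! The weight lemma. -/

set_option autoImplicit false
set_option linter.unusedSectionVars false

namespace Pool.Agent.W988.LD

open Finset Submodule

variable {V : Type} [Fintype V] [DecidableEq V]

/-- the block `S` is pure -/
def Pure (P Q N : Finset (Sym2 V)) (T : Sym2 V → Finset (Sym2 V)) (S : Finset (Sym2 V)) : Prop :=
  Disjoint S Q ∨ ∃ e ∈ S, e ∈ N ∧ T e = S ∧ (∀ f ∈ S, f ∉ P) ∧ ∀ f ∈ S, f ∈ N → f = e

structure Conf (v₀ : ℕ) (α P Q N : Finset (Sym2 V)) (T : Sym2 V → Finset (Sym2 V)) : Prop where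
  loop : ∀ e ∈ α, ¬ e.IsDiag
  un : α = P ∪ Q
  NQ : N ⊆ Q
  mem : ∀ e ∈ N, e ∈ T e
  irr : ∀ e ∈ N, Irr (T e)
  loopT : ∀ e ∈ N, ∀ f ∈ T e, ¬ f.IsDiag
  par : ∀ f, f ∈ Q ↔ Odd (N.filter fun e => f ∈ T e).card
  imp : ∀ S, IsBlock α S → (vs S).card ≤ v₀ → ¬ Pure P Q N T S

/-- closed sets of vertices -/
structure Cl (α P N : Finset (Sym2 V)) (T : Sym2 V → Finset (Sym2 V)) (R : Finset V) : Prop where
  sub : R ⊆ vs α
  clN : ∀ e ∈ N, ∀ u ∈ vs (T e) ∩ vs α, ∀ v ∈ vs (T e) ∩ vs α, u ∈ R → v ∈ R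
  clP : ∀ f ∈ P, ∀ u ∈ f, ∀ v ∈ f, u ∈ R → v ∈ R

/-- the edges inside `R` -/
def ins (A : Finset (Sym2 V)) (R : Finset V) : Finset (Sym2 V) := A.filter fun f => ∀ u ∈ f, u ∈ R

lemma mem_ins {A : Finset (Sym2 V)} {R : Finset V} {f : Sym2 V} :
    f ∈ ins A R ↔ f ∈ A ∧ ∀ u ∈ f, u ∈ R := mem_filter

noncomputable def fval (α P N : Finset (Sym2 V)) (T : Sym2 V → Finset (Sym2 V)) (R : Finset V) :
    ℕ :=
  rk (ins P R) + ∑ e ∈ ins N R, ((vs (T e) ∩ vs α).card - 1)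

/-- the subspaces of the connected piece -/
def fam (α P : Finset (Sym2 V)) (T : Sym2 V → Finset (Sym2 V)) (R : Finset V) :
    Option (Sym2 V) → Submodule (ZMod 2) (V → ZMod 2)
  | none => sp (ins P R)
  | some e => evn (vs (T e) ∩ vs α)

lemma single_self (u : V) : (Pi.single u 1 + Pi.single u 1 : V → ZMod 2) = 0 := by
  rw [← Pi.single_add]
  have : (1 : ZMod 2) + 1 = 0 := by decide
  rw [this, Pi.single_zero]

lemma single_trans (u v w : V) : (Pi.single v 1 + Pi.single w 1 : V → ZMod 2) =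
    (Pi.single u 1 + Pi.single v 1) + (Pi.single u 1 + Pi.single w 1) := by
  calc (Pi.single v 1 + Pi.single w 1 : V → ZMod 2) =
        (Pi.single u 1 + Pi.single u 1) + (Pi.single v 1 + Pi.single w 1) := by
          rw [single_self, zero_add]
    _ = _ := by abel

lemma exists_mem (e : Sym2 V) : ∃ u, u ∈ e := ⟨(Quot.out e).1, Sym2.out_fst_mem e⟩

section
variable {v₀ : ℕ} {α P Q N : Finset (Sym2 V)} {T : Sym2 V → Finset (Sym2 V)}

lemma Conf.N_sub (h : Conf v₀ α P Q N T) : N ⊆ α := fun e he =>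
  h.un ▸ mem_union_right P (h.NQ he)

lemma Conf.P_sub (h : Conf v₀ α P Q N T) : P ⊆ α := fun e he =>
  h.un ▸ mem_union_left Q he

/-- the ends of `e` are real vertices of `T e` -/
lemma Conf.ends (h : Conf v₀ α P Q N T) {e : Sym2 V} (he : e ∈ N) {u : V} (hu : u ∈ e) :
    u ∈ vs (T e) ∩ vs α :=
  mem_inter.2 ⟨mem_vs.2 ⟨e, h.mem e he, hu⟩, mem_vs.2 ⟨e, h.N_sub he, hu⟩⟩

lemma Conf.cover (h : Conf v₀ α P Q N T) {f : Sym2 V} (hf : f ∈ Q) : ∃ e ∈ N, f ∈ T e := by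
  have h1 := (h.par f).1 hf
  have h2 : (N.filter fun e => f ∈ T e).Nonempty := by
    rw [← Finset.card_pos]
    exact h1.pos
  obtain ⟨e, he⟩ := h2
  exact ⟨e, (mem_filter.1 he).1, (mem_filter.1 he).2⟩

lemma Cl.edge (h : Conf v₀ α P Q N T) {R : Finset V} (hR : Cl α P N T R) {f : Sym2 V}
    (hf : f ∈ α) {u v : V} (hu : u ∈ f) (hv : v ∈ f) (huR : u ∈ R) : v ∈ R := by
  have hf' := hf
  rw [h.un, mem_union] at hf'
  rcases hf' with h1 | h1
  · exact hR.clP f h1 u hu v hv huR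
  · obtain ⟨e, he, hfe⟩ := h.cover h1
    exact hR.clN e he u (mem_inter.2 ⟨mem_vs.2 ⟨f, hfe, hu⟩, mem_vs.2 ⟨f, hf, hu⟩⟩) v
      (mem_inter.2 ⟨mem_vs.2 ⟨f, hfe, hv⟩, mem_vs.2 ⟨f, hf, hv⟩⟩) huR

/-- members inside a closed set -/
lemma Cl.inN (h : Conf v₀ α P Q N T) {R : Finset V} (hR : Cl α P N T R) {e : Sym2 V}
    (he : e ∈ N) {u : V} (hu : u ∈ vs (T e) ∩ vs α) (huR : u ∈ R) : e ∈ ins N R :=
  mem_ins.2 ⟨he, fun v hv => hR.clN e he u hu v (h.ends he hv) huR⟩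

lemma Cl.inN_sub (h : Conf v₀ α P Q N T) {R : Finset V} (hR : Cl α P N T R) {e : Sym2 V}
    (he : e ∈ ins N R) : vs (T e) ∩ vs α ⊆ R := by
  obtain ⟨h1, h2⟩ := mem_ins.1 he
  obtain ⟨u, hu⟩ := exists_mem e
  exact fun v hv => hR.clN e h1 u (h.ends h1 hu) v hv (h2 u hu)

lemma conn (h : Conf v₀ α P Q N T) {R : Finset V} (hR : Cl α P N T R) (hne : R.Nonempty)
    (hmin : ∀ R₁, R₁ ⊆ R → Cl α P N T R₁ → R₁.Nonempty → R₁ = R) :
    evn R ≤ ⨆ i ∈ insertNone (ins N R), fam α P T R i := by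
  classical
  obtain ⟨u₀, hu₀⟩ := hne
  set K : Submodule (ZMod 2) (V → ZMod 2) := ⨆ i ∈ insertNone (ins N R), fam α P T R i with hK
  have hKn : sp (ins P R) ≤ K :=
    le_iSup₂_of_le (f := fun i (_ : i ∈ insertNone (ins N R)) => fam α P T R i) none
      (by simp) le_rfl
  have hKs : ∀ e ∈ ins N R, evn (vs (T e) ∩ vs α) ≤ K := fun e he =>
    le_iSup₂_of_le (f := fun i (_ : i ∈ insertNone (ins N R)) => fam α P T R i) (some e)
      (by simpa using he) le_rfl
  have hR₁ : R.filter (fun u => (Pi.single u 1 + Pi.single u₀ 1 : V → ZMod 2) ∈ K) = R := by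
    apply hmin _ (filter_subset _ _)
    · refine ⟨fun u hu => hR.sub (mem_filter.1 hu).1, ?_, ?_⟩
      · intro e he u hu v hv huR
        rw [mem_filter] at huR ⊢
        refine ⟨hR.clN e he u hu v hv huR.1, ?_⟩
        rw [single_trans u v u₀]
        refine add_mem (hKs e (hR.inN h he hu huR.1) ?_) huR.2
        have : evn ({u, v} : Finset V) ≤ evn (vs (T e) ∩ vs α) := evn_mono (by
          intro w hw
          rw [mem_insert, mem_singleton] at hw
          rcases hw with rfl | rfl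
          · exact hu
          · exact hv)
        apply this
        rw [← bd_mk]
        refine bd_mem_evn fun w hw => ?_
        rw [Sym2.mem_iff] at hw
        rw [mem_insert, mem_singleton]
        exact hw
      · intro f hf u hu v hv huR
        rw [mem_filter] at huR ⊢
        refine ⟨hR.clP f hf u hu v hv huR.1, ?_⟩
        by_cases huv : u = v
        · subst huv
          exact huR.2
        rw [single_trans u v u₀]
        refine add_mem (hKn ?_) huR.2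
        have hfe : f = s(u, v) := (Sym2.mem_and_mem_iff huv).1 ⟨hu, hv⟩
        rw [← bd_mk, ← hfe]
        apply bd_mem_sp
        exact mem_ins.2 ⟨hf, fun w hw => hR.clP f hf u hu w hw huR.1⟩
    · refine ⟨u₀, mem_filter.2 ⟨hu₀, ?_⟩⟩
      rw [single_self]
      exact zero_mem _
  refine evn_le u₀ fun u hu => ?_
  rw [← hR₁] at hu
  exact (mem_filter.1 hu).2

lemma sum_fam (R : Finset V) :
    ∑ i ∈ insertNone (ins N R), Module.finrank (ZMod 2) (fam α P T R i) = fval α P N T R := by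
  rw [Finset.sum_insertNone]
  unfold fval rk
  congr 1
  refine Finset.sum_congr rfl fun e _ => ?_
  show Module.finrank (ZMod 2) (evn (vs (T e) ∩ vs α)) = _
  exact finrank_evn' _

lemma conn_le (h : Conf v₀ α P Q N T) {R : Finset V} (hR : Cl α P N T R) (hne : R.Nonempty)
    (hmin : ∀ R₁, R₁ ⊆ R → Cl α P N T R₁ → R₁.Nonempty → R₁ = R) :
    R.card ≤ fval α P N T R + 1 := by
  have h1 := Submodule.finrank_mono (conn h hR hne hmin)
  have h2 := h1.trans (finrank_iSup_le _ _)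
  rw [sum_fam, finrank_evn'] at h2
  omega

lemma conn_ind (h : Conf v₀ α P Q N T) {R : Finset V} (hR : Cl α P N T R) (hne : R.Nonempty)
    (hmin : ∀ R₁, R₁ ⊆ R → Cl α P N T R₁ → R₁.Nonempty → R₁ = R)
    (hlt : fval α P N T R < R.card) : IndOn (insertNone (ins N R)) (fam α P T R) := by
  refine indOn_of_finrank (conn h hR hne hmin) ?_
  rw [sum_fam, finrank_evn']
  omega

end

end Pool.Agent.W988.LD
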