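import Pool.Agent.W988.LD.Core

/-! The weight lemma, second part. -/

set_option autoImplicit false
set_option linter.unusedSectionVars false

namespace Pool.Agent.W988.LD

open Finset Submodule

variable {V : Type} [Fintype V] [DecidableEq V]
variable {v₀ : ℕ} {α P Q N : Finset (Sym2 V)} {T : Sym2 V → Finset (Sym2 V)}

/-- the boundary vertices -/
def Bd (α : Finset (Sym2 V)) (T : Sym2 V → Finset (Sym2 V)) (e : Sym2 V) : Finset V :=
  (vs (T e) ∩ vs α).filter fun u => ∃ w, w ∉ vs α ∧ s(u, w) ∈ T e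

lemma two_le_Bd (h : Conf v₀ α P Q N T) {e : Sym2 V} (he : e ∈ N) (hx : ¬ vs (T e) ⊆ vs α) :
    2 ≤ (Bd α T e).card := by
  classical
  by_contra hcon
  have hcon : (Bd α T e).card ≤ 1 := by omega
  have h1 := (h.irr e he).2 ((T e).filter fun f => ∀ u ∈ f, u ∈ vs α)
    ((T e).filter fun f => ¬ ∀ u ∈ f, u ∈ vs α)
    (Finset.filter_union_filter_not_eq _ _) (Finset.disjoint_filter_filter_not _ _ _) (by
      rw [Submodule.disjoint_def]
      intro z hz hz'
      refine evn_inf (le_trans (Finset.card_le_card ?_) hcon) (sp_le_evn (Subset.refl _) hz)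
        (sp_le_evn (Subset.refl _) hz')
      intro v hv
      rw [mem_inter, mem_vs, mem_vs] at hv
      obtain ⟨⟨f, hf, hvf⟩, ⟨g, hg, hvg⟩⟩ := hv
      rw [mem_filter] at hf hg
      have hvα := hf.2 v hvf
      obtain ⟨hgT, hg2⟩ := hg
      push Not at hg2
      obtain ⟨w, hwg, hwα⟩ := hg2
      have hvw : v ≠ w := fun h2 => hwα (h2 ▸ hvα)
      have hge : g = s(v, w) := (Sym2.mem_and_mem_iff hvw).1 ⟨hvg, hwg⟩
      unfold Bd
      rw [mem_filter, mem_inter]
      exact ⟨⟨mem_vs.2 ⟨f, hf.1, hvf⟩, hvα⟩, w, hwα, hge ▸ hgT⟩)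
  rcases h1 with h1 | h1
  · have : e ∈ (T e).filter fun f => ∀ u ∈ f, u ∈ vs α :=
      mem_filter.2 ⟨h.mem e he, fun u hu => (mem_inter.1 (h.ends he hu)).2⟩
    rw [h1] at this
    exact absurd this (Finset.notMem_empty e)
  · apply hx
    intro v hv
    rw [mem_vs] at hv
    obtain ⟨f, hf, hvf⟩ := hv
    by_contra hvα
    have : f ∈ (T e).filter fun f => ¬ ∀ u ∈ f, u ∈ vs α :=
      mem_filter.2 ⟨hf, fun h2 => hvα (h2 v hvf)⟩
    rw [h1] at this
    exact absurd this (Finset.notMem_empty f)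

lemma no_extra (h : Conf v₀ α P Q N T) {R : Finset V} (hR : Cl α P N T R)
    (hind : IndOn (insertNone (ins N R)) (fam α P T R)) :
    ∀ e ∈ ins N R, vs (T e) ⊆ vs α := by
  classical
  by_contra hcon
  push Not at hcon
  obtain ⟨e₀, he₀, hx₀⟩ := hcon
  set F : Finset (Sym2 V) := (ins N R).filter fun e => ¬ vs (T e) ⊆ vs α with hF
  have hF₀ : e₀ ∈ F := mem_filter.2 ⟨he₀, hx₀⟩
  set U : Finset V := F.biUnion (Bd α T) with hU
  have hb2 : ∀ e ∈ F, 2 ≤ (Bd α T e).card := fun e he =>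
    two_le_Bd h (mem_ins.1 (mem_filter.1 he).1).1 (mem_filter.1 he).2
  -- every boundary vertex lies in two
  have hother : ∀ u ∈ U, 2 ≤ (F.filter fun e => u ∈ Bd α T e).card := by
    intro u hu
    rw [hU, mem_biUnion] at hu
    obtain ⟨e, heF, hue⟩ := hu
    have hue' := hue
    unfold Bd at hue
    rw [mem_filter] at hue
    obtain ⟨huA, w, hw, hfT⟩ := hue
    have heN := (mem_ins.1 (mem_filter.1 heF).1).1
    have hfQ : s(u, w) ∉ Q := fun h1 => hw (mem_vs.2 ⟨s(u, w), h.un ▸ mem_union_right P h1,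
      Sym2.mem_mk_right u w⟩)
    have heven : ¬ Odd (N.filter fun e => s(u, w) ∈ T e).card := fun h1 => hfQ ((h.par _).2 h1)
    rw [Nat.not_odd_iff_even] at heven
    have h1 : e ∈ N.filter fun e => s(u, w) ∈ T e := mem_filter.2 ⟨heN, hfT⟩
    have h2 : 1 < (N.filter fun e => s(u, w) ∈ T e).card := by
      have h3 : 0 < (N.filter fun e => s(u, w) ∈ T e).card := Finset.card_pos.2 ⟨e, h1⟩
      obtain ⟨m, hm⟩ := heven
      omega
    obtain ⟨e', he', hne⟩ := Finset.exists_mem_ne h2 e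
    rw [mem_filter] at he'
    have huR : u ∈ R := hR.inN_sub h (mem_filter.1 heF).1 huA
    have huA' : u ∈ vs (T e') ∩ vs α := mem_inter.2
      ⟨mem_vs.2 ⟨_, he'.2, Sym2.mem_mk_left u w⟩, (mem_inter.1 huA).2⟩
    have he'R := hR.inN h he'.1 huA' huR
    have he'F : e' ∈ F := mem_filter.2 ⟨he'R, fun h3 => hw (h3 (mem_vs.2 ⟨_, he'.2,
      Sym2.mem_mk_right u w⟩))⟩
    have hue'' : u ∈ Bd α T e' := by
      unfold Bd
      exact mem_filter.2 ⟨huA', w, hw, he'.2⟩
    exact Finset.one_lt_card.2 ⟨e', mem_filter.2 ⟨he'F, hue''⟩, e, mem_filter.2 ⟨heF, hue'⟩, hne⟩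
  -- double counting
  have hdc : 2 * U.card ≤ ∑ e ∈ F, (Bd α T e).card := by
    have h1 : ∑ e ∈ F, (Bd α T e).card = ∑ u ∈ U, (F.filter fun e => u ∈ Bd α T e).card := by
      have h2 : ∀ e ∈ F, (Bd α T e).card = ∑ u ∈ U, if u ∈ Bd α T e then 1 else 0 := by
        intro e he
        rw [← Finset.sum_filter, Finset.filter_mem_eq_inter, Finset.inter_eq_right.2
          (Finset.subset_biUnion_of_mem (Bd α T) he)]
        simp
      rw [Finset.sum_congr rfl h2, Finset.sum_comm]
      refine Finset.sum_congr rfl fun u _ => ?_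
      rw [Finset.card_filter]
    rw [h1, mul_comm]
    exact Finset.card_nsmul_le_sum U _ 2 hother
  -- independence
  have hind' : IndOn (F.map Function.Embedding.some)
      (fun i : Option (Sym2 V) => i.elim ⊥ fun e => evn (Bd α T e)) := by
    refine hind.mono ?_ ?_
    · intro i hi
      rw [mem_map] at hi
      obtain ⟨e, he, rfl⟩ := hi
      show some e ∈ _
      rw [Finset.mem_insertNone]
      intro a ha
      rw [Option.mem_some_iff] at ha
      exact ha ▸ (mem_filter.1 he).1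
    · intro i hi
      rw [mem_map] at hi
      obtain ⟨e, he, rfl⟩ := hi
      exact evn_mono (filter_subset _ _)
  have hle := finrank_le_of_indOn (K := evn U) (fun i hi => by
    rw [mem_map] at hi
    obtain ⟨e, he, rfl⟩ := hi
    exact evn_mono (Finset.subset_biUnion_of_mem (Bd α T) he)) hind'
  rw [Finset.sum_map] at hle
  have hle' : ∑ e ∈ F, ((Bd α T e).card - 1) ≤ U.card - 1 := by
    rw [← finrank_evn' U]
    refine le_trans (le_of_eq ?_) hle
    refine Finset.sum_congr rfl fun e _ => ?_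
    exact (finrank_evn' _).symm
  have h2 : ∑ e ∈ F, (Bd α T e).card ≤ 2 * ∑ e ∈ F, ((Bd α T e).card - 1) := by
    rw [Finset.mul_sum]
    refine Finset.sum_le_sum fun e he => ?_
    have := hb2 e he
    omega
  have hUpos : 0 < U.card := by
    rw [Finset.card_pos]
    have h3 : (Bd α T e₀).Nonempty := by
      rw [← Finset.card_pos]
      have := hb2 e₀ hF₀
      omega
    obtain ⟨u, hu⟩ := h3
    exact ⟨u, mem_biUnion.2 ⟨e₀, hF₀, hu⟩⟩
  omega

lemma pure_of_ind (h : Conf v₀ α P Q N T) {R : Finset V} (hR : Cl α P N T R)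
    (hind : IndOn (insertNone (ins N R)) (fam α P T R)) {S : Finset (Sym2 V)}
    (hS : IsBlock α S) (hSR : vs S ⊆ R) : Pure P Q N T S := by
  classical
  have hne := no_extra h hR hind
  have hreal : ∀ e ∈ ins N R, ∀ f ∈ T e, ∀ u ∈ f, u ∈ vs (T e) ∩ vs α := by
    intro e he f hf u hu
    have h1 : u ∈ vs (T e) := mem_vs.2 ⟨f, hf, hu⟩
    exact mem_inter.2 ⟨h1, hne e he h1⟩
  have hinR : ∀ e ∈ ins N R, ∀ f ∈ T e, ∀ u ∈ f, u ∈ R := fun e he f hf u hu =>
    hR.inN_sub h he (hreal e he f hf u hu)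
  have hin : ∀ e ∈ ins N R, some e ∈ insertNone (ins N R) := by
    intro e he
    rw [Finset.mem_insertNone]
    intro a ha
    rw [Option.mem_some_iff] at ha
    exact ha ▸ he
  have hnone : none ∈ insertNone (ins N R) := by simp
  have huniq : ∀ e ∈ ins N R, ∀ f ∈ T e, ∀ e' ∈ N, f ∈ T e' → e' = e := by
    intro e he f hf e' he' hf'
    by_contra hcon
    obtain ⟨u, hu⟩ := exists_mem f
    have he'R : e' ∈ ins N R := hR.inN h he' (mem_inter.2 ⟨mem_vs.2 ⟨f, hf', hu⟩,
      (mem_inter.1 (hreal e he f hf u hu)).2⟩) (hinR e he f hf u hu)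
    exact bd_ne_zero (h.loopT e (mem_ins.1 he).1 f hf) (hind.two (hin e' he'R) (hin e he)
      (fun h1 => hcon (Option.some.inj h1)) (bd_mem_evn (hreal e' he'R f hf'))
      (bd_mem_evn (hreal e he f hf)))
  have hnotP : ∀ e ∈ ins N R, ∀ f ∈ T e, f ∉ P := by
    intro e he f hf hfP
    exact bd_ne_zero (h.loopT e (mem_ins.1 he).1 f hf) (hind.two hnone (hin e he)
      (by simp) (bd_mem_sp (mem_ins.2 ⟨hfP, hinR e he f hf⟩)) (bd_mem_evn (hreal e he f hf)))
  have hinQ : ∀ e ∈ ins N R, ∀ f ∈ T e, f ∈ Q := by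
    intro e he f hf
    rw [h.par]
    have h1 : (N.filter fun e' => f ∈ T e') = {e} := by
      ext e'
      rw [mem_filter, mem_singleton]
      constructor
      · rintro ⟨h2, h3⟩
        exact huniq e he f hf e' h2 h3
      · rintro rfl
        exact ⟨(mem_ins.1 he).1, hf⟩
    rw [h1, Finset.card_singleton]
    exact odd_one
  by_cases hSQ : Disjoint S Q
  · exact Or.inl hSQ
  right
  rw [Finset.not_disjoint_iff] at hSQ
  obtain ⟨f, hfS, hfQ⟩ := hSQ
  obtain ⟨e, heN, hfe⟩ := h.cover hfQ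
  have heR : e ∈ ins N R := by
    obtain ⟨u, hu⟩ := exists_mem f
    exact hR.inN h heN (mem_inter.2 ⟨mem_vs.2 ⟨f, hfe, hu⟩, mem_vs.2 ⟨f, hS.1 hfS, hu⟩⟩)
      (hSR (mem_vs.2 ⟨f, hfS, hu⟩))
  have hTα : T e ⊆ α := fun g hg => h.un ▸ mem_union_right P (hinQ e heR g hg)
  have hTS : T e ⊆ S := (h.irr e heN).subset_block hTα hS hfe hfS
  have hTeq : T e = S := by
    have h1 := hS.2.1.2 (T e) (S \ T e) (Finset.union_sdiff_of_subset hTS)
      Finset.disjoint_sdiff (by
        rw [Submodule.disjoint_def]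
        intro z hz hz'
        refine hind.rest (hin e heR) (sp_le_evn ?_ hz) ?_
        · intro u hu
          rw [mem_vs] at hu
          obtain ⟨g, hg, hug⟩ := hu
          exact hreal e heR g hg u hug
        · have h2 : sp (S \ T e) ≤ ⨆ j ∈ (insertNone (ins N R)).erase (some e), fam α P T R j := by
            unfold sp
            rw [span_le]
            rintro _ ⟨g, hg, rfl⟩
            have hg' : g ∈ S \ T e := by exact_mod_cast hg
            rw [mem_sdiff] at hg'
            obtain ⟨hgS, hgT⟩ := hg'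
            have hgR : ∀ u ∈ g, u ∈ R := fun u hu => hSR (mem_vs.2 ⟨g, hgS, hu⟩)
            have hgα := hS.1 hgS
            rw [h.un, mem_union] at hgα
            rcases hgα with hgP | hgQ
            · exact (le_iSup₂_of_le (f := fun i (_ : i ∈ (insertNone (ins N R)).erase (some e)) =>
                fam α P T R i) none (mem_erase.2 ⟨by simp, hnone⟩) le_rfl)
                (bd_mem_sp (mem_ins.2 ⟨hgP, hgR⟩))
            · obtain ⟨e', he'N, hge'⟩ := h.cover hgQ
              have he'R : e' ∈ ins N R := by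
                obtain ⟨u, hu⟩ := exists_mem g
                exact hR.inN h he'N (mem_inter.2 ⟨mem_vs.2 ⟨g, hge', hu⟩,
                  mem_vs.2 ⟨g, hS.1 hgS, hu⟩⟩) (hgR u hu)
              have hne' : e' ≠ e := fun h3 => hgT (h3 ▸ hge')
              exact (le_iSup₂_of_le (f := fun i (_ : i ∈ (insertNone (ins N R)).erase (some e)) =>
                fam α P T R i) (some e') (mem_erase.2
                  ⟨fun h3 => hne' (Option.some.inj h3), hin e' he'R⟩) le_rfl)
                (bd_mem_evn (hreal e' he'R g hge'))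
          exact h2 hz')
    rcases h1 with h1 | h1
    · rw [h1] at hfe
      exact absurd hfe (Finset.notMem_empty f)
    · exact Subset.antisymm hTS (sdiff_eq_empty_iff_subset.1 h1)
  refine ⟨e, hTeq ▸ h.mem e heN, heN, hTeq, ?_, ?_⟩
  · intro g hg
    exact hnotP e heR g (hTeq ▸ hg)
  · intro g hg hgN
    have h1 : g ∈ T e := hTeq ▸ hg
    exact huniq e heR g h1 g hgN (h.mem g hgN)

end Pool.Agent.W988.LD
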