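import Pool.Agent.W988.LD.Tail

/-! The distribution and the duality. -/

set_option autoImplicit false
set_option linter.unusedSectionVars false

namespace Pool.Agent.W988.LD

open Finset Submodule

variable {V : Type} [Fintype V] [DecidableEq V]

/-! ### characters -/

lemma avg_chi_mul (α β : Finset (Sym2 V)) :
    avg (fun x : Sym2 V → Bool => chi x α * chi x β) = if α = β then 1 else 0 := by
  classical
  have h1 : ∀ x : Sym2 V → Bool, chi x α * chi x β =
      ∏ f, ((if f ∈ α then sg (x f) else 1) * (if f ∈ β then sg (x f) else 1)) := by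
    intro x
    unfold chi
    rw [Finset.prod_mul_distrib, Finset.prod_ite_mem, Finset.prod_ite_mem, Finset.univ_inter,
      Finset.univ_inter]
  simp only [h1]
  rw [avg_prod (fun f b => (if f ∈ α then sg b else 1) * (if f ∈ β then sg b else 1))]
  have h2 : sg true = 1 := rfl
  have h3 : sg false = -1 := rfl
  split_ifs with h
  · subst h
    refine Finset.prod_eq_one fun f _ => ?_
    rw [h2, h3]
    split_ifs <;> norm_num
  · have h4 : ∃ f, ¬ (f ∈ α ↔ f ∈ β) := by
      by_contra hcon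
      push Not at hcon
      exact h (Finset.ext hcon)
    obtain ⟨f, hf⟩ := h4
    refine Finset.prod_eq_zero (mem_univ f) ?_
    rw [h2, h3]
    by_cases h5 : f ∈ α
    · have h6 : f ∉ β := fun h6 => hf ⟨fun _ => h6, fun _ => h5⟩
      rw [if_pos h5, if_neg h6, if_pos h5, if_neg h6]
      norm_num
    · have h6 : f ∈ β := by
        by_contra h6
        exact hf ⟨fun h7 => absurd h7 h5, fun h7 => absurd h7 h6⟩
      rw [if_neg h5, if_pos h6, if_neg h5, if_pos h6]
      norm_num

lemma avg_density (g : Sym2 V → ℝ) (α : Finset (Sym2 V)) :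
    avg (fun x : Sym2 V → Bool => chi x α * ∏ e, (1 + sg (x e) * g e)) = ∏ e ∈ α, g e := by
  classical
  have h1 : ∀ x : Sym2 V → Bool, chi x α * ∏ e, (1 + sg (x e) * g e) =
      ∏ f, ((if f ∈ α then sg (x f) else 1) * (1 + sg (x f) * g f)) := by
    intro x
    unfold chi
    rw [Finset.prod_mul_distrib, Finset.prod_ite_mem, Finset.univ_inter]
  simp only [h1]
  rw [avg_prod (fun f b => (if f ∈ α then sg b else 1) * (1 + sg b * g f))]
  have h2 : sg true = 1 := rfl
  have h3 : sg false = -1 := rfl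
  rw [← Finset.prod_subset (subset_univ α)]
  · refine Finset.prod_congr rfl fun f hf => ?_
    rw [h2, h3, if_pos hf, if_pos hf]
    ring
  · intro f _ hf
    rw [h2, h3, if_neg hf, if_neg hf]
    ring

variable {K : Type} [AddCommGroup K] [Fintype K] [DecidableEq K]

/-! ### the truncated means -/

open Classical in
/-- the truncated conditional mean -/
noncomputable def gt (v₀ : ℕ) (ρ q : ℝ) (σ : V → K) (Y : Sym2 V → Bool) (e : Sym2 V) : ℝ :=
  if e.IsDiag then 0 else W σ e + ρ * (1 + W σ e) *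
    (if ∀ f : Sym2 V, ¬ f.IsDiag → |hh K v₀ ρ q Y f| ≤ 1 - q
      then q * sg (Y e) + hh K v₀ ρ q Y e else 0)

lemma W_one (hk : 2 ≤ Fintype.card K) {σ : V → K} {e : Sym2 V} (h : sm σ e = 1) :
    W σ e = -1 := by
  have hkR : (2 : ℝ) ≤ Fintype.card K := by exact_mod_cast hk
  have h1 : (Fintype.card K : ℝ) - 1 ≠ 0 := by linarith
  have h2 : (Fintype.card K : ℝ) ≠ 0 := by linarith
  unfold W
  rw [h]
  field_simp

lemma W_zero (hk : 2 ≤ Fintype.card K) {σ : V → K} {e : Sym2 V} (h : sm σ e = 0) :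
    W σ e = 1 / (Fintype.card K - 1) := by
  have hkR : (2 : ℝ) ≤ Fintype.card K := by exact_mod_cast hk
  have h1 : (Fintype.card K : ℝ) - 1 ≠ 0 := by linarith
  have h2 : (Fintype.card K : ℝ) ≠ 0 := by linarith
  unfold W
  rw [h]
  field_simp
  ring

variable (K) in
/-- the value of `ρ` -/
noncomputable def rho : ℝ := ((Fintype.card K : ℝ) - 2) / Fintype.card K

lemma mean_abs (hk : 3 ≤ Fintype.card K) (σ : V → K) (e : Sym2 V) :
    |W σ e| ≤ 1 ∧ |rho K * (1 + W σ e)| ≤ 1 ∧ ∀ z : ℝ, |z| ≤ 1 →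
      |W σ e + rho K * (1 + W σ e) * z| ≤ 1 := by
  have hkR : (3 : ℝ) ≤ Fintype.card K := by exact_mod_cast hk
  have h1 : (0 : ℝ) < Fintype.card K - 1 := by linarith
  have h2 : (0 : ℝ) < Fintype.card K := by linarith
  rcases sm_zero_or σ e with h | h
  · rw [W_zero (by omega) h]
    have h3 : rho K * (1 + 1 / ((Fintype.card K : ℝ) - 1)) =
        ((Fintype.card K : ℝ) - 2) / (Fintype.card K - 1) := by
      unfold rho
      field_simp
      ring
    rw [h3]
    refine ⟨?_, ?_, ?_⟩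
    · rw [abs_of_nonneg (by positivity), div_le_one h1]
      linarith
    · rw [abs_of_nonneg (div_nonneg (by linarith) h1.le), div_le_one h1]
      linarith
    · intro z hz
      have h4 : 1 / ((Fintype.card K : ℝ) - 1) + ((Fintype.card K : ℝ) - 2) /
          (Fintype.card K - 1) * z = (1 + ((Fintype.card K : ℝ) - 2) * z) /
            (Fintype.card K - 1) := by
        field_simp
      rw [h4, abs_div, abs_of_pos h1, div_le_one h1, abs_le]
      rw [abs_le] at hz
      constructor <;> nlinarith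
  · rw [W_one (by omega) h]
    refine ⟨by norm_num, by norm_num, fun z _ => by norm_num⟩

lemma gt_abs (hk : 3 ≤ Fintype.card K) (v₀ : ℕ) {q : ℝ} (hq0 : 0 ≤ q)
    (σ : V → K) (Y : Sym2 V → Bool) (e : Sym2 V) : |gt v₀ (rho K) q σ Y e| ≤ 1 := by
  classical
  unfold gt
  split_ifs with h1 h2
  · norm_num
  · apply (mean_abs hk σ e).2.2
    have h3 : |q * sg (Y e)| ≤ q := by
      cases Y e <;> simp [sg, abs_of_nonneg hq0]
    calc |q * sg (Y e) + hh K v₀ (rho K) q Y e| ≤ |q * sg (Y e)| + |hh K v₀ (rho K) q Y e| :=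
          abs_add_le _ _
      _ ≤ q + (1 - q) := add_le_add h3 (h2 e h1)
      _ = 1 := by ring
  · apply (mean_abs hk σ e).2.2
    norm_num

lemma gt_one (hk : 3 ≤ Fintype.card K) (v₀ : ℕ) (q : ℝ) {σ : V → K} (Y : Sym2 V → Bool)
    {e : Sym2 V} (he : ¬ e.IsDiag) (h : sm σ e = 1) : gt v₀ (rho K) q σ Y e = -1 := by
  classical
  unfold gt
  rw [if_neg he, W_one (by omega) h]
  ring

variable (K) in
/-- the moments of the distribution -/
noncomputable def MM (v₀ : ℕ) (q : ℝ) (α : Finset (Sym2 V)) : ℝ :=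
  avg fun σ : V → K => avg fun Y => ∏ e ∈ α, gt v₀ (rho K) q σ Y e

/-- the graph of a bit vector -/
def gr (x : Sym2 V → Bool) : SimpleGraph V where
  Adj u v := u ≠ v ∧ x s(u, v) = true
  symm := ⟨fun u v h => ⟨h.1.symm, by rw [Sym2.eq_swap]; exact h.2⟩⟩
  loopless := ⟨fun u h => h.1 rfl⟩

/-- **Duality.** -/
theorem duality (hk : 3 ≤ Fintype.card K) (v₀ : ℕ) {q : ℝ} (hq0 : 0 ≤ q)
    (𝒜 : Finset (Finset (Sym2 V))) (c : Finset (Sym2 V) → ℝ) (F : (Sym2 V → Bool) → ℝ)
    (hF : ∀ x, F x = ∑ α ∈ 𝒜, c α * chi x α)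
    (hF1 : ∀ x, (gr x).Colorable (Fintype.card K) → 1 ≤ F x) (hF0 : avg F = 0) :
    1 ≤ avg (fun x => F x ^ 2) * ∑ α ∈ 𝒜.erase ∅, MM K v₀ q α ^ 2 := by
  classical
  -- the pairing
  have h1 : (1 : ℝ) ≤ ∑ α ∈ 𝒜, c α * MM K v₀ q α := by
    have h2 : ∀ (σ : V → K) (Y : Sym2 V → Bool),
        (1 : ℝ) ≤ avg fun x => F x * ∏ e, (1 + sg (x e) * gt v₀ (rho K) q σ Y e) := by
      intro σ Y
      have h3 : avg (fun x : Sym2 V → Bool => ∏ e, (1 + sg (x e) * gt v₀ (rho K) q σ Y e)) =
          1 := by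
        have h4 := avg_density (gt v₀ (rho K) q σ Y) ∅
        rw [Finset.prod_empty] at h4
        refine Eq.trans ?_ h4
        congr 1
        funext x
        simp [chi]
      refine (le_of_eq h3.symm).trans (avg_mono fun x => ?_)
      have hnn : 0 ≤ ∏ e, (1 + sg (x e) * gt v₀ (rho K) q σ Y e) := by
        refine Finset.prod_nonneg fun e _ => ?_
        have h4 := gt_abs hk v₀ hq0 σ Y e
        rw [abs_le] at h4
        cases x e
        · simp only [sg, Bool.false_eq_true, if_false]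
          linarith
        · simp only [sg, if_true]
          linarith
      by_cases hz : ∏ e, (1 + sg (x e) * gt v₀ (rho K) q σ Y e) = 0
      · rw [hz, mul_zero]
      · refine le_mul_of_one_le_left hnn (hF1 x ?_)
        have hcol : ∀ {u v : V}, (gr x).Adj u v → σ u ≠ σ v := by
          intro u v huv heq
          apply hz
          refine Finset.prod_eq_zero (mem_univ s(u, v)) ?_
          have h4 : sm σ s(u, v) = 1 := by rw [sm_mk, if_pos heq]
          have h5 : ¬ (s(u, v) : Sym2 V).IsDiag := by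
            rw [Sym2.mk_isDiag_iff]
            exact huv.1
          rw [gt_one hk v₀ q Y h5 h4, huv.2]
          simp [sg]
        exact (SimpleGraph.Coloring.mk σ hcol).colorable
    have h3 : (1 : ℝ) ≤ avg fun σ : V → K => avg fun Y : Sym2 V → Bool =>
        avg fun x => F x * ∏ e, (1 + sg (x e) * gt v₀ (rho K) q σ Y e) := by
      have : Nonempty K := ⟨0⟩
      calc (1 : ℝ) = avg fun _ : V → K => (1 : ℝ) := (avg_const 1).symm
        _ ≤ _ := avg_mono fun σ => by
          calc (1 : ℝ) = avg fun _ : Sym2 V → Bool => (1 : ℝ) := (avg_const 1).symm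
            _ ≤ _ := avg_mono fun Y => h2 σ Y
    refine h3.trans (le_of_eq ?_)
    have h4 : ∀ (σ : V → K) (Y : Sym2 V → Bool),
        (avg fun x => F x * ∏ e, (1 + sg (x e) * gt v₀ (rho K) q σ Y e)) =
          ∑ α ∈ 𝒜, c α * ∏ e ∈ α, gt v₀ (rho K) q σ Y e := by
      intro σ Y
      have h5 : ∀ x, F x * ∏ e, (1 + sg (x e) * gt v₀ (rho K) q σ Y e) =
          ∑ α ∈ 𝒜, c α * (chi x α * ∏ e, (1 + sg (x e) * gt v₀ (rho K) q σ Y e)) := by
        intro x
        rw [hF, Finset.sum_mul]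
        exact Finset.sum_congr rfl fun α _ => by ring
      simp only [h5]
      rw [avg_sum]
      refine Finset.sum_congr rfl fun α _ => ?_
      rw [avg_mul_left, avg_density]
    simp only [h4]
    simp only [avg_sum, avg_mul_left]
    rfl
  -- the coefficients
  have hc : ∀ β ∈ 𝒜, avg (fun x => F x * chi x β) = c β := by
    intro β hβ
    simp only [hF, Finset.sum_mul]
    rw [avg_sum, Finset.sum_eq_single β]
    · have : ∀ x : Sym2 V → Bool, c β * chi x β * chi x β = c β * (chi x β * chi x β) :=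
        fun x => by ring
      simp only [this]
      rw [avg_mul_left, avg_chi_mul, if_pos rfl, mul_one]
    · intro α _ hne
      have : ∀ x : Sym2 V → Bool, c α * chi x α * chi x β = c α * (chi x α * chi x β) :=
        fun x => by ring
      simp only [this]
      rw [avg_mul_left, avg_chi_mul, if_neg hne, mul_zero]
    · intro h
      exact absurd hβ h
  have hsq : avg (fun x => F x ^ 2) = ∑ α ∈ 𝒜, c α ^ 2 := by
    have h2 : ∀ x, F x ^ 2 = ∑ α ∈ 𝒜, c α * (F x * chi x α) := by
      intro x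
      have h3 : F x ^ 2 = F x * ∑ α ∈ 𝒜, c α * chi x α := by rw [← hF, sq]
      rw [h3, Finset.mul_sum]
      exact Finset.sum_congr rfl fun α _ => by ring
    simp only [h2]
    rw [avg_sum]
    refine Finset.sum_congr rfl fun α hα => ?_
    rw [avg_mul_left, hc α hα, sq]
  have hempty : ∅ ∈ 𝒜 → c ∅ = 0 := by
    intro h
    rw [← hc ∅ h, ← hF0]
    congr 1
    funext x
    simp [chi]
  have h2 : (1 : ℝ) ≤ ∑ α ∈ 𝒜.erase ∅, c α * MM K v₀ q α := by
    by_cases h : ∅ ∈ 𝒜
    · rw [← Finset.add_sum_erase 𝒜 _ h, hempty h, zero_mul, zero_add] at h1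
      exact h1
    · rwa [Finset.erase_eq_of_notMem h]
  have h3 := Finset.sum_mul_sq_le_sq_mul_sq (𝒜.erase ∅) c (MM K v₀ q)
  have h4 : ∑ α ∈ 𝒜.erase ∅, c α ^ 2 ≤ avg (fun x => F x ^ 2) := by
    rw [hsq]
    exact Finset.sum_le_sum_of_subset_of_nonneg (Finset.erase_subset _ _) fun _ _ _ => sq_nonneg _
  calc (1 : ℝ) ≤ (∑ α ∈ 𝒜.erase ∅, c α * MM K v₀ q α) ^ 2 := by nlinarith
    _ ≤ (∑ α ∈ 𝒜.erase ∅, c α ^ 2) * ∑ α ∈ 𝒜.erase ∅, MM K v₀ q α ^ 2 := h3
    _ ≤ _ := mul_le_mul_of_nonneg_right h4 (Finset.sum_nonneg fun _ _ => sq_nonneg _)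

end Pool.Agent.W988.LD
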