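import Pool.Agent.W988.LD.Lin

/-! Independent families of subspaces. -/

set_option autoImplicit false
set_option linter.unusedSectionVars false

namespace Pool.Agent.W988.LD

open Finset Submodule

section ind

variable {W : Type} [AddCommGroup W] [Module (ZMod 2) W] [Module.Finite (ZMod 2) W]
variable {ι : Type} [DecidableEq ι]

/-- independence of the subspaces with index in `s` -/
def IndOn (s : Finset ι) (M : ι → Submodule (ZMod 2) W) : Prop :=
  ∀ z : ι → W, (∀ i ∈ s, z i ∈ M i) → ∑ i ∈ s, z i = 0 → ∀ i ∈ s, z i = 0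

/-- the sum map -/
noncomputable def tot (s : Finset ι) (M : ι → Submodule (ZMod 2) W) :
    ((i : {i // i ∈ s}) → M i.1) →ₗ[ZMod 2] W :=
  ∑ i : {i // i ∈ s}, (M i.1).subtype ∘ₗ LinearMap.proj i

lemma tot_apply (s : Finset ι) (M : ι → Submodule (ZMod 2) W)
    (z : (i : {i // i ∈ s}) → M i.1) : tot s M z = ∑ i, (z i : W) := by
  unfold tot
  rw [LinearMap.sum_apply]
  rfl

lemma finrank_dom (s : Finset ι) (M : ι → Submodule (ZMod 2) W) :
    Module.finrank (ZMod 2) ((i : {i // i ∈ s}) → M i.1) =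
      ∑ i ∈ s, Module.finrank (ZMod 2) (M i) := by
  rw [Module.finrank_pi_fintype]
  exact Finset.sum_coe_sort s fun i => Module.finrank (ZMod 2) (M i)

lemma le_range_tot (s : Finset ι) (M : ι → Submodule (ZMod 2) W) :
    (⨆ i ∈ s, M i) ≤ LinearMap.range (tot s M) := by
  refine iSup₂_le fun i hi z hz => ?_
  refine ⟨Pi.single ⟨i, hi⟩ ⟨z, hz⟩, ?_⟩
  rw [tot_apply, Finset.sum_eq_single (⟨i, hi⟩ : {i // i ∈ s})]
  · rw [Pi.single_eq_same]
  · intro j _ hj
    rw [Pi.single_eq_of_ne hj]
    rfl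
  · intro h
    exact absurd (mem_univ _) h

lemma range_tot_le (s : Finset ι) (M : ι → Submodule (ZMod 2) W) :
    LinearMap.range (tot s M) ≤ (⨆ i ∈ s, M i) := by
  rintro _ ⟨z, rfl⟩
  rw [tot_apply]
  exact sum_mem fun i _ => (le_iSup₂_of_le (f := fun i (_ : i ∈ s) => M i) i.1 i.2 le_rfl) (z i).2

lemma finrank_iSup_le (s : Finset ι) (M : ι → Submodule (ZMod 2) W) :
    Module.finrank (ZMod 2) (⨆ i ∈ s, M i : Submodule (ZMod 2) W) ≤
      ∑ i ∈ s, Module.finrank (ZMod 2) (M i) := by
  rw [← finrank_dom]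
  exact (Submodule.finrank_mono (le_range_tot s M)).trans (LinearMap.finrank_range_le _)

lemma indOn_of_finrank {s : Finset ι} {M : ι → Submodule (ZMod 2) W}
    {K : Submodule (ZMod 2) W} (hK : K ≤ ⨆ i ∈ s, M i)
    (h : ∑ i ∈ s, Module.finrank (ZMod 2) (M i) ≤ Module.finrank (ZMod 2) K) : IndOn s M := by
  have h1 := LinearMap.finrank_range_add_finrank_ker (tot s M)
  have h2 : Module.finrank (ZMod 2) K ≤ Module.finrank (ZMod 2) (LinearMap.range (tot s M)) :=
    Submodule.finrank_mono (hK.trans (le_range_tot s M))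
  rw [finrank_dom] at h1
  have h3 : Module.finrank (ZMod 2) (LinearMap.ker (tot s M)) = 0 := by omega
  rw [Submodule.finrank_eq_zero] at h3
  intro z hz hsum i hi
  have h4 : (fun j : {i // i ∈ s} => (⟨z j.1, hz j.1 j.2⟩ : M j.1)) ∈ LinearMap.ker (tot s M) := by
    rw [LinearMap.mem_ker, tot_apply]
    rw [← hsum]
    exact Finset.sum_coe_sort s z
  rw [h3, mem_bot] at h4
  have h5 := congrFun h4 ⟨i, hi⟩
  exact congrArg Subtype.val h5

lemma finrank_le_of_indOn {s : Finset ι} {M : ι → Submodule (ZMod 2) W}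
    {K : Submodule (ZMod 2) W} (hM : ∀ i ∈ s, M i ≤ K) (h : IndOn s M) :
    ∑ i ∈ s, Module.finrank (ZMod 2) (M i) ≤ Module.finrank (ZMod 2) K := by
  rw [← finrank_dom]
  have hinj : LinearMap.ker (tot s M) = ⊥ := by
    rw [eq_bot_iff]
    intro z hz
    rw [mem_bot]
    rw [LinearMap.mem_ker, tot_apply] at hz
    have h1 := h (fun i => if hi : i ∈ s then (z ⟨i, hi⟩ : W) else 0)
      (fun i hi => by rw [dif_pos hi]; exact (z ⟨i, hi⟩).2) (by
        rw [← hz, ← Finset.sum_coe_sort s]
        exact Finset.sum_congr rfl fun i _ => dif_pos i.2)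
    funext i
    have h2 := h1 i.1 i.2
    rw [dif_pos i.2] at h2
    exact Subtype.ext h2
  have h1 := LinearMap.finrank_range_of_inj (LinearMap.ker_eq_bot.1 hinj)
  rw [← h1]
  refine Submodule.finrank_mono ((range_tot_le s M).trans (iSup₂_le hM))

lemma IndOn.mono {s t : Finset ι} {M M' : ι → Submodule (ZMod 2) W} (h : IndOn s M)
    (hts : t ⊆ s) (hM : ∀ i ∈ t, M' i ≤ M i) : IndOn t M' := by
  intro z hz hsum i hi
  have h1 := h (fun i => if i ∈ t then z i else 0) (fun i _ => by
    split_ifs with h2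
    · exact hM i h2 (hz i h2)
    · exact zero_mem _) (by
      have h2 : ∑ i ∈ s, (if i ∈ t then z i else 0) = ∑ i ∈ t, z i := by
        rw [← Finset.sum_subset hts (fun i _ hi => if_neg hi)]
        exact Finset.sum_congr rfl fun i hi => if_pos hi
      rw [h2, hsum]) i (hts hi)
  rwa [if_pos hi] at h1

/-- two members meet in zero -/
lemma IndOn.two {s : Finset ι} {M : ι → Submodule (ZMod 2) W} (h : IndOn s M) {i j : ι}
    (hi : i ∈ s) (hj : j ∈ s) (hij : i ≠ j) {z : W} (hzi : z ∈ M i) (hzj : z ∈ M j) : z = 0 := by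
  have h1 := h (fun l => if l = i then z else if l = j then z else 0) (fun l _ => by
    by_cases h2 : l = i
    · subst h2
      rwa [if_pos rfl]
    · rw [if_neg h2]
      by_cases h3 : l = j
      · subst h3
        rwa [if_pos rfl]
      · rw [if_neg h3]
        exact zero_mem _) (by
      rw [← Finset.add_sum_erase s _ hi, ← Finset.add_sum_erase (s.erase i) _
        (mem_erase.2 ⟨Ne.symm hij, hj⟩), if_pos rfl, if_neg (Ne.symm hij), if_pos rfl,
        Finset.sum_eq_zero, add_zero]
      · have h2 : z + z = (2 : ZMod 2) • z := by rw [two_smul]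
        rw [h2]
        have : (2 : ZMod 2) = 0 := by decide
        rw [this, zero_smul]
      · intro l hl
        rw [mem_erase, mem_erase] at hl
        rw [if_neg hl.2.1, if_neg hl.1]) i hi
  rwa [if_pos rfl] at h1

/-- a member meets the sum of the others in zero -/
lemma IndOn.rest {s : Finset ι} {M : ι → Submodule (ZMod 2) W} (h : IndOn s M) {i : ι}
    (hi : i ∈ s) {z : W} (hzi : z ∈ M i) (hz : z ∈ ⨆ j ∈ s.erase i, M j) : z = 0 := by
  have h0 := (le_range_tot (s.erase i) M) hz
  obtain ⟨y, hy⟩ := h0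
  rw [tot_apply] at hy
  have h1 := h (fun l => if l = i then z else if hl : l ∈ s.erase i then (y ⟨l, hl⟩ : W) else 0)
    (fun l hl => by
      by_cases h2 : l = i
      · subst h2
        rwa [if_pos rfl]
      · rw [if_neg h2]
        have h3 : l ∈ s.erase i := mem_erase.2 ⟨h2, hl⟩
        rw [dif_pos h3]
        exact (y ⟨l, h3⟩).2) (by
      rw [← Finset.add_sum_erase s _ hi, if_pos rfl]
      have h2 : ∑ l ∈ s.erase i, (if l = i then z else if hl : l ∈ s.erase i then
          (y ⟨l, hl⟩ : W) else 0) = z := by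
        rw [← hy, ← Finset.sum_coe_sort (s.erase i)]
        refine Finset.sum_congr rfl fun l _ => ?_
        have h3 : l.1 ≠ i := (mem_erase.1 l.2).1
        rw [if_neg h3, dif_pos l.2]
      rw [h2]
      have h3 : z + z = (2 : ZMod 2) • z := by rw [two_smul]
      rw [h3]
      have : (2 : ZMod 2) = 0 := by decide
      rw [this, zero_smul]) i hi
  rwa [if_pos rfl] at h1

end ind

end Pool.Agent.W988.LD
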