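import Mathlib

/-! Boundaries of edges, ranks, irreducible edge sets and blocks. -/

set_option autoImplicit false
set_option linter.unusedSectionVars false

namespace Pool.Agent.W988.LD

open Finset Submodule

variable {V : Type} [Fintype V] [DecidableEq V]

/-- the boundary of an edge, over the field with two elements -/
def bd (e : Sym2 V) : V → ZMod 2 :=
  Sym2.lift ⟨fun u v => Pi.single u 1 + Pi.single v 1, fun _ _ => add_comm _ _⟩ e

@[simp] lemma bd_mk (u v : V) : bd s(u, v) = Pi.single u 1 + Pi.single v 1 := rfl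

/-- the span of the boundaries -/
def sp (A : Finset (Sym2 V)) : Submodule (ZMod 2) (V → ZMod 2) :=
  span (ZMod 2) (bd '' (A : Set (Sym2 V)))

/-- the rank -/
noncomputable def rk (A : Finset (Sym2 V)) : ℕ := Module.finrank (ZMod 2) (sp A)

/-- the vertices of the edges -/
def vs (A : Finset (Sym2 V)) : Finset V := univ.filter fun v => ∃ e ∈ A, v ∈ e

/-- the vectors with support in `h` and even sum -/
def evn (h : Finset V) : Submodule (ZMod 2) (V → ZMod 2) where
  carrier := {z | (∀ u, u ∉ h → z u = 0) ∧ ∑ u, z u = 0}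
  add_mem' := by
    rintro a b ⟨ha, ha'⟩ ⟨hb, hb'⟩
    refine ⟨fun u hu => ?_, ?_⟩
    · rw [Pi.add_apply, ha u hu, hb u hu, add_zero]
    · simp only [Pi.add_apply, Finset.sum_add_distrib, ha', hb', add_zero]
  zero_mem' := ⟨fun _ _ => rfl, by simp⟩
  smul_mem' := by
    rintro c a ⟨ha, ha'⟩
    refine ⟨fun u hu => ?_, ?_⟩
    · rw [Pi.smul_apply, ha u hu, smul_zero]
    · simp only [Pi.smul_apply, ← Finset.smul_sum, ha', smul_zero]

lemma mem_evn {h : Finset V} {z : V → ZMod 2} :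
    z ∈ evn h ↔ (∀ u, u ∉ h → z u = 0) ∧ ∑ u, z u = 0 := Iff.rfl

lemma mem_vs {A : Finset (Sym2 V)} {v : V} : v ∈ vs A ↔ ∃ e ∈ A, v ∈ e := by
  unfold vs
  simp

lemma vs_mono {A B : Finset (Sym2 V)} (h : A ⊆ B) : vs A ⊆ vs B := by
  intro v hv
  rw [mem_vs] at hv ⊢
  obtain ⟨e, he, hv⟩ := hv
  exact ⟨e, h he, hv⟩

lemma sp_mono {A B : Finset (Sym2 V)} (h : A ⊆ B) : sp A ≤ sp B :=
  span_mono (Set.image_mono (by exact_mod_cast h))

lemma bd_mem_sp {A : Finset (Sym2 V)} {e : Sym2 V} (h : e ∈ A) : bd e ∈ sp A :=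
  subset_span ⟨e, by exact_mod_cast h, rfl⟩

lemma bd_mem_evn {h : Finset V} {e : Sym2 V} (he : ∀ v ∈ e, v ∈ h) : bd e ∈ evn h := by
  induction e using Sym2.ind with
  | _ u v =>
    rw [bd_mk, mem_evn]
    refine ⟨fun w hw => ?_, ?_⟩
    · have h1 : w ≠ u := fun h1 => hw (h1 ▸ he u (Sym2.mem_mk_left u v))
      have h2 : w ≠ v := fun h1 => hw (h1 ▸ he v (Sym2.mem_mk_right u v))
      rw [Pi.add_apply, Pi.single_eq_of_ne h1, Pi.single_eq_of_ne h2, add_zero]
    · simp only [Pi.add_apply, Finset.sum_add_distrib, Finset.sum_pi_single', Finset.mem_univ,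
        if_true]
      decide

lemma bd_ne_zero {e : Sym2 V} (he : ¬ e.IsDiag) : bd e ≠ 0 := by
  induction e using Sym2.ind with
  | _ u v =>
    rw [Sym2.mk_isDiag_iff] at he
    intro h
    have h1 := congrFun h u
    rw [bd_mk, Pi.add_apply, Pi.single_eq_same, Pi.single_eq_of_ne he, Pi.zero_apply] at h1
    exact absurd h1 (by decide)

lemma evn_mono {h h' : Finset V} (hh : h ⊆ h') : evn h ≤ evn h' := by
  rintro z ⟨h1, h2⟩
  exact ⟨fun u hu => h1 u (fun h3 => hu (hh h3)), h2⟩

lemma sp_le_evn {A : Finset (Sym2 V)} {h : Finset V} (hA : vs A ⊆ h) : sp A ≤ evn h := by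
  unfold sp
  rw [span_le]
  rintro _ ⟨e, he, rfl⟩
  exact bd_mem_evn fun v hv => hA (mem_vs.2 ⟨e, by exact_mod_cast he, hv⟩)

/-- intersections with at most one vertex are trivial -/
lemma evn_inf {h h' : Finset V} (hc : (h ∩ h').card ≤ 1) {z : V → ZMod 2} (hz : z ∈ evn h)
    (hz' : z ∈ evn h') : z = 0 := by
  obtain ⟨h1, h2⟩ := hz
  obtain ⟨h1', -⟩ := hz'
  have h3 : ∀ u, u ∉ h ∩ h' → z u = 0 := by
    intro u hu
    by_cases h4 : u ∈ h
    · exact h1' u (fun h5 => hu (mem_inter.2 ⟨h4, h5⟩))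
    · exact h1 u h4
  funext u
  rw [Pi.zero_apply]
  by_cases hu : u ∈ h ∩ h'
  · rw [← h2]
    symm
    apply Finset.sum_eq_single u
    · intro w _ hw
      apply h3
      intro h4
      exact hw (Finset.card_le_one.1 hc w h4 u hu)
    · intro h4
      exact absurd (mem_univ u) h4
  · exact h3 u hu

/-- generators of `evn h` -/
lemma evn_le {h : Finset V} {K : Submodule (ZMod 2) (V → ZMod 2)} (u₀ : V)
    (hK : ∀ u ∈ h, (Pi.single u 1 + Pi.single u₀ 1 : V → ZMod 2) ∈ K) : evn h ≤ K := by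
  rintro z ⟨h1, h2⟩
  have h3 : z = ∑ u ∈ h, z u • (Pi.single u 1 + Pi.single u₀ 1 : V → ZMod 2) := by
    have h4 : ∑ u ∈ h, z u = 0 := by
      rw [← h2]
      exact Finset.sum_subset (subset_univ h) fun u _ hu => h1 u hu
    simp only [smul_add, Finset.sum_add_distrib]
    rw [← Finset.sum_smul, h4, zero_smul, add_zero]
    funext w
    rw [Finset.sum_apply]
    by_cases hw : w ∈ h
    · rw [Finset.sum_eq_single w]
      · rw [Pi.smul_apply, Pi.single_eq_same, smul_eq_mul, mul_one]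
      · intro u _ hu
        rw [Pi.smul_apply, Pi.single_eq_of_ne (Ne.symm hu), smul_zero]
      · intro h5
        exact absurd hw h5
    · rw [h1 w hw]
      symm
      apply Finset.sum_eq_zero
      intro u hu
      have : w ≠ u := fun h5 => hw (h5 ▸ hu)
      rw [Pi.smul_apply, Pi.single_eq_of_ne this, smul_zero]
  rw [h3]
  exact sum_mem fun u hu => K.smul_mem _ (hK u hu)

/-- the sum of the entries on `h` -/
def sumOn (h : Finset V) : ({v // v ∈ h} → ZMod 2) →ₗ[ZMod 2] ZMod 2 where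
  toFun z := ∑ u, z u
  map_add' a b := by simp [Finset.sum_add_distrib]
  map_smul' c a := by simp [Finset.mul_sum]

open Classical in
/-- `evn h` is the kernel of the sum -/
noncomputable def evnEquiv (h : Finset V) : evn h ≃ₗ[ZMod 2] LinearMap.ker (sumOn h) where
  toFun z := ⟨fun u => z.1 u.1, by
    rw [LinearMap.mem_ker]
    show ∑ u : {v // v ∈ h}, z.1 u.1 = 0
    have h1 : ∑ u : {v // v ∈ h}, z.1 u.1 = ∑ u ∈ h, z.1 u := Finset.sum_coe_sort h z.1
    rw [h1, ← z.2.2]
    exact Finset.sum_subset (subset_univ h) fun u _ hu => z.2.1 u hu⟩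
  map_add' a b := rfl
  map_smul' c a := rfl
  invFun z := ⟨fun u => if hu : u ∈ h then z.1 ⟨u, hu⟩ else 0, by
    refine ⟨fun u hu => dif_neg hu, ?_⟩
    have h1 : ∑ u : {v // v ∈ h}, z.1 u = 0 := z.2
    calc ∑ u, (if hu : u ∈ h then z.1 ⟨u, hu⟩ else 0) =
          ∑ u ∈ h, (if hu : u ∈ h then z.1 ⟨u, hu⟩ else 0) :=
            (Finset.sum_subset (subset_univ h) (fun u _ hu => dif_neg hu)).symm
      _ = ∑ u : {v // v ∈ h}, (if hu : u.1 ∈ h then z.1 ⟨u.1, hu⟩ else 0) :=
            (Finset.sum_coe_sort h _).symm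
      _ = ∑ u : {v // v ∈ h}, z.1 u := Finset.sum_congr rfl fun u _ => dif_pos u.2
      _ = 0 := h1⟩
  left_inv z := by
    apply Subtype.ext
    funext u
    by_cases hu : u ∈ h
    · exact dif_pos hu
    · show (if hu : u ∈ h then z.1 u else 0) = z.1 u
      rw [dif_neg hu, z.2.1 u hu]
  right_inv z := by
    apply Subtype.ext
    funext u
    exact dif_pos u.2

lemma finrank_evn {h : Finset V} (hh : h.Nonempty) :
    Module.finrank (ZMod 2) (evn h) + 1 = h.card := by
  rw [(evnEquiv h).finrank_eq]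
  have h1 := LinearMap.finrank_range_add_finrank_ker (sumOn h)
  have h2 : LinearMap.range (sumOn h) = ⊤ := by
    obtain ⟨u, hu⟩ := hh
    rw [LinearMap.range_eq_top]
    intro c
    refine ⟨Pi.single ⟨u, hu⟩ c, ?_⟩
    show ∑ v, (Pi.single (⟨u, hu⟩ : {v // v ∈ h}) c : {v // v ∈ h} → ZMod 2) v = c
    simp
  rw [h2, finrank_top, Module.finrank_self, Module.finrank_fintype_fun_eq_card,
    Fintype.card_coe] at h1
  omega

lemma finrank_evn' (h : Finset V) : Module.finrank (ZMod 2) (evn h) = h.card - 1 := by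
  rcases h.eq_empty_or_nonempty with rfl | hh
  · have : evn (∅ : Finset V) = ⊥ := by
      rw [eq_bot_iff]
      intro z hz
      rw [mem_bot]
      exact evn_inf (by simp) hz hz
    rw [this]
    simp
  · have := finrank_evn hh
    omega

/-! ### Irreducible sets -/

/-- `T` is irreducible: it is not empty and not the union of two nonempty parts with independent
boundaries -/
def Irr (T : Finset (Sym2 V)) : Prop :=
  T.Nonempty ∧ ∀ A B : Finset (Sym2 V), A ∪ B = T → Disjoint A B → Disjoint (sp A) (sp B) →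
    A = ∅ ∨ B = ∅

/-- a block of `α` -/
def IsBlock (α S : Finset (Sym2 V)) : Prop :=
  S ⊆ α ∧ Irr S ∧ Disjoint (sp S) (sp (α \ S))

lemma sp_union (A B : Finset (Sym2 V)) : sp (A ∪ B) = sp A ⊔ sp B := by
  unfold sp
  rw [Finset.coe_union, Set.image_union, span_union]

/-- a set with vertices on both sides of a separation lies on one side -/
lemma Irr.side {T : Finset (Sym2 V)} (hT : Irr T) {f : Sym2 V} (hf : f ∈ T)
    (C : Set V) (hC : ∀ e ∈ T, ∀ u ∈ e, ∀ v ∈ e, u ∈ C → v ∈ C) (hfC : ∀ u ∈ f, u ∈ C) :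
    ∀ v ∈ vs T, v ∈ C := by
  classical
  have h1 := hT.2 (T.filter fun e => ∀ u ∈ e, u ∈ C) (T.filter fun e => ¬ ∀ u ∈ e, u ∈ C)
    (Finset.filter_union_filter_not_eq _ _) (Finset.disjoint_filter_filter_not _ _ _) (by
      rw [Submodule.disjoint_def]
      intro z hz hz'
      have h2 := sp_le_evn (Subset.refl _) hz
      have h3 := sp_le_evn (Subset.refl _) hz'
      refine evn_inf ?_ h2 h3
      rw [Finset.card_eq_zero.2, ]
      · exact Nat.zero_le _
      rw [← Finset.disjoint_iff_inter_eq_empty, Finset.disjoint_left]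
      intro v hv hv'
      rw [mem_vs] at hv hv'
      obtain ⟨e, he, hve⟩ := hv
      obtain ⟨e', he', hve'⟩ := hv'
      rw [mem_filter] at he he'
      exact he'.2 fun u hu => hC e' he'.1 v hve' u hu (he.2 v hve))
  rcases h1 with h1 | h1
  · exfalso
    have : f ∈ T.filter fun e => ∀ u ∈ e, u ∈ C := mem_filter.2 ⟨hf, hfC⟩
    rw [h1] at this
    exact absurd this (Finset.notMem_empty f)
  · intro v hv
    rw [mem_vs] at hv
    obtain ⟨e, he, hve⟩ := hv
    by_contra hcon
    have : e ∈ T.filter fun e => ¬ ∀ u ∈ e, u ∈ C := mem_filter.2 ⟨he, fun h => hcon (h v hve)⟩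
    rw [h1] at this
    exact absurd this (Finset.notMem_empty e)

/-- the boundaries of an irreducible set span `evn` of the vertices -/
lemma Irr.sp_eq {T : Finset (Sym2 V)} (hT : Irr T) : sp T = evn (vs T) := by
  apply le_antisymm (sp_le_evn (Subset.refl _))
  obtain ⟨f, hf⟩ := hT.1
  obtain ⟨u₀, hu₀⟩ : ∃ u₀, u₀ ∈ f := ⟨(Quot.out f).1, Sym2.out_fst_mem f⟩
  have key : ∀ e ∈ T, ∀ u ∈ e, ∀ v ∈ e, (Pi.single u 1 + Pi.single u₀ 1 : V → ZMod 2) ∈ sp T →
      (Pi.single v 1 + Pi.single u₀ 1 : V → ZMod 2) ∈ sp T := by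
    intro e he u hu v hv h1
    have h2 : (Pi.single u 1 + Pi.single v 1 : V → ZMod 2) ∈ sp T := by
      by_cases huv : u = v
      · subst huv
        have : (Pi.single u 1 + Pi.single u 1 : V → ZMod 2) = 0 := by
          rw [← Pi.single_add]
          have : (1 : ZMod 2) + 1 = 0 := by decide
          rw [this, Pi.single_zero]
        rw [this]
        exact zero_mem _
      · have : e = s(u, v) := (Sym2.mem_and_mem_iff huv).1 ⟨hu, hv⟩
        rw [← bd_mk, ← this]
        exact bd_mem_sp he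
    have h3 : (Pi.single v 1 + Pi.single u₀ 1 : V → ZMod 2) =
        (Pi.single u 1 + Pi.single v 1) + (Pi.single u 1 + Pi.single u₀ 1) := by
      have h4 : (Pi.single u 1 + Pi.single u 1 : V → ZMod 2) = 0 := by
        rw [← Pi.single_add]
        have : (1 : ZMod 2) + 1 = 0 := by decide
        rw [this, Pi.single_zero]
      calc (Pi.single v 1 + Pi.single u₀ 1 : V → ZMod 2) =
            (Pi.single u 1 + Pi.single u 1) + (Pi.single v 1 + Pi.single u₀ 1) := by
              rw [h4, zero_add]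
        _ = _ := by abel
    rw [h3]
    exact add_mem h2 h1
  refine evn_le u₀ fun u hu => ?_
  refine hT.side hf {u | (Pi.single u 1 + Pi.single u₀ 1 : V → ZMod 2) ∈ sp T} key ?_ u hu
  intro u hu
  refine key f hf u₀ hu₀ u hu ?_
  have h4 : (Pi.single u₀ 1 + Pi.single u₀ 1 : V → ZMod 2) = 0 := by
    rw [← Pi.single_add]
    have : (1 : ZMod 2) + 1 = 0 := by decide
    rw [this, Pi.single_zero]
  rw [h4]
  exact zero_mem _

lemma Irr.rk_eq {T : Finset (Sym2 V)} (hT : Irr T) : rk T + 1 = (vs T).card := by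
  unfold rk
  rw [hT.sp_eq]
  apply finrank_evn
  obtain ⟨f, hf⟩ := hT.1
  exact ⟨(Quot.out f).1, mem_vs.2 ⟨f, hf, Sym2.out_fst_mem f⟩⟩

lemma Irr.subset_block {α T S : Finset (Sym2 V)} (hT : Irr T) (hTα : T ⊆ α) (hS : IsBlock α S)
    {f : Sym2 V} (hf : f ∈ T) (hfS : f ∈ S) : T ⊆ S := by
  have h1 := hT.2 (T ∩ S) (T \ S) (by
      ext x
      simp only [mem_union, mem_inter, mem_sdiff]
      tauto) (by
      rw [Finset.disjoint_left]
      intro x hx hx'
      exact (mem_sdiff.1 hx').2 (mem_inter.1 hx).2)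
    (hS.2.2.mono (sp_mono inter_subset_right) (sp_mono (sdiff_subset_sdiff hTα (Subset.refl _))))
  rcases h1 with h1 | h1
  · exfalso
    have : f ∈ T ∩ S := mem_inter.2 ⟨hf, hfS⟩
    rw [h1] at this
    exact absurd this (Finset.notMem_empty f)
  · exact sdiff_eq_empty_iff_subset.1 h1

lemma IsBlock.eq {α S S' : Finset (Sym2 V)} (hS : IsBlock α S) (hS' : IsBlock α S')
    {f : Sym2 V} (hf : f ∈ S) (hf' : f ∈ S') : S = S' :=
  Subset.antisymm (hS.2.1.subset_block hS.1 hS' hf hf') (hS'.2.1.subset_block hS'.1 hS hf' hf)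

lemma exists_block {α : Finset (Sym2 V)} {f : Sym2 V} (hf : f ∈ α) :
    ∃ S, IsBlock α S ∧ f ∈ S := by
  classical
  have hne : (α.powerset.filter fun S => f ∈ S ∧ Disjoint (sp S) (sp (α \ S))).Nonempty :=
    ⟨α, by
      rw [mem_filter, mem_powerset]
      refine ⟨Subset.refl _, hf, ?_⟩
      rw [sdiff_self]
      have : sp (∅ : Finset (Sym2 V)) = ⊥ := by
        unfold sp
        simp
      show Disjoint (sp α) (sp ∅)
      rw [this]
      exact disjoint_bot_right⟩
  obtain ⟨S, hS, hmin⟩ := Finset.exists_min_image _ Finset.card hne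
  rw [mem_filter, mem_powerset] at hS
  obtain ⟨hSα, hfS, hdis⟩ := hS
  have hhalf : ∀ A B : Finset (Sym2 V), A ∪ B = S → Disjoint A B → Disjoint (sp A) (sp B) →
      f ∈ A → B = ∅ := by
    intro A B hAB hdAB hsp hfA
    by_contra hB
    have hBne := Finset.nonempty_iff_ne_empty.2 hB
    have hA : A ∈ α.powerset.filter fun S => f ∈ S ∧ Disjoint (sp S) (sp (α \ S)) := by
      rw [mem_filter, mem_powerset]
      refine ⟨fun x hx => hSα (hAB ▸ mem_union_left _ hx), hfA, ?_⟩
      have h1 : α \ A = B ∪ (α \ S) := by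
        ext x
        simp only [mem_union, mem_sdiff, ← hAB]
        constructor
        · rintro ⟨h1, h2⟩
          by_cases h3 : x ∈ B
          · exact Or.inl h3
          · exact Or.inr ⟨h1, fun h4 => h4.elim h2 h3⟩
        · rintro (h1 | ⟨h1, h2⟩)
          · exact ⟨hSα (hAB ▸ mem_union_right _ h1), fun h2 => Finset.disjoint_left.1 hdAB h2 h1⟩
          · exact ⟨h1, fun h3 => h2 (Or.inl h3)⟩
      rw [h1, sp_union]
      apply Disjoint.disjoint_sup_right_of_disjoint_sup_left hsp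
      rw [← sp_union, hAB]
      exact hdis
    have h2 := hmin A hA
    have h3 : S.card = A.card + B.card := by rw [← hAB, Finset.card_union_of_disjoint hdAB]
    have h4 := Finset.card_pos.2 hBne
    omega
  refine ⟨S, ⟨hSα, ⟨⟨f, hfS⟩, ?_⟩, hdis⟩, hfS⟩
  intro A B hAB hdAB hsp
  have : f ∈ A ∪ B := hAB ▸ hfS
  rcases mem_union.1 this with h1 | h1
  · exact Or.inr (hhalf A B hAB hdAB hsp h1)
  · exact Or.inl (hhalf B A (by rw [union_comm]; exact hAB) hdAB.symm hsp.symm h1)

lemma rk_mono {A B : Finset (Sym2 V)} (h : A ⊆ B) : rk A ≤ rk B :=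
  Submodule.finrank_mono (sp_mono h)

lemma rk_union_le (A B : Finset (Sym2 V)) : rk (A ∪ B) ≤ rk A + rk B := by
  unfold rk
  rw [sp_union]
  exact Submodule.finrank_add_le_finrank_add_finrank _ _

lemma rk_union_eq {A B : Finset (Sym2 V)} (h : Disjoint (sp A) (sp B)) :
    rk (A ∪ B) = rk A + rk B := by
  unfold rk
  rw [sp_union]
  have h1 := Submodule.finrank_sup_add_finrank_inf_eq (sp A) (sp B)
  rw [disjoint_iff.1 h, finrank_bot, add_zero] at h1
  exact h1

lemma rk_le_card (A : Finset (Sym2 V)) : rk A ≤ A.card := by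
  classical
  unfold rk sp
  have h1 := finrank_span_finset_le_card (R := ZMod 2) (A.image bd)
  rw [Finset.coe_image] at h1
  exact h1.trans Finset.card_image_le

end Pool.Agent.W988.LD
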