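import Pool.Agent.W988.LD.Quiet

/-! The master inequality. -/

set_option autoImplicit false
set_option linter.unusedSectionVars false

namespace Pool.Agent.W988.LD

open Finset

/-- **The finite form.** -/
theorem finite_sum {n k : ℕ} [NeZero k] (hk : 3 ≤ k) (hn : n ≤ k ^ 2) (v₀ : ℕ) {q y : ℝ}
    (hq : 1 / 2 ≤ q) (hq1 : q < 1) (hy0 : 0 ≤ y) (hy1 : y ≤ 1) (hy : y ^ (v₀ + 1) = (k : ℝ)⁻¹)
    (D s r : ℕ) (hs : D ≤ s ^ 2) (κ : ℝ)
    (hκ : κ = y ^ (2 * v₀) * ((4 * (D : ℝ) ^ 2 + 1) * AA v₀ D ^ 2) ^ s)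
    (hnκ : n * κ ≤ 1) (E : ℝ)
    (hE : E = (1 + BB n v₀ ^ D) * ((n : ℝ) ^ 2 * ((24 ^ (v₀ ^ 2) * (k : ℝ)⁻¹ * Kt v₀ r / (1 - q))
        ^ (2 * r) * (v₀ * (2 * r) + 1)))) :
    ∑ α ∈ (Lo (Fin n) D).erase ∅, MM (ZMod k) v₀ q α ^ 2 ≤
      2 * ((v₀ * D + 1) ^ 2 * ((2 * D : ℕ) * (n * κ))) +
        2 * (((n : ℝ) ^ 2 + 1) ^ D * E ^ 2) := by
  classical
  have hcK : Fintype.card (ZMod k) = k := ZMod.card k
  have hcV : Fintype.card (Fin n) = n := Fintype.card_fin n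
  have h3 := sum_mm (V := Fin n) (K := ZMod k) (by rw [hcK]; exact hk)
    (by rw [hcK, hcV]; exact hn) v₀ hq hq1 hy0 hy1 (by rw [hcK]; exact hy) D s r hs
    ((Lo (Fin n) D).erase ∅) (by
      intro α hα
      rw [mem_erase, mem_Lo] at hα
      exact ⟨Finset.nonempty_iff_ne_empty.2 hα.1, hα.2⟩) κ hκ (by rw [hcV]; exact hnκ) E
    (by rw [hcV, hcK]; exact hE)
  rw [hcV] at h3
  exact h3

lemma pow_eq_exp {L : ℝ} (hL : 0 < L) (m : ℕ) : L ^ m = Real.exp (m * Real.log L) := by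
  rw [Real.exp_nat_mul, Real.exp_log hL]

lemma aa_le {L : ℝ} (hL : 480 ≤ L) {v₀ D : ℕ} (hv1 : 1 ≤ v₀) (hvL : (v₀ : ℝ) ≤ L)
    (hD : (D : ℝ) ≤ L ^ 2) : AA v₀ D ≤ L ^ (10 * v₀ ^ 2) := by
  have hL1 : (1 : ℝ) ≤ L := by linarith
  have hv0 : (0 : ℝ) ≤ v₀ := Nat.cast_nonneg _
  have hD0 : (0 : ℝ) ≤ D := Nat.cast_nonneg _
  have h1 : ((2 + (v₀ : ℝ)) * D) ^ 2 + 1 ≤ L ^ 9 := by
    have h2 : (2 + (v₀ : ℝ)) * D ≤ L ^ 4 := by
      calc (2 + (v₀ : ℝ)) * D ≤ L ^ 2 * L ^ 2 := by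
            refine mul_le_mul ?_ hD hD0 (by positivity)
            nlinarith
        _ = L ^ 4 := by ring
    have h3 : ((2 + (v₀ : ℝ)) * D) ^ 2 ≤ L ^ 8 := by
      calc ((2 + (v₀ : ℝ)) * D) ^ 2 ≤ (L ^ 4) ^ 2 := pow_le_pow_left₀ (by positivity) h2 2
        _ = L ^ 8 := by ring
    have h4 : (1 : ℝ) ≤ L ^ 8 := one_le_pow₀ hL1
    have h5 : L ^ 9 = L ^ 8 * L := by ring
    rw [h5]
    nlinarith
  have h2 : (Kc v₀ D : ℝ) ≤ 5 * (L ^ 9) ^ (v₀ ^ 2) := by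
    unfold Kc
    push_cast
    have h3 : (((2 + (v₀ : ℝ)) * D) ^ 2 + 1) ^ (v₀ ^ 2) ≤ (L ^ 9) ^ (v₀ ^ 2) :=
      pow_le_pow_left₀ (by positivity) h1 _
    have h4 : (1 : ℝ) ≤ (L ^ 9) ^ (v₀ ^ 2) := one_le_pow₀ (one_le_pow₀ hL1)
    linarith
  have hv2 : v₀ ^ 2 ≠ 0 := by positivity
  unfold AA
  calc 4 * 24 ^ (v₀ ^ 2) * (Kc v₀ D : ℝ) ≤ 4 * 24 ^ (v₀ ^ 2) * (5 * (L ^ 9) ^ (v₀ ^ 2)) :=
        mul_le_mul_of_nonneg_left h2 (by positivity)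
    _ = 20 * (24 * L ^ 9) ^ (v₀ ^ 2) := by
        rw [mul_pow 24]
        ring
    _ ≤ 20 ^ (v₀ ^ 2) * (24 * L ^ 9) ^ (v₀ ^ 2) := by
        refine mul_le_mul_of_nonneg_right ?_ (by positivity)
        exact le_self_pow₀ (by norm_num) hv2
    _ = (480 * L ^ 9) ^ (v₀ ^ 2) := by
        rw [← mul_pow]
        congr 1
        ring
    _ ≤ (L ^ 10) ^ (v₀ ^ 2) := by
        refine pow_le_pow_left₀ (by positivity) ?_ _
        have : L ^ 10 = L * L ^ 9 := by ring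
        rw [this]
        exact mul_le_mul_of_nonneg_right hL (by positivity)
    _ = _ := by rw [← pow_mul]

lemma kt_le {L : ℝ} (hL : 480 ≤ L) {v₀ D r : ℕ} (hv1 : 1 ≤ v₀) (hvL : (v₀ : ℝ) ≤ L)
    (hD : (D : ℝ) ≤ L ^ 2) (hr : r = 26 * v₀ ^ 2 * D + 24) :
    24 ^ (v₀ ^ 2) * (Kt v₀ r : ℝ) ≤ L ^ (14 * v₀ ^ 2) ∧ (v₀ : ℝ) * (2 * r) + 1 ≤ L ^ 6 := by
  have hL1 : (1 : ℝ) ≤ L := by linarith
  have hv0 : (0 : ℝ) ≤ v₀ := Nat.cast_nonneg _
  have hD0 : (0 : ℝ) ≤ D := Nat.cast_nonneg _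
  have hrR : (r : ℝ) ≤ 50 * L ^ 4 := by
    have h1 : (r : ℝ) = 26 * (v₀ : ℝ) ^ 2 * D + 24 := by
      rw [hr]
      push_cast
      ring
    have h2 : (v₀ : ℝ) ^ 2 * D ≤ L ^ 2 * L ^ 2 :=
      mul_le_mul (pow_le_pow_left₀ hv0 hvL 2) hD hD0 (by positivity)
    have h3 : (1 : ℝ) ≤ L ^ 4 := one_le_pow₀ hL1
    have h4 : L ^ 2 * L ^ 2 = L ^ 4 := by ring
    rw [h1]
    nlinarith
  have h1 : 2 + (v₀ : ℝ) * (2 * r) ≤ L ^ 6 := by
    have h2 : (v₀ : ℝ) * (2 * r) ≤ L * (2 * (50 * L ^ 4)) :=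
      mul_le_mul hvL (by linarith) (by positivity) (by linarith)
    have h3 : (1 : ℝ) ≤ L ^ 5 := one_le_pow₀ hL1
    have h4 : L ^ 6 = L * L ^ 5 := by ring
    have h5 : L * (2 * (50 * L ^ 4)) = 100 * L ^ 5 := by ring
    rw [h4]
    nlinarith
  refine ⟨?_, by linarith⟩
  have h2 : (Kt v₀ r : ℝ) ≤ (L ^ 13) ^ (v₀ ^ 2) := by
    unfold Kt
    push_cast
    refine pow_le_pow_left₀ (by positivity) ?_ _
    have h3 : (2 + (v₀ : ℝ) * (2 * r)) ^ 2 ≤ (L ^ 6) ^ 2 := pow_le_pow_left₀ (by positivity) h1 2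
    have h4 : (1 : ℝ) ≤ L ^ 12 := one_le_pow₀ hL1
    have h5 : L ^ 13 = L * L ^ 12 := by ring
    have h6 : (L ^ 6) ^ 2 = L ^ 12 := by ring
    rw [h5]
    nlinarith
  calc 24 ^ (v₀ ^ 2) * (Kt v₀ r : ℝ) ≤ 24 ^ (v₀ ^ 2) * (L ^ 13) ^ (v₀ ^ 2) :=
        mul_le_mul_of_nonneg_left h2 (by positivity)
    _ = (24 * L ^ 13) ^ (v₀ ^ 2) := by rw [mul_pow]
    _ ≤ (L ^ 14) ^ (v₀ ^ 2) := by
        refine pow_le_pow_left₀ (by positivity) ?_ _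
        have : L ^ 14 = L * L ^ 13 := by ring
        rw [this]
        exact mul_le_mul_of_nonneg_right (by linarith) (by positivity)
    _ = _ := by rw [← pow_mul]

/-- **The master inequality.** -/
theorem master {n k v₀ D s : ℕ} [NeZero k] {L : ℝ} (hL : L = Real.log n) (hL0 : 480 ≤ L)
    (hkn : k ≤ n) (hnk : n ≤ k ^ 2) (hv1 : 1 ≤ v₀) (hvL : (v₀ : ℝ) ≤ L) (hD : (D : ℝ) ≤ L ^ 2)
    (hs : D ≤ s ^ 2) (hs1 : 1 ≤ s) (hv : 112 * (v₀ : ℝ) ^ 2 * Real.log L ≤ L) {Γ : ℝ}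
    (hΓ : Γ = 2 * v₀ / (v₀ + 1) * Real.log k - L - 35 * (v₀ : ℝ) ^ 2 * s * Real.log L)
    (hΓ0 : 0 ≤ Γ) :
    3 ≤ k ∧ ∃ q : ℝ, 0 ≤ q ∧
      ∑ α ∈ (Lo (Fin n) D).erase ∅, MM (ZMod k) v₀ q α ^ 2 ≤ Real.exp (-Γ) := by
  have hLpos : 0 < L := by linarith
  have hL1 : (1 : ℝ) ≤ L := by linarith
  have hn0 : n ≠ 0 := by
    rintro rfl
    rw [Nat.cast_zero, Real.log_zero] at hL
    linarith
  have hnpos : (0 : ℝ) < n := by
    have : 0 < n := Nat.pos_of_ne_zero hn0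
    exact_mod_cast this
  have hN : (n : ℝ) = Real.exp L := by rw [hL, Real.exp_log hnpos]
  have hN481 : (481 : ℝ) ≤ n := by
    rw [hN]
    have := Real.add_one_le_exp L
    linarith
  have hk3 : 3 ≤ k := by
    by_contra hcon
    have h1 : k ^ 2 ≤ 2 ^ 2 := Nat.pow_le_pow_left (by omega) 2
    have h2 : (n : ℝ) ≤ 4 := by exact_mod_cast hnk.trans h1
    linarith
  have hkpos : (0 : ℝ) < k := by
    have : 0 < k := by omega
    exact_mod_cast this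
  have hK : (k : ℝ) = Real.exp (Real.log k) := (Real.exp_log hkpos).symm
  have hlogk0 : 0 ≤ Real.log k := Real.log_natCast_nonneg k
  have hlogkL : Real.log k ≤ L := by
    rw [hL]
    exact Real.log_le_log hkpos (by exact_mod_cast hkn)
  have hlogk2 : L ≤ 2 * Real.log k := by
    have h1 : Real.log n ≤ Real.log ((k : ℝ) ^ 2) :=
      Real.log_le_log hnpos (by exact_mod_cast hnk)
    rw [Real.log_pow] at h1
    rw [hL]
    exact_mod_cast h1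
  have hlogL0 : 0 ≤ Real.log L := Real.log_nonneg hL1
  have hlogL1 : 1 ≤ Real.log L := by
    rw [Real.le_log_iff_exp_le hLpos]
    have := Real.exp_one_lt_d9
    linarith
  have hv0 : (0 : ℝ) ≤ v₀ := Nat.cast_nonneg _
  have hv1R : (1 : ℝ) ≤ v₀ := by exact_mod_cast hv1
  have hs1R : (1 : ℝ) ≤ s := by exact_mod_cast hs1
  have hD0 : (0 : ℝ) ≤ D := Nat.cast_nonneg _
  have hv2 : (1 : ℝ) ≤ (v₀ : ℝ) ^ 2 := one_le_pow₀ hv1R
  have hvs : (1 : ℝ) ≤ (v₀ : ℝ) ^ 2 * s := one_le_mul_of_one_le_of_one_le hv2 hs1R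
  -- the parameters
  set y : ℝ := Real.exp (-(Real.log k / (v₀ + 1))) with hy
  have hy0 : 0 ≤ y := (Real.exp_pos _).le
  have hy1 : y ≤ 1 := by
    rw [hy, Real.exp_le_one_iff]
    have : 0 ≤ Real.log k / ((v₀ : ℝ) + 1) := by positivity
    linarith
  have hyk : y ^ (v₀ + 1) = (k : ℝ)⁻¹ := by
    rw [hy, ← Real.exp_nat_mul]
    push_cast
    have h1 : ((v₀ : ℝ) + 1) * -(Real.log k / (v₀ + 1)) = -Real.log k := by
      field_simp
    rw [h1, Real.exp_neg, Real.exp_log hkpos]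
  set q : ℝ := 1 - Real.exp (-(L / 4)) with hq
  have hq1' : 1 - q = Real.exp (-(L / 4)) := by rw [hq]; ring
  have hqlt : q < 1 := by
    have := Real.exp_pos (-(L / 4))
    linarith
  have hqge : 1 / 2 ≤ q := by
    have h1 : Real.exp (-(L / 4)) ≤ 1 / 2 := by
      rw [Real.exp_neg, one_div]
      refine inv_anti₀ (by norm_num) ?_
      have := Real.add_one_le_exp (L / 4)
      linarith
    linarith
  set r : ℕ := 26 * v₀ ^ 2 * D + 24 with hr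
  obtain ⟨hkt, hr6⟩ := kt_le hL0 hv1 hvL hD hr
  set κ : ℝ := y ^ (2 * v₀) * ((4 * (D : ℝ) ^ 2 + 1) * AA v₀ D ^ 2) ^ s with hκ
  have hAA1 := one_le_AA v₀ D
  have hκ0 : 0 ≤ κ := by rw [hκ]; positivity
  have hnκ : n * κ ≤ Real.exp (-Γ - 10 * ((v₀ : ℝ) ^ 2 * s * Real.log L)) := by
    have h1 : (4 * (D : ℝ) ^ 2 + 1) * AA v₀ D ^ 2 ≤ L ^ (25 * v₀ ^ 2) := by
      have h2 : 4 * (D : ℝ) ^ 2 + 1 ≤ L ^ 5 := by
        have h3 : (D : ℝ) ^ 2 ≤ (L ^ 2) ^ 2 := pow_le_pow_left₀ hD0 hD 2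
        have h4 : (1 : ℝ) ≤ L ^ 4 := one_le_pow₀ hL1
        have h5 : L ^ 5 = L * L ^ 4 := by ring
        have h6 : (L ^ 2) ^ 2 = L ^ 4 := by ring
        rw [h5]
        nlinarith
      have h3 : AA v₀ D ^ 2 ≤ (L ^ (10 * v₀ ^ 2)) ^ 2 :=
        pow_le_pow_left₀ (by linarith) (aa_le hL0 hv1 hvL hD) 2
      calc (4 * (D : ℝ) ^ 2 + 1) * AA v₀ D ^ 2 ≤ L ^ 5 * (L ^ (10 * v₀ ^ 2)) ^ 2 :=
            mul_le_mul h2 h3 (by positivity) (by positivity)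
        _ = L ^ (5 + 20 * v₀ ^ 2) := by
            rw [← pow_mul, ← pow_add]
            congr 1
            ring
        _ ≤ _ := by
            apply pow_le_pow_right₀ hL1
            have : 1 ≤ v₀ ^ 2 := Nat.one_le_pow _ _ hv1
            omega
    have h2 : ((4 * (D : ℝ) ^ 2 + 1) * AA v₀ D ^ 2) ^ s ≤
        Real.exp (25 * (v₀ : ℝ) ^ 2 * s * Real.log L) := by
      refine (pow_le_pow_left₀ (by positivity) h1 s).trans ?_
      rw [← pow_mul, pow_eq_exp hLpos]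
      push_cast
      exact le_of_eq rfl
    have h3 : y ^ (2 * v₀) = Real.exp (-(2 * v₀ / (v₀ + 1) * Real.log k)) := by
      rw [hy, ← Real.exp_nat_mul]
      congr 1
      push_cast
      ring
    rw [hκ, h3, hN]
    calc Real.exp L * (Real.exp (-(2 * v₀ / (v₀ + 1) * Real.log k)) *
          ((4 * (D : ℝ) ^ 2 + 1) * AA v₀ D ^ 2) ^ s) ≤
          Real.exp L * (Real.exp (-(2 * v₀ / (v₀ + 1) * Real.log k)) *
            Real.exp (25 * (v₀ : ℝ) ^ 2 * s * Real.log L)) :=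
          mul_le_mul_of_nonneg_left (mul_le_mul_of_nonneg_left h2 (Real.exp_pos _).le)
            (Real.exp_pos _).le
      _ = _ := by
          rw [← Real.exp_add, ← Real.exp_add, hΓ]
          congr 1
          ring
  have hnκ1 : n * κ ≤ 1 := by
    refine hnκ.trans ?_
    rw [Real.exp_le_one_iff]
    have : 0 ≤ (v₀ : ℝ) ^ 2 * s * Real.log L := by positivity
    linarith
  set E : ℝ := (1 + BB n v₀ ^ D) * ((n : ℝ) ^ 2 *
    ((24 ^ (v₀ ^ 2) * (k : ℝ)⁻¹ * Kt v₀ r / (1 - q)) ^ (2 * r) * (v₀ * (2 * r) + 1))) with hE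
  have hfin := finite_sum hk3 hnk v₀ hqge hqlt hy0 hy1 hyk D s r hs κ hκ hnκ1 E hE
  -- the first part
  have hT1 : 2 * (((v₀ : ℝ) * D + 1) ^ 2 * ((2 * D : ℕ) * (n * κ))) ≤ Real.exp (-Γ) / 2 := by
    have h1 : 2 * (((v₀ : ℝ) * D + 1) ^ 2 * ((2 * D : ℕ) : ℝ)) ≤ L ^ 9 := by
      push_cast
      have h2 : (v₀ : ℝ) * D ≤ L * L ^ 2 := mul_le_mul hvL hD hD0 hLpos.le
      have h3 : (1 : ℝ) ≤ L ^ 3 := one_le_pow₀ hL1
      have h4 : (v₀ : ℝ) * D + 1 ≤ 2 * L ^ 3 := by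
        have : L * L ^ 2 = L ^ 3 := by ring
        linarith
      have h5 : ((v₀ : ℝ) * D + 1) ^ 2 ≤ (2 * L ^ 3) ^ 2 := pow_le_pow_left₀ (by positivity) h4 2
      calc 2 * (((v₀ : ℝ) * D + 1) ^ 2 * (2 * (D : ℝ))) ≤
            2 * ((2 * L ^ 3) ^ 2 * (2 * L ^ 2)) := by
            refine mul_le_mul_of_nonneg_left ?_ (by norm_num)
            exact mul_le_mul h5 (by linarith) (by positivity) (by positivity)
        _ = 16 * L ^ 8 := by ring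
        _ ≤ L * L ^ 8 := mul_le_mul_of_nonneg_right (by linarith) (by positivity)
        _ = L ^ 9 := by ring
    calc 2 * (((v₀ : ℝ) * D + 1) ^ 2 * ((2 * D : ℕ) * (n * κ))) =
          2 * (((v₀ : ℝ) * D + 1) ^ 2 * ((2 * D : ℕ) : ℝ)) * (n * κ) := by ring
      _ ≤ L ^ 9 * Real.exp (-Γ - 10 * ((v₀ : ℝ) ^ 2 * s * Real.log L)) :=
          mul_le_mul h1 hnκ (by positivity) (by positivity)
      _ = Real.exp (9 * Real.log L + (-Γ - 10 * ((v₀ : ℝ) ^ 2 * s * Real.log L))) := by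
          rw [pow_eq_exp hLpos, ← Real.exp_add]
          norm_num
      _ ≤ Real.exp (-Γ - Real.log L) := by
          rw [Real.exp_le_exp]
          have h6 := mul_le_mul_of_nonneg_right hvs hlogL0
          linarith
      _ = Real.exp (-Γ) / L := by rw [Real.exp_sub, Real.exp_log hLpos]
      _ ≤ Real.exp (-Γ) / 2 :=
          div_le_div_of_nonneg_left (Real.exp_pos _).le (by norm_num) (by linarith)
  -- the second part
  have hX : 24 ^ (v₀ ^ 2) * (k : ℝ)⁻¹ * Kt v₀ r / (1 - q) ≤ Real.exp (-(L / 8)) := by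
    have h1 : (24 : ℝ) ^ (v₀ ^ 2) * (Kt v₀ r : ℝ) ≤ Real.exp (L / 8) := by
      refine hkt.trans ?_
      rw [pow_eq_exp hLpos, Real.exp_le_exp]
      push_cast
      linarith
    have h2 : (k : ℝ)⁻¹ ≤ Real.exp (-(L / 2)) := by
      rw [hK, ← Real.exp_neg, Real.exp_le_exp]
      linarith
    rw [hq1']
    calc 24 ^ (v₀ ^ 2) * (k : ℝ)⁻¹ * Kt v₀ r / Real.exp (-(L / 4)) =
          (24 ^ (v₀ ^ 2) * (Kt v₀ r : ℝ)) * (k : ℝ)⁻¹ * Real.exp (L / 4) := by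
          rw [Real.exp_neg, div_inv_eq_mul]
          ring
      _ ≤ Real.exp (L / 8) * Real.exp (-(L / 2)) * Real.exp (L / 4) := by
          refine mul_le_mul_of_nonneg_right ?_ (Real.exp_pos _).le
          exact mul_le_mul h1 h2 (by positivity) (Real.exp_pos _).le
      _ = Real.exp (-(L / 8)) := by
          rw [← Real.exp_add, ← Real.exp_add]
          congr 1
          ring
  have hX0 : 0 ≤ 24 ^ (v₀ ^ 2) * (k : ℝ)⁻¹ * Kt v₀ r / (1 - q) := by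
    have : 0 < 1 - q := by rw [hq1']; exact Real.exp_pos _
    positivity
  have hn1 : (1 : ℝ) ≤ n := by linarith
  have hBB : BB n v₀ ≤ (n : ℝ) ^ (5 * v₀ ^ 2) := by
    unfold BB
    have h1 : ((n : ℝ) ^ 2 + 1) ≤ n ^ 3 := by nlinarith [sq_nonneg (n : ℝ)]
    have h2 : (24 : ℝ) ^ (v₀ ^ 2) * ((n : ℝ) ^ 2 + 1) ^ (v₀ ^ 2) ≤ (n ^ 4) ^ (v₀ ^ 2) := by
      rw [← mul_pow]
      refine pow_le_pow_left₀ (by positivity) ?_ _
      calc (24 : ℝ) * ((n : ℝ) ^ 2 + 1) ≤ n * n ^ 3 :=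
            mul_le_mul (by linarith) h1 (by positivity) (by positivity)
        _ = n ^ 4 := by ring
    have h3 : (1 : ℝ) ≤ ((n : ℝ) ^ 4) ^ (v₀ ^ 2) := one_le_pow₀ (one_le_pow₀ hn1)
    calc 2 + (24 : ℝ) ^ (v₀ ^ 2) * ((n : ℝ) ^ 2 + 1) ^ (v₀ ^ 2) ≤
          n * ((n : ℝ) ^ 4) ^ (v₀ ^ 2) := by nlinarith
      _ ≤ (n : ℝ) ^ (v₀ ^ 2) * ((n : ℝ) ^ 4) ^ (v₀ ^ 2) := by
          refine mul_le_mul_of_nonneg_right ?_ (by positivity)
          exact le_self_pow₀ hn1 (by positivity)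
      _ = _ := by
          rw [← pow_mul, ← pow_add]
          congr 1
          ring
  have hBB0 := one_le_BB n v₀
  have hE1 : E ≤ (n : ℝ) ^ (5 * v₀ ^ 2 * D + 4) * Real.exp (-(r * L / 4)) := by
    have h1 : 1 + BB n v₀ ^ D ≤ (n : ℝ) ^ (5 * v₀ ^ 2 * D + 1) := by
      have h2 : BB n v₀ ^ D ≤ ((n : ℝ) ^ (5 * v₀ ^ 2)) ^ D :=
        pow_le_pow_left₀ (by linarith) hBB D
      rw [← pow_mul] at h2
      have h3 : (1 : ℝ) ≤ (n : ℝ) ^ (5 * v₀ ^ 2 * D) := one_le_pow₀ hn1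
      rw [pow_succ]
      nlinarith
    have h2 : (24 ^ (v₀ ^ 2) * (k : ℝ)⁻¹ * Kt v₀ r / (1 - q)) ^ (2 * r) ≤
        Real.exp (-(r * L / 4)) := by
      refine (pow_le_pow_left₀ hX0 hX _).trans (le_of_eq ?_)
      rw [← Real.exp_nat_mul]
      congr 1
      push_cast
      ring
    have h3 : (v₀ : ℝ) * (2 * r) + 1 ≤ n := by
      refine hr6.trans ?_
      rw [hN, pow_eq_exp hLpos, Real.exp_le_exp]
      push_cast
      have h6 := mul_le_mul_of_nonneg_right hv2 hlogL0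
      linarith
    rw [hE]
    calc (1 + BB n v₀ ^ D) * ((n : ℝ) ^ 2 *
          ((24 ^ (v₀ ^ 2) * (k : ℝ)⁻¹ * Kt v₀ r / (1 - q)) ^ (2 * r) * (v₀ * (2 * r) + 1))) ≤
          (n : ℝ) ^ (5 * v₀ ^ 2 * D + 1) * ((n : ℝ) ^ 2 * (Real.exp (-(r * L / 4)) * n)) := by
          refine mul_le_mul h1 ?_ (by positivity) (by positivity)
          refine mul_le_mul_of_nonneg_left ?_ (by positivity)
          exact mul_le_mul h2 h3 (by positivity) (Real.exp_pos _).le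
      _ = (n : ℝ) ^ (5 * v₀ ^ 2 * D + 1) * (n : ℝ) ^ 2 * n * Real.exp (-(r * L / 4)) := by ring
      _ = _ := by
          congr 1
          rw [← pow_add, ← pow_succ]
  have hE0 : 0 ≤ E := by
    rw [hE]
    positivity
  have hT2 : 2 * (((n : ℝ) ^ 2 + 1) ^ D * E ^ 2) ≤ Real.exp (-Γ) / 2 := by
    have h1 : ((n : ℝ) ^ 2 + 1) ^ D ≤ (n : ℝ) ^ (3 * D) := by
      rw [pow_mul]
      refine pow_le_pow_left₀ (by positivity) ?_ _
      nlinarith [sq_nonneg (n : ℝ)]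
    have h2 : E ^ 2 ≤ ((n : ℝ) ^ (5 * v₀ ^ 2 * D + 4) * Real.exp (-(r * L / 4))) ^ 2 :=
      pow_le_pow_left₀ hE0 hE1 2
    have h3 : 2 * (((n : ℝ) ^ 2 + 1) ^ D * E ^ 2) ≤ n * ((n : ℝ) ^ (3 * D) *
        ((n : ℝ) ^ (5 * v₀ ^ 2 * D + 4) * Real.exp (-(r * L / 4))) ^ 2) := by
      refine mul_le_mul (by linarith) (mul_le_mul h1 h2 (by positivity) (by positivity))
        (by positivity) (by positivity)
    refine h3.trans ?_
    have h4 : (n : ℝ) * ((n : ℝ) ^ (3 * D) *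
        ((n : ℝ) ^ (5 * v₀ ^ 2 * D + 4) * Real.exp (-(r * L / 4))) ^ 2) =
        Real.exp ((9 + 3 * D + 10 * (v₀ : ℝ) ^ 2 * D) * L - r * L / 2) := by
      rw [mul_pow, hN, ← Real.exp_nat_mul, ← Real.exp_nat_mul, ← Real.exp_nat_mul,
        ← Real.exp_nat_mul, ← Real.exp_add, ← Real.exp_add, ← Real.exp_add]
      congr 1
      push_cast
      ring
    rw [h4]
    have h5 : (r : ℝ) = 26 * (v₀ : ℝ) ^ 2 * D + 24 := by
      rw [hr]
      push_cast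
      ring
    have hΓL : Γ ≤ L := by
      have h6 : 2 * (v₀ : ℝ) / (v₀ + 1) ≤ 2 := by
        rw [div_le_iff₀ (by linarith)]
        linarith
      have h7 : 2 * (v₀ : ℝ) / (v₀ + 1) * Real.log k ≤ 2 * L :=
        mul_le_mul h6 hlogkL hlogk0 (by norm_num)
      have h8 : 0 ≤ 35 * (v₀ : ℝ) ^ 2 * s * Real.log L := by positivity
      rw [hΓ]
      linarith
    calc Real.exp ((9 + 3 * D + 10 * (v₀ : ℝ) ^ 2 * D) * L - r * L / 2) ≤
          Real.exp (-Γ - L) := by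
          rw [Real.exp_le_exp, h5]
          have h6 : (D : ℝ) ≤ (v₀ : ℝ) ^ 2 * D := le_mul_of_one_le_left hD0 hv2
          have h7 : (D : ℝ) * L ≤ (v₀ : ℝ) ^ 2 * D * L := mul_le_mul_of_nonneg_right h6 hLpos.le
          linarith
      _ = Real.exp (-Γ) / n := by rw [Real.exp_sub, hN]
      _ ≤ Real.exp (-Γ) / 2 :=
          div_le_div_of_nonneg_left (Real.exp_pos _).le (by norm_num) (by linarith)
  refine ⟨hk3, q, by linarith, hfin.trans ?_⟩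
  linarith

end Pool.Agent.W988.LD
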