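import Pool.Agent.W988.LD.Poly

/-! The planted distribution on colourable graphs. -/

set_option autoImplicit false
set_option linter.unusedSectionVars false

namespace Pool.Agent.W988.LD

open Finset

variable {V : Type} [Fintype V] [DecidableEq V]
variable {K : Type} [AddCommGroup K] [Fintype K] [DecidableEq K]

variable (K) in
/-- the density -/
noncomputable def dens (v₀ : ℕ) (q : ℝ) (x : Sym2 V → Bool) : ℝ :=
  avg fun σ : V → K => avg fun Y : Sym2 V → Bool =>
    ∏ e, (1 + sg (x e) * gt v₀ (rho K) q σ Y e)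

lemma prod_nonneg' (hk : 3 ≤ Fintype.card K) (v₀ : ℕ) {q : ℝ} (hq0 : 0 ≤ q) (x : Sym2 V → Bool)
    (σ : V → K) (Y : Sym2 V → Bool) : 0 ≤ ∏ e, (1 + sg (x e) * gt v₀ (rho K) q σ Y e) := by
  refine Finset.prod_nonneg fun e _ => ?_
  have h4 := gt_abs hk v₀ hq0 σ Y e
  rw [abs_le] at h4
  cases x e
  · simp only [sg, Bool.false_eq_true, if_false]
    linarith
  · simp only [sg, if_true]
    linarith

lemma dens_nonneg (hk : 3 ≤ Fintype.card K) (v₀ : ℕ) {q : ℝ} (hq0 : 0 ≤ q)
    (x : Sym2 V → Bool) : 0 ≤ dens K v₀ q x :=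
  avg_nonneg fun σ => avg_nonneg fun Y => prod_nonneg' hk v₀ hq0 x σ Y

lemma dens_colorable (hk : 3 ≤ Fintype.card K) (v₀ : ℕ) {q : ℝ} {x : Sym2 V → Bool}
    (h : dens K v₀ q x ≠ 0) : (gr x).Colorable (Fintype.card K) := by
  by_contra hcon
  apply h
  have h1 : ∀ (σ : V → K) (Y : Sym2 V → Bool),
      ∏ e, (1 + sg (x e) * gt v₀ (rho K) q σ Y e) = 0 := by
    intro σ Y
    by_contra hz
    apply hcon
    have hcol : ∀ {u v : V}, (gr x).Adj u v → σ u ≠ σ v := by
      intro u v huv heq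
      apply hz
      refine Finset.prod_eq_zero (mem_univ s(u, v)) ?_
      have h4 : sm σ s(u, v) = 1 := by rw [sm_mk, if_pos heq]
      have h5 : ¬ (s(u, v) : Sym2 V).IsDiag := by
        rw [Sym2.mk_isDiag_iff]
        exact huv.1
      rw [gt_one hk v₀ q Y h5 h4, huv.2]
      simp [sg]
    exact (SimpleGraph.Coloring.mk σ hcol).colorable
  unfold dens
  simp only [h1]
  unfold avg
  simp

lemma avg_chi_dens (v₀ : ℕ) (q : ℝ) (α : Finset (Sym2 V)) :
    avg (fun x : Sym2 V → Bool => chi x α * dens K v₀ q x) = MM K v₀ q α := by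
  have h1 : ∀ x : Sym2 V → Bool, chi x α * dens K v₀ q x =
      avg fun σ : V → K => avg fun Y : Sym2 V → Bool =>
        chi x α * ∏ e, (1 + sg (x e) * gt v₀ (rho K) q σ Y e) := by
    intro x
    unfold dens
    rw [← avg_mul_left]
    congr 1
    funext σ
    rw [← avg_mul_left]
  simp only [h1]
  have hswap : ∀ {Ω₁ Ω₂ : Type} [Fintype Ω₁] [Fintype Ω₂] (F : Ω₁ → Ω₂ → ℝ),
      avg (fun a => avg fun b => F a b) = avg fun b => avg fun a => F a b := by
    intro Ω₁ Ω₂ _ _ F
    unfold avg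
    rw [← Finset.sum_div, ← Finset.sum_div, Finset.sum_comm, div_div, div_div, mul_comm]
  rw [hswap]
  unfold MM
  congr 1
  funext σ
  rw [hswap]
  congr 1
  funext Y
  exact avg_density _ _

lemma MM_empty (v₀ : ℕ) (q : ℝ) :
    MM K v₀ q (∅ : Finset (Sym2 V)) = 1 := by
  have : Nonempty K := ⟨0⟩
  unfold MM
  simp only [Finset.prod_empty]
  rw [avg_const, avg_const]

lemma low_sq {D : ℕ} {c : Finset (Sym2 V) → ℝ} {F : (Sym2 V → Bool) → ℝ}
    (hF : ∀ x, F x = ∑ α ∈ Lo V D, c α * chi x α) :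
    avg F = c ∅ ∧ avg (fun x => F x ^ 2) = ∑ α ∈ Lo V D, c α ^ 2 := by
  classical
  have hc : ∀ β ∈ Lo V D, avg (fun x => F x * chi x β) = c β := by
    intro β hβ
    simp only [hF, Finset.sum_mul]
    rw [avg_sum, Finset.sum_eq_single β]
    · have : ∀ x : Sym2 V → Bool, c β * chi x β * chi x β = c β * (chi x β * chi x β) :=
        fun x => by ring
      simp only [this]
      rw [avg_mul_left, avg_chi_mul, if_pos rfl, mul_one]
    · intro α _ hne
      have : ∀ x : Sym2 V → Bool, c α * chi x α * chi x β = c α * (chi x α * chi x β) :=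
        fun x => by ring
      simp only [this]
      rw [avg_mul_left, avg_chi_mul, if_neg hne, mul_zero]
    · intro h
      exact absurd hβ h
  constructor
  · have h1 := hc ∅ (mem_Lo.2 ⟨by simp, by simp⟩)
    rw [← h1]
    congr 1
    funext x
    simp [chi]
  · have h2 : ∀ x, F x ^ 2 = ∑ α ∈ Lo V D, c α * (F x * chi x α) := by
      intro x
      have h3 : F x ^ 2 = F x * ∑ α ∈ Lo V D, c α * chi x α := by rw [← hF, sq]
      rw [h3, Finset.mul_sum]
      exact Finset.sum_congr rfl fun α _ => by ring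
    simp only [h2]
    rw [avg_sum]
    refine Finset.sum_congr rfl fun α hα => ?_
    rw [avg_mul_left, hc α hα, sq]

open Classical in
/-- **The quiet planting.** -/
theorem quiet (hk : 3 ≤ Fintype.card K) (v₀ : ℕ) {q : ℝ} (hq0 : 0 ≤ q) (D : ℕ) :
    ∃ μ : SimpleGraph V → ℝ, (∀ G, 0 ≤ μ G) ∧ ∑ G, μ G = 1 ∧
      (∀ G, μ G ≠ 0 → G.Colorable (Fintype.card K)) ∧
      ∀ p : MvPolynomial (Sym2 V) ℝ, p.totalDegree ≤ D →
        (∑ G, μ G * MvPolynomial.eval (ind G) p -
          avg (fun G : SimpleGraph V => MvPolynomial.eval (ind G) p)) ^ 2 ≤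
        (∑ α ∈ (Lo V D).erase ∅, MM K v₀ q α ^ 2) *
          (avg (fun G : SimpleGraph V => MvPolynomial.eval (ind G) p ^ 2) -
            avg (fun G : SimpleGraph V => MvPolynomial.eval (ind G) p) ^ 2) := by
  set M : ℝ := ((Fintype.card (Sym2 V → Bool) : ℕ) : ℝ) with hM
  have hM0 : 0 < M := by
    rw [hM]
    exact_mod_cast Fintype.card_pos
  set μ : SimpleGraph V → ℝ := fun G =>
    ∑ x ∈ (univ : Finset (Sym2 V → Bool)).filter (fun x => gr x = G), dens K v₀ q x / M with hμ
  have hpair : ∀ f : SimpleGraph V → ℝ, ∑ G, μ G * f G =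
      avg fun x : Sym2 V → Bool => f (gr x) * dens K v₀ q x := by
    intro f
    unfold avg
    rw [← Finset.sum_fiberwise (s := (univ : Finset (Sym2 V → Bool))) gr, Finset.sum_div]
    refine Finset.sum_congr rfl fun G _ => ?_
    rw [hμ, Finset.sum_mul, Finset.sum_div]
    refine Finset.sum_congr rfl fun x hx => ?_
    rw [(mem_filter.1 hx).2]
    ring
  refine ⟨μ, ?_, ?_, ?_, ?_⟩
  · intro G
    exact Finset.sum_nonneg fun x _ => div_nonneg (dens_nonneg hk v₀ hq0 x) hM0.le
  · have h1 := hpair (fun _ => 1)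
    simp only [mul_one] at h1
    have h2 := avg_chi_dens (V := V) (K := K) v₀ q ∅
    rw [MM_empty] at h2
    rw [h1]
    refine Eq.trans ?_ h2
    congr 1
  · intro G hG
    by_contra hcon
    apply hG
    refine Finset.sum_eq_zero fun x hx => ?_
    have h1 := (mem_filter.1 hx).2
    have h2 : dens K v₀ q x = 0 := by
      by_contra h3
      apply hcon
      rw [← h1]
      exact dens_colorable hk v₀ h3
    rw [h2, zero_div]
  · intro p hp
    obtain ⟨c, hc⟩ := expand p hp
    obtain ⟨h1, h2⟩ := low_sq hc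
    have h3 := avg_gr (fun G : SimpleGraph V => MvPolynomial.eval (ind G) p)
    have h4 := avg_gr (fun G : SimpleGraph V => MvPolynomial.eval (ind G) p ^ 2)
    have hempty : ∅ ∈ Lo V D := mem_Lo.2 ⟨by simp, by simp⟩
    have h5 : ∑ G, μ G * MvPolynomial.eval (ind G) p = ∑ α ∈ Lo V D, c α * MM K v₀ q α := by
      rw [hpair]
      have h6 : ∀ x : Sym2 V → Bool, MvPolynomial.eval (ind (gr x)) p * dens K v₀ q x =
          ∑ α ∈ Lo V D, c α * (chi x α * dens K v₀ q x) := by
        intro x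
        have h7 := hc x
        simp only at h7
        rw [h7, Finset.sum_mul]
        exact Finset.sum_congr rfl fun α _ => by ring
      simp only [h6]
      rw [avg_sum]
      refine Finset.sum_congr rfl fun α _ => ?_
      rw [avg_mul_left, avg_chi_dens]
    rw [← h3, ← h4, h1, h2, h5, ← Finset.add_sum_erase _ _ hempty,
      ← Finset.add_sum_erase _ (fun α => c α ^ 2) hempty, MM_empty, mul_one, add_sub_cancel_left,
      add_sub_cancel_left, mul_comm]
    exact Finset.sum_mul_sq_le_sq_mul_sq _ _ _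

end Pool.Agent.W988.LD
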