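import Pool.Agent.W988.LD.Sum3
import Pool.Agent.W988.LD.Quiet

/-! The sharper master inequality. -/

set_option autoImplicit false
set_option linter.unusedSectionVars false

namespace Pool.Agent.W988.LD

open Finset

/-- **The finite form.** -/
theorem finite_sum2 {n k : ℕ} [NeZero k] (hk : 3 ≤ k) (v₀ : ℕ) {q y a b : ℝ}
    (hq : 1 / 2 ≤ q) (hq1 : q < 1) (hy0 : 0 ≤ y) (hy1 : y ≤ 1)
    (ha0 : 0 ≤ a) (ha1 : a ≤ 1) (hb0 : 0 ≤ b) (hb1 : b ≤ 1)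
    (hab : a * b = (k : ℝ)⁻¹) (hy : y ^ (v₀ + 1) = a) (hn : n * a ^ 2 ≤ 1) (D : ℕ)
    (hb : 2 * ((((2 + v₀) * D : ℕ) : ℝ) ^ 2 * (2 ^ v₀ * (5 ^ v₀ * b))) ≤ 1)
    (s r : ℕ) (hs : D ≤ s ^ 2) (hs1 : 1 ≤ s)
    (hbr : 2 * (((2 + v₀ * (2 * r) : ℕ) : ℝ) ^ 2 * (2 ^ v₀ * (5 ^ v₀ * b))) ≤ 1) (κ : ℝ)
    (hκ : κ = y ^ (2 * v₀) * Real.exp (8 * s)) (hnκ : n * κ ≤ 1) (E : ℝ)
    (hE : E = (1 + BB n v₀ ^ D) * ((n : ℝ) ^ 2 * ((a / (1 - q)) ^ (2 * r) *
      (v₀ * (2 * r) + 1)))) :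
    ∑ α ∈ (Lo (Fin n) D).erase ∅, MM (ZMod k) v₀ q α ^ 2 ≤
      2 * ((v₀ * D + 1) ^ 2 * ((2 * D : ℕ) * (n * κ))) +
        2 * (((n : ℝ) ^ 2 + 1) ^ D * E ^ 2) := by
  classical
  have hcK : Fintype.card (ZMod k) = k := ZMod.card k
  have hcV : Fintype.card (Fin n) = n := Fintype.card_fin n
  have h3 := sum_mm2 (V := Fin n) (K := ZMod k) (by rw [hcK]; exact hk)
    v₀ hq hq1 hy0 hy1 ha0 ha1 hb0 hb1 (by rw [hcK]; exact hab) hy (by rw [hcV]; exact hn) D hb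
    s r hs hs1 hbr ((Lo (Fin n) D).erase ∅) (by
      intro α hα
      rw [mem_erase, mem_Lo] at hα
      exact ⟨Finset.nonempty_iff_ne_empty.2 hα.1, hα.2⟩) κ hκ (by rw [hcV]; exact hnκ) E
    (by rw [hcV]; exact hE)
  rw [hcV] at h3
  exact h3

lemma pow_eq_exp' {L : ℝ} (hL : 0 < L) (m : ℕ) : L ^ m = Real.exp (m * Real.log L) := by
  rw [Real.exp_nat_mul, Real.exp_log hL]

lemma r_le {L : ℝ} (hL : 480 ≤ L) {v₀ D r : ℕ} (hvL : (v₀ : ℝ) ≤ L)
    (hD : (D : ℝ) ≤ L ^ 2) (hr : r = 26 * v₀ ^ 2 * D + 24) :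
    2 + (v₀ : ℝ) * (2 * r) ≤ L ^ 6 := by
  have hL1 : (1 : ℝ) ≤ L := by linarith
  have hv0 : (0 : ℝ) ≤ v₀ := Nat.cast_nonneg _
  have hD0 : (0 : ℝ) ≤ D := Nat.cast_nonneg _
  have hrR : (r : ℝ) ≤ 50 * L ^ 4 := by
    have h1 : (r : ℝ) = 26 * (v₀ : ℝ) ^ 2 * D + 24 := by
      rw [hr]
      push_cast
      ring
    have h2 : (v₀ : ℝ) ^ 2 * D ≤ L ^ 2 * L ^ 2 :=
      mul_le_mul (pow_le_pow_left₀ hv0 hvL 2) hD hD0 (by positivity)
    have h3 : (1 : ℝ) ≤ L ^ 4 := one_le_pow₀ hL1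
    have h4 : L ^ 2 * L ^ 2 = L ^ 4 := by ring
    rw [h1]
    linarith
  have h2 : (v₀ : ℝ) * (2 * r) ≤ L * (2 * (50 * L ^ 4)) :=
    mul_le_mul hvL (by linarith) (by positivity) (by linarith)
  have h3 : (1 : ℝ) ≤ L ^ 5 := one_le_pow₀ hL1
  have h4 : L ^ 6 = L * L ^ 5 := by ring
  have h5 : L * (2 * (50 * L ^ 4)) = 100 * L ^ 5 := by ring
  have h6 : 480 * L ^ 5 ≤ L * L ^ 5 := mul_le_mul_of_nonneg_right hL (by positivity)
  rw [h4]
  linarith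

lemma sq_add_one_le {n : ℝ} (hn : 481 ≤ n) : n ^ 2 + 1 ≤ n ^ 3 := by
  nlinarith [sq_nonneg n]

lemma pow_six_le {L : ℝ} (hL0 : 480 ≤ L) : L ^ 6 ≤ Real.exp L := by
  have h7 : (L / 12) ^ 2 ≤ Real.exp (L / 6) := by
    have h8 := Real.add_one_le_exp (L / 12)
    have h9 : Real.exp (L / 6) = Real.exp (L / 12) ^ 2 := by
      rw [← Real.exp_nat_mul]
      congr 1
      push_cast
      ring
    rw [h9]
    exact pow_le_pow_left₀ (by linarith) (by linarith) 2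
  have h8 : L ≤ Real.exp (L / 6) := by
    refine le_trans ?_ h7
    nlinarith
  have h9 : Real.exp L = Real.exp (L / 6) ^ 6 := by
    rw [← Real.exp_nat_mul]
    congr 1
    push_cast
    ring
  rw [h9]
  exact pow_le_pow_left₀ (by linarith) h8 6

lemma bb_le {n v₀ : ℕ} (hv1 : 1 ≤ v₀) (hn : (481 : ℝ) ≤ n) : BB n v₀ ≤ (n : ℝ) ^ (5 * v₀ ^ 2) := by
  have hn1 : (1 : ℝ) ≤ n := by linarith
  unfold BB
  have h1 := sq_add_one_le hn
  have h2 : (24 : ℝ) ^ (v₀ ^ 2) * ((n : ℝ) ^ 2 + 1) ^ (v₀ ^ 2) ≤ (n ^ 4) ^ (v₀ ^ 2) := by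
    rw [← mul_pow]
    refine pow_le_pow_left₀ (by positivity) ?_ _
    calc (24 : ℝ) * ((n : ℝ) ^ 2 + 1) ≤ n * n ^ 3 :=
          mul_le_mul (by linarith) h1 (by positivity) (by positivity)
      _ = n ^ 4 := by ring
  have h3 : (1 : ℝ) ≤ ((n : ℝ) ^ 4) ^ (v₀ ^ 2) := one_le_pow₀ (one_le_pow₀ hn1)
  calc 2 + (24 : ℝ) ^ (v₀ ^ 2) * ((n : ℝ) ^ 2 + 1) ^ (v₀ ^ 2) ≤
        3 * ((n : ℝ) ^ 4) ^ (v₀ ^ 2) := by linarith
    _ ≤ n * ((n : ℝ) ^ 4) ^ (v₀ ^ 2) :=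
        mul_le_mul_of_nonneg_right (by linarith) (by linarith)
    _ ≤ (n : ℝ) ^ (v₀ ^ 2) * ((n : ℝ) ^ 4) ^ (v₀ ^ 2) := by
        refine mul_le_mul_of_nonneg_right ?_ (by positivity)
        exact le_self_pow₀ hn1 (by positivity)
    _ = _ := by
        rw [← pow_mul, ← pow_add]
        congr 1
        ring

lemma one_add_le {X Y n : ℝ} (h1 : X ≤ Y) (h2 : 1 ≤ Y) (hn : 481 ≤ n) : 1 + X ≤ Y * n := by
  have : Y * 2 ≤ Y * n := mul_le_mul_of_nonneg_left (by linarith) (by linarith)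
  linarith

lemma two_add_le {v L : ℝ} (h1 : v ≤ L) (hL : 480 ≤ L) : 2 + v ≤ L ^ 2 := by
  nlinarith

/-- the exponent `A` -/
theorem master2 {n k v₀ D s : ℕ} [NeZero k] {L : ℝ} (hL : L = Real.log n) (hL0 : 480 ≤ L)
    (hkn : k ≤ n) (hv1 : 1 ≤ v₀) (hvL : (v₀ : ℝ) ≤ L) (hD : (D : ℝ) ≤ L ^ 2)
    (hs : D ≤ s ^ 2) (hs1 : 1 ≤ s) {A Γ : ℝ}
    (hA : A = Real.log k - 3 * v₀ - 13 * Real.log L)
    (hΓ : Γ = 2 * v₀ / (v₀ + 1) * A - L - 8 * s - 11 * Real.log L)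
    (hΓ0 : 0 ≤ Γ) :
    3 ≤ k ∧ ∃ q : ℝ, 0 ≤ q ∧
      ∑ α ∈ (Lo (Fin n) D).erase ∅, MM (ZMod k) v₀ q α ^ 2 ≤ Real.exp (-Γ) := by
  have hLpos : 0 < L := by linarith
  have hL1 : (1 : ℝ) ≤ L := by linarith
  have hn0 : n ≠ 0 := by
    rintro rfl
    rw [Nat.cast_zero, Real.log_zero] at hL
    linarith
  have hnpos : (0 : ℝ) < n := by
    have : 0 < n := Nat.pos_of_ne_zero hn0
    exact_mod_cast this
  have hN : (n : ℝ) = Real.exp L := by rw [hL, Real.exp_log hnpos]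
  have hN481 : (481 : ℝ) ≤ n := by
    rw [hN]
    have := Real.add_one_le_exp L
    linarith
  have hlogL1 : 1 ≤ Real.log L := by
    rw [Real.le_log_iff_exp_le hLpos]
    have := Real.exp_one_lt_d9
    linarith
  have hlogL0 : 0 ≤ Real.log L := by linarith
  have hv0 : (0 : ℝ) ≤ v₀ := Nat.cast_nonneg _
  have hv1R : (1 : ℝ) ≤ v₀ := by exact_mod_cast hv1
  have hs1R : (1 : ℝ) ≤ s := by exact_mod_cast hs1
  have hD0 : (0 : ℝ) ≤ D := Nat.cast_nonneg _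
  have hv2 : (1 : ℝ) ≤ (v₀ : ℝ) ^ 2 := one_le_pow₀ hv1R
  have hcoef0 : 0 ≤ 2 * (v₀ : ℝ) / (v₀ + 1) := by positivity
  have hcoef2 : 2 * (v₀ : ℝ) / (v₀ + 1) ≤ 2 := by
    rw [div_le_iff₀ (by linarith)]
    linarith
  have hAL : L ≤ 2 * v₀ / (v₀ + 1) * A := by
    rw [hΓ] at hΓ0
    linarith
  have hA0 : 0 ≤ A := by
    by_contra hcon
    push Not at hcon
    have := mul_nonneg hcoef0 (neg_nonneg.2 hcon.le)
    linarith
  have hA2 : L ≤ 2 * A := hAL.trans (mul_le_mul_of_nonneg_right hcoef2 hA0)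
  have hk0 : k ≠ 0 := NeZero.ne k
  have hkpos : (0 : ℝ) < k := by
    have : 0 < k := Nat.pos_of_ne_zero hk0
    exact_mod_cast this
  have hK : (k : ℝ) = Real.exp (Real.log k) := (Real.exp_log hkpos).symm
  have hk3 : 3 ≤ k := by
    have h1 : L / 2 ≤ Real.log k := by linarith
    have h2 : Real.exp (L / 2) ≤ k := by
      rw [hK, Real.exp_le_exp]
      exact h1
    have h3 := Real.add_one_le_exp (L / 2)
    have h4 : (3 : ℝ) ≤ k := by linarith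
    exact_mod_cast h4
  have hlogk0 : 0 ≤ Real.log k := Real.log_natCast_nonneg k
  have hlogkL : Real.log k ≤ L := by
    rw [hL]
    exact Real.log_le_log hkpos (by exact_mod_cast hkn)
  -- the parameters
  set b : ℝ := Real.exp (-(3 * v₀ + 13 * Real.log L)) with hbdef
  have hb0 : 0 ≤ b := (Real.exp_pos _).le
  have hb1 : b ≤ 1 := by
    rw [hbdef, Real.exp_le_one_iff]
    linarith
  set a : ℝ := Real.exp (-A) with hadef
  have ha0 : 0 ≤ a := (Real.exp_pos _).le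
  have ha1 : a ≤ 1 := by
    rw [hadef, Real.exp_le_one_iff]
    linarith
  have hab : a * b = (k : ℝ)⁻¹ := by
    rw [hadef, hbdef, ← Real.exp_add, hA]
    have h1 : -(Real.log k - 3 * v₀ - 13 * Real.log L) + -(3 * (v₀ : ℝ) + 13 * Real.log L) =
        -Real.log k := by ring
    rw [h1, Real.exp_neg, Real.exp_log hkpos]
  have hna : n * a ^ 2 ≤ 1 := by
    rw [hN, hadef, ← Real.exp_nat_mul, ← Real.exp_add, Real.exp_le_one_iff]
    push_cast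
    linarith
  set y : ℝ := Real.exp (-(A / (v₀ + 1))) with hy
  have hy0 : 0 ≤ y := (Real.exp_pos _).le
  have hy1 : y ≤ 1 := by
    rw [hy, Real.exp_le_one_iff]
    have : 0 ≤ A / ((v₀ : ℝ) + 1) := by positivity
    linarith
  have hyk : y ^ (v₀ + 1) = a := by
    rw [hy, ← Real.exp_nat_mul, hadef]
    push_cast
    congr 1
    field_simp
  set q : ℝ := 1 - Real.exp (-(L / 4)) with hq
  have hq1' : 1 - q = Real.exp (-(L / 4)) := by rw [hq]; ring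
  have hqlt : q < 1 := by
    have := Real.exp_pos (-(L / 4))
    linarith
  have hqge : 1 / 2 ≤ q := by
    have h1 : Real.exp (-(L / 4)) ≤ 1 / 2 := by
      rw [Real.exp_neg, one_div]
      refine inv_anti₀ (by norm_num) ?_
      have := Real.add_one_le_exp (L / 4)
      linarith
    linarith
  set r : ℕ := 26 * v₀ ^ 2 * D + 24 with hr
  have hr6 := r_le hL0 hvL hD hr
  -- the smallness of `b`
  have hbm : ∀ m : ℕ, (m : ℝ) ≤ L ^ 6 →
      2 * ((m : ℝ) ^ 2 * (2 ^ v₀ * (5 ^ v₀ * b))) ≤ 1 := by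
    intro m hm
    have h1 : (m : ℝ) ^ 2 ≤ L ^ 12 := by
      have := pow_le_pow_left₀ (Nat.cast_nonneg m) hm 2
      refine this.trans (le_of_eq ?_)
      ring
    have h2 : (2 : ℝ) ^ v₀ * 5 ^ v₀ ≤ Real.exp (3 * v₀) := by
      rw [← mul_pow]
      have h3 : (2 * 5 : ℝ) ≤ Real.exp 3 := by
        have h4 : Real.exp 3 = Real.exp 1 ^ 3 := by
          rw [← Real.exp_nat_mul]
          norm_num
        rw [h4]
        have h5 : (2.718 : ℝ) ≤ Real.exp 1 := by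
          have := Real.exp_one_gt_d9
          linarith
        refine le_trans ?_ (pow_le_pow_left₀ (by norm_num) h5 3)
        norm_num
      refine (pow_le_pow_left₀ (by norm_num) h3 v₀).trans ?_
      rw [← Real.exp_nat_mul, mul_comm]
    have h3 : b = Real.exp (-(3 * v₀)) * (L ^ 13)⁻¹ := by
      rw [hbdef, pow_eq_exp' hLpos, ← Real.exp_neg, ← Real.exp_add]
      congr 1
      push_cast
      ring
    have h4 : Real.exp (3 * (v₀ : ℝ)) * Real.exp (-(3 * v₀)) = 1 := by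
      rw [← Real.exp_add, add_neg_cancel, Real.exp_zero]
    have hL13 : 0 < L ^ 13 := by positivity
    calc 2 * ((m : ℝ) ^ 2 * (2 ^ v₀ * (5 ^ v₀ * b))) =
          2 * (m : ℝ) ^ 2 * ((2 ^ v₀ * 5 ^ v₀) * b) := by ring
      _ ≤ 2 * L ^ 12 * (Real.exp (3 * v₀) * b) := by
          refine mul_le_mul (by linarith) (mul_le_mul_of_nonneg_right h2 hb0) (by positivity)
            (by positivity)
      _ = 2 * L ^ 12 * (L ^ 13)⁻¹ * (Real.exp (3 * (v₀ : ℝ)) * Real.exp (-(3 * v₀))) := by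
          rw [h3]
          ring
      _ = 2 * L ^ 12 * (L ^ 13)⁻¹ := by rw [h4, mul_one]
      _ ≤ 1 := by
          rw [← div_eq_mul_inv, div_le_one hL13]
          have : L ^ 13 = L * L ^ 12 := by ring
          rw [this]
          exact mul_le_mul_of_nonneg_right (by linarith) (by positivity)
  have hb : 2 * ((((2 + v₀) * D : ℕ) : ℝ) ^ 2 * (2 ^ v₀ * (5 ^ v₀ * b))) ≤ 1 := by
    apply hbm
    push_cast
    have h2 : (2 + (v₀ : ℝ)) * D ≤ L ^ 4 := by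
      calc (2 + (v₀ : ℝ)) * D ≤ L ^ 2 * L ^ 2 :=
            mul_le_mul (two_add_le hvL hL0) hD hD0 (by positivity)
        _ = L ^ 4 := by ring
    exact h2.trans (pow_le_pow_right₀ hL1 (by norm_num))
  have hbr : 2 * (((2 + v₀ * (2 * r) : ℕ) : ℝ) ^ 2 * (2 ^ v₀ * (5 ^ v₀ * b))) ≤ 1 := by
    apply hbm
    push_cast
    exact hr6
  set κ : ℝ := y ^ (2 * v₀) * Real.exp (8 * s) with hκ
  have hκ0 : 0 ≤ κ := by rw [hκ]; positivity
  have hnκ : n * κ = Real.exp (-Γ - 11 * Real.log L) := by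
    have h3 : y ^ (2 * v₀) = Real.exp (-(2 * v₀ / (v₀ + 1) * A)) := by
      rw [hy, ← Real.exp_nat_mul]
      congr 1
      push_cast
      ring
    rw [hκ, h3, hN, ← Real.exp_add, ← Real.exp_add, hΓ]
    congr 1
    ring
  have hnκ1 : n * κ ≤ 1 := by
    rw [hnκ, Real.exp_le_one_iff]
    linarith
  set E : ℝ := (1 + BB n v₀ ^ D) * ((n : ℝ) ^ 2 *
    ((a / (1 - q)) ^ (2 * r) * (v₀ * (2 * r) + 1))) with hE
  have hfin := finite_sum2 hk3 v₀ hqge hqlt hy0 hy1 ha0 ha1 hb0 hb1 hab hyk hna D hb s r hs hs1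
    hbr κ hκ hnκ1 E hE
  -- the first part
  have hT1 : 2 * (((v₀ : ℝ) * D + 1) ^ 2 * ((2 * D : ℕ) * (n * κ))) ≤ Real.exp (-Γ) / 2 := by
    have h1 : 2 * (((v₀ : ℝ) * D + 1) ^ 2 * ((2 * D : ℕ) : ℝ)) ≤ L ^ 9 := by
      push_cast
      have h2 : (v₀ : ℝ) * D ≤ L * L ^ 2 := mul_le_mul hvL hD hD0 hLpos.le
      have h3 : (1 : ℝ) ≤ L ^ 3 := one_le_pow₀ hL1
      have h4 : (v₀ : ℝ) * D + 1 ≤ 2 * L ^ 3 := by
        have : L * L ^ 2 = L ^ 3 := by ring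
        linarith
      have h5 : ((v₀ : ℝ) * D + 1) ^ 2 ≤ (2 * L ^ 3) ^ 2 := pow_le_pow_left₀ (by positivity) h4 2
      calc 2 * (((v₀ : ℝ) * D + 1) ^ 2 * (2 * (D : ℝ))) ≤
            2 * ((2 * L ^ 3) ^ 2 * (2 * L ^ 2)) := by
            refine mul_le_mul_of_nonneg_left ?_ (by norm_num)
            exact mul_le_mul h5 (by linarith) (by positivity) (by positivity)
        _ = 16 * L ^ 8 := by ring
        _ ≤ L * L ^ 8 := mul_le_mul_of_nonneg_right (by linarith) (by positivity)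
        _ = L ^ 9 := by ring
    calc 2 * (((v₀ : ℝ) * D + 1) ^ 2 * ((2 * D : ℕ) * (n * κ))) =
          2 * (((v₀ : ℝ) * D + 1) ^ 2 * ((2 * D : ℕ) : ℝ)) * (n * κ) := by ring
      _ ≤ L ^ 9 * Real.exp (-Γ - 11 * Real.log L) :=
          mul_le_mul h1 hnκ.le (by positivity) (by positivity)
      _ = Real.exp (9 * Real.log L + (-Γ - 11 * Real.log L)) := by
          rw [pow_eq_exp' hLpos, ← Real.exp_add]
          norm_num
      _ ≤ Real.exp (-Γ - Real.log L) := by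
          rw [Real.exp_le_exp]
          linarith
      _ = Real.exp (-Γ) / L := by rw [Real.exp_sub, Real.exp_log hLpos]
      _ ≤ Real.exp (-Γ) / 2 :=
          div_le_div_of_nonneg_left (Real.exp_pos _).le (by norm_num) (by linarith)
  -- the second part
  have hX : a / (1 - q) ≤ Real.exp (-(L / 8)) := by
    rw [hq1', hadef, ← Real.exp_sub, Real.exp_le_exp]
    linarith
  have hX0 : 0 ≤ a / (1 - q) := by
    have : 0 < 1 - q := by rw [hq1']; exact Real.exp_pos _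
    positivity
  have hn1 : (1 : ℝ) ≤ n := by linarith
  have hBB : BB n v₀ ≤ (n : ℝ) ^ (5 * v₀ ^ 2) := bb_le hv1 hN481
  have hBB0 := one_le_BB n v₀
  have hE1 : E ≤ (n : ℝ) ^ (5 * v₀ ^ 2 * D + 4) * Real.exp (-(r * L / 4)) := by
    have h1 : 1 + BB n v₀ ^ D ≤ (n : ℝ) ^ (5 * v₀ ^ 2 * D + 1) := by
      have h2 : BB n v₀ ^ D ≤ ((n : ℝ) ^ (5 * v₀ ^ 2)) ^ D :=
        pow_le_pow_left₀ (by linarith) hBB D
      rw [← pow_mul] at h2
      have h3 : (1 : ℝ) ≤ (n : ℝ) ^ (5 * v₀ ^ 2 * D) := one_le_pow₀ hn1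
      rw [pow_succ]
      exact one_add_le h2 h3 hN481
    have h2 : (a / (1 - q)) ^ (2 * r) ≤ Real.exp (-(r * L / 4)) := by
      refine (pow_le_pow_left₀ hX0 hX _).trans (le_of_eq ?_)
      rw [← Real.exp_nat_mul]
      congr 1
      push_cast
      ring
    have h3 : (v₀ : ℝ) * (2 * r) + 1 ≤ n := by
      have h4 : (v₀ : ℝ) * (2 * r) + 1 ≤ L ^ 6 := by linarith
      refine h4.trans ?_
      have h5 := pow_six_le hL0
      rw [hN]
      exact h5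
    rw [hE]
    calc (1 + BB n v₀ ^ D) * ((n : ℝ) ^ 2 *
          ((a / (1 - q)) ^ (2 * r) * (v₀ * (2 * r) + 1))) ≤
          (n : ℝ) ^ (5 * v₀ ^ 2 * D + 1) * ((n : ℝ) ^ 2 * (Real.exp (-(r * L / 4)) * n)) := by
          refine mul_le_mul h1 ?_ (by positivity) (by positivity)
          refine mul_le_mul_of_nonneg_left ?_ (by positivity)
          exact mul_le_mul h2 h3 (by positivity) (Real.exp_pos _).le
      _ = (n : ℝ) ^ (5 * v₀ ^ 2 * D + 1) * (n : ℝ) ^ 2 * n * Real.exp (-(r * L / 4)) := by ring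
      _ = _ := by
          congr 1
          rw [← pow_add, ← pow_succ]
  have hE0 : 0 ≤ E := by
    rw [hE]
    positivity
  have hT2 : 2 * (((n : ℝ) ^ 2 + 1) ^ D * E ^ 2) ≤ Real.exp (-Γ) / 2 := by
    have h1 : ((n : ℝ) ^ 2 + 1) ^ D ≤ (n : ℝ) ^ (3 * D) := by
      rw [pow_mul]
      exact pow_le_pow_left₀ (by positivity) (sq_add_one_le hN481) _
    have h2 : E ^ 2 ≤ ((n : ℝ) ^ (5 * v₀ ^ 2 * D + 4) * Real.exp (-(r * L / 4))) ^ 2 :=
      pow_le_pow_left₀ hE0 hE1 2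
    have h3 : 2 * (((n : ℝ) ^ 2 + 1) ^ D * E ^ 2) ≤ n * ((n : ℝ) ^ (3 * D) *
        ((n : ℝ) ^ (5 * v₀ ^ 2 * D + 4) * Real.exp (-(r * L / 4))) ^ 2) := by
      refine mul_le_mul (by linarith) (mul_le_mul h1 h2 (by positivity) (by positivity))
        (by positivity) (by positivity)
    refine h3.trans ?_
    have h4 : (n : ℝ) * ((n : ℝ) ^ (3 * D) *
        ((n : ℝ) ^ (5 * v₀ ^ 2 * D + 4) * Real.exp (-(r * L / 4))) ^ 2) =
        Real.exp ((9 + 3 * D + 10 * (v₀ : ℝ) ^ 2 * D) * L - r * L / 2) := by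
      rw [mul_pow, hN, ← Real.exp_nat_mul, ← Real.exp_nat_mul, ← Real.exp_nat_mul,
        ← Real.exp_nat_mul, ← Real.exp_add, ← Real.exp_add, ← Real.exp_add]
      congr 1
      push_cast
      ring
    rw [h4]
    have h5 : (r : ℝ) = 26 * (v₀ : ℝ) ^ 2 * D + 24 := by
      rw [hr]
      push_cast
      ring
    have hΓL : Γ ≤ L := by
      have h7 : 2 * (v₀ : ℝ) / (v₀ + 1) * A ≤ 2 * L :=
        mul_le_mul hcoef2 (by linarith) hA0 (by norm_num)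
      rw [hΓ]
      linarith
    calc Real.exp ((9 + 3 * D + 10 * (v₀ : ℝ) ^ 2 * D) * L - r * L / 2) ≤
          Real.exp (-Γ - L) := by
          rw [Real.exp_le_exp, h5]
          have h6 : (D : ℝ) ≤ (v₀ : ℝ) ^ 2 * D := le_mul_of_one_le_left hD0 hv2
          have h7 : (D : ℝ) * L ≤ (v₀ : ℝ) ^ 2 * D * L := mul_le_mul_of_nonneg_right h6 hLpos.le
          linarith
      _ = Real.exp (-Γ) / n := by rw [Real.exp_sub, hN]
      _ ≤ Real.exp (-Γ) / 2 :=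
          div_le_div_of_nonneg_left (Real.exp_pos _).le (by norm_num) (by linarith)
  refine ⟨hk3, q, by linarith, hfin.trans ?_⟩
  linarith

end Pool.Agent.W988.LD
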