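import Pool.Agent.W988.LD.Sum

/-! Polynomials in the edge indicators. -/

set_option autoImplicit false
set_option linter.unusedSectionVars false

namespace Pool.Agent.W988.LD

open Finset

variable {V : Type} [Fintype V] [DecidableEq V]

open Classical in
/-- the edge indicators of a graph -/
noncomputable def ind (G : SimpleGraph V) : Sym2 V → ℝ := fun e => if e ∈ G.edgeSet then 1 else 0

lemma ind_gr (x : Sym2 V → Bool) {e : Sym2 V} (he : ¬ e.IsDiag) :
    ind (gr x) e = (1 + sg (x e)) / 2 := by
  classical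
  unfold ind
  induction e using Sym2.ind with
  | _ a b =>
    rw [Sym2.mk_isDiag_iff] at he
    have h1 : s(a, b) ∈ (gr x).edgeSet ↔ x s(a, b) = true := by
      rw [SimpleGraph.mem_edgeSet]
      exact ⟨fun h => h.2, fun h => ⟨he, h⟩⟩
    by_cases h2 : x s(a, b) = true
    · rw [if_pos (h1.2 h2), h2]
      norm_num [sg]
    · rw [if_neg (fun h => h2 (h1.1 h))]
      rw [Bool.not_eq_true] at h2
      rw [h2]
      norm_num [sg]

lemma ind_diag (G : SimpleGraph V) {e : Sym2 V} (he : e.IsDiag) : ind G e = 0 := by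
  classical
  unfold ind
  rw [if_neg]
  intro h
  exact G.not_isDiag_of_mem_edgeSet h he

lemma ind_pow (G : SimpleGraph V) (e : Sym2 V) {m : ℕ} (hm : m ≠ 0) : ind G e ^ m = ind G e := by
  classical
  unfold ind
  split_ifs
  · rw [one_pow]
  · rw [zero_pow hm]

variable (V) in
/-- the edge sets in the expansions -/
noncomputable def Lo (D : ℕ) : Finset (Finset (Sym2 V)) := by
  classical
  exact univ.filter fun α => α.card ≤ D ∧ ∀ e ∈ α, ¬ e.IsDiag

lemma mem_Lo {D : ℕ} {α : Finset (Sym2 V)} :
    α ∈ Lo V D ↔ α.card ≤ D ∧ ∀ e ∈ α, ¬ e.IsDiag := by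
  classical
  unfold Lo
  simp

def LowD (D : ℕ) (F : (Sym2 V → Bool) → ℝ) : Prop :=
  ∃ c : Finset (Sym2 V) → ℝ, ∀ x, F x = ∑ α ∈ Lo V D, c α * chi x α

lemma LowD.sum {D : ℕ} {ι : Type} (s : Finset ι) (F : ι → (Sym2 V → Bool) → ℝ)
    (h : ∀ i ∈ s, LowD D (F i)) : LowD D (fun x => ∑ i ∈ s, F i x) := by
  classical
  choose! c hc using h
  refine ⟨fun α => ∑ i ∈ s, c i α, fun x => ?_⟩
  show ∑ i ∈ s, F i x = ∑ α ∈ Lo V D, (∑ i ∈ s, c i α) * chi x α
  rw [Finset.sum_congr rfl fun i hi => hc i hi x, Finset.sum_comm]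
  refine Finset.sum_congr rfl fun α _ => ?_
  rw [Finset.sum_mul]

lemma LowD.const_mul {D : ℕ} (a : ℝ) {F : (Sym2 V → Bool) → ℝ} (h : LowD D F) :
    LowD D (fun x => a * F x) := by
  obtain ⟨c, hc⟩ := h
  refine ⟨fun α => a * c α, fun x => ?_⟩
  show a * F x = _
  rw [hc, Finset.mul_sum]
  exact Finset.sum_congr rfl fun α _ => by ring

lemma LowD.prod {D : ℕ} {S : Finset (Sym2 V)} (hS : S.card ≤ D) (hd : ∀ e ∈ S, ¬ e.IsDiag) :
    LowD D (fun x => ∏ e ∈ S, (1 + sg (x e)) / 2) := by
  classical
  refine ⟨fun α => if α ⊆ S then (1 / 2) ^ S.card else 0, fun x => ?_⟩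
  simp only [div_eq_mul_inv]
  rw [Finset.prod_mul_distrib, Finset.prod_const, Finset.prod_one_add, Finset.sum_mul]
  have h1 : S.powerset ⊆ Lo V D := by
    intro α hα
    rw [mem_powerset] at hα
    exact mem_Lo.2 ⟨(Finset.card_le_card hα).trans hS, fun e he => hd e (hα he)⟩
  rw [← Finset.sum_subset h1]
  · refine Finset.sum_congr rfl fun α hα => ?_
    rw [mem_powerset] at hα
    rw [if_pos hα]
    unfold chi
    ring
  · intro α _ hα
    rw [mem_powerset] at hα
    rw [if_neg hα, zero_mul]

/-- **The expansion of a polynomial in the edge indicators.** -/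
theorem expand (p : MvPolynomial (Sym2 V) ℝ) {D : ℕ} (hp : p.totalDegree ≤ D) :
    LowD D (fun x => MvPolynomial.eval (ind (gr x)) p) := by
  classical
  have h0 : (fun x : Sym2 V → Bool => MvPolynomial.eval (ind (gr x)) p) =
      fun x => ∑ d ∈ p.support, p.coeff d * ∏ i ∈ d.support, ind (gr x) i ^ d i := by
    funext x
    exact MvPolynomial.eval_eq _ _
  rw [h0]
  refine LowD.sum _ _ fun d hd => ?_
  refine LowD.const_mul _ ?_
  have hcard : d.support.card ≤ D := by
    refine le_trans ?_ ((MvPolynomial.le_totalDegree hd).trans hp)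
    unfold Finsupp.sum
    rw [Finset.card_eq_sum_ones]
    exact Finset.sum_le_sum fun i hi => Nat.one_le_iff_ne_zero.2 (Finsupp.mem_support_iff.1 hi)
  by_cases hdiag : ∀ e ∈ d.support, ¬ e.IsDiag
  · have h1 : (fun x : Sym2 V → Bool => ∏ i ∈ d.support, ind (gr x) i ^ d i) =
        fun x => ∏ e ∈ d.support, (1 + sg (x e)) / 2 := by
      funext x
      refine Finset.prod_congr rfl fun e he => ?_
      rw [ind_pow _ _ (Finsupp.mem_support_iff.1 he), ind_gr x (hdiag e he)]
    rw [h1]
    exact LowD.prod hcard hdiag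
  · push Not at hdiag
    obtain ⟨e, he, hed⟩ := hdiag
    refine ⟨fun _ => 0, fun x => ?_⟩
    show ∏ i ∈ d.support, ind (gr x) i ^ d i = _
    rw [Finset.prod_eq_zero he]
    · simp
    · rw [ind_diag _ hed, zero_pow (Finsupp.mem_support_iff.1 he)]

/-! ### the uniform distribution on graphs -/

open Classical in
lemma card_fibre (G : SimpleGraph V) :
    ((univ : Finset (Sym2 V → Bool)).filter fun x => gr x = G).card =
      ((univ : Finset (Sym2 V → Bool)).filter fun x => gr x = ⊥).card := by
  have key : ∀ x : Sym2 V → Bool, gr x = G ↔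
      gr (fun e => xor (x e) (decide (e ∈ G.edgeSet))) = ⊥ := by
    intro x
    have hE : ∀ u v, decide (s(u, v) ∈ G.edgeSet) = decide (G.Adj u v) := fun u v => by
      rw [decide_eq_decide]
      exact SimpleGraph.mem_edgeSet G
    constructor
    · intro h
      ext u v
      simp only [SimpleGraph.bot_adj, iff_false]
      rintro ⟨h1, h2⟩
      have h3 : (gr x).Adj u v ↔ G.Adj u v := by rw [h]
      have h2' : xor (x s(u, v)) (decide (s(u, v) ∈ G.edgeSet)) = true := h2
      rw [hE] at h2'
      by_cases h4 : G.Adj u v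
      · have h5 := (h3.2 h4).2
        rw [h5] at h2'
        simp [h4] at h2'
      · have h5 : x s(u, v) = false := by
          by_contra hcon
          exact h4 (h3.1 ⟨h1, by simpa using hcon⟩)
        rw [h5] at h2'
        simp [h4] at h2'
    · intro h
      ext u v
      have h3 : ¬ (gr (fun e => xor (x e) (decide (e ∈ G.edgeSet)))).Adj u v := by
        rw [h]
        exact id
      by_cases huv : u = v
      · subst huv
        simp
      · have h4 : xor (x s(u, v)) (decide (s(u, v) ∈ G.edgeSet)) = false := by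
          by_contra hcon
          exact h3 ⟨huv, by simpa using hcon⟩
        rw [hE] at h4
        constructor
        · rintro ⟨-, h5⟩
          rw [h5] at h4
          simpa using h4
        · intro h5
          refine ⟨huv, ?_⟩
          simp [h5] at h4
          exact h4
  refine Finset.card_bij' (fun x _ e => xor (x e) (decide (e ∈ G.edgeSet)))
    (fun x _ e => xor (x e) (decide (e ∈ G.edgeSet))) ?_ ?_ ?_ ?_
  · intro x hx
    rw [mem_filter] at hx ⊢
    exact ⟨mem_univ _, (key x).1 hx.2⟩
  · intro x hx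
    rw [mem_filter] at hx ⊢
    refine ⟨mem_univ _, (key _).2 ?_⟩
    have : (fun e => xor (xor (x e) (decide (e ∈ G.edgeSet))) (decide (e ∈ G.edgeSet))) = x := by
      funext e
      simp
    rw [this]
    exact hx.2
  · intro x _
    funext e
    simp
  · intro x _
    funext e
    simp

theorem avg_gr (f : SimpleGraph V → ℝ) : avg (fun x : Sym2 V → Bool => f (gr x)) = avg f := by
  classical
  set c : ℕ := ((univ : Finset (Sym2 V → Bool)).filter fun x => gr x = ⊥).card with hc
  have hc0 : (c : ℝ) ≠ 0 := by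
    have : 0 < c := by
      rw [hc, Finset.card_pos]
      refine ⟨fun _ => false, mem_filter.2 ⟨mem_univ _, ?_⟩⟩
      ext u v
      simp [gr]
    exact_mod_cast this.ne'
  have key : ∀ g : SimpleGraph V → ℝ, ∑ x : Sym2 V → Bool, g (gr x) = c * ∑ G, g G := by
    intro g
    rw [← Finset.sum_fiberwise (s := (univ : Finset (Sym2 V → Bool))) gr, Finset.mul_sum]
    refine Finset.sum_congr rfl fun G _ => ?_
    have h1 : ∀ x ∈ (univ : Finset (Sym2 V → Bool)).filter (fun x => gr x = G),
        g (gr x) = g G := fun x hx => by rw [(mem_filter.1 hx).2]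
    rw [Finset.sum_congr rfl h1, Finset.sum_const, nsmul_eq_mul, hc]
    congr 1
    norm_cast
    convert card_fibre G
  unfold avg
  rw [key f]
  have h1 := key (fun _ => 1)
  simp only [Finset.sum_const, Finset.card_univ, nsmul_eq_mul, mul_one] at h1
  rw [h1, mul_div_mul_left _ _ hc0]

end Pool.Agent.W988.LD
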