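import Pool.Agent.W988.LD.Master3

/-! The sharper asymptotic form. -/

set_option autoImplicit false
set_option linter.unusedSectionVars false

namespace Pool.Agent.W988.LD

open Finset Filter

lemma ev_log' (C a b : ℝ) (hab : a < b) :
    ∀ᶠ L : ℝ in atTop, C * L ^ a * Real.log L ≤ L ^ b := by
  have h1 := (isLittleO_log_rpow_atTop (sub_pos.2 hab)).bound
    (show (0 : ℝ) < (|C| + 1)⁻¹ by positivity)
  filter_upwards [h1, eventually_ge_atTop (1 : ℝ)] with L hL hL1
  have hL0 : 0 < L := by linarith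
  have h2 : 0 ≤ Real.log L := Real.log_nonneg hL1
  have h3 : 0 < L ^ (b - a) := Real.rpow_pos_of_pos hL0 _
  have h4 : 0 < L ^ a := Real.rpow_pos_of_pos hL0 _
  rw [Real.norm_of_nonneg h2, Real.norm_of_nonneg h3.le] at hL
  have h5 : L ^ b = L ^ a * L ^ (b - a) := by
    rw [← Real.rpow_add hL0]
    congr 1
    ring
  calc C * L ^ a * Real.log L ≤ |C| * L ^ a * Real.log L := by
        refine mul_le_mul_of_nonneg_right (mul_le_mul_of_nonneg_right (le_abs_self C) h4.le) h2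
    _ ≤ |C| * L ^ a * ((|C| + 1)⁻¹ * L ^ (b - a)) :=
        mul_le_mul_of_nonneg_left hL (by positivity)
    _ = (|C| * (|C| + 1)⁻¹) * (L ^ a * L ^ (b - a)) := by ring
    _ ≤ 1 * (L ^ a * L ^ (b - a)) := by
        refine mul_le_mul_of_nonneg_right ?_ (by positivity)
        rw [← div_eq_mul_inv, div_le_one (by positivity)]
        linarith
    _ = L ^ b := by rw [one_mul, h5]

open Classical in
lemma var_nonneg {n : ℕ} (p : MvPolynomial (Sym2 (Fin n)) ℝ) :
    0 ≤ avg (fun G : SimpleGraph (Fin n) => MvPolynomial.eval (ind G) p ^ 2) -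
          avg (fun G : SimpleGraph (Fin n) => MvPolynomial.eval (ind G) p) ^ 2 := by
  set A := avg (fun G : SimpleGraph (Fin n) => MvPolynomial.eval (ind G) p) with hA
  have h3 : 0 ≤ avg (fun G : SimpleGraph (Fin n) => (MvPolynomial.eval (ind G) p - A) ^ 2) :=
    avg_nonneg fun _ => sq_nonneg _
  have h4 : avg (fun G : SimpleGraph (Fin n) => (MvPolynomial.eval (ind G) p - A) ^ 2) =
      avg (fun G : SimpleGraph (Fin n) => MvPolynomial.eval (ind G) p ^ 2) - 2 * A * A +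
        A ^ 2 := by
    have h5 : ∀ G : SimpleGraph (Fin n), (MvPolynomial.eval (ind G) p - A) ^ 2 =
        (MvPolynomial.eval (ind G) p ^ 2 - 2 * A * MvPolynomial.eval (ind G) p) + A ^ 2 :=
      fun G => by ring
    simp only [h5]
    rw [avg_add, avg_sub, avg_mul_left, avg_const, ← hA]
  nlinarith

open Classical in
/-- every graph is colourable -/
lemma triv_case {n k : ℕ} (hkn : n < k) {η : ℝ} (hη : 0 ≤ η) :
    ∃ μ : SimpleGraph (Fin n) → ℝ, (∀ G, 0 ≤ μ G) ∧ ∑ G, μ G = 1 ∧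
        (∀ G, μ G ≠ 0 → G.Colorable k) ∧
        ∀ p : MvPolynomial (Sym2 (Fin n)) ℝ,
          (∑ G, μ G * MvPolynomial.eval (ind G) p -
            avg (fun G : SimpleGraph (Fin n) => MvPolynomial.eval (ind G) p)) ^ 2 ≤
          η * (avg (fun G : SimpleGraph (Fin n) => MvPolynomial.eval (ind G) p ^ 2) -
              avg (fun G : SimpleGraph (Fin n) => MvPolynomial.eval (ind G) p) ^ 2) := by
  refine ⟨fun _ => ((Fintype.card (SimpleGraph (Fin n)) : ℕ) : ℝ)⁻¹, fun _ => by positivity,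
    ?_, ?_, ?_⟩
  · rw [Finset.sum_const, Finset.card_univ, nsmul_eq_mul]
    exact mul_inv_cancel₀ (by exact_mod_cast Fintype.card_ne_zero)
  · intro G _
    have h2 : G.Colorable (Fintype.card (Fin n)) := G.colorable_of_fintype
    rw [Fintype.card_fin] at h2
    exact h2.mono (by omega)
  · intro p
    have h1 : ∑ G : SimpleGraph (Fin n), ((Fintype.card (SimpleGraph (Fin n)) : ℕ) : ℝ)⁻¹ *
        MvPolynomial.eval (ind G) p =
        avg (fun G : SimpleGraph (Fin n) => MvPolynomial.eval (ind G) p) := by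
      unfold avg
      rw [← Finset.mul_sum, inv_mul_eq_div]
    rw [h1, sub_self, zero_pow (by norm_num)]
    exact mul_nonneg hη (var_nonneg p)

open Classical in
/-- **The sharper trade-off.** -/
theorem sharp :
    ∃ n₀ : ℕ, ∀ n ≥ n₀, ∀ k D : ℕ,
      Real.sqrt n * Real.exp (14 * Real.sqrt (Real.log n)) ≤ k →
      1024 * (D : ℝ) ≤ Real.log (k / Real.sqrt n) ^ 2 →
      ∃ μ : SimpleGraph (Fin n) → ℝ, (∀ G, 0 ≤ μ G) ∧ ∑ G, μ G = 1 ∧
        (∀ G, μ G ≠ 0 → G.Colorable k) ∧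
        ∀ p : MvPolynomial (Sym2 (Fin n)) ℝ, p.totalDegree ≤ D →
          (∑ G, μ G * MvPolynomial.eval (ind G) p -
            avg (fun G : SimpleGraph (Fin n) => MvPolynomial.eval (ind G) p)) ^ 2 ≤
          (Real.sqrt n / k) *
            (avg (fun G : SimpleGraph (Fin n) => MvPolynomial.eval (ind G) p ^ 2) -
              avg (fun G : SimpleGraph (Fin n) => MvPolynomial.eval (ind G) p) ^ 2) := by
  have hev : ∀ᶠ L : ℝ in atTop, 480 ≤ L ∧ 45 * L ^ (0 : ℝ) * Real.log L ≤ L ^ (1 / 2 : ℝ) :=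
    (eventually_ge_atTop (480 : ℝ)).and (ev_log' 45 0 (1 / 2) (by norm_num))
  have hlim : Tendsto (fun n : ℕ => Real.log n) atTop atTop :=
    Real.tendsto_log_atTop.comp tendsto_natCast_atTop_atTop
  obtain ⟨n₀, hn₀⟩ := eventually_atTop.1 (hlim.eventually hev)
  refine ⟨n₀, fun n hn k D hk hD => ?_⟩
  obtain ⟨hL0, hE1⟩ := hn₀ n hn
  set L : ℝ := Real.log n with hL
  rw [Real.rpow_zero, mul_one, ← Real.sqrt_eq_rpow] at hE1
  have hLpos : 0 < L := by linarith
  have hL1 : (1 : ℝ) ≤ L := by linarith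
  have hn0 : n ≠ 0 := by
    rintro rfl
    rw [Nat.cast_zero, Real.log_zero] at hL
    linarith
  have hnpos : (0 : ℝ) < n := by
    have : 0 < n := Nat.pos_of_ne_zero hn0
    exact_mod_cast this
  have hN : (n : ℝ) = Real.exp L := by rw [hL, Real.exp_log hnpos]
  have hsn : 0 < Real.sqrt n := Real.sqrt_pos.2 hnpos
  have hkpos : (0 : ℝ) < k := lt_of_lt_of_le (by positivity) hk
  by_cases hkn : k ≤ n
  swap
  · obtain ⟨μ, h1, h2, h3, h4⟩ := triv_case (n := n) (k := k) (by omega)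
      (η := Real.sqrt n / k) (by positivity)
    exact ⟨μ, h1, h2, h3, fun p _ => h4 p⟩
  have hlogL1 : 1 ≤ Real.log L := by
    rw [Real.le_log_iff_exp_le hLpos]
    have := Real.exp_one_lt_d9
    linarith
  have hlogL0 : 0 ≤ Real.log L := by linarith
  -- the parameter `ℓ`
  set l : ℝ := Real.log (k / Real.sqrt n) with hl
  have hlk : Real.log k = L / 2 + l := by
    rw [hl, Real.log_div hkpos.ne' hsn.ne', Real.log_sqrt hnpos.le]
    ring
  have hl14 : 14 * Real.sqrt L ≤ l := by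
    rw [hl, Real.le_log_iff_exp_le (by positivity), le_div_iff₀ hsn, mul_comm]
    exact hk
  have hsqL : Real.sqrt L ^ 2 = L := Real.sq_sqrt hLpos.le
  have hsqL0 : 0 < Real.sqrt L := Real.sqrt_pos.2 hLpos
  have hlpos : 0 < l := by linarith
  have hsq2 : 21 ≤ Real.sqrt L := by
    rw [show (21 : ℝ) = Real.sqrt (21 ^ 2) from (Real.sqrt_sq (by norm_num)).symm]
    exact Real.sqrt_le_sqrt (by linarith)
  have hlogkL : Real.log k ≤ L := by
    rw [hL]
    exact Real.log_le_log hkpos (by exact_mod_cast hkn)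
  have hlL : l ≤ L / 2 := by linarith
  have hl2 : 196 * L ≤ l ^ 2 := by
    have h1 : (14 * Real.sqrt L) ^ 2 ≤ l ^ 2 := pow_le_pow_left₀ (by positivity) hl14 2
    rw [mul_pow, hsqL] at h1
    linarith
  -- the other parameters
  set v₀ : ℕ := ⌊l / 24⌋₊ with hv₀
  have hvhi : (v₀ : ℝ) ≤ l / 24 := Nat.floor_le (by positivity)
  have hvlo : l / 24 < v₀ + 1 := Nat.lt_floor_add_one _
  have hv1 : 1 ≤ v₀ := by
    rw [hv₀]
    apply Nat.le_floor
    rw [Nat.cast_one]
    linarith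
  set s : ℕ := Nat.sqrt D + 1 with hs
  have hDs : D ≤ s ^ 2 := (Nat.lt_succ_sqrt' D).le
  have hsR : 8 * (s : ℝ) ≤ l / 4 + 8 := by
    have h1 : (Nat.sqrt D : ℝ) ≤ l / 32 := by
      have h2 : ((Nat.sqrt D : ℝ)) ^ 2 ≤ (l / 32) ^ 2 := by
        have h3 : ((Nat.sqrt D : ℕ) : ℝ) ^ 2 ≤ D := by exact_mod_cast Nat.sqrt_le' D
        have h4 : (l / 32) ^ 2 = l ^ 2 / 1024 := by ring
        rw [h4]
        linarith
      exact le_of_sq_le_sq h2 (by positivity)
    rw [hs]
    push_cast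
    linarith
  have hDL2 : (D : ℝ) ≤ L ^ 2 := by
    have h1 : l ^ 2 ≤ (L / 2) ^ 2 := pow_le_pow_left₀ hlpos.le hlL 2
    have h2 : (L / 2) ^ 2 = L ^ 2 / 4 := by ring
    have h3 : 0 ≤ L ^ 2 := by positivity
    linarith
  set A : ℝ := Real.log k - 3 * v₀ - 13 * Real.log L with hA
  set Γ : ℝ := 2 * v₀ / (v₀ + 1) * A - L - 8 * s - 11 * Real.log L with hΓ
  have hAL : A ≤ L := by
    rw [hA]
    have : (0 : ℝ) ≤ v₀ := Nat.cast_nonneg _
    linarith
  have hΓge : l ≤ Γ := by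
    have hvpos : (0 : ℝ) < (v₀ : ℝ) + 1 := by positivity
    have h1 : 2 * (v₀ : ℝ) / (v₀ + 1) * A = 2 * A - 2 * A / (v₀ + 1) := by
      field_simp
      ring
    have h2 : 2 * A / ((v₀ : ℝ) + 1) ≤ l / 4 := by
      rw [div_le_iff₀ hvpos]
      have h3 : l / 4 * (l / 24) ≤ l / 4 * (v₀ + 1) :=
        mul_le_mul_of_nonneg_left hvlo.le (by positivity)
      have h4 : l / 4 * (l / 24) = l ^ 2 / 96 := by ring
      linarith
    have h3 : 45 * Real.log L ≤ l / 14 := by linarith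
    have hA' : A = L / 2 + l - 3 * v₀ - 13 * Real.log L := by rw [hA, hlk]
    rw [hΓ, h1]
    linarith
  have hk0 : k ≠ 0 := by
    rintro rfl
    simp at hkpos
  have : NeZero k := ⟨hk0⟩
  obtain ⟨hk3, q, hq0, hsum⟩ := master2 (n := n) (k := k) (v₀ := v₀) (D := D) (s := s) hL hL0 hkn
    hv1 (by linarith) hDL2 hDs (by omega) hA hΓ (by linarith)
  obtain ⟨μ, hμ0, hμ1, hμc, hμp⟩ := quiet (V := Fin n) (K := ZMod k)
    (by rw [ZMod.card k]; exact hk3) v₀ hq0 D
  refine ⟨μ, hμ0, hμ1, fun G hG => ?_, fun p hp => (hμp p hp).trans ?_⟩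
  · have h1 := hμc G hG
    rwa [ZMod.card k] at h1
  · refine mul_le_mul_of_nonneg_right (hsum.trans ?_) (var_nonneg p)
    have h1 : Real.sqrt n / k = Real.exp (-l) := by
      rw [Real.exp_neg, hl, Real.exp_log (by positivity), inv_div]
    rw [h1, Real.exp_le_exp]
    linarith

end Pool.Agent.W988.LD
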