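import Pool.Agent.W988.LD.Trunc

/-! The sum over the small edge sets. -/

set_option autoImplicit false
set_option linter.unusedSectionVars false

namespace Pool.Agent.W988.LD

open Finset Submodule

variable {V : Type} [Fintype V] [DecidableEq V]
variable {K : Type} [AddCommGroup K] [Fintype K] [DecidableEq K]

/-- the constant for the moments -/
noncomputable def AA (v₀ D : ℕ) : ℝ := 4 * 24 ^ (v₀ ^ 2) * Kc v₀ D

lemma Kc_mono (v₀ : ℕ) {a b : ℕ} (h : a ≤ b) : Kc v₀ a ≤ Kc v₀ b := by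
  unfold Kc
  have h1 : (2 + v₀) * a ≤ (2 + v₀) * b := Nat.mul_le_mul_left _ h
  have h2 : ((2 + v₀) * a) ^ 2 + 1 ≤ ((2 + v₀) * b) ^ 2 + 1 :=
    Nat.add_le_add_right (Nat.pow_le_pow_left h1 2) 1
  have h3 := Nat.pow_le_pow_left h2 (v₀ ^ 2)
  omega

lemma one_le_AA (v₀ D : ℕ) : 1 ≤ AA v₀ D := by
  unfold AA
  have h1 : (1 : ℝ) ≤ 24 ^ (v₀ ^ 2) := one_le_pow₀ (by norm_num)
  have h2 : (1 : ℝ) ≤ Kc v₀ D := by
    have : 1 ≤ Kc v₀ D := by
      unfold Kc
      omega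
    exact_mod_cast this
  nlinarith

lemma sum_pos_small (κ : ℝ) (hκ : 0 ≤ κ) (hn : Fintype.card V * κ ≤ 1) (s : ℕ) :
    ∑ M ∈ (univ : Finset (Finset V)).filter (fun M => M.Nonempty ∧ M.card ≤ s), κ ^ M.card ≤
      s * (Fintype.card V * κ) := by
  have h0 := sum_small (V := V) κ hκ s
  have h1 : (univ : Finset (Finset V)).filter (fun M => M.card ≤ s) =
      insert ∅ ((univ : Finset (Finset V)).filter (fun M => M.Nonempty ∧ M.card ≤ s)) := by
    ext M
    simp only [mem_filter, mem_univ, true_and, mem_insert]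
    constructor
    · intro h
      rcases M.eq_empty_or_nonempty with rfl | hM
      · exact Or.inl rfl
      · exact Or.inr ⟨hM, h⟩
    · rintro (rfl | h)
      · simp
      · exact h.2
  rw [h1, Finset.sum_insert (by simp), Finset.sum_range_succ'] at h0
  simp only [Finset.card_empty, pow_zero] at h0
  have h2 : ∑ j ∈ range s, ((Fintype.card V : ℝ) * κ) ^ (j + 1) ≤
      s * (Fintype.card V * κ) := by
    calc ∑ j ∈ range s, ((Fintype.card V : ℝ) * κ) ^ (j + 1) ≤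
          ∑ _j ∈ range s, ((Fintype.card V : ℝ) * κ) := by
          refine Finset.sum_le_sum fun j _ => ?_
          rw [pow_succ]
          exact mul_le_of_le_one_left (by positivity) (pow_le_one₀ (by positivity) hn)
      _ = _ := by
          rw [Finset.sum_const, Finset.card_range, nsmul_eq_mul]
  linarith

lemma vs_nonempty {α : Finset (Sym2 V)} (h : α.Nonempty) : (vs α).Nonempty := by
  obtain ⟨e, he⟩ := h
  induction e using Sym2.ind with
  | _ a b => exact ⟨a, mem_vs.2 ⟨_, he, Sym2.mem_mk_left a b⟩⟩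

/-- the number of edge sets of bounded size on a set of vertices -/
lemma card_on (R : Finset V) (t : ℕ) :
    ((univ : Finset (Finset (Sym2 V))).filter fun α => vs α ⊆ R ∧ α.card ≤ t).card ≤
      (R.card ^ 2 + 1) ^ t := by
  have h1 : ((univ : Finset (Finset (Sym2 V))).filter fun α => vs α ⊆ R ∧ α.card ≤ t) ⊆
      R.sym2.powerset.filter fun T => T.card ≤ t := by
    intro α hα
    rw [mem_filter] at hα
    rw [mem_filter, mem_powerset]
    exact ⟨sub_sym2 hα.2.1, hα.2.2⟩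
  refine (Finset.card_le_card h1).trans ((card_small _ t).trans ?_)
  exact Nat.pow_le_pow_left (Nat.add_le_add_right (card_sym2_le R) 1) t

theorem sum_mo (hk : 3 ≤ Fintype.card K) (hn : Fintype.card V ≤ Fintype.card K ^ 2)
    (v₀ : ℕ) {q y : ℝ} (hq : 1 / 2 ≤ q) (hq1 : q ≤ 1)
    (hy0 : 0 ≤ y) (hy1 : y ≤ 1) (hy : y ^ (v₀ + 1) = (Fintype.card K : ℝ)⁻¹)
    (D s : ℕ) (hs : D ≤ s ^ 2) (𝒜 : Finset (Finset (Sym2 V)))
    (h𝒜 : ∀ α ∈ 𝒜, α.Nonempty ∧ α.card ≤ D ∧ ∀ e ∈ α, ¬ e.IsDiag) (κ : ℝ)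
    (hκ : κ = y ^ (2 * v₀) * ((4 * (D : ℝ) ^ 2 + 1) * AA v₀ D ^ 2) ^ s)
    (hnκ : Fintype.card V * κ ≤ 1) :
    ∑ α ∈ 𝒜, Mo K v₀ q α ^ 2 ≤ (v₀ * D + 1) ^ 2 * ((2 * D : ℕ) * (Fintype.card V * κ)) := by
  classical
  have hA1 := one_le_AA v₀ D
  have hκ0 : 0 ≤ κ := by rw [hκ]; positivity
  -- each term
  have hterm : ∀ α ∈ 𝒜, Mo K v₀ q α ^ 2 ≤ (v₀ * D + 1) ^ 2 *
      (y ^ (2 * v₀) * (AA v₀ D ^ 2) ^ s) ^ (vs α).card := by
    intro α hα
    obtain ⟨-, hD, hd⟩ := h𝒜 α hα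
    have h1 := moment_bound (K := K) (by omega) hn v₀ (rho_bounds hk).1 (rho_bounds hk).2 hq hq1
      hy0 hy1 hy hd
    have hcard : α.card ≤ s * (vs α).card := by
      rcases le_total (vs α).card s with h | h
      · exact (card_le_sq (Finset.Subset.refl _)).trans (by
          rw [sq]
          exact Nat.mul_le_mul_right _ h)
      · refine (hD.trans hs).trans ?_
        rw [sq]
        exact Nat.mul_le_mul_left _ h
    have h2 : (4 * 24 ^ (v₀ ^ 2) * (Kc v₀ α.card : ℝ)) ^ α.card ≤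
        (AA v₀ D) ^ (s * (vs α).card) := by
      have h3 : (4 * 24 ^ (v₀ ^ 2) * (Kc v₀ α.card : ℝ)) ≤ AA v₀ D := by
        unfold AA
        refine mul_le_mul_of_nonneg_left ?_ (by positivity)
        exact_mod_cast Kc_mono v₀ hD
      refine (pow_le_pow_left₀ (by positivity) h3 _).trans ?_
      exact pow_le_pow_right₀ hA1 hcard
    have h3 : |Mo K v₀ q α| ≤ (v₀ * D + 1) * (AA v₀ D ^ (s * (vs α).card) *
        y ^ (v₀ * (vs α).card)) := by
      refine h1.trans ?_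
      have h4 : ((v₀ : ℝ) * α.card + 1) ≤ v₀ * D + 1 := by
        have : (α.card : ℝ) ≤ D := by exact_mod_cast hD
        have hv : (0 : ℝ) ≤ v₀ := Nat.cast_nonneg _
        nlinarith
      calc (4 * 24 ^ (v₀ ^ 2) * (Kc v₀ α.card : ℝ)) ^ α.card * (v₀ * α.card + 1) *
            y ^ (v₀ * (vs α).card) ≤
            AA v₀ D ^ (s * (vs α).card) * (v₀ * D + 1) * y ^ (v₀ * (vs α).card) := by
            refine mul_le_mul_of_nonneg_right ?_ (by positivity)
            exact mul_le_mul h2 h4 (by positivity) (by positivity)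
        _ = _ := by ring
    calc Mo K v₀ q α ^ 2 = |Mo K v₀ q α| ^ 2 := (sq_abs _).symm
      _ ≤ ((v₀ * D + 1) * (AA v₀ D ^ (s * (vs α).card) * y ^ (v₀ * (vs α).card))) ^ 2 :=
          pow_le_pow_left₀ (abs_nonneg _) h3 2
      _ = _ := by
          rw [mul_pow, mul_pow (AA v₀ D ^ (s * (vs α).card)), mul_pow (y ^ (2 * v₀))]
          congr 1
          rw [← pow_mul, ← pow_mul, ← pow_mul, ← pow_mul, ← pow_mul, mul_comm]
          congr 2 <;> ring
  refine (Finset.sum_le_sum hterm).trans ?_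
  rw [← Finset.mul_sum]
  refine mul_le_mul_of_nonneg_left ?_ (by positivity)
  -- group by the vertices
  have hmaps : ∀ α ∈ 𝒜, vs α ∈
      (univ : Finset (Finset V)).filter (fun M => M.Nonempty ∧ M.card ≤ 2 * D) := by
    intro α hα
    obtain ⟨h1, h2, -⟩ := h𝒜 α hα
    rw [mem_filter]
    refine ⟨mem_univ _, vs_nonempty h1, ?_⟩
    have := card_vs_le α
    omega
  rw [← Finset.sum_fiberwise_of_maps_to hmaps]
  refine le_trans (Finset.sum_le_sum fun R hR => ?_) (sum_pos_small κ hκ0 hnκ (2 * D))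
  have hR' := (mem_filter.1 hR).2
  have h1 : ∀ α ∈ 𝒜.filter (fun α => vs α = R),
      (y ^ (2 * v₀) * (AA v₀ D ^ 2) ^ s) ^ (vs α).card =
        (y ^ (2 * v₀) * (AA v₀ D ^ 2) ^ s) ^ R.card := fun α hα => by
    rw [(mem_filter.1 hα).2]
  rw [Finset.sum_congr rfl h1, Finset.sum_const, nsmul_eq_mul]
  have h2 : ((𝒜.filter (fun α => vs α = R)).card : ℝ) ≤ ((4 * (D : ℝ) ^ 2 + 1) ^ s) ^ R.card := by
    have h3 : 𝒜.filter (fun α => vs α = R) ⊆
        (univ : Finset (Finset (Sym2 V))).filter fun α => vs α ⊆ R ∧ α.card ≤ s * R.card := by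
      intro α hα
      rw [mem_filter] at hα
      obtain ⟨hα, hv⟩ := hα
      obtain ⟨-, hD, -⟩ := h𝒜 α hα
      rw [mem_filter]
      refine ⟨mem_univ _, hv.le, ?_⟩
      rw [← hv]
      rcases le_total (vs α).card s with h | h
      · exact (card_le_sq (Finset.Subset.refl _)).trans (by
          rw [sq]
          exact Nat.mul_le_mul_right _ h)
      · refine (hD.trans hs).trans ?_
        rw [sq]
        exact Nat.mul_le_mul_left _ h
    have h4 := (Finset.card_le_card h3).trans (card_on R (s * R.card))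
    have h5 : R.card ^ 2 + 1 ≤ 4 * D ^ 2 + 1 := by
      have := Nat.pow_le_pow_left hR'.2 2
      rw [mul_pow] at this
      omega
    have h6 := h4.trans (Nat.pow_le_pow_left h5 (s * R.card))
    rw [← pow_mul]
    exact_mod_cast h6
  calc ((𝒜.filter (fun α => vs α = R)).card : ℝ) *
        (y ^ (2 * v₀) * (AA v₀ D ^ 2) ^ s) ^ R.card ≤
        ((4 * (D : ℝ) ^ 2 + 1) ^ s) ^ R.card * (y ^ (2 * v₀) * (AA v₀ D ^ 2) ^ s) ^ R.card :=
        mul_le_mul_of_nonneg_right h2 (by positivity)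
    _ = κ ^ R.card := by
        rw [← mul_pow, hκ, mul_pow (4 * (D : ℝ) ^ 2 + 1)]
        ring

/-- **The bound for the sum of the squares of the moments.** -/
theorem sum_mm (hk : 3 ≤ Fintype.card K) (hn : Fintype.card V ≤ Fintype.card K ^ 2)
    (v₀ : ℕ) {q y : ℝ} (hq : 1 / 2 ≤ q) (hq1 : q < 1)
    (hy0 : 0 ≤ y) (hy1 : y ≤ 1) (hy : y ^ (v₀ + 1) = (Fintype.card K : ℝ)⁻¹)
    (D s r : ℕ) (hs : D ≤ s ^ 2) (𝒜 : Finset (Finset (Sym2 V)))
    (h𝒜 : ∀ α ∈ 𝒜, α.Nonempty ∧ α.card ≤ D ∧ ∀ e ∈ α, ¬ e.IsDiag) (κ : ℝ)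
    (hκ : κ = y ^ (2 * v₀) * ((4 * (D : ℝ) ^ 2 + 1) * AA v₀ D ^ 2) ^ s)
    (hnκ : Fintype.card V * κ ≤ 1) (E : ℝ)
    (hE : E = (1 + BB (Fintype.card V) v₀ ^ D) *
      ((Fintype.card V : ℝ) ^ 2 * ((24 ^ (v₀ ^ 2) * (Fintype.card K : ℝ)⁻¹ * Kt v₀ r / (1 - q))
        ^ (2 * r) * (v₀ * (2 * r) + 1)))) :
    ∑ α ∈ 𝒜, MM K v₀ q α ^ 2 ≤ 2 * ((v₀ * D + 1) ^ 2 * ((2 * D : ℕ) * (Fintype.card V * κ))) +
      2 * (((Fintype.card V : ℝ) ^ 2 + 1) ^ D * E ^ 2) := by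
  classical
  have hq' : 0 < 1 - q := by linarith
  have hB := one_le_BB (Fintype.card V) v₀
  have hE0 : 0 ≤ E := by rw [hE]; positivity
  have h1 : ∀ α ∈ 𝒜, MM K v₀ q α ^ 2 ≤ 2 * Mo K v₀ q α ^ 2 + 2 * E ^ 2 := by
    intro α hα
    obtain ⟨-, hD, hd⟩ := h𝒜 α hα
    have h2 := trunc_err hk hn v₀ hq hq1 r hd
    have h3 : |MM K v₀ q α - Mo K v₀ q α| ≤ E := by
      refine h2.trans ?_
      rw [hE]
      refine mul_le_mul_of_nonneg_right ?_ (by positivity)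
      have := pow_le_pow_right₀ hB hD
      linarith
    have h4 : (MM K v₀ q α - Mo K v₀ q α) ^ 2 ≤ E ^ 2 := by
      rw [← sq_abs]
      exact pow_le_pow_left₀ (abs_nonneg _) h3 2
    nlinarith [sq_nonneg (MM K v₀ q α - 2 * Mo K v₀ q α)]
  refine (Finset.sum_le_sum h1).trans ?_
  rw [Finset.sum_add_distrib, ← Finset.mul_sum, Finset.sum_const, nsmul_eq_mul]
  have h2 := sum_mo hk hn v₀ hq hq1.le hy0 hy1 hy D s hs 𝒜 h𝒜 κ hκ hnκ
  have h3 : (𝒜.card : ℝ) ≤ ((Fintype.card V : ℝ) ^ 2 + 1) ^ D := by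
    have h4 : 𝒜 ⊆ (univ : Finset (Finset (Sym2 V))).filter
        fun α => vs α ⊆ univ ∧ α.card ≤ D := by
      intro α hα
      rw [mem_filter]
      exact ⟨mem_univ _, subset_univ _, (h𝒜 α hα).2.1⟩
    have h5 := (Finset.card_le_card h4).trans (card_on univ D)
    rw [Finset.card_univ] at h5
    exact_mod_cast h5
  have h4 : (𝒜.card : ℝ) * (2 * E ^ 2) ≤ 2 * (((Fintype.card V : ℝ) ^ 2 + 1) ^ D * E ^ 2) := by
    have := mul_le_mul_of_nonneg_right h3 (by positivity : (0 : ℝ) ≤ 2 * E ^ 2)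
    linarith
  linarith

end Pool.Agent.W988.LD
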