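import Pool.Agent.W988.LD.Dist

/-! The error made by the truncation. -/

set_option autoImplicit false
set_option linter.unusedSectionVars false

namespace Pool.Agent.W988.LD

open Finset Submodule

variable {V : Type} [Fintype V] [DecidableEq V]
variable {K : Type} [AddCommGroup K] [Fintype K] [DecidableEq K]

lemma rho_bounds (hk : 3 ≤ Fintype.card K) : 1 / 3 ≤ rho K ∧ rho K ≤ 1 := by
  have hkR : (3 : ℝ) ≤ Fintype.card K := by exact_mod_cast hk
  have h2 : (0 : ℝ) < Fintype.card K := by linarith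
  unfold rho
  constructor
  · rw [div_le_div_iff₀ (by norm_num) h2]
    linarith
  · rw [div_le_one h2]
    linarith

/-- the crude bound -/
noncomputable def BB (n v₀ : ℕ) : ℝ := 2 + 24 ^ (v₀ ^ 2) * ((n : ℝ) ^ 2 + 1) ^ (v₀ ^ 2)

lemma one_le_BB (n v₀ : ℕ) : 1 ≤ BB n v₀ := by
  unfold BB
  have : (0 : ℝ) ≤ 24 ^ (v₀ ^ 2) * ((n : ℝ) ^ 2 + 1) ^ (v₀ ^ 2) := by positivity
  linarith

lemma gg_abs (hk : 3 ≤ Fintype.card K) (v₀ : ℕ) {q : ℝ} (hq : 1 / 2 ≤ q) (hq1 : q ≤ 1)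
    (σ : V → K) (Y : Sym2 V → Bool) (e : Sym2 V) :
    |gg v₀ (rho K) q σ Y e| ≤ BB (Fintype.card V) v₀ := by
  obtain ⟨h1, h2, -⟩ := mean_abs hk σ e
  have h3 := abs_hh_le (K := K) (by omega) v₀ (rho_bounds hk).1 hq Y e
  have h4 : |q * sg (Y e)| ≤ 1 := by
    have hq0 : (0 : ℝ) ≤ q := by linarith
    cases Y e <;> simp [sg, abs_of_nonneg hq0, hq1]
  unfold gg BB
  calc |W σ e + rho K * (1 + W σ e) * (q * sg (Y e) + hh K v₀ (rho K) q Y e)| ≤
        |W σ e| + |rho K * (1 + W σ e)| * |q * sg (Y e) + hh K v₀ (rho K) q Y e| := by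
        rw [← abs_mul]
        exact abs_add_le _ _
    _ ≤ 1 + 1 * (1 + 24 ^ (v₀ ^ 2) * ((Fintype.card V : ℝ) ^ 2 + 1) ^ (v₀ ^ 2)) := by
        refine add_le_add h1 (mul_le_mul h2 ?_ (abs_nonneg _) zero_le_one)
        exact (abs_add_le _ _).trans (add_le_add h4 h3)
    _ = _ := by ring

lemma card_sym2_univ : Fintype.card (Sym2 V) ≤ Fintype.card V ^ 2 := by
  have h := card_sym2_le (univ : Finset V)
  have h2 : (univ : Finset V).sym2 = univ := by
    ext e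
    simp
  rw [h2, Finset.card_univ, Finset.card_univ] at h
  exact h

/-- the moment without the truncation -/
noncomputable def Mo (K : Type) [AddCommGroup K] [Fintype K] [DecidableEq K] (v₀ : ℕ) (q : ℝ)
    (α : Finset (Sym2 V)) : ℝ :=
  avg fun σ : V → K => avg fun Y => ∏ e ∈ α, gg v₀ (rho K) q σ Y e

/-- **The truncation error.** -/
theorem trunc_err (hk : 3 ≤ Fintype.card K) (hn : Fintype.card V ≤ Fintype.card K ^ 2)
    (v₀ : ℕ) {q : ℝ} (hq : 1 / 2 ≤ q) (hq1 : q < 1) (r : ℕ)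
    {α : Finset (Sym2 V)} (hα : ∀ e ∈ α, ¬ e.IsDiag) :
    |MM K v₀ q α - Mo K v₀ q α| ≤ (1 + BB (Fintype.card V) v₀ ^ α.card) *
      ((Fintype.card V : ℝ) ^ 2 * ((24 ^ (v₀ ^ 2) * (Fintype.card K : ℝ)⁻¹ * Kt v₀ r / (1 - q))
        ^ (2 * r) * (v₀ * (2 * r) + 1))) := by
  classical
  have hne : Nonempty K := ⟨0⟩
  have hB := one_le_BB (Fintype.card V) v₀
  have hq' : 0 < 1 - q := by linarith
  set ND : Finset (Sym2 V) := univ.filter fun f => ¬ f.IsDiag with hND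
  have hpt : ∀ (σ : V → K) (Y : Sym2 V → Bool),
      |∏ e ∈ α, gt v₀ (rho K) q σ Y e - ∏ e ∈ α, gg v₀ (rho K) q σ Y e| ≤
        (1 + BB (Fintype.card V) v₀ ^ α.card) *
          ∑ f ∈ ND, ((1 - q)⁻¹) ^ (2 * r) * hh K v₀ (rho K) q Y f ^ (2 * r) := by
    intro σ Y
    have hnn : ∀ f ∈ ND, 0 ≤ ((1 - q)⁻¹) ^ (2 * r) * hh K v₀ (rho K) q Y f ^ (2 * r) := by
      intro f _
      refine mul_nonneg (by positivity) ?_
      rw [pow_mul]
      positivity
    by_cases hgood : ∀ f : Sym2 V, ¬ f.IsDiag → |hh K v₀ (rho K) q Y f| ≤ 1 - q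
    · have h1 : ∏ e ∈ α, gt v₀ (rho K) q σ Y e = ∏ e ∈ α, gg v₀ (rho K) q σ Y e := by
        refine Finset.prod_congr rfl fun e he => ?_
        unfold gt gg
        rw [if_neg (hα e he), if_pos hgood]
      rw [h1, sub_self, abs_zero]
      exact mul_nonneg (by positivity) (Finset.sum_nonneg hnn)
    · push Not at hgood
      obtain ⟨f, hf, hlt⟩ := hgood
      have h1 : 1 ≤ ∑ f ∈ ND, ((1 - q)⁻¹) ^ (2 * r) * hh K v₀ (rho K) q Y f ^ (2 * r) := by
        refine le_trans ?_ (Finset.single_le_sum hnn (mem_filter.2 ⟨mem_univ f, hf⟩))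
        rw [← mul_pow, ← Even.pow_abs (even_two_mul r)]
        apply one_le_pow₀
        rw [abs_mul, abs_of_nonneg (by positivity), inv_mul_eq_div, one_le_div hq']
        exact hlt.le
      have h2 : |∏ e ∈ α, gt v₀ (rho K) q σ Y e| ≤ 1 := by
        rw [Finset.abs_prod]
        exact Finset.prod_le_one (fun _ _ => abs_nonneg _)
          fun e _ => gt_abs hk v₀ (by linarith) σ Y e
      have h3 : |∏ e ∈ α, gg v₀ (rho K) q σ Y e| ≤ BB (Fintype.card V) v₀ ^ α.card := by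
        rw [Finset.abs_prod]
        rw [← Finset.prod_const]
        exact Finset.prod_le_prod (fun _ _ => abs_nonneg _)
          fun e _ => gg_abs hk v₀ hq hq1.le σ Y e
      calc |∏ e ∈ α, gt v₀ (rho K) q σ Y e - ∏ e ∈ α, gg v₀ (rho K) q σ Y e| ≤
            |∏ e ∈ α, gt v₀ (rho K) q σ Y e| + |∏ e ∈ α, gg v₀ (rho K) q σ Y e| := abs_sub _ _
        _ ≤ 1 + BB (Fintype.card V) v₀ ^ α.card := add_le_add h2 h3
        _ ≤ _ := le_mul_of_one_le_right (by positivity) h1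
  have h1 : MM K v₀ q α - Mo K v₀ q α = avg fun σ : V → K => avg fun Y : Sym2 V → Bool =>
      (∏ e ∈ α, gt v₀ (rho K) q σ Y e - ∏ e ∈ α, gg v₀ (rho K) q σ Y e) := by
    unfold MM Mo
    simp only [avg_sub]
  rw [h1]
  have h2 : |avg fun σ : V → K => avg fun Y : Sym2 V → Bool =>
      (∏ e ∈ α, gt v₀ (rho K) q σ Y e - ∏ e ∈ α, gg v₀ (rho K) q σ Y e)| ≤
      avg fun _σ : V → K => avg fun Y : Sym2 V → Bool => (1 + BB (Fintype.card V) v₀ ^ α.card) *
          ∑ f ∈ ND, ((1 - q)⁻¹) ^ (2 * r) * hh K v₀ (rho K) q Y f ^ (2 * r) := by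
    refine (abs_avg_le _).trans (avg_mono fun σ => ?_)
    exact (abs_avg_le _).trans (avg_mono fun Y => hpt σ Y)
  refine h2.trans ?_
  rw [avg_const, avg_mul_left, avg_sum]
  refine mul_le_mul_of_nonneg_left ?_ (by positivity)
  have h3 : ∀ f ∈ ND, avg (fun Y : Sym2 V → Bool =>
      ((1 - q)⁻¹) ^ (2 * r) * hh K v₀ (rho K) q Y f ^ (2 * r)) ≤
      (24 ^ (v₀ ^ 2) * (Fintype.card K : ℝ)⁻¹ * Kt v₀ r / (1 - q))
        ^ (2 * r) * (v₀ * (2 * r) + 1) := by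
    intro f hf
    rw [avg_mul_left]
    have h4 := tail_moment (K := K) (by omega) hn v₀ (rho_bounds hk).1 hq (mem_filter.1 hf).2 r
    calc ((1 - q)⁻¹) ^ (2 * r) * avg (fun Y : Sym2 V → Bool => hh K v₀ (rho K) q Y f ^ (2 * r)) ≤
          ((1 - q)⁻¹) ^ (2 * r) * ((24 ^ (v₀ ^ 2) * (Fintype.card K : ℝ)⁻¹ * Kt v₀ r) ^ (2 * r) *
            (v₀ * (2 * r) + 1)) := mul_le_mul_of_nonneg_left h4 (by positivity)
      _ = _ := by
          rw [div_eq_mul_inv, mul_pow (24 ^ (v₀ ^ 2) * (Fintype.card K : ℝ)⁻¹ * (Kt v₀ r : ℝ))]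
          ring
  refine (Finset.sum_le_card_nsmul _ _ _ h3).trans ?_
  rw [nsmul_eq_mul]
  refine mul_le_mul_of_nonneg_right ?_ ?_
  · have h4 : ND.card ≤ Fintype.card V ^ 2 :=
      (Finset.card_le_univ _).trans card_sym2_univ
    exact_mod_cast h4
  · positivity

end Pool.Agent.W988.LD
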