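import Pool.Agent.W988.LD.Bound3
import Pool.Agent.W988.LD.Trunc

/-! Sharper moments of the corrections and the error made by the truncation. -/

set_option autoImplicit false
set_option linter.unusedSectionVars false

namespace Pool.Agent.W988.LD

open Finset Submodule

variable {V : Type} [Fintype V] [DecidableEq V]
variable {K : Type} [AddCommGroup K] [Fintype K] [DecidableEq K]

lemma tail_term2 (hk : 2 ≤ Fintype.card K) (v₀ : ℕ) {ρ q a b : ℝ} (hρ : 1 / 3 ≤ ρ)
    (hq : 1 / 2 ≤ q) (ha0 : 0 ≤ a) (ha1 : a ≤ 1) (hb0 : 0 ≤ b)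
    (hab : a * b = (Fintype.card K : ℝ)⁻¹) {e : Sym2 V} (he : ¬ e.IsDiag) {r : ℕ}
    {t : Fin (2 * r) → Finset (Sym2 V)} (ht : ∀ i, t i ∈ shp v₀ e)
    (hpar : ∀ f, Even ((univ : Finset (Fin (2 * r))).filter fun i => f ∈ (t i).erase e).card) :
    |∏ i, cc K ρ q (t i)| ≤ a ^ (2 * r) *
      ((∏ i, (5 ^ v₀ * b) ^ ((vs (t i)).card - 1)) *
      (a ^ 2) ^ (univ.biUnion fun i => vs (t i) \ vs {e}).card) := by
  classical
  have hsh : ∀ i, t i ∈ shapes V v₀ ∧ e ∈ t i := fun i => by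
    have := ht i
    unfold shp at this
    exact mem_filter.1 this
  have hcard : ∀ i, (vs (t i)).card - 1 = (vs (t i) \ vs {e}).card + 1 := by
    intro i
    have h1 : vs ({e} : Finset (Sym2 V)) ⊆ vs (t i) :=
      vs_mono (Finset.singleton_subset_iff.2 (hsh i).2)
    have h2 := Finset.card_sdiff_of_subset h1
    have h3 := card_vs_single he
    have h4 := Finset.card_le_card h1
    omega
  set U := (univ : Finset (Fin (2 * r))).biUnion fun i => vs (t i) \ vs {e} with hU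
  have hdc : 2 * U.card ≤ ∑ i, (vs (t i) \ vs {e}).card := by
    have hmem : ∀ u ∈ U, 2 ≤ ((univ : Finset (Fin (2 * r))).filter
        fun i => u ∈ vs (t i) \ vs {e}).card := by
      intro u hu
      rw [hU, mem_biUnion] at hu
      obtain ⟨i, -, hui⟩ := hu
      rw [mem_sdiff] at hui
      obtain ⟨f, hf, huf⟩ := mem_vs.1 hui.1
      have hfe : f ≠ e := fun h => hui.2 (mem_vs.2 ⟨e, mem_singleton_self e, h ▸ huf⟩)
      have h1 : i ∈ (univ : Finset (Fin (2 * r))).filter fun i => f ∈ (t i).erase e :=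
        mem_filter.2 ⟨mem_univ i, mem_erase.2 ⟨hfe, hf⟩⟩
      have h3 : 0 < ((univ : Finset (Fin (2 * r))).filter fun i => f ∈ (t i).erase e).card :=
        Finset.card_pos.2 ⟨i, h1⟩
      have h2 : 2 ≤ ((univ : Finset (Fin (2 * r))).filter fun i => f ∈ (t i).erase e).card := by
        obtain ⟨m, hm⟩ := hpar f
        omega
      refine h2.trans (Finset.card_le_card fun i' hi' => ?_)
      rw [mem_filter, mem_erase] at hi'
      exact mem_filter.2 ⟨mem_univ i', mem_sdiff.2 ⟨mem_vs.2 ⟨f, hi'.2.2, huf⟩, hui.2⟩⟩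
    have h1 : ∑ i, (vs (t i) \ vs {e}).card =
        ∑ u ∈ U, ((univ : Finset (Fin (2 * r))).filter fun i => u ∈ vs (t i) \ vs {e}).card := by
      have h2 : ∀ i ∈ (univ : Finset (Fin (2 * r))), (vs (t i) \ vs {e}).card =
          ∑ u ∈ U, if u ∈ vs (t i) \ vs {e} then 1 else 0 := by
        intro i hi
        rw [← Finset.sum_filter, Finset.filter_mem_eq_inter, Finset.inter_eq_right.2]
        · simp
        · exact Finset.subset_biUnion_of_mem (fun i => vs (t i) \ vs {e}) hi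
      rw [Finset.sum_congr rfl h2, Finset.sum_comm]
      refine Finset.sum_congr rfl fun u _ => ?_
      rw [Finset.card_filter]
    rw [h1, mul_comm]
    exact Finset.card_nsmul_le_sum U _ 2 hmem
  rw [Finset.abs_prod]
  calc ∏ i, |cc K ρ q (t i)| ≤
        ∏ i, (5 ^ v₀ * (Fintype.card K : ℝ)⁻¹) ^ ((vs (t i)).card - 1) :=
        Finset.prod_le_prod (fun _ _ => abs_nonneg _) fun i _ => cc_bound2 hk v₀ hρ hq (hsh i).1
    _ = (∏ i, (5 ^ v₀ * b) ^ ((vs (t i)).card - 1)) * a ^ (∑ i, ((vs (t i)).card - 1)) := by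
        rw [← Finset.prod_pow_eq_pow_sum, ← Finset.prod_mul_distrib]
        refine Finset.prod_congr rfl fun i _ => ?_
        rw [← mul_pow, ← hab]
        congr 1
        ring
    _ ≤ (∏ i, (5 ^ v₀ * b) ^ ((vs (t i)).card - 1)) * a ^ (2 * r + 2 * U.card) := by
        refine mul_le_mul_of_nonneg_left ?_ (Finset.prod_nonneg fun i _ => by positivity)
        apply pow_le_pow_of_le_one ha0 ha1
        rw [Finset.sum_congr rfl fun i _ => hcard i, Finset.sum_add_distrib]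
        simp only [Finset.sum_const, Finset.card_univ, Fintype.card_fin, smul_eq_mul, mul_one]
        omega
    _ = _ := by
        rw [pow_add, pow_mul _ 2 U.card]
        ring

/-- **Moments of the correction at an edge.** -/
theorem tail_moment2 (hk : 2 ≤ Fintype.card K)
    (v₀ : ℕ) {ρ q a b : ℝ} (hρ : 1 / 3 ≤ ρ) (hq : 1 / 2 ≤ q) (ha0 : 0 ≤ a) (ha1 : a ≤ 1)
    (hb0 : 0 ≤ b) (hab : a * b = (Fintype.card K : ℝ)⁻¹) (hn : Fintype.card V * a ^ 2 ≤ 1)
    (r : ℕ) (hb : 2 * (((2 + v₀ * (2 * r) : ℕ) : ℝ) ^ 2 * (2 ^ v₀ * (5 ^ v₀ * b))) ≤ 1)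
    {e : Sym2 V} (he : ¬ e.IsDiag) :
    avg (fun Y : Sym2 V → Bool => hh K v₀ ρ q Y e ^ (2 * r)) ≤
      a ^ (2 * r) * (v₀ * (2 * r) + 1) := by
  classical
  have hkR : (2 : ℝ) ≤ Fintype.card K := by exact_mod_cast hk
  set κ : ℝ := a ^ 2 with hκ
  have hκ0 : 0 ≤ κ := by positivity
  have h1 : ∀ Y : Sym2 V → Bool, hh K v₀ ρ q Y e ^ (2 * r) =
      ∑ t ∈ Fintype.piFinset (fun _ : Fin (2 * r) => shp v₀ e),
        (∏ i, cc K ρ q (t i)) * ∏ i, chi Y ((t i).erase e) := by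
    intro Y
    unfold hh
    have h2 := Finset.prod_univ_sum (fun _ : Fin (2 * r) => shp v₀ e)
      (fun _ T => cc K ρ q T * chi Y (T.erase e))
    rw [Finset.prod_const, Finset.card_univ, Fintype.card_fin] at h2
    rw [h2]
    exact Finset.sum_congr rfl fun t _ => Finset.prod_mul_distrib
  simp only [h1]
  rw [avg_sum]
  simp only [avg_mul_left]
  have h3 : ∀ t ∈ Fintype.piFinset (fun _ : Fin (2 * r) => shp v₀ e),
      (∏ i, cc K ρ q (t i)) * avg (fun Y : Sym2 V → Bool => ∏ i, chi Y ((t i).erase e)) ≤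
        a ^ (2 * r) * ((∏ i, (5 ^ v₀ * b) ^ ((vs (t i)).card - 1)) *
          κ ^ (univ.biUnion fun i => vs (t i) \ vs {e}).card) := by
    intro t ht
    rw [Fintype.mem_piFinset] at ht
    rw [avg_par]
    split_ifs with h4
    · rw [mul_one]
      exact (le_abs_self _).trans (tail_term2 hk v₀ hρ hq ha0 ha1 hb0 hab he ht h4)
    · rw [mul_zero]
      have h5 : 0 ≤ ∏ i, (5 ^ v₀ * b) ^ ((vs (t i)).card - 1) :=
        Finset.prod_nonneg fun i _ => by positivity
      positivity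
  refine (Finset.sum_le_sum h3).trans ?_
  rw [← Finset.mul_sum]
  have hvs1 : ∀ T ∈ shp v₀ e, (vs T).card ≤ v₀ := by
    intro T hT
    unfold shp at hT
    exact (mem_shapes.1 (mem_filter.1 hT).1).2.2
  have hcount := wcount (fun _ : Fin (2 * r) => shp v₀ e) (fun _ T => vs T \ vs {e})
    (fun _ T => (5 ^ v₀ * b) ^ ((vs T).card - 1)) (fun _ _ => by positivity) κ hκ0 hn
    (v₀ * (2 * r)) (by
      intro t ht
      rw [Fintype.mem_piFinset] at ht
      refine Finset.card_biUnion_le.trans ?_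
      calc ∑ i, (vs (t i) \ vs {e}).card ≤ ∑ _i : Fin (2 * r), v₀ :=
            Finset.sum_le_sum fun i _ =>
              (Finset.card_le_card sdiff_subset).trans (hvs1 _ (ht i))
        _ = v₀ * (2 * r) := by
            rw [Finset.sum_const, Finset.card_univ, Fintype.card_fin, smul_eq_mul, mul_comm])
      (fun _ => 1) (by
      intro i M hM
      have h5 : ((shp v₀ e).filter fun T => vs T \ vs {e} ⊆ M) ⊆
          (shapes V v₀).filter fun T => vs T ⊆ vs {e} ∪ M := by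
        intro T hT
        rw [mem_filter] at hT ⊢
        unfold shp at hT
        refine ⟨(mem_filter.1 hT.1).1, fun v hv => ?_⟩
        rw [mem_union]
        by_cases h6 : v ∈ vs {e}
        · exact Or.inl h6
        · exact Or.inr (hT.2 (mem_sdiff.2 ⟨hv, h6⟩))
      refine (Finset.sum_le_sum_of_subset_of_nonneg h5 fun _ _ _ => by positivity).trans ?_
      refine shape_sum v₀ (vs {e} ∪ M) (by positivity) ?_
      refine le_trans ?_ hb
      have h6 : (vs {e} ∪ M).card ≤ 2 + v₀ * (2 * r) := by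
        refine (Finset.card_union_le _ _).trans ?_
        rw [card_vs_single he]
        omega
      have h7 : ((vs {e} ∪ M).card : ℝ) ^ 2 ≤ ((2 + v₀ * (2 * r) : ℕ) : ℝ) ^ 2 :=
        pow_le_pow_left₀ (Nat.cast_nonneg _) (by exact_mod_cast h6) 2
      refine mul_le_mul_of_nonneg_left ?_ (by norm_num)
      exact mul_le_mul_of_nonneg_right h7 (by positivity))
  rw [Finset.prod_const_one, mul_one] at hcount
  refine mul_le_mul_of_nonneg_left (hcount.trans (le_of_eq ?_)) (by positivity)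
  push_cast
  ring

/-- **The truncation error.** -/
theorem trunc_err2 (hk : 3 ≤ Fintype.card K)
    (v₀ : ℕ) {q a b : ℝ} (hq : 1 / 2 ≤ q) (hq1 : q < 1) (ha0 : 0 ≤ a) (ha1 : a ≤ 1)
    (hb0 : 0 ≤ b) (hab : a * b = (Fintype.card K : ℝ)⁻¹) (hn : Fintype.card V * a ^ 2 ≤ 1)
    (r : ℕ) (hb : 2 * (((2 + v₀ * (2 * r) : ℕ) : ℝ) ^ 2 * (2 ^ v₀ * (5 ^ v₀ * b))) ≤ 1)
    {α : Finset (Sym2 V)} (hα : ∀ e ∈ α, ¬ e.IsDiag) :
    |MM K v₀ q α - Mo K v₀ q α| ≤ (1 + BB (Fintype.card V) v₀ ^ α.card) *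
      ((Fintype.card V : ℝ) ^ 2 * ((a / (1 - q)) ^ (2 * r) * (v₀ * (2 * r) + 1))) := by
  classical
  have hne : Nonempty K := ⟨0⟩
  have hB := one_le_BB (Fintype.card V) v₀
  have hq' : 0 < 1 - q := by linarith
  set ND : Finset (Sym2 V) := univ.filter fun f => ¬ f.IsDiag with hND
  have hpt : ∀ (σ : V → K) (Y : Sym2 V → Bool),
      |∏ e ∈ α, gt v₀ (rho K) q σ Y e - ∏ e ∈ α, gg v₀ (rho K) q σ Y e| ≤
        (1 + BB (Fintype.card V) v₀ ^ α.card) *
          ∑ f ∈ ND, ((1 - q)⁻¹) ^ (2 * r) * hh K v₀ (rho K) q Y f ^ (2 * r) := by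
    intro σ Y
    have hnn : ∀ f ∈ ND, 0 ≤ ((1 - q)⁻¹) ^ (2 * r) * hh K v₀ (rho K) q Y f ^ (2 * r) := by
      intro f _
      refine mul_nonneg (by positivity) ?_
      rw [pow_mul]
      positivity
    by_cases hgood : ∀ f : Sym2 V, ¬ f.IsDiag → |hh K v₀ (rho K) q Y f| ≤ 1 - q
    · have h1 : ∏ e ∈ α, gt v₀ (rho K) q σ Y e = ∏ e ∈ α, gg v₀ (rho K) q σ Y e := by
        refine Finset.prod_congr rfl fun e he => ?_
        unfold gt gg
        rw [if_neg (hα e he), if_pos hgood]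
      rw [h1, sub_self, abs_zero]
      exact mul_nonneg (by positivity) (Finset.sum_nonneg hnn)
    · push Not at hgood
      obtain ⟨f, hf, hlt⟩ := hgood
      have h1 : 1 ≤ ∑ f ∈ ND, ((1 - q)⁻¹) ^ (2 * r) * hh K v₀ (rho K) q Y f ^ (2 * r) := by
        refine le_trans ?_ (Finset.single_le_sum hnn (mem_filter.2 ⟨mem_univ f, hf⟩))
        rw [← mul_pow, ← Even.pow_abs (even_two_mul r)]
        apply one_le_pow₀
        rw [abs_mul, abs_of_nonneg (by positivity), inv_mul_eq_div, one_le_div hq']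
        exact hlt.le
      have h2 : |∏ e ∈ α, gt v₀ (rho K) q σ Y e| ≤ 1 := by
        rw [Finset.abs_prod]
        exact Finset.prod_le_one (fun _ _ => abs_nonneg _)
          fun e _ => gt_abs hk v₀ (by linarith) σ Y e
      have h3 : |∏ e ∈ α, gg v₀ (rho K) q σ Y e| ≤ BB (Fintype.card V) v₀ ^ α.card := by
        rw [Finset.abs_prod]
        rw [← Finset.prod_const]
        exact Finset.prod_le_prod (fun _ _ => abs_nonneg _)
          fun e _ => gg_abs hk v₀ hq hq1.le σ Y e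
      calc |∏ e ∈ α, gt v₀ (rho K) q σ Y e - ∏ e ∈ α, gg v₀ (rho K) q σ Y e| ≤
            |∏ e ∈ α, gt v₀ (rho K) q σ Y e| + |∏ e ∈ α, gg v₀ (rho K) q σ Y e| := abs_sub _ _
        _ ≤ 1 + BB (Fintype.card V) v₀ ^ α.card := add_le_add h2 h3
        _ ≤ _ := le_mul_of_one_le_right (by positivity) h1
  have h1 : MM K v₀ q α - Mo K v₀ q α = avg fun σ : V → K => avg fun Y : Sym2 V → Bool =>
      (∏ e ∈ α, gt v₀ (rho K) q σ Y e - ∏ e ∈ α, gg v₀ (rho K) q σ Y e) := by
    unfold MM Mo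
    simp only [avg_sub]
  rw [h1]
  have h2 : |avg fun σ : V → K => avg fun Y : Sym2 V → Bool =>
      (∏ e ∈ α, gt v₀ (rho K) q σ Y e - ∏ e ∈ α, gg v₀ (rho K) q σ Y e)| ≤
      avg fun _σ : V → K => avg fun Y : Sym2 V → Bool => (1 + BB (Fintype.card V) v₀ ^ α.card) *
          ∑ f ∈ ND, ((1 - q)⁻¹) ^ (2 * r) * hh K v₀ (rho K) q Y f ^ (2 * r) := by
    refine (abs_avg_le _).trans (avg_mono fun σ => ?_)
    exact (abs_avg_le _).trans (avg_mono fun Y => hpt σ Y)
  refine h2.trans ?_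
  rw [avg_const, avg_mul_left, avg_sum]
  refine mul_le_mul_of_nonneg_left ?_ (by positivity)
  have h3 : ∀ f ∈ ND, avg (fun Y : Sym2 V → Bool =>
      ((1 - q)⁻¹) ^ (2 * r) * hh K v₀ (rho K) q Y f ^ (2 * r)) ≤
      (a / (1 - q)) ^ (2 * r) * (v₀ * (2 * r) + 1) := by
    intro f hf
    rw [avg_mul_left]
    have h4 := tail_moment2 (K := K) (by omega) v₀ (rho_bounds hk).1 hq ha0 ha1 hb0 hab hn r hb
      (mem_filter.1 hf).2
    calc ((1 - q)⁻¹) ^ (2 * r) * avg (fun Y : Sym2 V → Bool => hh K v₀ (rho K) q Y f ^ (2 * r)) ≤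
          ((1 - q)⁻¹) ^ (2 * r) * (a ^ (2 * r) * (v₀ * (2 * r) + 1)) :=
          mul_le_mul_of_nonneg_left h4 (by positivity)
      _ = _ := by
          rw [div_eq_mul_inv, mul_pow a]
          ring
  refine (Finset.sum_le_card_nsmul _ _ _ h3).trans ?_
  rw [nsmul_eq_mul]
  refine mul_le_mul_of_nonneg_right ?_ ?_
  · have h4 : ND.card ≤ Fintype.card V ^ 2 :=
      (Finset.card_le_univ _).trans card_sym2_univ
    exact_mod_cast h4
  · positivity

end Pool.Agent.W988.LD
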