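import Pool.Agent.W988.LD.Sum
import Pool.Agent.W988.LD.Tail3

/-! The sharper sum over the small edge sets. -/

set_option autoImplicit false
set_option linter.unusedSectionVars false

namespace Pool.Agent.W988.LD

open Finset Submodule

variable {V : Type} [Fintype V] [DecidableEq V]
variable {K : Type} [AddCommGroup K] [Fintype K] [DecidableEq K]

/-- the number of edge sets of bounded size on a set of vertices -/
lemma card_on2 (R : Finset V) {D s : ℕ} (hs : D ≤ s ^ 2) (hs1 : 1 ≤ s) :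
    (((univ : Finset (Finset (Sym2 V))).filter fun α => vs α ⊆ R ∧ α.card ≤ D).card : ℝ) ≤
      Real.exp (2 * s) ^ R.card := by
  have hsR : (1 : ℝ) ≤ s := by exact_mod_cast hs1
  have hsub : ((univ : Finset (Finset (Sym2 V))).filter fun α => vs α ⊆ R ∧ α.card ≤ D) ⊆
      R.sym2.powerset.filter fun T => T.card ≤ D := by
    intro α hα
    rw [mem_filter] at hα
    rw [mem_filter, mem_powerset]
    exact ⟨sub_sym2 hα.2.1, hα.2.2⟩
  have h0 : (((univ : Finset (Finset (Sym2 V))).filter fun α => vs α ⊆ R ∧ α.card ≤ D).card : ℝ) ≤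
      ((R.sym2.powerset.filter fun T => T.card ≤ D).card : ℝ) := by
    exact_mod_cast Finset.card_le_card hsub
  refine h0.trans ?_
  rw [← Real.exp_nat_mul]
  have hN := card_sym2_le R
  have hNR : (R.sym2.card : ℝ) ≤ (R.card : ℝ) ^ 2 := by exact_mod_cast hN
  rcases le_or_gt R.card s with h | h
  · have h1 : ((R.sym2.powerset.filter fun T => T.card ≤ D).card : ℝ) ≤ 2 ^ R.sym2.card := by
      have h2 := Finset.card_le_card (Finset.filter_subset (fun T => T.card ≤ D) R.sym2.powerset)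
      rw [Finset.card_powerset] at h2
      exact_mod_cast h2
    refine h1.trans ?_
    have h2 : (2 : ℝ) ≤ Real.exp 1 := by
      have := Real.add_one_le_exp (1 : ℝ)
      linarith
    refine (pow_le_pow_left₀ (by norm_num) h2 _).trans ?_
    rw [← Real.exp_nat_mul, Real.exp_le_exp, mul_one]
    have h3 : (R.card : ℝ) ≤ s := by exact_mod_cast h
    have h4 : (0 : ℝ) ≤ R.card := Nat.cast_nonneg _
    nlinarith
  · have hsm : (s : ℝ) < R.card := by exact_mod_cast h
    have hs0 : (0 : ℝ) < s := by linarith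
    have hm0 : (0 : ℝ) < R.card := by linarith
    set t : ℝ := s / R.card with ht
    have ht0 : 0 < t := by positivity
    have ht1 : t ≤ 1 := by
      rw [ht, div_le_one hm0]
      exact hsm.le
    have h1 : ((R.sym2.powerset.filter fun T => T.card ≤ D).card : ℝ) * t ^ D ≤
        (1 + t) ^ R.sym2.card := by
      have h2 : (1 + t) ^ R.sym2.card = ∑ T ∈ R.sym2.powerset, t ^ T.card := by
        have h3 := Finset.sum_pow_mul_eq_add_pow t 1 R.sym2
        simp only [one_pow, mul_one] at h3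
        rw [h3, add_comm]
      rw [h2]
      refine le_trans ?_ (Finset.sum_le_sum_of_subset_of_nonneg
        (Finset.filter_subset (fun T => T.card ≤ D) _) fun _ _ _ => by positivity)
      rw [← nsmul_eq_mul]
      refine Finset.card_nsmul_le_sum _ _ _ fun T hT => ?_
      exact pow_le_pow_of_le_one ht0.le ht1 (mem_filter.1 hT).2
    have h2 : (1 + t) ^ R.sym2.card ≤ Real.exp (R.card * s) := by
      have h3 : 1 + t ≤ Real.exp t := by
        have := Real.add_one_le_exp t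
        linarith
      refine (pow_le_pow_left₀ (by linarith) h3 _).trans ?_
      rw [← Real.exp_nat_mul, Real.exp_le_exp]
      calc (R.sym2.card : ℝ) * t ≤ (R.card : ℝ) ^ 2 * t :=
            mul_le_mul_of_nonneg_right hNR ht0.le
        _ = R.card * s := by
            rw [ht]
            field_simp
    have h3 : (t⁻¹) ^ D ≤ Real.exp (R.card * s) := by
      have h4 : t⁻¹ ≤ Real.exp (R.card / s) := by
        have h5 : t⁻¹ = R.card / s := by
          rw [ht, inv_div]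
        rw [h5]
        have := Real.add_one_le_exp ((R.card : ℝ) / s)
        linarith
      have h5 : 1 ≤ t⁻¹ := (one_le_inv₀ ht0).2 ht1
      refine (pow_le_pow_right₀ h5 hs).trans ?_
      refine (pow_le_pow_left₀ (by positivity) h4 _).trans ?_
      rw [← Real.exp_nat_mul, Real.exp_le_exp]
      push_cast
      have : (s : ℝ) ^ 2 * (R.card / s) = R.card * s := by
        field_simp
      rw [this]
    have h4 : ((R.sym2.powerset.filter fun T => T.card ≤ D).card : ℝ) =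
        ((R.sym2.powerset.filter fun T => T.card ≤ D).card : ℝ) * t ^ D * (t⁻¹) ^ D := by
      rw [inv_pow, mul_assoc, mul_inv_cancel₀ (by positivity), mul_one]
    rw [h4]
    calc ((R.sym2.powerset.filter fun T => T.card ≤ D).card : ℝ) * t ^ D * (t⁻¹) ^ D ≤
          Real.exp (R.card * s) * Real.exp (R.card * s) :=
          mul_le_mul (h1.trans h2) h3 (pow_nonneg (inv_nonneg.2 ht0.le) D) (Real.exp_pos _).le
      _ = _ := by
          rw [← Real.exp_add]
          congr 1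
          ring

theorem sum_mo2 (hk : 3 ≤ Fintype.card K)
    (v₀ : ℕ) {q y a b : ℝ} (hq : 1 / 2 ≤ q) (hq1 : q ≤ 1)
    (hy0 : 0 ≤ y) (hy1 : y ≤ 1) (ha0 : 0 ≤ a) (hb0 : 0 ≤ b) (hb1 : b ≤ 1)
    (hab : a * b = (Fintype.card K : ℝ)⁻¹) (hy : y ^ (v₀ + 1) = a)
    (hn : Fintype.card V * a ^ 2 ≤ 1) (D : ℕ)
    (hb : 2 * ((((2 + v₀) * D : ℕ) : ℝ) ^ 2 * (2 ^ v₀ * (5 ^ v₀ * b))) ≤ 1)
    (s : ℕ) (hs : D ≤ s ^ 2) (hs1 : 1 ≤ s) (𝒜 : Finset (Finset (Sym2 V)))
    (h𝒜 : ∀ α ∈ 𝒜, α.Nonempty ∧ α.card ≤ D ∧ ∀ e ∈ α, ¬ e.IsDiag) (κ : ℝ)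
    (hκ : κ = y ^ (2 * v₀) * Real.exp (8 * s)) (hnκ : Fintype.card V * κ ≤ 1) :
    ∑ α ∈ 𝒜, Mo K v₀ q α ^ 2 ≤ (v₀ * D + 1) ^ 2 * ((2 * D : ℕ) * (Fintype.card V * κ)) := by
  classical
  have hκ0 : 0 ≤ κ := by rw [hκ]; positivity
  have h400 : (400 : ℝ) ^ s ≤ Real.exp (6 * s) := by
    have h1 : (400 : ℝ) ≤ Real.exp 6 := by
      have h2 : Real.exp 6 = Real.exp 1 ^ 6 := by
        rw [← Real.exp_nat_mul]
        norm_num
      rw [h2]
      have h3 : (2.718 : ℝ) ≤ Real.exp 1 := by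
        have := Real.exp_one_gt_d9
        linarith
      refine le_trans ?_ (pow_le_pow_left₀ (by norm_num) h3 6)
      norm_num
    refine (pow_le_pow_left₀ (by norm_num) h1 s).trans ?_
    rw [← Real.exp_nat_mul, mul_comm]
  -- each term
  have hterm : ∀ α ∈ 𝒜, Mo K v₀ q α ^ 2 ≤ (v₀ * D + 1) ^ 2 *
      (y ^ (2 * v₀) * Real.exp (6 * s)) ^ (vs α).card := by
    intro α hα
    obtain ⟨-, hD, hd⟩ := h𝒜 α hα
    have h1 := moment_bound2 (K := K) (by omega) v₀ (rho_bounds hk).1 (rho_bounds hk).2 hq hq1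
      hy0 hy1 ha0 hb0 hb1 hab hy hn D hb hd hD
    have hcard : α.card ≤ s * (vs α).card := by
      rcases le_total (vs α).card s with h | h
      · exact (card_le_sq (Finset.Subset.refl _)).trans (by
          rw [sq]
          exact Nat.mul_le_mul_right _ h)
      · refine (hD.trans hs).trans ?_
        rw [sq]
        exact Nat.mul_le_mul_left _ h
    have h2 : (20 : ℝ) ^ α.card ≤ 20 ^ (s * (vs α).card) :=
      pow_le_pow_right₀ (by norm_num) hcard
    have h3 : |Mo K v₀ q α| ≤ (v₀ * D + 1) * (20 ^ (s * (vs α).card) *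
        y ^ (v₀ * (vs α).card)) := by
      refine h1.trans ?_
      have h4 : ((v₀ : ℝ) * α.card + 1) ≤ v₀ * D + 1 := by
        have : (α.card : ℝ) ≤ D := by exact_mod_cast hD
        have hv : (0 : ℝ) ≤ v₀ := Nat.cast_nonneg _
        nlinarith
      calc (20 : ℝ) ^ α.card * (v₀ * α.card + 1) * y ^ (v₀ * (vs α).card) ≤
            20 ^ (s * (vs α).card) * (v₀ * D + 1) * y ^ (v₀ * (vs α).card) := by
            refine mul_le_mul_of_nonneg_right ?_ (by positivity)
            exact mul_le_mul h2 h4 (by positivity) (by positivity)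
        _ = _ := by ring
    calc Mo K v₀ q α ^ 2 = |Mo K v₀ q α| ^ 2 := (sq_abs _).symm
      _ ≤ ((v₀ * D + 1) * (20 ^ (s * (vs α).card) * y ^ (v₀ * (vs α).card))) ^ 2 :=
          pow_le_pow_left₀ (abs_nonneg _) h3 2
      _ = (v₀ * D + 1) ^ 2 * (y ^ (2 * v₀) * 400 ^ s) ^ (vs α).card := by
          have h5 : (400 : ℝ) = 20 ^ 2 := by norm_num
          rw [mul_pow, mul_pow ((20 : ℝ) ^ (s * (vs α).card)), mul_pow (y ^ (2 * v₀)), h5]
          congr 1
          rw [← pow_mul, ← pow_mul, ← pow_mul, ← pow_mul, ← pow_mul, mul_comm]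
          congr 2 <;> ring
      _ ≤ _ := by
          refine mul_le_mul_of_nonneg_left ?_ (by positivity)
          refine pow_le_pow_left₀ (by positivity) ?_ _
          exact mul_le_mul_of_nonneg_left h400 (by positivity)
  refine (Finset.sum_le_sum hterm).trans ?_
  rw [← Finset.mul_sum]
  refine mul_le_mul_of_nonneg_left ?_ (by positivity)
  -- group by the vertices
  have hmaps : ∀ α ∈ 𝒜, vs α ∈
      (univ : Finset (Finset V)).filter (fun M => M.Nonempty ∧ M.card ≤ 2 * D) := by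
    intro α hα
    obtain ⟨h1, h2, -⟩ := h𝒜 α hα
    rw [mem_filter]
    refine ⟨mem_univ _, vs_nonempty h1, ?_⟩
    have := card_vs_le α
    omega
  rw [← Finset.sum_fiberwise_of_maps_to hmaps]
  refine le_trans (Finset.sum_le_sum fun R hR => ?_) (sum_pos_small κ hκ0 hnκ (2 * D))
  have h1 : ∀ α ∈ 𝒜.filter (fun α => vs α = R),
      (y ^ (2 * v₀) * Real.exp (6 * s)) ^ (vs α).card =
        (y ^ (2 * v₀) * Real.exp (6 * s)) ^ R.card := fun α hα => by
    rw [(mem_filter.1 hα).2]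
  rw [Finset.sum_congr rfl h1, Finset.sum_const, nsmul_eq_mul]
  have h2 : ((𝒜.filter (fun α => vs α = R)).card : ℝ) ≤ Real.exp (2 * s) ^ R.card := by
    have h3 : 𝒜.filter (fun α => vs α = R) ⊆
        (univ : Finset (Finset (Sym2 V))).filter fun α => vs α ⊆ R ∧ α.card ≤ D := by
      intro α hα
      rw [mem_filter] at hα
      obtain ⟨hα, hv⟩ := hα
      obtain ⟨-, hD, -⟩ := h𝒜 α hα
      rw [mem_filter]
      exact ⟨mem_univ _, hv.le, hD⟩
    refine le_trans ?_ (card_on2 R hs hs1)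
    exact_mod_cast Finset.card_le_card h3
  calc ((𝒜.filter (fun α => vs α = R)).card : ℝ) *
        (y ^ (2 * v₀) * Real.exp (6 * s)) ^ R.card ≤
        Real.exp (2 * s) ^ R.card * (y ^ (2 * v₀) * Real.exp (6 * s)) ^ R.card :=
        mul_le_mul_of_nonneg_right h2 (by positivity)
    _ = κ ^ R.card := by
        rw [← mul_pow, hκ]
        congr 1
        have : Real.exp (8 * s) = Real.exp (2 * s) * Real.exp (6 * s) := by
          rw [← Real.exp_add]
          congr 1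
          ring
        rw [this]
        ring

/-- **The sharper bound for the sum of the squares of the moments.** -/
theorem sum_mm2 (hk : 3 ≤ Fintype.card K)
    (v₀ : ℕ) {q y a b : ℝ} (hq : 1 / 2 ≤ q) (hq1 : q < 1)
    (hy0 : 0 ≤ y) (hy1 : y ≤ 1) (ha0 : 0 ≤ a) (ha1 : a ≤ 1) (hb0 : 0 ≤ b) (hb1 : b ≤ 1)
    (hab : a * b = (Fintype.card K : ℝ)⁻¹) (hy : y ^ (v₀ + 1) = a)
    (hn : Fintype.card V * a ^ 2 ≤ 1) (D : ℕ)
    (hb : 2 * ((((2 + v₀) * D : ℕ) : ℝ) ^ 2 * (2 ^ v₀ * (5 ^ v₀ * b))) ≤ 1)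
    (s r : ℕ) (hs : D ≤ s ^ 2) (hs1 : 1 ≤ s)
    (hbr : 2 * (((2 + v₀ * (2 * r) : ℕ) : ℝ) ^ 2 * (2 ^ v₀ * (5 ^ v₀ * b))) ≤ 1)
    (𝒜 : Finset (Finset (Sym2 V)))
    (h𝒜 : ∀ α ∈ 𝒜, α.Nonempty ∧ α.card ≤ D ∧ ∀ e ∈ α, ¬ e.IsDiag) (κ : ℝ)
    (hκ : κ = y ^ (2 * v₀) * Real.exp (8 * s)) (hnκ : Fintype.card V * κ ≤ 1) (E : ℝ)
    (hE : E = (1 + BB (Fintype.card V) v₀ ^ D) *
      ((Fintype.card V : ℝ) ^ 2 * ((a / (1 - q)) ^ (2 * r) * (v₀ * (2 * r) + 1)))) :
    ∑ α ∈ 𝒜, MM K v₀ q α ^ 2 ≤ 2 * ((v₀ * D + 1) ^ 2 * ((2 * D : ℕ) * (Fintype.card V * κ))) +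
      2 * (((Fintype.card V : ℝ) ^ 2 + 1) ^ D * E ^ 2) := by
  classical
  have hq' : 0 < 1 - q := by linarith
  have hB := one_le_BB (Fintype.card V) v₀
  have hE0 : 0 ≤ E := by rw [hE]; positivity
  have h1 : ∀ α ∈ 𝒜, MM K v₀ q α ^ 2 ≤ 2 * Mo K v₀ q α ^ 2 + 2 * E ^ 2 := by
    intro α hα
    obtain ⟨-, hD, hd⟩ := h𝒜 α hα
    have h2 := trunc_err2 hk v₀ hq hq1 ha0 ha1 hb0 hab hn r hbr hd
    have h3 : |MM K v₀ q α - Mo K v₀ q α| ≤ E := by
      refine h2.trans ?_
      rw [hE]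
      refine mul_le_mul_of_nonneg_right ?_ (by positivity)
      have := pow_le_pow_right₀ hB hD
      linarith
    have h4 : (MM K v₀ q α - Mo K v₀ q α) ^ 2 ≤ E ^ 2 := by
      rw [← sq_abs]
      exact pow_le_pow_left₀ (abs_nonneg _) h3 2
    nlinarith [sq_nonneg (MM K v₀ q α - 2 * Mo K v₀ q α)]
  refine (Finset.sum_le_sum h1).trans ?_
  rw [Finset.sum_add_distrib, ← Finset.mul_sum, Finset.sum_const, nsmul_eq_mul]
  have h2 := sum_mo2 hk v₀ hq hq1.le hy0 hy1 ha0 hb0 hb1 hab hy hn D hb s hs hs1 𝒜 h𝒜 κ hκ hnκ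
  have h3 : (𝒜.card : ℝ) ≤ ((Fintype.card V : ℝ) ^ 2 + 1) ^ D := by
    have h4 : 𝒜 ⊆ (univ : Finset (Finset (Sym2 V))).filter
        fun α => vs α ⊆ univ ∧ α.card ≤ D := by
      intro α hα
      rw [mem_filter]
      exact ⟨mem_univ _, subset_univ _, (h𝒜 α hα).2.1⟩
    have h5 := (Finset.card_le_card h4).trans (card_on univ D)
    rw [Finset.card_univ] at h5
    exact_mod_cast h5
  have h4 : (𝒜.card : ℝ) * (2 * E ^ 2) ≤ 2 * (((Fintype.card V : ℝ) ^ 2 + 1) ^ D * E ^ 2) := by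
    have := mul_le_mul_of_nonneg_right h3 (by positivity : (0 : ℝ) ≤ 2 * E ^ 2)
    linarith
  linarith

end Pool.Agent.W988.LD
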