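import Pool.Agent.W988.LD.Bound2

/-! Moments of the corrections. -/

set_option autoImplicit false
set_option linter.unusedSectionVars false

namespace Pool.Agent.W988.LD

open Finset Submodule

variable {V : Type} [Fintype V] [DecidableEq V]
variable {K : Type} [AddCommGroup K] [Fintype K] [DecidableEq K]

def Kt (v₀ r : ℕ) : ℕ := ((2 + v₀ * (2 * r)) ^ 2 + 1) ^ (v₀ ^ 2)

lemma card_vs_single {e : Sym2 V} (he : ¬ e.IsDiag) : (vs ({e} : Finset (Sym2 V))).card = 2 := by
  induction e using Sym2.ind with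
  | _ a b =>
    rw [Sym2.mk_isDiag_iff] at he
    have : vs ({s(a, b)} : Finset (Sym2 V)) = {a, b} := by
      ext v
      rw [mem_vs, mem_insert, mem_singleton]
      simp
    rw [this, Finset.card_pair he]

lemma tail_term (hk : 2 ≤ Fintype.card K) (v₀ : ℕ) {ρ q : ℝ} (hρ : 1 / 3 ≤ ρ)
    (hq : 1 / 2 ≤ q) {e : Sym2 V} (he : ¬ e.IsDiag) {r : ℕ}
    {t : Fin (2 * r) → Finset (Sym2 V)} (ht : ∀ i, t i ∈ shp v₀ e)
    (hpar : ∀ f, Even ((univ : Finset (Fin (2 * r))).filter fun i => f ∈ (t i).erase e).card) :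
    |∏ i, cc K ρ q (t i)| ≤ (24 ^ (v₀ ^ 2) * (Fintype.card K : ℝ)⁻¹) ^ (2 * r) *
      (((Fintype.card K : ℝ)⁻¹) ^ 2) ^ (univ.biUnion fun i => vs (t i) \ vs {e}).card := by
  classical
  have hkR : (2 : ℝ) ≤ Fintype.card K := by exact_mod_cast hk
  have hinv : (0 : ℝ) ≤ (Fintype.card K : ℝ)⁻¹ := by positivity
  have hinv1 : (Fintype.card K : ℝ)⁻¹ ≤ 1 := inv_le_one_of_one_le₀ (by linarith)
  have hsh : ∀ i, t i ∈ shapes V v₀ ∧ e ∈ t i := fun i => by
    have := ht i
    unfold shp at this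
    exact mem_filter.1 this
  have hcard : ∀ i, (vs (t i)).card - 1 = (vs (t i) \ vs {e}).card + 1 := by
    intro i
    have h1 : vs ({e} : Finset (Sym2 V)) ⊆ vs (t i) :=
      vs_mono (Finset.singleton_subset_iff.2 (hsh i).2)
    have h2 := Finset.card_sdiff_of_subset h1
    have h3 := card_vs_single he
    have h4 := Finset.card_le_card h1
    omega
  set U := (univ : Finset (Fin (2 * r))).biUnion fun i => vs (t i) \ vs {e} with hU
  have hdc : 2 * U.card ≤ ∑ i, (vs (t i) \ vs {e}).card := by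
    have hmem : ∀ u ∈ U, 2 ≤ ((univ : Finset (Fin (2 * r))).filter
        fun i => u ∈ vs (t i) \ vs {e}).card := by
      intro u hu
      rw [hU, mem_biUnion] at hu
      obtain ⟨i, -, hui⟩ := hu
      rw [mem_sdiff] at hui
      obtain ⟨f, hf, huf⟩ := mem_vs.1 hui.1
      have hfe : f ≠ e := fun h => hui.2 (mem_vs.2 ⟨e, mem_singleton_self e, h ▸ huf⟩)
      have h1 : i ∈ (univ : Finset (Fin (2 * r))).filter fun i => f ∈ (t i).erase e :=
        mem_filter.2 ⟨mem_univ i, mem_erase.2 ⟨hfe, hf⟩⟩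
      have h3 : 0 < ((univ : Finset (Fin (2 * r))).filter fun i => f ∈ (t i).erase e).card :=
        Finset.card_pos.2 ⟨i, h1⟩
      have h2 : 2 ≤ ((univ : Finset (Fin (2 * r))).filter fun i => f ∈ (t i).erase e).card := by
        obtain ⟨m, hm⟩ := hpar f
        omega
      refine h2.trans (Finset.card_le_card fun i' hi' => ?_)
      rw [mem_filter, mem_erase] at hi'
      exact mem_filter.2 ⟨mem_univ i', mem_sdiff.2 ⟨mem_vs.2 ⟨f, hi'.2.2, huf⟩, hui.2⟩⟩
    have h1 : ∑ i, (vs (t i) \ vs {e}).card =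
        ∑ u ∈ U, ((univ : Finset (Fin (2 * r))).filter fun i => u ∈ vs (t i) \ vs {e}).card := by
      have h2 : ∀ i ∈ (univ : Finset (Fin (2 * r))), (vs (t i) \ vs {e}).card =
          ∑ u ∈ U, if u ∈ vs (t i) \ vs {e} then 1 else 0 := by
        intro i hi
        rw [← Finset.sum_filter, Finset.filter_mem_eq_inter, Finset.inter_eq_right.2]
        · simp
        · exact Finset.subset_biUnion_of_mem (fun i => vs (t i) \ vs {e}) hi
      rw [Finset.sum_congr rfl h2, Finset.sum_comm]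
      refine Finset.sum_congr rfl fun u _ => ?_
      rw [Finset.card_filter]
    rw [h1, mul_comm]
    exact Finset.card_nsmul_le_sum U _ 2 hmem
  rw [Finset.abs_prod]
  calc ∏ i, |cc K ρ q (t i)| ≤
        ∏ i, (24 ^ (v₀ ^ 2) * ((Fintype.card K : ℝ)⁻¹) ^ ((vs (t i)).card - 1)) :=
        Finset.prod_le_prod (fun _ _ => abs_nonneg _) fun i _ => cc_bound hk v₀ hρ hq (hsh i).1
    _ = (24 ^ (v₀ ^ 2)) ^ (2 * r) *
        ((Fintype.card K : ℝ)⁻¹) ^ (∑ i, ((vs (t i)).card - 1)) := by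
        rw [Finset.prod_mul_distrib, Finset.prod_const, Finset.prod_pow_eq_pow_sum,
          Finset.card_univ, Fintype.card_fin]
    _ ≤ (24 ^ (v₀ ^ 2)) ^ (2 * r) * ((Fintype.card K : ℝ)⁻¹) ^ (2 * r + 2 * U.card) := by
        refine mul_le_mul_of_nonneg_left ?_ (by positivity)
        apply pow_le_pow_of_le_one hinv hinv1
        rw [Finset.sum_congr rfl fun i _ => hcard i, Finset.sum_add_distrib]
        simp only [Finset.sum_const, Finset.card_univ, Fintype.card_fin, smul_eq_mul, mul_one]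
        omega
    _ = _ := by
        rw [pow_add, mul_pow, pow_mul _ 2 U.card]
        ring

/-- **Moments of the correction at an edge.** -/
theorem tail_moment (hk : 2 ≤ Fintype.card K) (hn : Fintype.card V ≤ Fintype.card K ^ 2)
    (v₀ : ℕ) {ρ q : ℝ} (hρ : 1 / 3 ≤ ρ) (hq : 1 / 2 ≤ q) {e : Sym2 V} (he : ¬ e.IsDiag) (r : ℕ) :
    avg (fun Y : Sym2 V → Bool => hh K v₀ ρ q Y e ^ (2 * r)) ≤
      (24 ^ (v₀ ^ 2) * (Fintype.card K : ℝ)⁻¹ * Kt v₀ r) ^ (2 * r) * (v₀ * (2 * r) + 1) := by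
  classical
  have hkR : (2 : ℝ) ≤ Fintype.card K := by exact_mod_cast hk
  set κ : ℝ := ((Fintype.card K : ℝ)⁻¹) ^ 2 with hκ
  have hκ0 : 0 ≤ κ := by positivity
  have h1 : ∀ Y : Sym2 V → Bool, hh K v₀ ρ q Y e ^ (2 * r) =
      ∑ t ∈ Fintype.piFinset (fun _ : Fin (2 * r) => shp v₀ e),
        (∏ i, cc K ρ q (t i)) * ∏ i, chi Y ((t i).erase e) := by
    intro Y
    unfold hh
    have h2 := Finset.prod_univ_sum (fun _ : Fin (2 * r) => shp v₀ e)
      (fun _ T => cc K ρ q T * chi Y (T.erase e))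
    rw [Finset.prod_const, Finset.card_univ, Fintype.card_fin] at h2
    rw [h2]
    exact Finset.sum_congr rfl fun t _ => Finset.prod_mul_distrib
  simp only [h1]
  rw [avg_sum]
  simp only [avg_mul_left]
  have h3 : ∀ t ∈ Fintype.piFinset (fun _ : Fin (2 * r) => shp v₀ e),
      (∏ i, cc K ρ q (t i)) * avg (fun Y : Sym2 V → Bool => ∏ i, chi Y ((t i).erase e)) ≤
        (24 ^ (v₀ ^ 2) * (Fintype.card K : ℝ)⁻¹) ^ (2 * r) *
          κ ^ (univ.biUnion fun i => vs (t i) \ vs {e}).card := by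
    intro t ht
    rw [Fintype.mem_piFinset] at ht
    rw [avg_par]
    split_ifs with h4
    · rw [mul_one]
      exact (le_abs_self _).trans (tail_term hk v₀ hρ hq he ht h4)
    · rw [mul_zero]
      positivity
  refine (Finset.sum_le_sum h3).trans ?_
  rw [← Finset.mul_sum]
  have hvs1 : ∀ T ∈ shp v₀ e, (vs T).card ≤ v₀ := by
    intro T hT
    unfold shp at hT
    exact (mem_shapes.1 (mem_filter.1 hT).1).2.2
  have hcount := count (fun _ : Fin (2 * r) => shp v₀ e) (fun _ T => vs T \ vs {e}) κ hκ0 (by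
      rw [hκ, inv_pow, ← div_eq_mul_inv, div_le_one (by positivity)]
      exact_mod_cast hn) (v₀ * (2 * r)) (by
      intro t ht
      rw [Fintype.mem_piFinset] at ht
      refine Finset.card_biUnion_le.trans ?_
      calc ∑ i, (vs (t i) \ vs {e}).card ≤ ∑ _i : Fin (2 * r), v₀ :=
            Finset.sum_le_sum fun i _ =>
              (Finset.card_le_card sdiff_subset).trans (hvs1 _ (ht i))
        _ = v₀ * (2 * r) := by
            rw [Finset.sum_const, Finset.card_univ, Fintype.card_fin, smul_eq_mul, mul_comm])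
      (fun _ => Kt v₀ r) (by
      intro i M hM
      have h5 : ((shp v₀ e).filter fun T => vs T \ vs {e} ⊆ M) ⊆
          (shapes V v₀).filter fun T => vs T ⊆ vs {e} ∪ M := by
        intro T hT
        rw [mem_filter] at hT ⊢
        unfold shp at hT
        refine ⟨(mem_filter.1 hT.1).1, fun v hv => ?_⟩
        rw [mem_union]
        by_cases h6 : v ∈ vs {e}
        · exact Or.inl h6
        · exact Or.inr (hT.2 (mem_sdiff.2 ⟨hv, h6⟩))
      refine (Finset.card_le_card h5).trans ((card_shapes_le v₀ _).trans ?_)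
      unfold Kt
      apply Nat.pow_le_pow_left
      apply Nat.add_le_add_right
      apply Nat.pow_le_pow_left
      refine (Finset.card_union_le _ _).trans ?_
      rw [card_vs_single he]
      omega)
  rw [Finset.prod_const, Finset.card_univ, Fintype.card_fin] at hcount
  calc (24 ^ (v₀ ^ 2) * (Fintype.card K : ℝ)⁻¹) ^ (2 * r) *
        ∑ t ∈ Fintype.piFinset (fun _ : Fin (2 * r) => shp v₀ e),
          κ ^ (univ.biUnion fun i => vs (t i) \ vs {e}).card ≤
      (24 ^ (v₀ ^ 2) * (Fintype.card K : ℝ)⁻¹) ^ (2 * r) *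
        (((v₀ * (2 * r) : ℕ) + 1) * (Kt v₀ r : ℝ) ^ (2 * r)) :=
        mul_le_mul_of_nonneg_left hcount (by positivity)
    _ = _ := by
        push_cast
        rw [mul_pow _ (Kt v₀ r : ℝ)]
        ring

lemma abs_chi (Y : Sym2 V → Bool) (A : Finset (Sym2 V)) : |chi Y A| = 1 := by
  unfold chi
  rw [Finset.abs_prod]
  refine Finset.prod_eq_one fun f _ => ?_
  cases Y f <;> norm_num [sg]

lemma abs_hh_le (hk : 2 ≤ Fintype.card K) (v₀ : ℕ) {ρ q : ℝ} (hρ : 1 / 3 ≤ ρ)
    (hq : 1 / 2 ≤ q) (Y : Sym2 V → Bool) (e : Sym2 V) :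
    |hh K v₀ ρ q Y e| ≤ 24 ^ (v₀ ^ 2) * (Fintype.card V ^ 2 + 1) ^ (v₀ ^ 2) := by
  classical
  have hkR : (2 : ℝ) ≤ Fintype.card K := by exact_mod_cast hk
  have hinv1 : (Fintype.card K : ℝ)⁻¹ ≤ 1 := inv_le_one_of_one_le₀ (by linarith)
  unfold hh
  refine (Finset.abs_sum_le_sum_abs _ _).trans ?_
  have h1 : ∀ T ∈ shp v₀ e, |cc K ρ q T * chi Y (T.erase e)| ≤ 24 ^ (v₀ ^ 2) := by
    intro T hT
    rw [abs_mul, abs_chi, mul_one]
    unfold shp at hT
    refine (cc_bound (K := K) hk v₀ hρ hq (mem_filter.1 hT).1).trans ?_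
    exact mul_le_of_le_one_right (by positivity) (pow_le_one₀ (by positivity) hinv1)
  refine (Finset.sum_le_sum h1).trans ?_
  rw [Finset.sum_const, nsmul_eq_mul, mul_comm]
  refine mul_le_mul_of_nonneg_left ?_ (by positivity)
  have h2 : (shp v₀ e).card ≤ (Fintype.card V ^ 2 + 1) ^ (v₀ ^ 2) := by
    have h3 := card_shapes_le (V := V) v₀ univ
    rw [Finset.card_univ] at h3
    refine le_trans (Finset.card_le_card ?_) h3
    intro T hT
    unfold shp at hT
    rw [mem_filter] at hT ⊢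
    exact ⟨hT.1, subset_univ _⟩
  exact_mod_cast h2

end Pool.Agent.W988.LD
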