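import Pool.Agent.W988.LD.Up

/-! Refutations by the trace method. -/

set_option autoImplicit false
set_option linter.unusedSectionVars false

namespace Pool.Agent.W988.LD

open Finset Matrix

section lin

variable {V : Type} [Fintype V] [DecidableEq V]

/-- the sum of the squares of the entries -/
def fro (A : Matrix V V ℝ) : ℝ := ∑ u, ∑ w, A u w ^ 2

lemma fro_nonneg (A : Matrix V V ℝ) : 0 ≤ fro A :=
  Finset.sum_nonneg fun _ _ => Finset.sum_nonneg fun _ _ => sq_nonneg _

lemma quad_le (A : Matrix V V ℝ) (v : V → ℝ) :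
    (v ⬝ᵥ A *ᵥ v) ^ 2 ≤ (v ⬝ᵥ v) ^ 2 * fro A := by
  have h1 : v ⬝ᵥ A *ᵥ v = ∑ z : V × V, (v z.1 * v z.2) * A z.1 z.2 := by
    rw [Fintype.sum_prod_type]
    unfold dotProduct mulVec dotProduct
    refine Finset.sum_congr rfl fun u _ => ?_
    rw [Finset.mul_sum]
    exact Finset.sum_congr rfl fun w _ => by ring
  have h2 : (v ⬝ᵥ v) ^ 2 = ∑ z : V × V, (v z.1 * v z.2) ^ 2 := by
    rw [Fintype.sum_prod_type, sq]
    unfold dotProduct
    rw [Finset.sum_mul_sum]
    refine Finset.sum_congr rfl fun u _ => Finset.sum_congr rfl fun w _ => by ring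
  have h3 : fro A = ∑ z : V × V, A z.1 z.2 ^ 2 := by
    rw [Fintype.sum_prod_type]
    rfl
  rw [h1, h2, h3]
  exact Finset.sum_mul_sq_le_sq_mul_sq _ _ _

lemma quad_sq {A : Matrix V V ℝ} (hA : A.transpose = A) (v : V → ℝ) :
    (v ⬝ᵥ A *ᵥ v) ^ 2 ≤ (v ⬝ᵥ v) * (v ⬝ᵥ (A * A) *ᵥ v) := by
  have h1 : v ⬝ᵥ (A * A) *ᵥ v = (A *ᵥ v) ⬝ᵥ (A *ᵥ v) := by
    rw [← Matrix.mulVec_mulVec, Matrix.dotProduct_mulVec]
    congr 1
    rw [← Matrix.mulVec_transpose, hA]
  rw [h1]
  have h2 := Finset.sum_mul_sq_le_sq_mul_sq (univ : Finset V) v (A *ᵥ v)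
  unfold dotProduct
  simp only [sq] at h2 ⊢
  exact h2

lemma quad_pow (v : V → ℝ) (j : ℕ) : ∀ A : Matrix V V ℝ, A.transpose = A →
    (v ⬝ᵥ A *ᵥ v) ^ (2 ^ (j + 1)) ≤ (v ⬝ᵥ v) ^ (2 ^ (j + 1)) * fro (A ^ (2 ^ j)) := by
  have hvv : 0 ≤ v ⬝ᵥ v := by
    unfold dotProduct
    exact Finset.sum_nonneg fun u _ => mul_self_nonneg _
  induction j with
  | zero =>
    intro A _
    simpa using quad_le A v
  | succ j ih =>
    intro A hA
    have h1 := ih (A * A) (by rw [Matrix.transpose_mul, hA])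
    have h2 := quad_sq hA v
    have h3 : (v ⬝ᵥ A *ᵥ v) ^ (2 ^ (j + 1 + 1)) ≤
        ((v ⬝ᵥ v) * (v ⬝ᵥ (A * A) *ᵥ v)) ^ (2 ^ (j + 1)) := by
      rw [pow_succ 2 (j + 1), mul_comm (2 ^ (j + 1)) 2, pow_mul]
      exact pow_le_pow_left₀ (sq_nonneg _) h2 _
    refine h3.trans ?_
    rw [mul_pow]
    calc (v ⬝ᵥ v) ^ (2 ^ (j + 1)) * (v ⬝ᵥ (A * A) *ᵥ v) ^ (2 ^ (j + 1)) ≤
          (v ⬝ᵥ v) ^ (2 ^ (j + 1)) * ((v ⬝ᵥ v) ^ (2 ^ (j + 1)) * fro ((A * A) ^ (2 ^ j))) :=
          mul_le_mul_of_nonneg_left h1 (pow_nonneg hvv _)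
      _ = _ := by
          have h4 : (A * A) ^ (2 ^ j) = A ^ (2 ^ (j + 1)) := by
            rw [← sq, ← pow_mul]
            congr 1
            ring
          rw [h4, pow_succ 2 (j + 1), mul_comm (2 ^ (j + 1)) 2, pow_mul (v ⬝ᵥ v) 2, ← mul_assoc,
            ← mul_pow, ← sq]

lemma fro_eq_trace {A : Matrix V V ℝ} (hA : A.transpose = A) (m : ℕ) :
    fro (A ^ m) = (A ^ (2 * m)).trace := by
  have h1 : A ^ (2 * m) = A ^ m * (A ^ m).transpose := by
    rw [Matrix.transpose_pow, hA, ← pow_add]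
    congr 1
    ring
  rw [h1]
  unfold fro Matrix.trace
  refine Finset.sum_congr rfl fun u _ => ?_
  rw [Matrix.diag_apply, Matrix.mul_apply]
  refine Finset.sum_congr rfl fun w _ => ?_
  rw [Matrix.transpose_apply, sq]

lemma trace_sq_le (B : Matrix V V ℝ) : B.trace ^ 2 ≤ Fintype.card V * fro B := by
  have h1 := Finset.sum_mul_sq_le_sq_mul_sq (univ : Finset V) (fun _ => (1 : ℝ)) (fun u => B u u)
  simp only [one_mul, one_pow, Finset.sum_const, Finset.card_univ, nsmul_eq_mul, mul_one] at h1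
  refine h1.trans (mul_le_mul_of_nonneg_left ?_ (Nat.cast_nonneg _))
  unfold fro
  refine Finset.sum_le_sum fun u _ => ?_
  exact Finset.single_le_sum (f := fun w => B u w ^ 2) (fun _ _ => sq_nonneg _) (mem_univ u)

/-- powers and walks -/
lemma pow_walk (A : Matrix V V ℝ) (m : ℕ) : ∀ u w : V, (A ^ m) u w =
    ∑ φ : Fin (m + 1) → V, if φ 0 = u ∧ φ (Fin.last m) = w then
      ∏ i : Fin m, A (φ i.castSucc) (φ i.succ) else 0 := by
  induction m with
  | zero =>
    intro u w
    rw [pow_zero, Matrix.one_apply]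
    have h1 : ∀ φ : Fin (0 + 1) → V, (if φ 0 = u ∧ φ (Fin.last 0) = w then
        ∏ i : Fin 0, A (φ i.castSucc) (φ i.succ) else 0) =
        if φ = (fun _ => u) then (if u = w then (1 : ℝ) else 0) else 0 := by
      intro φ
      have h2 : φ = (fun _ => u) ↔ φ 0 = u := by
        constructor
        · intro h
          rw [h]
        · intro h
          funext i
          rw [Fin.fin_one_eq_zero i]
          exact h
      by_cases h3 : φ 0 = u
      · rw [if_pos (h2.2 h3)]
        have h4 : φ (Fin.last 0) = u := h3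
        rw [h4]
        simp [h3]
      · rw [if_neg (fun h => h3 (h2.1 h)), if_neg (fun h => h3 h.1)]
    rw [Finset.sum_congr rfl fun φ _ => h1 φ]
    simp
  | succ m ih =>
    intro u w
    have h1 : ∀ (a : V) (φ : Fin (m + 1) → V),
        (if (Fin.consEquiv (fun _ : Fin (m + 1 + 1) => V)) (a, φ) 0 = u ∧
          (Fin.consEquiv (fun _ : Fin (m + 1 + 1) => V)) (a, φ) (Fin.last (m + 1)) = w then
          ∏ i : Fin (m + 1), A ((Fin.consEquiv (fun _ : Fin (m + 1 + 1) => V)) (a, φ) i.castSucc)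
            ((Fin.consEquiv (fun _ : Fin (m + 1 + 1) => V)) (a, φ) i.succ) else 0) =
        if a = u then (A a (φ 0) * if φ (Fin.last m) = w then
          ∏ i : Fin m, A (φ i.castSucc) (φ i.succ) else 0) else 0 := by
      intro a φ
      have h2 : (Fin.consEquiv (fun _ : Fin (m + 1 + 1) => V)) (a, φ) = Fin.cons a φ := rfl
      rw [h2, Fin.prod_univ_succ]
      have h3 : (Fin.last (m + 1)) = (Fin.last m).succ := rfl
      have h4 : ∀ i : Fin m, (i.succ).castSucc = (i.castSucc).succ := fun i => rfl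
      simp only [h3, h4, Fin.cons_zero, Fin.cons_succ, Fin.castSucc_zero]
      by_cases ha : a = u
      · by_cases hw : φ (Fin.last m) = w
        · simp [ha, hw]
        · simp [ha, hw]
      · simp [ha]
    have h2 : ∀ φ : Fin (m + 1) → V, (A u (φ 0) * if φ (Fin.last m) = w then
        ∏ i : Fin m, A (φ i.castSucc) (φ i.succ) else 0) =
        ∑ v, A u v * (if φ 0 = v ∧ φ (Fin.last m) = w then
          ∏ i : Fin m, A (φ i.castSucc) (φ i.succ) else 0) := by
      intro φ
      rw [Finset.sum_eq_single (φ 0)]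
      · simp
      · intro v _ hv
        rw [if_neg (fun h => hv h.1.symm), mul_zero]
      · intro h
        exact absurd (mem_univ _) h
    calc (A ^ (m + 1)) u w = ∑ v, A u v * (A ^ m) v w := by
          rw [pow_succ', Matrix.mul_apply]
      _ = ∑ v, A u v * ∑ φ : Fin (m + 1) → V, (if φ 0 = v ∧ φ (Fin.last m) = w then
            ∏ i : Fin m, A (φ i.castSucc) (φ i.succ) else 0) :=
          Finset.sum_congr rfl fun v _ => by rw [ih v w]
      _ = ∑ v, ∑ φ : Fin (m + 1) → V, A u v * (if φ 0 = v ∧ φ (Fin.last m) = w then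
            ∏ i : Fin m, A (φ i.castSucc) (φ i.succ) else 0) :=
          Finset.sum_congr rfl fun v _ => by rw [Finset.mul_sum]
      _ = ∑ φ : Fin (m + 1) → V, ∑ v, A u v * (if φ 0 = v ∧ φ (Fin.last m) = w then
            ∏ i : Fin m, A (φ i.castSucc) (φ i.succ) else 0) := Finset.sum_comm
      _ = ∑ φ : Fin (m + 1) → V, (A u (φ 0) * if φ (Fin.last m) = w then
            ∏ i : Fin m, A (φ i.castSucc) (φ i.succ) else 0) :=
          Finset.sum_congr rfl fun φ _ => (h2 φ).symm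
      _ = ∑ a : V, ∑ φ : Fin (m + 1) → V, (if a = u then (A a (φ 0) * if φ (Fin.last m) = w then
            ∏ i : Fin m, A (φ i.castSucc) (φ i.succ) else 0) else 0) := by
          rw [Finset.sum_eq_single u]
          · exact Finset.sum_congr rfl fun φ _ => (if_pos rfl).symm
          · intro a _ ha
            exact Finset.sum_eq_zero fun φ _ => if_neg ha
          · intro h
            exact absurd (mem_univ _) h
      _ = ∑ z : V × (Fin (m + 1) → V),
          (if (Fin.consEquiv (fun _ : Fin (m + 1 + 1) => V)) z 0 = u ∧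
          (Fin.consEquiv (fun _ : Fin (m + 1 + 1) => V)) z (Fin.last (m + 1)) = w then
          ∏ i : Fin (m + 1), A ((Fin.consEquiv (fun _ : Fin (m + 1 + 1) => V)) z i.castSucc)
            ((Fin.consEquiv (fun _ : Fin (m + 1 + 1) => V)) z i.succ) else 0) := by
          rw [Fintype.sum_prod_type]
          exact Finset.sum_congr rfl fun a _ => Finset.sum_congr rfl fun φ _ => (h1 a φ).symm
      _ = _ := (Fin.consEquiv (fun _ : Fin (m + 1 + 1) => V)).sum_comp
          (fun φ : Fin (m + 1 + 1) → V => if φ 0 = u ∧ φ (Fin.last (m + 1)) = w then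
            ∏ i : Fin (m + 1), A (φ i.castSucc) (φ i.succ) else 0)

lemma trace_walk (A : Matrix V V ℝ) (m : ℕ) : (A ^ m).trace =
    ∑ φ : Fin (m + 1) → V, if φ 0 = φ (Fin.last m) then
      ∏ i : Fin m, A (φ i.castSucc) (φ i.succ) else 0 := by
  unfold Matrix.trace
  simp only [Matrix.diag_apply, pow_walk]
  rw [Finset.sum_comm]
  refine Finset.sum_congr rfl fun φ _ => ?_
  by_cases h : φ 0 = φ (Fin.last m)
  · rw [if_pos h, Finset.sum_eq_single (φ 0)]
    · rw [if_pos ⟨rfl, h.symm⟩]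
    · intro v _ hv
      rw [if_neg (fun h' => hv h'.1.symm)]
    · intro h'
      exact absurd (mem_univ _) h'
  · rw [if_neg h]
    refine Finset.sum_eq_zero fun v _ => ?_
    rw [if_neg (fun h' => h (h'.1.trans h'.2.symm))]

end lin

end Pool.Agent.W988.LD
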