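import Pool.Agent.W988.LD.Trace

/-! The trace method: walks and expectations. -/

set_option autoImplicit false
set_option linter.unusedSectionVars false

namespace Pool.Agent.W988.LD

open Finset Matrix

section walks

variable {V : Type} [Fintype V] [DecidableEq V]

/-- functions with a small image -/
lemma card_small_image {a : ℕ} (ha : 0 < a) (t : ℕ) :
    ((univ : Finset (Fin a → V)).filter fun φ => (univ.image φ).card ≤ t).card ≤
      Fintype.card V ^ t * t ^ a := by
  classical
  have h1 : ((univ : Finset (Fin a → V)).filter fun φ => (univ.image φ).card ≤ t) ⊆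
      (univ : Finset ((Fin t → V) × (Fin a → Fin t))).image fun z i => z.1 (z.2 i) := by
    intro φ hφ
    have h2 := (mem_filter.1 hφ).2
    have hne : Nonempty {v // v ∈ univ.image φ} :=
      ⟨⟨φ ⟨0, ha⟩, mem_image_of_mem φ (mem_univ _)⟩⟩
    obtain ⟨f⟩ : Nonempty ({v // v ∈ univ.image φ} ↪ Fin t) := by
      apply Function.Embedding.nonempty_of_card_le
      rw [Fintype.card_coe, Fintype.card_fin]
      exact h2
    refine mem_image.2 ⟨(fun c => (Function.invFun f c).1,
      fun i => f ⟨φ i, mem_image_of_mem φ (mem_univ _)⟩), mem_univ _, ?_⟩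
    funext i
    show (Function.invFun f (f ⟨φ i, mem_image_of_mem φ (mem_univ _)⟩)).1 = φ i
    rw [Function.leftInverse_invFun f.injective]
  refine (Finset.card_le_card h1).trans (Finset.card_image_le.trans ?_)
  rw [Finset.card_univ, Fintype.card_prod, Fintype.card_fun, Fintype.card_fun, Fintype.card_fin,
    Fintype.card_fin]

lemma seq_vertices (f : ℕ → V) (m : ℕ) : ((range (m + 1)).image f).card ≤
    ((range m).image fun i => s(f i, f (i + 1))).card + 1 := by
  induction m with
  | zero => simp
  | succ m ih =>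
    have hR1 : (range (m + 1 + 1)).image f = insert (f (m + 1)) ((range (m + 1)).image f) := by
      rw [Finset.range_add_one (n := m + 1), Finset.image_insert]
    have hR2 : (range (m + 1)).image (fun i => s(f i, f (i + 1))) =
        insert s(f m, f (m + 1)) ((range m).image fun i => s(f i, f (i + 1))) := by
      rw [Finset.range_add_one (n := m), Finset.image_insert]
    rw [hR1, hR2]
    by_cases h : f (m + 1) ∈ (range (m + 1)).image f
    · rw [Finset.insert_eq_of_mem h]
      exact ih.trans (Nat.add_le_add_right (Finset.card_le_card (Finset.subset_insert _ _)) 1)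
    · rw [Finset.card_insert_of_notMem h, Finset.card_insert_of_notMem]
      · omega
      · intro h2
        rw [mem_image] at h2
        obtain ⟨i, hi, heq⟩ := h2
        rw [mem_range] at hi
        apply h
        have h3 : f (m + 1) ∈ s(f i, f (i + 1)) := by
          rw [heq]
          exact Sym2.mem_mk_right _ _
        rw [Sym2.mem_iff] at h3
        rcases h3 with h3 | h3
        · exact mem_image.2 ⟨i, mem_range.2 (by omega), h3.symm⟩
        · exact mem_image.2 ⟨i + 1, mem_range.2 (by omega), h3.symm⟩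

/-- the edges of a walk -/
def ed {m : ℕ} (φ : Fin (m + 1) → V) (i : Fin m) : Sym2 V := s(φ i.castSucc, φ i.succ)

lemma walk_vertices {m : ℕ} (φ : Fin (m + 1) → V) :
    (univ.image φ).card ≤ (univ.image (ed φ)).card + 1 := by
  set f : ℕ → V := fun i => if h : i < m + 1 then φ ⟨i, h⟩ else φ 0 with hf
  have h1 : (univ.image φ) = (range (m + 1)).image f := by
    ext v
    rw [mem_image, mem_image]
    constructor
    · rintro ⟨i, -, rfl⟩
      refine ⟨i.1, mem_range.2 i.2, ?_⟩
      simp only [hf]
      rw [dif_pos i.2]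
    · rintro ⟨i, hi, rfl⟩
      rw [mem_range] at hi
      refine ⟨⟨i, hi⟩, mem_univ _, ?_⟩
      simp only [hf]
      rw [dif_pos hi]
  have h2 : (range m).image (fun i => s(f i, f (i + 1))) ⊆ univ.image (ed φ) := by
    intro e he
    rw [mem_image] at he ⊢
    obtain ⟨i, hi, rfl⟩ := he
    rw [mem_range] at hi
    refine ⟨⟨i, hi⟩, mem_univ _, ?_⟩
    simp only [hf]
    rw [dif_pos (by omega), dif_pos (by omega)]
    rfl
  rw [h1]
  exact (seq_vertices f m).trans (Nat.add_le_add_right (Finset.card_le_card h2) 1)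

/-- every edge is used an even number of times -/
def WPar {m : ℕ} (φ : Fin (m + 1) → V) : Prop :=
  ∀ f, Even ((univ : Finset (Fin m)).filter fun i => f ∈ ({ed φ i} : Finset (Sym2 V))).card

lemma walk_edges {m : ℕ} {φ : Fin (m + 1) → V} (h : WPar φ) :
    2 * (univ.image (ed φ)).card ≤ m := by
  have h1 := Finset.card_eq_sum_card_image (ed φ) (univ : Finset (Fin m))
  rw [Finset.card_univ, Fintype.card_fin] at h1
  have h2 : ∑ _e ∈ univ.image (ed φ), 2 ≤
      ∑ e ∈ univ.image (ed φ), ((univ : Finset (Fin m)).filter fun i => ed φ i = e).card := by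
    refine Finset.sum_le_sum fun e he => ?_
    have h3 := h e
    have h4 : ((univ : Finset (Fin m)).filter fun i => e ∈ ({ed φ i} : Finset (Sym2 V))) =
        (univ : Finset (Fin m)).filter fun i => ed φ i = e := by
      ext i
      simp [eq_comm]
    rw [h4] at h3
    have h5 : 0 < ((univ : Finset (Fin m)).filter fun i => ed φ i = e).card := by
      rw [mem_image] at he
      obtain ⟨i, -, hi⟩ := he
      exact Finset.card_pos.2 ⟨i, mem_filter.2 ⟨mem_univ _, hi⟩⟩
    obtain ⟨c, hc⟩ := h3
    omega
  rw [Finset.sum_const, smul_eq_mul] at h2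
  omega

open Classical in
lemma card_WPar (m : ℕ) : ((univ : Finset (Fin (m + 1) → V)).filter fun φ => WPar φ).card ≤
    Fintype.card V ^ (m / 2 + 1) * (m / 2 + 1) ^ (m + 1) := by
  refine le_trans (Finset.card_le_card ?_) (card_small_image (V := V) (Nat.succ_pos m) (m / 2 + 1))
  intro φ hφ
  rw [mem_filter] at hφ ⊢
  refine ⟨mem_univ _, (walk_vertices φ).trans ?_⟩
  have := walk_edges hφ.2
  omega

/-- the sign matrix -/
def Mx (x : Sym2 V → Bool) : Matrix V V ℝ := fun u w => if u = w then 0 else sg (x s(u, w))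

lemma Mx_symm (x : Sym2 V → Bool) : (Mx x).transpose = Mx x := by
  ext u w
  rw [Matrix.transpose_apply]
  unfold Mx
  by_cases h : u = w
  · rw [if_pos h.symm, if_pos h]
  · rw [if_neg (fun h' => h h'.symm), if_neg h, Sym2.eq_swap]

lemma avg_trace (m : ℕ) : avg (fun x : Sym2 V → Bool => (Mx x ^ m).trace) ≤
    (Fintype.card V : ℝ) ^ (m / 2 + 1) * ((m / 2 + 1 : ℕ) : ℝ) ^ (m + 1) := by
  classical
  simp only [trace_walk]
  rw [avg_sum]
  have h1 : ∀ φ : Fin (m + 1) → V, avg (fun x : Sym2 V → Bool =>
      if φ 0 = φ (Fin.last m) then ∏ i : Fin m, Mx x (φ i.castSucc) (φ i.succ) else 0) ≤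
      if WPar φ then 1 else 0 := by
    intro φ
    have hnn : (0 : ℝ) ≤ if WPar φ then 1 else 0 := by split_ifs <;> norm_num
    have havg0 : avg (fun _ : Sym2 V → Bool => (0 : ℝ)) = 0 := avg_const 0
    by_cases h2 : φ 0 = φ (Fin.last m)
    swap
    · simp only [if_neg h2]
      rw [havg0]
      exact hnn
    simp only [if_pos h2]
    by_cases h3 : ∃ i : Fin m, φ i.castSucc = φ i.succ
    · obtain ⟨i, hi⟩ := h3
      have h4 : ∀ x : Sym2 V → Bool, ∏ i : Fin m, Mx x (φ i.castSucc) (φ i.succ) = 0 := by
        intro x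
        refine Finset.prod_eq_zero (mem_univ i) ?_
        unfold Mx
        rw [if_pos hi]
      simp only [h4]
      rw [havg0]
      exact hnn
    · push Not at h3
      have h4 : ∀ x : Sym2 V → Bool, ∏ i : Fin m, Mx x (φ i.castSucc) (φ i.succ) =
          ∏ i ∈ (univ : Finset (Fin m)), chi x ({ed φ i} : Finset (Sym2 V)) := by
        intro x
        refine Finset.prod_congr rfl fun i _ => ?_
        unfold Mx chi
        rw [if_neg (h3 i), Finset.prod_singleton]
        rfl
      simp only [h4]
      rw [avg_par]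
      by_cases hW : WPar φ
      · rw [if_pos hW]
        split_ifs <;> norm_num
      · rw [if_neg hW]
        refine le_of_eq (if_neg fun h' => hW h')
  refine (Finset.sum_le_sum fun φ _ => h1 φ).trans ?_
  rw [Finset.sum_ite, Finset.sum_const_zero, add_zero, Finset.sum_const, nsmul_eq_mul, mul_one]
  exact_mod_cast card_WPar (V := V) m

lemma avg_fro (m : ℕ) : avg (fun x : Sym2 V → Bool => fro (Mx x ^ m) ^ 2) ≤
    (Fintype.card V : ℝ) ^ (2 * m + 2) * ((2 * m + 1 : ℕ) : ℝ) ^ (4 * m + 1) := by
  have h1 : ∀ x : Sym2 V → Bool, fro (Mx x ^ m) ^ 2 ≤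
      Fintype.card V * (Mx x ^ (4 * m)).trace := by
    intro x
    rw [fro_eq_trace (Mx_symm x)]
    refine (trace_sq_le _).trans ?_
    rw [fro_eq_trace (Mx_symm x)]
    refine le_of_eq ?_
    congr 3
    ring
  refine (avg_mono h1).trans ?_
  rw [avg_mul_left]
  have h2 := avg_trace (V := V) (4 * m)
  have h3 : 4 * m / 2 + 1 = 2 * m + 1 := by omega
  rw [h3] at h2
  calc (Fintype.card V : ℝ) * avg (fun x : Sym2 V → Bool => (Mx x ^ (4 * m)).trace) ≤
        Fintype.card V * ((Fintype.card V : ℝ) ^ (2 * m + 1) *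
          ((2 * m + 1 : ℕ) : ℝ) ^ (4 * m + 1)) :=
        mul_le_mul_of_nonneg_left h2 (Nat.cast_nonneg _)
    _ = _ := by ring

end walks

section poly

variable {n : ℕ}

/-- the sign matrix as a matrix of polynomials -/
noncomputable def MP (n : ℕ) : Matrix (Fin n) (Fin n) (MvPolynomial (Sym2 (Fin n)) ℝ) :=
  fun u w => if u = w then 0 else MvPolynomial.C 2 * MvPolynomial.X s(u, w) - 1

lemma deg_MP (u w : Fin n) : (MP n u w).totalDegree ≤ 1 := by
  unfold MP
  split_ifs
  · simp
  · refine (MvPolynomial.totalDegree_sub _ _).trans ?_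
    rw [MvPolynomial.totalDegree_one]
    refine max_le ?_ (by norm_num)
    refine (MvPolynomial.totalDegree_mul _ _).trans ?_
    rw [MvPolynomial.totalDegree_C, MvPolynomial.totalDegree_X]

lemma deg_MP_pow (m : ℕ) : ∀ u w : Fin n, ((MP n ^ m) u w).totalDegree ≤ m := by
  induction m with
  | zero =>
    intro u w
    rw [pow_zero, Matrix.one_apply]
    split_ifs <;> simp
  | succ m ih =>
    intro u w
    rw [pow_succ, Matrix.mul_apply]
    refine MvPolynomial.totalDegree_finsetSum_le fun v _ => ?_
    refine (MvPolynomial.totalDegree_mul _ _).trans ?_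
    exact Nat.add_le_add (ih u v) (deg_MP v w)

/-- the polynomial -/
noncomputable def TP (n m : ℕ) : MvPolynomial (Sym2 (Fin n)) ℝ :=
  ∑ u, ∑ w, (MP n ^ m) u w ^ 2

lemma deg_TP (m : ℕ) : (TP n m).totalDegree ≤ 2 * m := by
  unfold TP
  refine MvPolynomial.totalDegree_finsetSum_le fun u _ => ?_
  refine MvPolynomial.totalDegree_finsetSum_le fun w _ => ?_
  refine (MvPolynomial.totalDegree_pow _ _).trans ?_
  exact Nat.mul_le_mul_left 2 (deg_MP_pow m u w)

/-- the sign matrix of a graph -/
noncomputable def MG (G : SimpleGraph (Fin n)) : Matrix (Fin n) (Fin n) ℝ :=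
  fun u w => if u = w then 0 else 2 * ind G s(u, w) - 1

lemma eval_MP_pow (G : SimpleGraph (Fin n)) (m : ℕ) (u w : Fin n) :
    MvPolynomial.eval (ind G) ((MP n ^ m) u w) = (MG G ^ m) u w := by
  have h1 : (MvPolynomial.eval (ind G)).mapMatrix (MP n) = MG G := by
    ext u w
    rw [RingHom.mapMatrix_apply, Matrix.map_apply]
    unfold MP MG
    split_ifs
    · simp
    · rw [map_sub, map_mul, map_one, MvPolynomial.eval_C, MvPolynomial.eval_X]
  have h2 : (MvPolynomial.eval (ind G)).mapMatrix (MP n ^ m) = MG G ^ m := by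
    rw [map_pow, h1]
  rw [← h2, RingHom.mapMatrix_apply, Matrix.map_apply]

lemma eval_TP (G : SimpleGraph (Fin n)) (m : ℕ) :
    MvPolynomial.eval (ind G) (TP n m) = fro (MG G ^ m) := by
  unfold TP fro
  rw [map_sum]
  refine Finset.sum_congr rfl fun u _ => ?_
  rw [map_sum]
  refine Finset.sum_congr rfl fun w _ => ?_
  rw [map_pow, eval_MP_pow]

lemma MG_gr (x : Sym2 (Fin n) → Bool) : MG (gr x) = Mx x := by
  ext u w
  unfold MG Mx
  by_cases h : u = w
  · rw [if_pos h, if_pos h]
  · rw [if_neg h, if_neg h, ind_gr x (by rw [Sym2.mk_isDiag_iff]; exact h)]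
    ring

lemma avg_TP (m : ℕ) :
    avg (fun G : SimpleGraph (Fin n) => MvPolynomial.eval (ind G) (TP n m) ^ 2) ≤
      (n : ℝ) ^ (2 * m + 2) * ((2 * m + 1 : ℕ) : ℝ) ^ (4 * m + 1) := by
  rw [← avg_gr (fun G : SimpleGraph (Fin n) => MvPolynomial.eval (ind G) (TP n m) ^ 2)]
  simp only [eval_TP, MG_gr]
  have h := avg_fro (V := Fin n) m
  rw [Fintype.card_fin] at h
  exact h

lemma MG_symm (G : SimpleGraph (Fin n)) : (MG G).transpose = MG G := by
  ext u w
  rw [Matrix.transpose_apply]
  unfold MG
  by_cases h : u = w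
  · rw [if_pos h.symm, if_pos h]
  · rw [if_neg (fun h' => h h'.symm), if_neg h, Sym2.eq_swap]

lemma TP_large {k s : ℕ} (h : k * s ≤ n) (hs : 0 < s) {G : SimpleGraph (Fin n)}
    (hG : G.Colorable k) (hk : 0 < k) (j : ℕ) :
    ((s : ℝ) - 1) ^ (2 ^ (j + 1)) ≤ MvPolynomial.eval (ind G) (TP n (2 ^ j)) := by
  classical
  obtain ⟨S, hcard, hS⟩ := exists_indep h hG hk
  rw [eval_TP]
  set v : Fin n → ℝ := fun u => if u ∈ S then 1 else 0 with hv
  have h1 := quad_pow v j (MG G) (MG_symm G)
  have hsR : (0 : ℝ) < s := by exact_mod_cast hs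
  have h2 : v ⬝ᵥ v = s := by
    unfold dotProduct
    have : ∀ u, v u * v u = if u ∈ S then 1 else 0 := by
      intro u
      simp only [hv]
      split_ifs <;> norm_num
    simp only [this]
    rw [Finset.sum_ite_mem, Finset.univ_inter, Finset.sum_const, hcard, nsmul_eq_mul, mul_one]
  have h3 : v ⬝ᵥ MG G *ᵥ v = -(s * (s - 1)) := by
    unfold dotProduct mulVec dotProduct
    have h4 : ∀ u, v u * ∑ w, MG G u w * v w = if u ∈ S then -((s : ℝ) - 1) else 0 := by
      intro u
      by_cases hu : u ∈ S
      · have hvu : v u = 1 := by simp only [hv]; rw [if_pos hu]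
        rw [hvu, one_mul, if_pos hu]
        have h5 : ∀ w, MG G u w * v w = if w ∈ S.erase u then -1 else 0 := by
          intro w
          by_cases hw : w ∈ S
          · have hvw : v w = 1 := by simp only [hv]; rw [if_pos hw]
            rw [hvw, mul_one]
            unfold MG
            by_cases huw : u = w
            · rw [if_pos huw, if_neg]
              rw [huw]
              exact Finset.notMem_erase w S
            · rw [if_neg huw, if_pos (mem_erase.2 ⟨fun h' => huw h'.symm, hw⟩)]
              have h6 : s(u, w) ∉ G.edgeSet := fun h7 => hS u hu w hw (by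
                rwa [SimpleGraph.mem_edgeSet] at h7)
              unfold ind
              rw [if_neg h6]
              ring
          · have hvw : v w = 0 := by simp only [hv]; rw [if_neg hw]
            rw [hvw, mul_zero, if_neg (fun h' => hw (mem_of_mem_erase h'))]
        simp only [h5]
        rw [Finset.sum_ite_mem, Finset.univ_inter, Finset.sum_const, Finset.card_erase_of_mem hu,
          hcard, nsmul_eq_mul]
        rw [Nat.cast_sub (by omega)]
        push_cast
        ring
      · have hvu : v u = 0 := by simp only [hv]; rw [if_neg hu]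
        rw [hvu, zero_mul, if_neg hu]
    simp only [h4]
    rw [Finset.sum_ite_mem, Finset.univ_inter, Finset.sum_const, hcard, nsmul_eq_mul]
    ring
  rw [h2, h3] at h1
  have heven : Even (2 ^ (j + 1)) := by
    rw [pow_succ]
    exact even_two.mul_left _
  rw [heven.neg_pow, mul_pow] at h1
  have h4 : (0 : ℝ) < (s : ℝ) ^ (2 ^ (j + 1)) := by positivity
  exact le_of_mul_le_mul_left h1 h4

end poly

end Pool.Agent.W988.LD
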