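import Pool.Agent.W988.LD.Poly

/-! Refutations by independent sets. -/

set_option autoImplicit false
set_option linter.unusedSectionVars false

namespace Pool.Agent.W988.LD

open Finset

section general

variable {n : ℕ}

/-- from a large value to a refutation -/
lemma refute {k : ℕ} (P : MvPolynomial (Sym2 (Fin n)) ℝ) {β : ℝ} (hβ : β ≤ 1 / 4)
    (hP1 : ∀ G : SimpleGraph (Fin n), G.Colorable k → 1 ≤ MvPolynomial.eval (ind G) P)
    (hP2 : avg (fun G : SimpleGraph (Fin n) => MvPolynomial.eval (ind G) P ^ 2) ≤ β) :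
    ∃ p : MvPolynomial (Sym2 (Fin n)) ℝ, p.totalDegree ≤ P.totalDegree ∧
      (∀ G : SimpleGraph (Fin n), G.Colorable k → 1 ≤ MvPolynomial.eval (ind G) p) ∧
      avg (fun G : SimpleGraph (Fin n) => MvPolynomial.eval (ind G) p) = 0 ∧
      avg (fun G : SimpleGraph (Fin n) => MvPolynomial.eval (ind G) p ^ 2) ≤ 4 * β := by
  set A := avg (fun G : SimpleGraph (Fin n) => MvPolynomial.eval (ind G) P) with hA
  set B := avg (fun G : SimpleGraph (Fin n) => MvPolynomial.eval (ind G) P ^ 2) with hB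
  have hvar : ∀ t : ℝ, avg (fun G : SimpleGraph (Fin n) =>
      (MvPolynomial.eval (ind G) P - t) ^ 2) = B - 2 * t * A + t ^ 2 := by
    intro t
    have h5 : ∀ G : SimpleGraph (Fin n), (MvPolynomial.eval (ind G) P - t) ^ 2 =
        (MvPolynomial.eval (ind G) P ^ 2 - 2 * t * MvPolynomial.eval (ind G) P) + t ^ 2 :=
      fun G => by ring
    simp only [h5]
    rw [avg_add, avg_sub, avg_mul_left, avg_const]
  have hAB : A ^ 2 ≤ B := by
    have h1 : 0 ≤ avg (fun G : SimpleGraph (Fin n) => (MvPolynomial.eval (ind G) P - A) ^ 2) :=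
      avg_nonneg fun _ => sq_nonneg _
    rw [hvar] at h1
    nlinarith
  have hA2 : A ≤ 1 / 2 := by nlinarith
  have hA0 : 0 < 1 - A := by linarith
  have hev : ∀ G : SimpleGraph (Fin n), MvPolynomial.eval (ind G)
      (MvPolynomial.C ((1 - A)⁻¹) * (P - MvPolynomial.C A)) =
        (1 - A)⁻¹ * (MvPolynomial.eval (ind G) P - A) := by
    intro G
    rw [map_mul, map_sub, MvPolynomial.eval_C, MvPolynomial.eval_C]
  refine ⟨MvPolynomial.C ((1 - A)⁻¹) * (P - MvPolynomial.C A), ?_, ?_, ?_, ?_⟩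
  · refine (MvPolynomial.totalDegree_mul _ _).trans ?_
    rw [MvPolynomial.totalDegree_C, zero_add]
    refine (MvPolynomial.totalDegree_sub _ _).trans ?_
    rw [MvPolynomial.totalDegree_C]
    simp
  · intro G hG
    rw [hev, inv_mul_eq_div, one_le_div hA0]
    linarith [hP1 G hG]
  · simp only [hev]
    rw [avg_mul_left, avg_sub, avg_const, ← hA, sub_self, mul_zero]
  · simp only [hev, mul_pow]
    rw [avg_mul_left, hvar]
    have h1 : ((1 - A)⁻¹) ^ 2 ≤ 4 := by
      have h2 : (1 - A)⁻¹ ≤ 2 := by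
        rw [inv_le_comm₀ hA0 (by norm_num)]
        linarith
      have h3 : 0 ≤ (1 - A)⁻¹ := by positivity
      nlinarith
    have h2 : 0 ≤ B - 2 * A * A + A ^ 2 := by nlinarith
    have h3 : B - 2 * A * A + A ^ 2 ≤ β := by nlinarith [sq_nonneg A]
    exact mul_le_mul h1 h3 h2 (by norm_num)

/-- a large colour class -/
lemma exists_indep {k s : ℕ} (h : k * s ≤ n) {G : SimpleGraph (Fin n)} (hG : G.Colorable k)
    (hk : 0 < k) : ∃ S : Finset (Fin n), S.card = s ∧ ∀ u ∈ S, ∀ v ∈ S, ¬ G.Adj u v := by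
  obtain ⟨C⟩ := hG
  have h1 := Finset.exists_le_card_fiber_of_mul_le_card_of_maps_to
    (s := (univ : Finset (Fin n))) (t := (univ : Finset (Fin k))) (f := C) (n := s)
    (fun _ _ => mem_univ _) ⟨⟨0, hk⟩, mem_univ _⟩ (by simpa using h)
  obtain ⟨c, -, hc⟩ := h1
  obtain ⟨S, hS, hcard⟩ := Finset.exists_subset_card_eq hc
  refine ⟨S, hcard, fun u hu v hv huv => ?_⟩
  have h2 := (mem_filter.1 (hS hu)).2
  have h3 := (mem_filter.1 (hS hv)).2
  exact C.valid huv (h2.trans h3.symm)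

/-- the pairs in `S` -/
def pr (S : Finset (Fin n)) : Finset (Sym2 (Fin n)) := S.sym2.filter fun e => ¬ e.IsDiag

lemma card_pr (S : Finset (Fin n)) : (pr S).card = S.card.choose 2 := by
  rw [← Sym2.card_image_offDiag]
  congr 1
  ext e
  induction e using Sym2.ind with
  | _ a b =>
    unfold pr
    rw [mem_filter, Finset.mk_mem_sym2_iff, Sym2.mk_isDiag_iff, mem_image]
    constructor
    · rintro ⟨⟨ha, hb⟩, hab⟩
      exact ⟨(a, b), by rw [mem_offDiag]; exact ⟨ha, hb, hab⟩, rfl⟩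
    · rintro ⟨⟨c, d⟩, hcd, heq⟩
      rw [mem_offDiag] at hcd
      have heq' : s(c, d) = s(a, b) := heq
      rw [Sym2.eq_iff] at heq'
      rcases heq' with ⟨rfl, rfl⟩ | ⟨rfl, rfl⟩
      · exact ⟨⟨hcd.1, hcd.2.1⟩, hcd.2.2⟩
      · exact ⟨⟨hcd.2.1, hcd.1⟩, fun h => hcd.2.2 h.symm⟩

/-- the number of independent sets of size `s` as a polynomial -/
noncomputable def NI (n s : ℕ) : MvPolynomial (Sym2 (Fin n)) ℝ :=
  ∑ S ∈ powersetCard s (univ : Finset (Fin n)), ∏ e ∈ pr S, (1 - MvPolynomial.X e)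

lemma deg_NI (s : ℕ) : (NI n s).totalDegree ≤ s.choose 2 := by
  unfold NI
  refine MvPolynomial.totalDegree_finsetSum_le fun S hS => ?_
  refine (MvPolynomial.totalDegree_finsetProd _ _).trans ?_
  rw [← (mem_powersetCard.1 hS).2, ← card_pr, Finset.card_eq_sum_ones]
  refine Finset.sum_le_sum fun e _ => ?_
  refine (MvPolynomial.totalDegree_sub _ _).trans ?_
  rw [MvPolynomial.totalDegree_one, MvPolynomial.totalDegree_X]
  simp

lemma ind_le (G : SimpleGraph (Fin n)) (e : Sym2 (Fin n)) : 0 ≤ 1 - ind G e ∧ 1 - ind G e ≤ 1 := by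
  classical
  unfold ind
  split_ifs <;> norm_num

lemma eval_NI (s : ℕ) (G : SimpleGraph (Fin n)) : MvPolynomial.eval (ind G) (NI n s) =
    ∑ S ∈ powersetCard s (univ : Finset (Fin n)), ∏ e ∈ pr S, (1 - ind G e) := by
  unfold NI
  rw [map_sum]
  refine Finset.sum_congr rfl fun S _ => ?_
  rw [map_prod]
  refine Finset.prod_congr rfl fun e _ => ?_
  rw [map_sub, map_one, MvPolynomial.eval_X]

lemma NI_large {k s : ℕ} (h : k * s ≤ n) {G : SimpleGraph (Fin n)} (hG : G.Colorable k)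
    (hk : 0 < k) : 1 ≤ MvPolynomial.eval (ind G) (NI n s) := by
  classical
  obtain ⟨S, hcard, hS⟩ := exists_indep h hG hk
  rw [eval_NI]
  refine le_trans ?_ (Finset.single_le_sum (f := fun S => ∏ e ∈ pr S, (1 - ind G e))
    (fun T _ => Finset.prod_nonneg fun e _ => (ind_le G e).1)
    (mem_powersetCard.2 ⟨subset_univ S, hcard⟩))
  refine le_of_eq (Eq.symm (Finset.prod_eq_one fun e he => ?_))
  induction e using Sym2.ind with
  | _ a b =>
    unfold pr at he
    rw [mem_filter, Finset.mk_mem_sym2_iff] at he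
    have h1 : s(a, b) ∉ G.edgeSet := fun h2 => hS a he.1.1 b he.1.2 (by
      rwa [SimpleGraph.mem_edgeSet] at h2)
    unfold ind
    rw [if_neg h1, sub_zero]

lemma NI_bounds (s : ℕ) (G : SimpleGraph (Fin n)) :
    0 ≤ MvPolynomial.eval (ind G) (NI n s) ∧
      MvPolynomial.eval (ind G) (NI n s) ≤ (n : ℝ) ^ s := by
  rw [eval_NI]
  constructor
  · exact Finset.sum_nonneg fun T _ => Finset.prod_nonneg fun e _ => (ind_le G e).1
  · calc ∑ S ∈ powersetCard s (univ : Finset (Fin n)), ∏ e ∈ pr S, (1 - ind G e) ≤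
          ∑ _S ∈ powersetCard s (univ : Finset (Fin n)), (1 : ℝ) :=
          Finset.sum_le_sum fun S _ => Finset.prod_le_one (fun e _ => (ind_le G e).1)
            fun e _ => (ind_le G e).2
      _ ≤ _ := by
          rw [Finset.sum_const, Finset.card_powersetCard, Finset.card_univ, Fintype.card_fin,
            nsmul_eq_mul, mul_one]
          exact_mod_cast Nat.choose_le_pow _ _

lemma avg_NI (s : ℕ) : avg (fun G : SimpleGraph (Fin n) => MvPolynomial.eval (ind G) (NI n s)) ≤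
    (n : ℝ) ^ s * (1 / 2) ^ (s.choose 2) := by
  classical
  rw [← avg_gr (fun G : SimpleGraph (Fin n) => MvPolynomial.eval (ind G) (NI n s))]
  simp only [eval_NI]
  rw [avg_sum]
  have h1 : ∀ S ∈ powersetCard s (univ : Finset (Fin n)),
      avg (fun x : Sym2 (Fin n) → Bool => ∏ e ∈ pr S, (1 - ind (gr x) e)) =
        (1 / 2) ^ (s.choose 2) := by
    intro S hS
    have h2 : ∀ x : Sym2 (Fin n) → Bool, ∏ e ∈ pr S, (1 - ind (gr x) e) =
        ∏ f, if f ∈ pr S then (1 - (1 + sg (x f)) / 2) else 1 := by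
      intro x
      rw [Finset.prod_ite_mem, Finset.univ_inter]
      refine Finset.prod_congr rfl fun e he => ?_
      rw [ind_gr x (mem_filter.1 he).2]
    simp only [h2]
    rw [avg_prod (fun f b => if f ∈ pr S then (1 - (1 + sg b) / 2) else 1)]
    have h3 : sg true = 1 := rfl
    have h4 : sg false = -1 := rfl
    have h5 : ∀ f : Sym2 (Fin n), ((if f ∈ pr S then (1 - (1 + sg true) / 2) else 1) +
        (if f ∈ pr S then (1 - (1 + sg false) / 2) else 1)) / 2 =
          if f ∈ pr S then (1 / 2 : ℝ) else 1 := by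
      intro f
      rw [h3, h4]
      split_ifs <;> norm_num
    rw [Finset.prod_congr rfl fun f _ => h5 f, Finset.prod_ite_mem, Finset.univ_inter,
      Finset.prod_const, card_pr, (mem_powersetCard.1 hS).2]
  rw [Finset.sum_congr rfl h1, Finset.sum_const, nsmul_eq_mul, Finset.card_powersetCard,
    Finset.card_univ, Fintype.card_fin]
  refine mul_le_mul_of_nonneg_right ?_ (by positivity)
  exact_mod_cast Nat.choose_le_pow _ _

lemma avg_NI_sq (s : ℕ) :
    avg (fun G : SimpleGraph (Fin n) => MvPolynomial.eval (ind G) (NI n s) ^ 2) ≤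
      (n : ℝ) ^ (2 * s) * (1 / 2) ^ (s.choose 2) := by
  calc avg (fun G : SimpleGraph (Fin n) => MvPolynomial.eval (ind G) (NI n s) ^ 2) ≤
        avg (fun G : SimpleGraph (Fin n) =>
          (n : ℝ) ^ s * MvPolynomial.eval (ind G) (NI n s)) := by
        refine avg_mono fun G => ?_
        obtain ⟨h1, h2⟩ := NI_bounds s G
        rw [sq]
        exact mul_le_mul_of_nonneg_right h2 h1
    _ ≤ (n : ℝ) ^ s * ((n : ℝ) ^ s * (1 / 2) ^ (s.choose 2)) := by
        rw [avg_mul_left]
        exact mul_le_mul_of_nonneg_left (avg_NI s) (by positivity)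
    _ = _ := by ring

end general

open Filter

/-- **Refutation in degree `O(log² n)`.** -/
theorem upper_indep : ∃ n₀ : ℕ, ∀ n ≥ n₀, ∀ k : ℕ, 0 < k → 7 * k * Real.log n ≤ n →
    ∃ p : MvPolynomial (Sym2 (Fin n)) ℝ, (p.totalDegree : ℝ) ≤ 20 * Real.log n ^ 2 ∧
      (∀ G : SimpleGraph (Fin n), G.Colorable k → 1 ≤ MvPolynomial.eval (ind G) p) ∧
      avg (fun G : SimpleGraph (Fin n) => MvPolynomial.eval (ind G) p) = 0 ∧
      avg (fun G : SimpleGraph (Fin n) => MvPolynomial.eval (ind G) p ^ 2) ≤ 1 / n := by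
  have hlim : Tendsto (fun n : ℕ => Real.log n) atTop atTop :=
    Real.tendsto_log_atTop.comp tendsto_natCast_atTop_atTop
  obtain ⟨n₀, hn₀⟩ := eventually_atTop.1 (hlim.eventually (eventually_ge_atTop (10 : ℝ)))
  refine ⟨n₀, fun n hn k hk hkn => ?_⟩
  have hL := hn₀ n hn
  set L : ℝ := Real.log n with hLdef
  have hn0 : n ≠ 0 := by
    rintro rfl
    rw [Nat.cast_zero, Real.log_zero] at hLdef
    linarith
  have hnpos : (0 : ℝ) < n := by
    have : 0 < n := Nat.pos_of_ne_zero hn0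
    exact_mod_cast this
  have hN : (n : ℝ) = Real.exp L := by rw [hLdef, Real.exp_log hnpos]
  set s : ℕ := ⌈6 * L⌉₊ + 1 with hs
  have hslo : 6 * L + 1 ≤ s := by
    rw [hs]
    push_cast
    linarith [Nat.le_ceil (6 * L)]
  have hshi : (s : ℝ) ≤ 6 * L + 2 := by
    rw [hs]
    push_cast
    linarith [Nat.ceil_lt_add_one (show 0 ≤ 6 * L by linarith)]
  have hkR : (1 : ℝ) ≤ k := by exact_mod_cast hk
  have hks : k * s ≤ n := by
    have h1 : (k : ℝ) * s ≤ n := by
      refine le_trans ?_ hkn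
      calc (k : ℝ) * s ≤ k * (7 * L) := by
            refine mul_le_mul_of_nonneg_left ?_ (by linarith)
            linarith
        _ = 7 * k * L := by ring
    exact_mod_cast h1
  have hch : ((s.choose 2 : ℕ) : ℝ) = s * (s - 1) / 2 := Nat.cast_choose_two ℝ s
  set β : ℝ := (n : ℝ) ^ (2 * s) * (1 / 2) ^ (s.choose 2) with hβ
  have hβ1 : 4 * β ≤ 1 / n := by
    have h1 : β = Real.exp (s * (2 * L - (s - 1) / 2 * Real.log 2)) := by
      have h2 : ((1 : ℝ) / 2) ^ (s.choose 2) = Real.exp (-(s.choose 2 : ℕ) * Real.log 2) := by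
        rw [neg_mul, Real.exp_neg, Real.exp_nat_mul, Real.exp_log (by norm_num)]
        rw [one_div, inv_pow]
      rw [hβ, h2, hN, ← Real.exp_nat_mul, ← Real.exp_add, hch]
      congr 1
      push_cast
      ring
    have hlog2 := Real.log_two_gt_d9
    have h2 : (s : ℝ) * (2 * L - (s - 1) / 2 * Real.log 2) ≤ -(2 * L) := by
      have h3 : 2 * L - (s - 1) / 2 * Real.log 2 ≤ -(0.07 * L) := by
        have h4 : 3 * L ≤ ((s : ℝ) - 1) / 2 := by linarith
        have h5 : 3 * L * 0.69 ≤ ((s : ℝ) - 1) / 2 * Real.log 2 :=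
          mul_le_mul h4 (by linarith) (by norm_num) (by linarith)
        linarith
      have h4 : (s : ℝ) * (2 * L - (s - 1) / 2 * Real.log 2) ≤ s * -(0.07 * L) :=
        mul_le_mul_of_nonneg_left h3 (Nat.cast_nonneg _)
      nlinarith
    calc 4 * β = 4 * Real.exp (s * (2 * L - (s - 1) / 2 * Real.log 2)) := by rw [h1]
      _ ≤ Real.exp L * Real.exp (-(2 * L)) := by
          refine mul_le_mul ?_ (Real.exp_le_exp.2 h2) (Real.exp_pos _).le (Real.exp_pos _).le
          have := Real.add_one_le_exp L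
          linarith
      _ = 1 / n := by
          rw [← Real.exp_add, hN, one_div, ← Real.exp_neg]
          congr 1
          ring
  have hn1 : (1 : ℝ) ≤ n := by
    have : 1 ≤ n := Nat.one_le_iff_ne_zero.2 hn0
    exact_mod_cast this
  have hβ4 : β ≤ 1 / 4 := by
    have h1 : (1 : ℝ) / n ≤ 1 := by
      rw [div_le_one hnpos]
      exact hn1
    linarith
  obtain ⟨p, hp1, hp2, hp3, hp4⟩ := refute (k := k) (NI n s) hβ4
    (fun G hG => NI_large hks hG hk) (avg_NI_sq s)
  refine ⟨p, ?_, hp2, hp3, hp4.trans hβ1⟩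
  have h1 : (p.totalDegree : ℝ) ≤ (s.choose 2 : ℕ) := by exact_mod_cast hp1.trans (deg_NI s)
  refine h1.trans ?_
  rw [hch]
  nlinarith

end Pool.Agent.W988.LD
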