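import Pool.Agent.W988.LD.Trace2

/-! The trace method: asymptotics. -/

set_option autoImplicit false
set_option linter.unusedSectionVars false

namespace Pool.Agent.W988.LD

open Finset Filter

/-- **Refutation in constant degree below the square root.** -/
theorem upper_trace (ε : ℝ) (hε : 0 < ε) : ∃ C n₀ : ℕ, ∀ n ≥ n₀, ∀ k : ℕ, 0 < k →
    (k : ℝ) ≤ (n : ℝ) ^ (1 / 2 - ε) →
    ∃ p : MvPolynomial (Sym2 (Fin n)) ℝ, p.totalDegree ≤ C ∧
      (∀ G : SimpleGraph (Fin n), G.Colorable k → 1 ≤ MvPolynomial.eval (ind G) p) ∧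
      avg (fun G : SimpleGraph (Fin n) => MvPolynomial.eval (ind G) p) = 0 ∧
      avg (fun G : SimpleGraph (Fin n) => MvPolynomial.eval (ind G) p ^ 2) ≤ 1 / n := by
  obtain ⟨j, hj⟩ : ∃ j : ℕ, 1 / ε ≤ (2 : ℝ) ^ j := by
    obtain ⟨j, hj⟩ := pow_unbounded_of_one_lt (1 / ε) (by norm_num : (1 : ℝ) < 2)
    exact ⟨j, hj.le⟩
  set m : ℕ := 2 ^ j with hm
  have hm1 : 1 ≤ m := Nat.one_le_two_pow
  have hmε : 1 ≤ (m : ℝ) * ε := by
    rw [hm]
    push_cast
    rw [div_le_iff₀ hε] at hj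
    exact hj
  -- the constant
  set c₀ : ℝ := ((2 * m + 1 : ℕ) : ℝ) ^ (4 * m + 1) * 2 ^ (4 * m) with hc₀
  have hc₀pos : 0 < c₀ := by rw [hc₀]; positivity
  have hlim1 : Tendsto (fun n : ℕ => (n : ℝ)) atTop atTop := tendsto_natCast_atTop_atTop
  have hev1 : ∀ᶠ n : ℕ in atTop, 4 * c₀ ≤ (n : ℝ) := hlim1.eventually (eventually_ge_atTop _)
  have hev2 : ∀ᶠ n : ℕ in atTop, 4 ≤ (n : ℝ) ^ (1 / 2 + ε) :=
    ((tendsto_rpow_atTop (by linarith : 0 < 1 / 2 + ε)).comp hlim1).eventually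
      (eventually_ge_atTop _)
  obtain ⟨n₀, hn₀⟩ := eventually_atTop.1 ((hev1.and hev2).and (eventually_ge_atTop 4))
  refine ⟨2 * m, n₀, fun n hn k hk hkn => ?_⟩
  obtain ⟨⟨h1, h2⟩, h3⟩ := hn₀ n hn
  have hnpos : (0 : ℝ) < n := by
    have : 0 < n := by omega
    exact_mod_cast this
  have hn1 : (1 : ℝ) ≤ n := by
    have : 1 ≤ n := by omega
    exact_mod_cast this
  have hkpos : (0 : ℝ) < k := by exact_mod_cast hk
  set z : ℝ := (n : ℝ) ^ (1 / 2 + ε) with hz
  have hz0 : 0 < z := Real.rpow_pos_of_pos hnpos _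
  have hkz : (k : ℝ) * z ≤ n := by
    calc (k : ℝ) * z ≤ (n : ℝ) ^ (1 / 2 - ε) * z := mul_le_mul_of_nonneg_right hkn hz0.le
      _ = n := by
          rw [hz, ← Real.rpow_add hnpos]
          have : 1 / 2 - ε + (1 / 2 + ε) = 1 := by ring
          rw [this, Real.rpow_one]
  set s : ℕ := n / k with hs
  have hks : k * s ≤ n := Nat.mul_div_le n k
  have hsz : z - 1 ≤ s := by
    have h4 : (n : ℝ) < k * (s + 1) := by
      have := Nat.lt_mul_div_succ n hk
      exact_mod_cast this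
    have h5 : (k : ℝ) * z < k * (s + 1) := lt_of_le_of_lt hkz h4
    have h6 := lt_of_mul_lt_mul_left h5 hkpos.le
    linarith
  have hsz2 : z / 2 ≤ (s : ℝ) - 1 := by linarith
  have hs0 : 0 < s := by
    have : (0 : ℝ) < s := by linarith
    exact_mod_cast this
  have hs1pos : 0 < (s : ℝ) - 1 := by linarith
  set b : ℝ := ((s : ℝ) - 1) ^ (2 * m) with hb
  have hbpos : 0 < b := by rw [hb]; positivity
  set β : ℝ := (b⁻¹) ^ 2 * ((n : ℝ) ^ (2 * m + 2) * ((2 * m + 1 : ℕ) : ℝ) ^ (4 * m + 1)) with hβ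
  have hβ1 : 4 * β ≤ 1 / n := by
    have h4 : (z / 2) ^ (4 * m) ≤ b ^ 2 := by
      rw [hb, ← pow_mul]
      have : 2 * m * 2 = 4 * m := by ring
      rw [this]
      exact pow_le_pow_left₀ (by positivity) hsz2 _
    have h5 : (n : ℝ) ^ (2 * m + 4) ≤ z ^ (4 * m) := by
      rw [hz, ← Real.rpow_natCast, ← Real.rpow_natCast, ← Real.rpow_mul hnpos.le]
      apply Real.rpow_le_rpow_of_exponent_le hn1
      push_cast
      nlinarith
    have h6 : (n : ℝ) ^ (2 * m + 4) ≤ b ^ 2 * 2 ^ (4 * m) := by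
      refine h5.trans ?_
      rw [div_pow, div_le_iff₀ (by positivity)] at h4
      exact h4
    have h7 : β * b ^ 2 = (n : ℝ) ^ (2 * m + 2) * ((2 * m + 1 : ℕ) : ℝ) ^ (4 * m + 1) := by
      rw [hβ]
      field_simp
    rw [le_div_iff₀ hnpos]
    have h8 : 4 * β * n * b ^ 2 ≤ 1 * b ^ 2 := by
      calc 4 * β * n * b ^ 2 = 4 * n * (β * b ^ 2) := by ring
        _ = 4 * n * ((n : ℝ) ^ (2 * m + 2) * ((2 * m + 1 : ℕ) : ℝ) ^ (4 * m + 1)) := by rw [h7]
        _ = (n : ℝ) ^ (2 * m + 3) * (4 * c₀) / 2 ^ (4 * m) := by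
            rw [hc₀]
            field_simp
            ring
        _ ≤ (n : ℝ) ^ (2 * m + 3) * n / 2 ^ (4 * m) := by
            refine div_le_div_of_nonneg_right ?_ (by positivity)
            exact mul_le_mul_of_nonneg_left h1 (by positivity)
        _ = (n : ℝ) ^ (2 * m + 4) / 2 ^ (4 * m) := by ring
        _ ≤ b ^ 2 := by
            rw [div_le_iff₀ (by positivity)]
            exact h6
        _ = 1 * b ^ 2 := by ring
    exact le_of_mul_le_mul_right h8 (by positivity)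
  have hβ4 : β ≤ 1 / 4 := by
    have h4 : (1 : ℝ) / n ≤ 1 := by
      rw [div_le_one hnpos]
      exact hn1
    linarith
  have hev : ∀ G : SimpleGraph (Fin n), MvPolynomial.eval (ind G)
      (MvPolynomial.C b⁻¹ * TP n m) = b⁻¹ * MvPolynomial.eval (ind G) (TP n m) := by
    intro G
    rw [map_mul, MvPolynomial.eval_C]
  obtain ⟨p, hp1, hp2, hp3, hp4⟩ := refute (k := k) (MvPolynomial.C b⁻¹ * TP n m) hβ4
    (fun G hG => by
      have h4 := TP_large hks hs0 hG hk j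
      rw [hev, inv_mul_eq_div, one_le_div hbpos, hb]
      have h5 : 2 ^ (j + 1) = 2 * m := by rw [hm]; ring
      rw [h5] at h4
      exact h4)
    (by
      simp only [hev, mul_pow]
      rw [avg_mul_left]
      exact mul_le_mul_of_nonneg_left (avg_TP m) (by positivity))
  refine ⟨p, hp1.trans ?_, hp2, hp3, hp4.trans hβ1⟩
  refine (MvPolynomial.totalDegree_mul _ _).trans ?_
  rw [MvPolynomial.totalDegree_C, zero_add]
  exact deg_TP m

end Pool.Agent.W988.LD
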