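import Pool.Agent.W988.LD.Bound2

/-! Weighted counting. -/

set_option autoImplicit false
set_option linter.unusedSectionVars false

namespace Pool.Agent.W988.LD

open Finset Submodule

/-- **The weighted counting lemma.** -/
theorem wcount {ι β V : Type} [Fintype ι] [DecidableEq ι] [DecidableEq β] [Fintype V]
    [DecidableEq V] (O : ι → Finset β) (J : ι → β → Finset V) (w : ι → β → ℝ)
    (hw : ∀ i o, 0 ≤ w i o) (κ : ℝ) (hκ : 0 ≤ κ)
    (hn : Fintype.card V * κ ≤ 1) (s : ℕ)
    (hs : ∀ x ∈ Fintype.piFinset O, (univ.biUnion fun i => J i (x i)).card ≤ s)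
    (Kb : ι → ℝ)
    (hK : ∀ i, ∀ M : Finset V, M.card ≤ s →
      ∑ o ∈ (O i).filter (fun o => J i o ⊆ M), w i o ≤ Kb i) :
    ∑ x ∈ Fintype.piFinset O, (∏ i, w i (x i)) * κ ^ (univ.biUnion fun i => J i (x i)).card ≤
      (s + 1) * ∏ i, Kb i := by
  have hKb : ∀ i, 0 ≤ Kb i := fun i =>
    (Finset.sum_nonneg fun o _ => hw i o).trans (hK i ∅ (by simp))
  have hmaps : ∀ x ∈ Fintype.piFinset O, (univ.biUnion fun i => J i (x i)) ∈
      (univ : Finset (Finset V)).filter (fun M => M.card ≤ s) := fun x hx =>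
    mem_filter.2 ⟨mem_univ _, hs x hx⟩
  rw [← Finset.sum_fiberwise_of_maps_to hmaps]
  have h1 : ∀ M ∈ (univ : Finset (Finset V)).filter (fun M => M.card ≤ s),
      ∑ x ∈ (Fintype.piFinset O).filter (fun x => (univ.biUnion fun i => J i (x i)) = M),
        (∏ i, w i (x i)) * κ ^ (univ.biUnion fun i => J i (x i)).card ≤
          κ ^ M.card * ∏ i, Kb i := by
    intro M hM
    have hMs := (mem_filter.1 hM).2
    have h2 : ∀ x ∈ (Fintype.piFinset O).filter (fun x => (univ.biUnion fun i => J i (x i)) = M),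
        (∏ i, w i (x i)) * κ ^ (univ.biUnion fun i => J i (x i)).card =
          κ ^ M.card * ∏ i, w i (x i) := fun x hx => by
      rw [(mem_filter.1 hx).2, mul_comm]
    rw [Finset.sum_congr rfl h2, ← Finset.mul_sum]
    refine mul_le_mul_of_nonneg_left ?_ (pow_nonneg hκ _)
    have h3 : (Fintype.piFinset O).filter (fun x => (univ.biUnion fun i => J i (x i)) = M) ⊆
        Fintype.piFinset fun i => (O i).filter fun o => J i o ⊆ M := by
      intro x hx
      rw [mem_filter, Fintype.mem_piFinset] at hx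
      rw [Fintype.mem_piFinset]
      intro i
      rw [mem_filter]
      refine ⟨hx.1 i, ?_⟩
      rw [← hx.2]
      exact Finset.subset_biUnion_of_mem (fun i => J i (x i)) (mem_univ i)
    refine (Finset.sum_le_sum_of_subset_of_nonneg h3 fun x _ _ =>
      Finset.prod_nonneg fun i _ => hw i _).trans ?_
    rw [← Finset.prod_univ_sum (fun i => (O i).filter fun o => J i o ⊆ M) (fun i o => w i o)]
    exact Finset.prod_le_prod (fun i _ => Finset.sum_nonneg fun o _ => hw i o)
      fun i _ => hK i M hMs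
  refine (Finset.sum_le_sum h1).trans ?_
  rw [← Finset.sum_mul]
  exact mul_le_mul_of_nonneg_right (sum_small' κ hκ hn s) (Finset.prod_nonneg fun i _ => hKb i)

variable {V : Type} [Fintype V] [DecidableEq V]

/-- the pairs inside a set of vertices -/
def lo (M : Finset V) : Finset (Sym2 V) := M.offDiag.image (Function.uncurry Sym2.mk)

lemma card_lo (M : Finset V) : (lo M).card = M.card.choose 2 := Sym2.card_image_offDiag M

lemma sub_lo {T : Finset (Sym2 V)} {M : Finset V} (hT : ∀ f ∈ T, ¬ f.IsDiag) (h : vs T ⊆ M) :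
    T ⊆ lo M := by
  intro f hf
  have h1 := hT f hf
  induction f using Sym2.ind with
  | _ a b =>
    rw [Sym2.mk_isDiag_iff] at h1
    unfold lo
    rw [mem_image]
    exact ⟨(a, b), mem_offDiag.2 ⟨h (mem_vs.2 ⟨_, hf, Sym2.mem_mk_left a b⟩),
      h (mem_vs.2 ⟨_, hf, Sym2.mem_mk_right a b⟩), h1⟩, rfl⟩

lemma two_le_vs {v₀ : ℕ} {T : Finset (Sym2 V)} (hT : T ∈ shapes V v₀) : 2 ≤ (vs T).card := by
  rw [mem_shapes] at hT
  obtain ⟨f, hf⟩ := hT.1.1
  have h1 := hT.2.1 f hf
  induction f using Sym2.ind with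
  | _ a b =>
    rw [Sym2.mk_isDiag_iff] at h1
    rw [← Finset.card_pair h1]
    refine Finset.card_le_card ?_
    intro v hv
    rw [mem_insert, mem_singleton] at hv
    rcases hv with rfl | rfl
    · exact mem_vs.2 ⟨_, hf, Sym2.mem_mk_left _ _⟩
    · exact mem_vs.2 ⟨_, hf, Sym2.mem_mk_right _ _⟩

lemma two_choose (m : ℕ) : 2 * m.choose 2 = m * (m - 1) := by
  rw [Nat.choose_two_right]
  exact Nat.mul_div_cancel' (Nat.even_mul_pred_self m).two_dvd

lemma half_sum (N : ℕ) : ∑ m ∈ range (N + 2), (if 2 ≤ m then (1 / 2 : ℝ) ^ (m - 1) else 0) =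
    1 - (1 / 2) ^ N := by
  induction N with
  | zero => simp [Finset.sum_range_succ]
  | succ N ih =>
    rw [Finset.sum_range_succ, ih, if_pos (by omega)]
    have : N + 2 - 1 = N + 1 := by omega
    rw [this, pow_succ]
    ring

lemma half_sum_le (N : ℕ) :
    ∑ m ∈ range N, (if 2 ≤ m then (1 / 2 : ℝ) ^ (m - 1) else 0) ≤ 1 := by
  refine (Finset.sum_le_sum_of_subset_of_nonneg (Finset.range_subset_range.2
    (Nat.le_add_right N 2)) fun _ _ _ => ?_).trans ?_
  · split_ifs <;> positivity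
  · rw [half_sum]
    have : (0 : ℝ) ≤ (1 / 2) ^ N := by positivity
    linarith

open Classical in
lemma shape_sum (v₀ : ℕ) (M : Finset V) {z : ℝ} (hz : 0 ≤ z)
    (h : 2 * ((M.card : ℝ) ^ 2 * (2 ^ v₀ * z)) ≤ 1) :
    ∑ T ∈ (shapes V v₀).filter (fun T => vs T ⊆ M), z ^ ((vs T).card - 1) ≤ 1 := by
  have hmaps : ∀ T ∈ (shapes V v₀).filter (fun T => vs T ⊆ M), vs T ∈ M.powerset :=
    fun T hT => mem_powerset.2 (mem_filter.1 hT).2
  rw [← Finset.sum_fiberwise_of_maps_to hmaps]
  have h1 : ∀ B ∈ M.powerset,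
      ∑ T ∈ ((shapes V v₀).filter (fun T => vs T ⊆ M)).filter (fun T => vs T = B),
        z ^ ((vs T).card - 1) ≤ (fun j : ℕ => if 2 ≤ j then (2 ^ v₀ * z) ^ (j - 1) else 0)
          B.card := by
    intro B _
    have h2 : ∀ T ∈ ((shapes V v₀).filter (fun T => vs T ⊆ M)).filter (fun T => vs T = B),
        z ^ ((vs T).card - 1) = z ^ (B.card - 1) := fun T hT => by
      rw [(mem_filter.1 hT).2]
    rw [Finset.sum_congr rfl h2, Finset.sum_const, nsmul_eq_mul]
    simp only
    rcases (((shapes V v₀).filter (fun T => vs T ⊆ M)).filter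
      (fun T => vs T = B)).eq_empty_or_nonempty with hem | ⟨T₀, hT₀⟩
    · rw [hem, Finset.card_empty, Nat.cast_zero, zero_mul]
      split_ifs <;> positivity
    · rw [mem_filter, mem_filter] at hT₀
      have h3 := two_le_vs hT₀.1.1
      have h4 := (mem_shapes.1 hT₀.1.1).2.2
      rw [hT₀.2] at h3 h4
      rw [if_pos h3, mul_pow]
      refine mul_le_mul_of_nonneg_right ?_ (pow_nonneg hz _)
      have h5 : ((shapes V v₀).filter (fun T => vs T ⊆ M)).filter (fun T => vs T = B) ⊆
          (lo B).powerset := by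
        intro T hT
        rw [mem_filter, mem_filter] at hT
        exact mem_powerset.2 (sub_lo (mem_shapes.1 hT.1.1).2.1 hT.2.le)
      have h6 := Finset.card_le_card h5
      rw [Finset.card_powerset, card_lo] at h6
      have h7 : 2 ^ B.card.choose 2 ≤ (2 ^ v₀) ^ (B.card - 1) := by
        rw [← pow_mul]
        apply Nat.pow_le_pow_right (by norm_num)
        have h8 := two_choose B.card
        have h9 : B.card * (B.card - 1) ≤ v₀ * (B.card - 1) := Nat.mul_le_mul_right _ h4
        omega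
      exact_mod_cast h6.trans h7
  refine (Finset.sum_le_sum h1).trans ?_
  have hpc := Finset.sum_powerset_apply_card
    (fun j : ℕ => if 2 ≤ j then (2 ^ v₀ * z) ^ (j - 1) else 0) (x := M)
  refine hpc.le.trans ?_
  refine le_trans (Finset.sum_le_sum fun m hm => ?_) (half_sum_le (M.card + 1))
  rw [nsmul_eq_mul]
  split_ifs with hm2
  · rw [mem_range] at hm
    have hM1 : 1 ≤ M.card := by omega
    have h2 : (M.card.choose m : ℝ) ≤ ((M.card : ℝ) ^ 2) ^ (m - 1) := by
      have h3 : M.card.choose m ≤ (M.card ^ 2) ^ (m - 1) := by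
        refine (Nat.choose_le_pow _ _).trans ?_
        rw [← pow_mul]
        exact Nat.pow_le_pow_right hM1 (by omega)
      exact_mod_cast h3
    calc (M.card.choose m : ℝ) * (2 ^ v₀ * z) ^ (m - 1) ≤
          ((M.card : ℝ) ^ 2) ^ (m - 1) * (2 ^ v₀ * z) ^ (m - 1) :=
          mul_le_mul_of_nonneg_right h2 (by positivity)
      _ = ((M.card : ℝ) ^ 2 * (2 ^ v₀ * z)) ^ (m - 1) := (mul_pow _ _ _).symm
      _ ≤ (1 / 2) ^ (m - 1) := by
          refine pow_le_pow_left₀ (by positivity) ?_ _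
          linarith
  · rw [mul_zero]

end Pool.Agent.W988.LD
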